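import Pool.Agent.Helper39.Net.Shared

/-! # NET-ASM: existence of chains with all cone data -/

namespace Pool.Agent.Helper39.Net

/-- the statement of `exists_chain` -/
def AsChain : Prop := ∀ (L : ℕ) (_ : 1 ≤ L) (q s : ℕ → E) (ρ : ℝ) (_ : 0 ≤ ρ)
    (_ : ρ ≤ 1 / 10 ^ 9)
    (_ : ∀ j, 1 ≤ j → j ≤ L → RQ (q j)) (_ : ∀ j, 1 ≤ j → j ≤ L + 1 → RS (s j))
    (_ : ∑ j ∈ Finset.Icc 1 L, ‖resQ q s j‖ ^ 2 +
      ∑ j ∈ Finset.Icc 1 (L + 1), ‖resS L q s j‖ ^ 2 ≤ ρ ^ 2),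
    ∃ Q S : ℕ → E, IsChain L Q S ∧ (∀ j, 1 ≤ j → j ≤ L → ‖Q j - q j‖ ≤ 10 ^ 4 * ρ) ∧
      (∀ j, 1 ≤ j → j ≤ L + 1 → ‖S j - s j‖ ≤ 10 ^ 4 * ρ)

/-- the statement of `exists_periodic` -/
def AsPer : Prop := ∃ Qs Ss : E, IsPer Qs Ss

/-- the statement of `ref_residual` -/
def AsRes : Prop := ∀ (Qs Ss : E) (_ : IsPer Qs Ss) (L : ℕ) (_ : 100 ≤ L),
    ∑ j ∈ Finset.Icc 1 L, ‖resQ (refQ L Qs) (refS L Ss) j‖ ^ 2 +
      ∑ j ∈ Finset.Icc 1 (L + 1), ‖resS L (refQ L Qs) (refS L Ss) j‖ ^ 2 ≤ (1 / 10 ^ 15) ^ 2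

/-- the statement of `ref_facts` -/
def AsFacts : Prop := ∀ (Qs Ss : E) (_ : ‖Qs - qh‖ ≤ 1 / 10 ^ 18) (_ : ‖Ss - sh‖ ≤ 1 / 10 ^ 18)
    (k : ℕ) (_ : 30 ≤ k), RefFacts (4 * k + 1) (refQ (4 * k + 1) Qs) (refS (4 * k + 1) Ss)

/-- the conclusion of `one_step` -/
def AsStepRel (d0 d1 d2 e1 : E) (n : ℝ) : Prop :=
    |cS d1 - (333521 / 10 ^ 6 * (cS d0 + cS d2) + 246071 / 10 ^ 6 * (cW d0 + cW d2) +
        1259585 / 10 ^ 6 * (cY d2 - cY d0))| ≤ 1 / 10 ^ 4 * n ∧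
    |cW d1 - (-(3012 / 10 ^ 6) * (cS d0 + cS d2) + 147685 / 10 ^ 6 * (cW d0 + cW d2) +
        835709 / 10 ^ 6 * (cY d0 - cY d2))| ≤ 1 / 10 ^ 4 * n ∧
    |cY d1 - (2671 / 10 ^ 6 * (cS d0 - cS d2) - 38728 / 10 ^ 6 * (cW d0 - cW d2) -
        233894 / 10 ^ 6 * (cY d0 + cY d2))| ≤ 1 / 10 ^ 4 * n ∧
    |e1 2 - (89534 / 10 ^ 6 * (cS d1 + cS d0) + 98232 / 10 ^ 6 * (cW d1 + cW d0) +
        161213 / 10 ^ 6 * (cY d1 - cY d0))| ≤ 1 / 10 ^ 4 * n ∧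
    |e1 0 - e1 1 - (133387 / 10 ^ 6 * (cS d0 - cS d1) + 60387 / 10 ^ 6 * (cW d0 - cW d1) -
        712852 / 10 ^ 6 * (cY d0 + cY d1))| ≤ 1 / 10 ^ 4 * n ∧
    |e1 0 + e1 1 - (50227 / 10 ^ 6 * (cS d0 + cS d1) - 52547 / 10 ^ 6 * (cW d0 + cW d1) +
        682422 / 10 ^ 6 * (cY d1 - cY d0))| ≤ 1 / 10 ^ 4 * n

/-- the statement of `one_step` -/
def AsStep : Prop := ∀ (Q0 Q1 Q2 S1 S2 R0 R1 R2 T1 T2 : E)
    (_ : NQ Q0) (_ : NQ Q1) (_ : NQ Q2) (_ : NS S1) (_ : NS S2)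
    (_ : NQ R0) (_ : NQ R1) (_ : NQ R2) (_ : NS T1) (_ : NS T2)
    (_ : un (S1 - Q1) + un (g S2 - Q1) + un (B0 - Q1) + un (B1 - Q1) = 0)
    (_ : un (Q1 - S1) + un (g.symm Q0 - S1) + un (B0 - S1) = 0)
    (_ : un (Q2 - S2) + un (g.symm Q1 - S2) + un (B0 - S2) = 0)
    (_ : un (T1 - R1) + un (g T2 - R1) + un (B0 - R1) + un (B1 - R1) = 0)
    (_ : un (R1 - T1) + un (g.symm R0 - T1) + un (B0 - T1) = 0)
    (_ : un (R2 - T2) + un (g.symm R1 - T2) + un (B0 - T2) = 0)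
    (d0 d1 d2 e1 : E) (_ : d0 = R0 - Q0) (_ : d1 = Q1 - R1) (_ : d2 = R2 - Q2)
    (_ : e1 = S1 - T1) (n : ℝ) (_ : n = cN d0 + cN d1 + cN d2),
    AsStepRel d0 d1 d2 e1 n

/-- the statement of `cone_max` -/
def AsMax : Prop := ∀ (a b : ℕ) (_ : a + 3 ≤ b) (S W Y : ℕ → ℝ)
    (_ : ∀ j, a < j → j < b →
      |S j - (333521 / 10 ^ 6 * (S (j - 1) + S (j + 1)) + 246071 / 10 ^ 6 * (W (j - 1) + W (j + 1))
        + 1259585 / 10 ^ 6 * (Y (j + 1) - Y (j - 1)))| ≤ 1 / 10 ^ 4 *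
        (|S (j - 1)| + |W (j - 1)| + |Y (j - 1)| + (|S j| + |W j| + |Y j|) +
          (|S (j + 1)| + |W (j + 1)| + |Y (j + 1)|)))
    (_ : ∀ j, a < j → j < b →
      |W j - (-(3012 / 10 ^ 6) * (S (j - 1) + S (j + 1)) +
        147685 / 10 ^ 6 * (W (j - 1) + W (j + 1)) + 835709 / 10 ^ 6 * (Y (j - 1) - Y (j + 1)))| ≤
        1 / 10 ^ 4 *
        (|S (j - 1)| + |W (j - 1)| + |Y (j - 1)| + (|S j| + |W j| + |Y j|) +
          (|S (j + 1)| + |W (j + 1)| + |Y (j + 1)|)))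
    (_ : ∀ j, a < j → j < b →
      |Y j - (2671 / 10 ^ 6 * (S (j - 1) - S (j + 1)) - 38728 / 10 ^ 6 * (W (j - 1) - W (j + 1)) -
        233894 / 10 ^ 6 * (Y (j - 1) + Y (j + 1)))| ≤ 1 / 10 ^ 4 *
        (|S (j - 1)| + |W (j - 1)| + |Y (j - 1)| + (|S j| + |W j| + |Y j|) +
          (|S (j + 1)| + |W (j + 1)| + |Y (j + 1)|)))
    (_ : ∀ j, j = a ∨ j = a + 1 ∨ j + 1 = b ∨ j = b →
      0 < S j ∧ |W j| ≤ 1 / 50 * S j ∧ |Y j| ≤ 1 / 100 * S j),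
    (∀ j, a ≤ j → j ≤ b → 0 < S j ∧ |W j| ≤ 1 / 50 * S j ∧ |Y j| ≤ 1 / 100 * S j) ∧
    (∀ j, a < j → j < b → S (j - 1) ≤ 16 / 5 * S j ∧ S (j + 1) ≤ 16 / 5 * S j)

theorem as_K_of (d : E) (h : 0 < cS d ∧ |cW d| ≤ 1 / 50 * cS d ∧ |cY d| ≤ 1 / 100 * cS d) :
    K d := by
  obtain ⟨h0, h1, h2⟩ := h
  rw [abs_le] at h1 h2
  simp only [cS, cW, cY] at h0 h1 h2
  constructor
  · exact h0
  · linarith [h1.2]
  · linarith [h1.1]
  · linarith [h2.2]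
  · linarith [h2.1]

theorem as_of_KM (d : E) (h : KM d) :
    0 < cS d ∧ |cW d| ≤ 1 / 50 * cS d ∧ |cY d| ≤ 1 / 100 * cS d := by
  obtain ⟨h0, h1, h2, h3, h4⟩ := h
  simp only [cS, cW, cY, abs_le]
  refine ⟨h0, ⟨?_, h1⟩, ?_, h3⟩
  · linarith
  · linarith

theorem as_KS_of (d0 d1 d2 e1 : E) (n : ℝ) (hn : n = cN d0 + cN d1 + cN d2)
    (h : AsStepRel d0 d1 d2 e1 n)
    (h0 : 0 < cS d0 ∧ |cW d0| ≤ 1 / 50 * cS d0 ∧ |cY d0| ≤ 1 / 100 * cS d0)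
    (h1 : 0 < cS d1 ∧ |cW d1| ≤ 1 / 50 * cS d1 ∧ |cY d1| ≤ 1 / 100 * cS d1)
    (h2 : 0 < cS d2 ∧ |cW d2| ≤ 1 / 50 * cS d2 ∧ |cY d2| ≤ 1 / 100 * cS d2)
    (r01 : cS d0 ≤ 16 / 5 * cS d1) (r10 : cS d1 ≤ 16 / 5 * cS d0)
    (r21 : cS d2 ≤ 16 / 5 * cS d1) : KS e1 := by
  obtain ⟨-, -, -, hz, hm, hp⟩ := h
  have hn' : n ≤ 103 / 100 * (cS d0 + cS d1 + cS d2) := by
    rw [hn]
    simp only [cN]
    rw [abs_of_pos h0.1, abs_of_pos h1.1, abs_of_pos h2.1]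
    linarith [h0.2.1, h0.2.2, h1.2.1, h1.2.2, h2.2.1, h2.2.2]
  obtain ⟨s0, w0, y0⟩ := h0
  obtain ⟨s1, w1, y1⟩ := h1
  obtain ⟨s2, -, -⟩ := h2
  obtain ⟨hz1, hz2⟩ := abs_le.1 hz
  obtain ⟨hm1, hm2⟩ := abs_le.1 hm
  obtain ⟨hp1, hp2⟩ := abs_le.1 hp
  obtain ⟨w01, w02⟩ := abs_le.1 w0
  obtain ⟨w11, w12⟩ := abs_le.1 w1
  obtain ⟨y01, y02⟩ := abs_le.1 y0
  obtain ⟨y11, y12⟩ := abs_le.1 y1
  clear hz hm hp w0 w1 y0 y1 hn
  constructor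
  · linarith
  · linarith
  · linarith
  · linarith
  · linarith
  · linarith
  · linarith

theorem as_step_even (hstep : AsStep) (L : ℕ) (Q S : ℕ → E) (hC : IsChain L Q S) (i : ℕ)
    (hi : 18 ≤ i) (hiL : i + 23 ≤ L)
    (nq : ∀ j, 18 ≤ j → j + 17 ≤ L → NQ (Q j)) (ns : ∀ j, 18 ≤ j → j + 16 ≤ L → NS (S j))
    (d0 d1 d2 e1 : E) (h0 : d0 = Q (i + 4) - Q i) (h1 : d1 = Q (i + 1) - Q (i + 1 + 4))
    (h2 : d2 = Q (i + 2 + 4) - Q (i + 2)) (h3 : e1 = S (i + 1) - S (i + 1 + 4)) (n : ℝ)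
    (hn : n = cN d0 + cN d1 + cN d2) : AsStepRel d0 d1 d2 e1 n := by
  have bQ : ∀ j, 1 ≤ j → j ≤ L →
      un (S j - Q j) + un (g (S (j + 1)) - Q j) + un (B0 - Q j) + un (B1 - Q j) = 0 :=
    fun j h1 h2 => hC.balQ j h1 h2
  have bS : ∀ j, 1 ≤ j → j + 1 ≤ L →
      un (Q (j + 1) - S (j + 1)) + un (g.symm (Q j) - S (j + 1)) + un (B0 - S (j + 1)) = 0 := by
    intro j h1 h2
    have := hC.balS (j + 1) (by omega) (by omega)
    rw [resS, if_pos h2, if_pos (by omega), Nat.add_sub_cancel] at this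
    exact this
  exact hstep (Q i) (Q (i + 1)) (Q (i + 2)) (S (i + 1)) (S (i + 2))
    (Q (i + 4)) (Q (i + 1 + 4)) (Q (i + 2 + 4)) (S (i + 1 + 4)) (S (i + 2 + 4))
    (nq _ (by omega) (by omega)) (nq _ (by omega) (by omega)) (nq _ (by omega) (by omega))
    (ns _ (by omega) (by omega)) (ns _ (by omega) (by omega))
    (nq _ (by omega) (by omega)) (nq _ (by omega) (by omega)) (nq _ (by omega) (by omega))
    (ns _ (by omega) (by omega)) (ns _ (by omega) (by omega))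
    (bQ _ (by omega) (by omega)) (bS _ (by omega) (by omega)) (bS _ (by omega) (by omega))
    (bQ _ (by omega) (by omega)) (bS _ (by omega) (by omega)) (bS _ (by omega) (by omega))
    d0 d1 d2 e1 h0 h1 h2 h3 n hn

theorem as_step_odd (hstep : AsStep) (L : ℕ) (Q S : ℕ → E) (hC : IsChain L Q S) (i : ℕ)
    (hi : 18 ≤ i) (hiL : i + 23 ≤ L)
    (nq : ∀ j, 18 ≤ j → j + 17 ≤ L → NQ (Q j)) (ns : ∀ j, 18 ≤ j → j + 16 ≤ L → NS (S j))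
    (d0 d1 d2 e1 : E) (h0 : d0 = Q i - Q (i + 4)) (h1 : d1 = Q (i + 1 + 4) - Q (i + 1))
    (h2 : d2 = Q (i + 2) - Q (i + 2 + 4)) (h3 : e1 = S (i + 1 + 4) - S (i + 1)) (n : ℝ)
    (hn : n = cN d0 + cN d1 + cN d2) : AsStepRel d0 d1 d2 e1 n := by
  have bQ : ∀ j, 1 ≤ j → j ≤ L →
      un (S j - Q j) + un (g (S (j + 1)) - Q j) + un (B0 - Q j) + un (B1 - Q j) = 0 :=
    fun j h1 h2 => hC.balQ j h1 h2
  have bS : ∀ j, 1 ≤ j → j + 1 ≤ L →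
      un (Q (j + 1) - S (j + 1)) + un (g.symm (Q j) - S (j + 1)) + un (B0 - S (j + 1)) = 0 := by
    intro j h1 h2
    have := hC.balS (j + 1) (by omega) (by omega)
    rw [resS, if_pos h2, if_pos (by omega), Nat.add_sub_cancel] at this
    exact this
  exact hstep
    (Q (i + 4)) (Q (i + 1 + 4)) (Q (i + 2 + 4)) (S (i + 1 + 4)) (S (i + 2 + 4))
    (Q i) (Q (i + 1)) (Q (i + 2)) (S (i + 1)) (S (i + 2))
    (nq _ (by omega) (by omega)) (nq _ (by omega) (by omega)) (nq _ (by omega) (by omega))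
    (ns _ (by omega) (by omega)) (ns _ (by omega) (by omega))
    (nq _ (by omega) (by omega)) (nq _ (by omega) (by omega)) (nq _ (by omega) (by omega))
    (ns _ (by omega) (by omega)) (ns _ (by omega) (by omega))
    (bQ _ (by omega) (by omega)) (bS _ (by omega) (by omega)) (bS _ (by omega) (by omega))
    (bQ _ (by omega) (by omega)) (bS _ (by omega) (by omega)) (bS _ (by omega) (by omega))
    d0 d1 d2 e1 h0 h1 h2 h3 n hn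

/-- signed differences of two windings -/
noncomputable def asD (Q : ℕ → E) (j : ℕ) : E := (-1 : ℝ) ^ j • (Q j - Q (j + 4))

theorem asD_even (Q : ℕ → E) (j : ℕ) (h : Even j) : asD Q j = Q j - Q (j + 4) := by
  rw [asD, h.neg_one_pow, one_smul]

theorem asD_odd (Q : ℕ → E) (j : ℕ) (h : Odd j) : asD Q j = Q (j + 4) - Q j := by
  rw [asD, h.neg_one_pow, neg_one_smul, neg_sub]

theorem as_step (hstep : AsStep) (L : ℕ) (Q S : ℕ → E) (hC : IsChain L Q S) (i : ℕ)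
    (hi : 18 ≤ i) (hiL : i + 23 ≤ L)
    (nq : ∀ j, 18 ≤ j → j + 17 ≤ L → NQ (Q j)) (ns : ∀ j, 18 ≤ j → j + 16 ≤ L → NS (S j))
    (n : ℝ) (hn : n = cN (asD Q i) + cN (asD Q (i + 1)) + cN (asD Q (i + 2))) :
    AsStepRel (asD Q i) (asD Q (i + 1)) (asD Q (i + 2)) (asD S (i + 1)) n := by
  rcases Nat.even_or_odd i with h | h
  · have h1 : Odd (i + 1) := h.add_one
    have h2 : Even (i + 2) := by rw [Nat.even_add]; simp [h]
    exact as_step_odd hstep L Q S hC i hi hiL nq ns _ _ _ _ (asD_even Q _ h) (asD_odd Q _ h1)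
      (asD_even Q _ h2) (asD_odd S _ h1) n hn
  · have h1 : Even (i + 1) := h.add_one
    have h2 : Odd (i + 2) := by rw [Nat.odd_add]; simp [h]
    exact as_step_even hstep L Q S hC i hi hiL nq ns _ _ _ _ (asD_odd Q _ h) (asD_even Q _ h1)
      (asD_odd Q _ h2) (asD_even S _ h1) n hn

theorem as_main (hchain : AsChain) (hper : AsPer) (href : AsRes) (hfacts : AsFacts)
    (hstep : AsStep) (hmax : AsMax) (k : ℕ) (hk : 30 ≤ k) :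
    ∃ Q S : ℕ → E, ChainData (4 * k + 1) Q S := by
  obtain ⟨Qs, Ss, hP⟩ := hper
  have hF := hfacts Qs Ss hP.nq hP.ns k hk
  have hres := href Qs Ss hP (4 * k + 1) (by omega)
  have hL : 121 ≤ 4 * k + 1 := by omega
  generalize 4 * k + 1 = L at hF hres hL ⊢
  generalize refQ L Qs = q at hF hres
  generalize refS L Ss = s at hF hres
  obtain ⟨Q, S, hC, hQ, hS⟩ := hchain L (by omega) q s (1 / 10 ^ 15) (by positivity) (by norm_num)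
    (fun j h1 h2 => hF.rq j h1 h2 (q j) (by simp)) (fun j h1 h2 => hF.rs j h1 h2 (s j) (by simp))
    hres
  have hQ1 : ∀ j, 1 ≤ j → j ≤ L → ‖Q j - q j‖ ≤ 1 / 10 ^ 11 := fun j h1 h2 =>
    (hQ j h1 h2).trans (by norm_num)
  have hS1 : ∀ j, 1 ≤ j → j ≤ L + 1 → ‖S j - s j‖ ≤ 1 / 10 ^ 11 := fun j h1 h2 =>
    (hS j h1 h2).trans (by norm_num)
  have hQ2 : ∀ j, 1 ≤ j → j ≤ L → ‖Q j - q j‖ ≤ 1 / 10 ^ 10 := fun j h1 h2 =>
    (hQ j h1 h2).trans (by norm_num)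
  have hS2 : ∀ j, 1 ≤ j → j ≤ L + 1 → ‖S j - s j‖ ≤ 1 / 10 ^ 10 := fun j h1 h2 =>
    (hS j h1 h2).trans (by norm_num)
  have nq : ∀ j, 18 ≤ j → j + 17 ≤ L → NQ (Q j) := fun j h1 h2 =>
    hF.nearq j h1 h2 (Q j) (hQ2 j (by omega) (by omega))
  have ns : ∀ j, 18 ≤ j → j + 16 ≤ L → NS (S j) := fun j h1 h2 =>
    hF.nears j h1 h2 (S j) (hS2 j (by omega) (by omega))
  have hst : ∀ i, 18 ≤ i → i + 23 ≤ L →
      AsStepRel (asD Q i) (asD Q (i + 1)) (asD Q (i + 2)) (asD S (i + 1))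
        (cN (asD Q i) + cN (asD Q (i + 1)) + cN (asD Q (i + 2))) := fun i h1 h2 =>
    as_step hstep L Q S hC i h1 h2 nq ns _ rfl
  have hbd : ∀ j, j = 18 ∨ j = 18 + 1 ∨ j + 1 = L - 21 ∨ j = L - 21 →
      0 < cS (asD Q j) ∧ |cW (asD Q j)| ≤ 1 / 50 * cS (asD Q j) ∧
        |cY (asD Q j)| ≤ 1 / 100 * cS (asD Q j) := by
    intro j hj
    apply as_of_KM
    have hj' : j = 18 ∨ j = 19 ∨ j + 22 = L ∨ j + 21 = L := by omega
    exact hF.km j hj' _ _ (hQ1 j (by omega) (by omega)) (hQ1 (j + 4) (by omega) (by omega))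
  obtain ⟨hcone, hrat⟩ := hmax 18 (L - 21) (by omega) (fun j => cS (asD Q j))
    (fun j => cW (asD Q j)) (fun j => cY (asD Q j))
    (by
      intro j h1 h2
      obtain ⟨i, rfl⟩ : ∃ i, j = i + 1 := ⟨j - 1, by omega⟩
      have := (hst i (by omega) (by omega)).1
      simpa only [Nat.add_sub_cancel, cN, add_assoc] using this)
    (by
      intro j h1 h2
      obtain ⟨i, rfl⟩ : ∃ i, j = i + 1 := ⟨j - 1, by omega⟩
      have := (hst i (by omega) (by omega)).2.1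
      simpa only [Nat.add_sub_cancel, cN, add_assoc] using this)
    (by
      intro j h1 h2
      obtain ⟨i, rfl⟩ : ∃ i, j = i + 1 := ⟨j - 1, by omega⟩
      have := (hst i (by omega) (by omega)).2.2.1
      simpa only [Nat.add_sub_cancel, cN, add_assoc] using this)
    hbd
  refine ⟨Q, S, { toIsChain := hC, rq := ?_, rs := ?_, kq := ?_, ks := ?_, sz := ?_, first := ?_, last := ?_ }⟩
  · exact fun j h1 h2 => hF.rq j h1 h2 (Q j) (hQ2 j h1 h2)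
  · exact fun j h1 h2 => hF.rs j h1 h2 (S j) (hS2 j h1 h2)
  · intro j h1 h2
    by_cases hj : j ≤ 19 ∨ L ≤ j + 22
    · exact hF.kq j h1 h2 hj _ _ (hQ1 j h1 (by omega)) (hQ1 (j + 4) (by omega) h2)
    · exact as_K_of _ (hcone j (by omega) (by omega))
  · intro j h1 h2
    by_cases hj : j ≤ 19 ∨ L ≤ j + 21
    · exact hF.ks j h1 h2 hj _ _ (hS1 j h1 (by omega)) (hS1 (j + 4) (by omega) h2)
    · obtain ⟨i, rfl⟩ : ∃ i, j = i + 1 := ⟨j - 1, by omega⟩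
      have hr := hrat i (by omega) (by omega)
      have hr1 := hrat (i + 1) (by omega) (by omega)
      simp only [Nat.add_sub_cancel] at hr1
      exact as_KS_of _ _ _ _ _ rfl (hst i (by omega) (by omega)) (hcone i (by omega) (by omega))
        (hcone (i + 1) (by omega) (by omega)) (hcone (i + 2) (by omega) (by omega))
        hr1.1 hr.2 hr1.2
  · exact fun j h1 h2 => hF.sz j h1 h2 (S j) (hS2 j (by omega) (by omega))
  · exact hF.first (S 1) (hS2 1 (by omega) (by omega))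
  · exact hF.last (S (L + 1)) (hS2 (L + 1) (by omega) (by omega))

end Pool.Agent.Helper39.Net
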