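import Mathlib

/-!
# MP_573362_gt: basic definitions

Cell coordinates.  The regular tetrahedron is the set of the four alternate vertices of the cube
`[-1,1]^3`: `B0 = (1,1,1)`, `B1 = g B0 = (-1,1,-1)`, `g B1 = (-1,-1,1)`, `B3 = g⁻¹ B0 = (1,-1,-1)`,
where `g (x,y,z) = (-y,x,-z)`.
-/

namespace Pool.Agent.Helper39.Net

open scoped RealInnerProductSpace

/-- Euclidean three-space -/
abbrev E := EuclideanSpace ℝ (Fin 3)

/-- the vector with given coordinates -/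
def vec (x y z : ℝ) : E := !₂[x, y, z]

@[simp] theorem vec_0 (x y z : ℝ) : vec x y z 0 = x := rfl
@[simp] theorem vec_1 (x y z : ℝ) : vec x y z 1 = y := rfl
@[simp] theorem vec_2 (x y z : ℝ) : vec x y z 2 = z := rfl

theorem ext3 {u v : E} (h0 : u 0 = v 0) (h1 : u 1 = v 1) (h2 : u 2 = v 2) : u = v := by
  ext i
  fin_cases i
  · exact h0
  · exact h1
  · exact h2

theorem inner3 (u v : E) : ⟪u, v⟫ = u 0 * v 0 + u 1 * v 1 + u 2 * v 2 := by
  simp [PiLp.inner_apply, Fin.sum_univ_three]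
  ring

theorem normsq3 (u : E) : ‖u‖ ^ 2 = u 0 ^ 2 + u 1 ^ 2 + u 2 ^ 2 := by
  rw [EuclideanSpace.norm_sq_eq]
  simp [Fin.sum_univ_three]

theorem norm3 (u : E) : ‖u‖ = Real.sqrt (u 0 ^ 2 + u 1 ^ 2 + u 2 ^ 2) := by
  rw [← normsq3, Real.sqrt_sq (norm_nonneg _)]

theorem coord_le_norm (u : E) (i : Fin 3) : |u i| ≤ ‖u‖ := by
  have := EuclideanSpace.norm_eq u
  have h := PiLp.norm_apply_le u i
  simpa [Real.norm_eq_abs] using h

@[simp] theorem E_add (u v : E) (i : Fin 3) : (u + v) i = u i + v i := rfl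
@[simp] theorem E_sub (u v : E) (i : Fin 3) : (u - v) i = u i - v i := rfl
@[simp] theorem E_smul (c : ℝ) (v : E) (i : Fin 3) : (c • v) i = c * v i := rfl
@[simp] theorem E_neg (v : E) (i : Fin 3) : (-v) i = - v i := rfl
@[simp] theorem E_zero (i : Fin 3) : (0 : E) i = 0 := rfl

/-- the rotoreflection `(x,y,z) ↦ (-y,x,-z)` as a linear equivalence -/
noncomputable def gLin : E ≃ₗ[ℝ] E where
  toFun v := vec (-(v 1)) (v 0) (-(v 2))
  invFun v := vec (v 1) (-(v 0)) (-(v 2))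
  map_add' u v := by apply ext3 <;> simp <;> ring
  map_smul' c v := by apply ext3 <;> simp
  left_inv v := by apply ext3 <;> simp
  right_inv v := by apply ext3 <;> simp

/-- the rotoreflection `(x,y,z) ↦ (-y,x,-z)` -/
noncomputable def g : E ≃ₗᵢ[ℝ] E where
  toLinearEquiv := gLin
  norm_map' v := by
    rw [norm3, norm3]
    congr 1
    change (-(v 1)) ^ 2 + (v 0) ^ 2 + (-(v 2)) ^ 2 = _
    ring

@[simp] theorem g_0 (v : E) : g v 0 = - v 1 := rfl
@[simp] theorem g_1 (v : E) : g v 1 = v 0 := rfl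
@[simp] theorem g_2 (v : E) : g v 2 = - v 2 := rfl
@[simp] theorem gs_0 (v : E) : g.symm v 0 = v 1 := rfl
@[simp] theorem gs_1 (v : E) : g.symm v 1 = - v 0 := rfl
@[simp] theorem gs_2 (v : E) : g.symm v 2 = - v 2 := rfl

/-- tetrahedron vertices in cell coordinates -/
def B0 : E := vec 1 1 1
def B1 : E := vec (-1) 1 (-1)
def B3 : E := vec 1 (-1) (-1)

theorem g_B0 : g B0 = B1 := by apply ext3 <;> simp [B0, B1]
theorem gs_B0 : g.symm B0 = B3 := by apply ext3 <;> simp [B0, B3]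

/-- the unit vector in direction `v` -/
noncomputable def un (v : E) : E := ‖v‖⁻¹ • v

theorem norm_un {v : E} (h : v ≠ 0) : ‖un v‖ = 1 := by
  rw [un, norm_smul, norm_inv, norm_norm, inv_mul_cancel₀ (norm_ne_zero_iff.mpr h)]

theorem g_un (v : E) : g (un v) = un (g v) := by
  simp [un]

theorem gs_un (v : E) : g.symm (un v) = un (g.symm v) := by
  simp [un]

theorem un_neg (v : E) : un (-v) = - un v := by
  simp [un]

/-- residual at the pair vertex `q j` of a chain in cell coordinates -/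
noncomputable def resQ (q s : ℕ → E) (j : ℕ) : E :=
  un (s j - q j) + un (g (s (j + 1)) - q j) + un (B0 - q j) + un (B1 - q j)

/-- residual at the single vertex `s j` (`1 ≤ j ≤ L+1`) of a chain in cell coordinates; the two
end vertices carry one more label edge instead of the missing path edge -/
noncomputable def resS (L : ℕ) (q s : ℕ → E) (j : ℕ) : E :=
  (if j ≤ L then un (q j - s j) else un (B1 - s j)) +
    (if 2 ≤ j then un (g.symm (q (j - 1)) - s j) else un (B3 - s j)) + un (B0 - s j)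

/-- a balanced chain with `2L+1` path vertices `s 1, q 1, s 2, ..., q L, s (L+1)` -/
structure IsChain (L : ℕ) (q s : ℕ → E) : Prop where
  balQ : ∀ j, 1 ≤ j → j ≤ L → resQ q s j = 0
  balS : ∀ j, 1 ≤ j → j ≤ L + 1 → resS L q s j = 0

/-- region of the pair vertices -/
structure RQ (v : E) : Prop where
  s1 : 2 * v 0 + 3 * v 2 ≤ 27 / 50
  s2 : -(27 / 50) ≤ 2 * v 0 + 3 * v 2
  w1 : -3 * v 0 + 2 * v 2 ≤ 3 / 50
  w2 : -(3 / 50) ≤ -3 * v 0 + 2 * v 2
  y1 : 46695 / 100000 ≤ v 1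
  y2 : v 1 ≤ 49925 / 100000

/-- region of the single vertices -/
structure RS (v : E) : Prop where
  p1 : 6447 / 10000 ≤ v 0 + v 1
  p2 : v 0 + v 1 ≤ 7315 / 10000
  m1 : v 0 - v 1 ≤ 1212 / 10000
  m2 : -(1212 / 10000) ≤ v 0 - v 1
  z1 : -(518 / 10000) ≤ v 2
  z2 : v 2 ≤ 2143 / 10000

/-- cone of the differences between two windings at a pair vertex -/
structure K (d : E) : Prop where
  pos : 0 < 2 * d 0 + 3 * d 2
  w1 : -3 * d 0 + 2 * d 2 ≤ 13 / 100 * (2 * d 0 + 3 * d 2)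
  w2 : -(13 / 100) * (2 * d 0 + 3 * d 2) ≤ -3 * d 0 + 2 * d 2
  y1 : d 1 ≤ 7 / 100 * (2 * d 0 + 3 * d 2)
  y2 : -(7 / 100) * (2 * d 0 + 3 * d 2) ≤ d 1

/-- narrow cone, used in the middle part of the chain -/
structure KM (d : E) : Prop where
  pos : 0 < 2 * d 0 + 3 * d 2
  w1 : -3 * d 0 + 2 * d 2 ≤ 1 / 50 * (2 * d 0 + 3 * d 2)
  w2 : -(1 / 50) * (2 * d 0 + 3 * d 2) ≤ -3 * d 0 + 2 * d 2
  y1 : d 1 ≤ 1 / 100 * (2 * d 0 + 3 * d 2)
  y2 : -(1 / 100) * (2 * d 0 + 3 * d 2) ≤ d 1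

/-- cone of the differences between two windings at a single vertex -/
structure KS (d : E) : Prop where
  pos : 0 < d 2
  m1 : d 0 - d 1 ≤ 9 / 10 * d 2
  m2 : -(9 / 10) * d 2 ≤ d 0 - d 1
  p1 : 1 / 10 * d 2 ≤ d 0 + d 1
  p2 : d 0 + d 1 ≤ 78 / 100 * d 2
  r1 : d 0 + d 1 + 42 / 100 * (d 0 - d 1) ≤ 11 / 10 * d 2
  r2 : d 0 + d 1 - 42 / 100 * (d 0 - d 1) ≤ 11 / 10 * d 2

/-- all the data about a chain needed for the embedding -/
structure ChainData (L : ℕ) (q s : ℕ → E) : Prop extends IsChain L q s where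
  rq : ∀ j, 1 ≤ j → j ≤ L → RQ (q j)
  rs : ∀ j, 1 ≤ j → j ≤ L + 1 → RS (s j)
  kq : ∀ j, 1 ≤ j → j + 4 ≤ L → K ((-1 : ℝ) ^ j • (q j - q (j + 4)))
  ks : ∀ j, 1 ≤ j → j + 4 ≤ L + 1 → KS ((-1 : ℝ) ^ j • (s j - s (j + 4)))
  sz : ∀ j, 2 ≤ j → j ≤ L → 1 / 10 ≤ s j 2
  first : ‖s 1 - vec (2618282 / 10000000) (3829740 / 10000000) (-(517198 / 10000000))‖ ≤ 1 / 100000
  last : ‖s (L + 1) - vec (3829740 / 10000000) (2618282 / 10000000) (-(517198 / 10000000))‖ ≤
    1 / 100000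

end Pool.Agent.Helper39.Net
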