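import Pool.Agent.Helper39.Net.Emb1

/-! # Embedding: linear separation certificates (generated), part 1 -/

set_option linter.unusedSimpArgs false
set_option linter.unusedVariables false

namespace Pool.Agent.Helper39.Net

theorem I_PS_PS_1 {a b c d : E} (ha : RS a) (hb : RQ b) (hc : RS c) (hd : RQ d) :
    Meet a b (G 1 c) (G 1 d) := by
  obtain ⟨a1, a2, a3, a4, a5, a6⟩ := ha
  obtain ⟨b1, b2, b3, b4, b5, b6⟩ := hb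
  obtain ⟨c1, c2, c3, c4, c5, c6⟩ := hc
  obtain ⟨d1, d2, d3, d4, d5, d6⟩ := hd
  refine meet_sep (-1) (-3 / 5) (-1 / 10) (-1 / 10) ?_ ?_ ?_ ?_ <;>
  ( simp only [lin, E_sub, G1_0, G1_1, G1_2, G2_0, G2_1, G2_2, G3_0, G3_1, G3_2, G4_0, G4_1, G4_2, B0_0, B0_1, B0_2, G_zero']; linarith )

theorem I_PS_PS_2 {a b c d : E} (ha : RS a) (hb : RQ b) (hc : RS c) (hd : RQ d) :
    Meet a b (G 2 c) (G 2 d) := by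
  obtain ⟨a1, a2, a3, a4, a5, a6⟩ := ha
  obtain ⟨b1, b2, b3, b4, b5, b6⟩ := hb
  obtain ⟨c1, c2, c3, c4, c5, c6⟩ := hc
  obtain ⟨d1, d2, d3, d4, d5, d6⟩ := hd
  refine meet_sep (-2 / 5) (-1) 0 0 ?_ ?_ ?_ ?_ <;>
  ( simp only [lin, E_sub, G1_0, G1_1, G1_2, G2_0, G2_1, G2_2, G3_0, G3_1, G3_2, G4_0, G4_1, G4_2, B0_0, B0_1, B0_2, G_zero']; linarith )

theorem I_PS_PS_3 {a b c d : E} (ha : RS a) (hb : RQ b) (hc : RS c) (hd : RQ d) :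
    Meet a b (G 3 c) (G 3 d) := by
  obtain ⟨a1, a2, a3, a4, a5, a6⟩ := ha
  obtain ⟨b1, b2, b3, b4, b5, b6⟩ := hb
  obtain ⟨c1, c2, c3, c4, c5, c6⟩ := hc
  obtain ⟨d1, d2, d3, d4, d5, d6⟩ := hd
  refine meet_sep (3 / 5) (-1) (-1 / 10) (1 / 10) ?_ ?_ ?_ ?_ <;>
  ( simp only [lin, E_sub, G1_0, G1_1, G1_2, G2_0, G2_1, G2_2, G3_0, G3_1, G3_2, G4_0, G4_1, G4_2, B0_0, B0_1, B0_2, G_zero']; linarith )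

theorem I_PS_PN_1 {a b c d : E} (ha : RS a) (hb : RQ b) (hc : RQ c) (hd : RS d) :
    Meet a b (G 1 c) (G 2 d) := by
  obtain ⟨a1, a2, a3, a4, a5, a6⟩ := ha
  obtain ⟨b1, b2, b3, b4, b5, b6⟩ := hb
  obtain ⟨c1, c2, c3, c4, c5, c6⟩ := hc
  obtain ⟨d1, d2, d3, d4, d5, d6⟩ := hd
  refine meet_sep (-1) (-1) 0 0 ?_ ?_ ?_ ?_ <;>
  ( simp only [lin, E_sub, G1_0, G1_1, G1_2, G2_0, G2_1, G2_2, G3_0, G3_1, G3_2, G4_0, G4_1, G4_2, B0_0, B0_1, B0_2, G_zero']; linarith )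

theorem I_PS_PN_2 {a b c d : E} (ha : RS a) (hb : RQ b) (hc : RQ c) (hd : RS d) :
    Meet a b (G 2 c) (G 3 d) := by
  obtain ⟨a1, a2, a3, a4, a5, a6⟩ := ha
  obtain ⟨b1, b2, b3, b4, b5, b6⟩ := hb
  obtain ⟨c1, c2, c3, c4, c5, c6⟩ := hc
  obtain ⟨d1, d2, d3, d4, d5, d6⟩ := hd
  refine meet_sep 0 (-1) (-1 / 10) 0 ?_ ?_ ?_ ?_ <;>
  ( simp only [lin, E_sub, G1_0, G1_1, G1_2, G2_0, G2_1, G2_2, G3_0, G3_1, G3_2, G4_0, G4_1, G4_2, B0_0, B0_1, B0_2, G_zero']; linarith )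

theorem I_PS_L0_1 {a b c : E} (ha : RS a) (hb : RQ b) (hc : RQ c) :
    Meet a b (G 1 c) (G 1 B0) := by
  obtain ⟨a1, a2, a3, a4, a5, a6⟩ := ha
  obtain ⟨b1, b2, b3, b4, b5, b6⟩ := hb
  obtain ⟨c1, c2, c3, c4, c5, c6⟩ := hc
  refine meet_sep (-1) (-1) (-1) (1 / 10) ?_ ?_ ?_ ?_ <;>
  ( simp only [lin, E_sub, G1_0, G1_1, G1_2, G2_0, G2_1, G2_2, G3_0, G3_1, G3_2, G4_0, G4_1, G4_2, B0_0, B0_1, B0_2, G_zero']; linarith )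

theorem I_PS_L0_2 {a b c : E} (ha : RS a) (hb : RQ b) (hc : RQ c) :
    Meet a b (G 2 c) (G 2 B0) := by
  obtain ⟨a1, a2, a3, a4, a5, a6⟩ := ha
  obtain ⟨b1, b2, b3, b4, b5, b6⟩ := hb
  obtain ⟨c1, c2, c3, c4, c5, c6⟩ := hc
  refine meet_sep (-2 / 5) (-1) (1 / 5) 0 ?_ ?_ ?_ ?_ <;>
  ( simp only [lin, E_sub, G1_0, G1_1, G1_2, G2_0, G2_1, G2_2, G3_0, G3_1, G3_2, G4_0, G4_1, G4_2, B0_0, B0_1, B0_2, G_zero']; linarith )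

theorem I_PS_L0_3 {a b c : E} (ha : RS a) (hb : RQ b) (hc : RQ c) :
    Meet a b (G 3 c) (G 3 B0) := by
  obtain ⟨a1, a2, a3, a4, a5, a6⟩ := ha
  obtain ⟨b1, b2, b3, b4, b5, b6⟩ := hb
  obtain ⟨c1, c2, c3, c4, c5, c6⟩ := hc
  refine meet_sep 1 (-1) (-1 / 10) (1 / 5) ?_ ?_ ?_ ?_ <;>
  ( simp only [lin, E_sub, G1_0, G1_1, G1_2, G2_0, G2_1, G2_2, G3_0, G3_1, G3_2, G4_0, G4_1, G4_2, B0_0, B0_1, B0_2, G_zero']; linarith )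

theorem I_PS_L1_1 {a b c : E} (ha : RS a) (hb : RQ b) (hc : RQ c) :
    Meet a b (G 1 c) (G 2 B0) := by
  obtain ⟨a1, a2, a3, a4, a5, a6⟩ := ha
  obtain ⟨b1, b2, b3, b4, b5, b6⟩ := hb
  obtain ⟨c1, c2, c3, c4, c5, c6⟩ := hc
  refine meet_sep (-1) (-1) (-1 / 10) 0 ?_ ?_ ?_ ?_ <;>
  ( simp only [lin, E_sub, G1_0, G1_1, G1_2, G2_0, G2_1, G2_2, G3_0, G3_1, G3_2, G4_0, G4_1, G4_2, B0_0, B0_1, B0_2, G_zero']; linarith )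

theorem I_PS_L1_2 {a b c : E} (ha : RS a) (hb : RQ b) (hc : RQ c) :
    Meet a b (G 2 c) (G 3 B0) := by
  obtain ⟨a1, a2, a3, a4, a5, a6⟩ := ha
  obtain ⟨b1, b2, b3, b4, b5, b6⟩ := hb
  obtain ⟨c1, c2, c3, c4, c5, c6⟩ := hc
  refine meet_sep (-1 / 5) (-1) (-1 / 2) (1 / 10) ?_ ?_ ?_ ?_ <;>
  ( simp only [lin, E_sub, G1_0, G1_1, G1_2, G2_0, G2_1, G2_2, G3_0, G3_1, G3_2, G4_0, G4_1, G4_2, B0_0, B0_1, B0_2, G_zero']; linarith )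

theorem I_PS_L1_3 {a b c : E} (ha : RS a) (hb : RQ b) (hc : RQ c) :
    Meet a b (G 3 c) (G 4 B0) := by
  obtain ⟨a1, a2, a3, a4, a5, a6⟩ := ha
  obtain ⟨b1, b2, b3, b4, b5, b6⟩ := hb
  obtain ⟨c1, c2, c3, c4, c5, c6⟩ := hc
  refine meet_sep 1 (-1) (7 / 10) (9 / 25) ?_ ?_ ?_ ?_ <;>
  ( simp only [lin, E_sub, G1_0, G1_1, G1_2, G2_0, G2_1, G2_2, G3_0, G3_1, G3_2, G4_0, G4_1, G4_2, B0_0, B0_1, B0_2, G_zero']; linarith )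

theorem I_PS_LS_1 {a b c : E} (ha : RS a) (hb : RQ b) (hc : RS c) :
    Meet a b (G 1 c) (G 1 B0) := by
  obtain ⟨a1, a2, a3, a4, a5, a6⟩ := ha
  obtain ⟨b1, b2, b3, b4, b5, b6⟩ := hb
  obtain ⟨c1, c2, c3, c4, c5, c6⟩ := hc
  refine meet_sep (-1) (-3 / 10) (-1 / 10) (3 / 50) ?_ ?_ ?_ ?_ <;>
  ( simp only [lin, E_sub, G1_0, G1_1, G1_2, G2_0, G2_1, G2_2, G3_0, G3_1, G3_2, G4_0, G4_1, G4_2, B0_0, B0_1, B0_2, G_zero']; linarith )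

theorem I_PS_LS_2 {a b c : E} (ha : RS a) (hb : RQ b) (hc : RS c) :
    Meet a b (G 2 c) (G 2 B0) := by
  obtain ⟨a1, a2, a3, a4, a5, a6⟩ := ha
  obtain ⟨b1, b2, b3, b4, b5, b6⟩ := hb
  obtain ⟨c1, c2, c3, c4, c5, c6⟩ := hc
  refine meet_sep (-1) (-1) (2 / 5) (1 / 10) ?_ ?_ ?_ ?_ <;>
  ( simp only [lin, E_sub, G1_0, G1_1, G1_2, G2_0, G2_1, G2_2, G3_0, G3_1, G3_2, G4_0, G4_1, G4_2, B0_0, B0_1, B0_2, G_zero']; linarith )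

theorem I_PS_LS_3 {a b c : E} (ha : RS a) (hb : RQ b) (hc : RS c) :
    Meet a b (G 3 c) (G 3 B0) := by
  obtain ⟨a1, a2, a3, a4, a5, a6⟩ := ha
  obtain ⟨b1, b2, b3, b4, b5, b6⟩ := hb
  obtain ⟨c1, c2, c3, c4, c5, c6⟩ := hc
  refine meet_sep (1 / 5) (-1) (-1 / 5) (1 / 10) ?_ ?_ ?_ ?_ <;>
  ( simp only [lin, E_sub, G1_0, G1_1, G1_2, G2_0, G2_1, G2_2, G3_0, G3_1, G3_2, G4_0, G4_1, G4_2, B0_0, B0_1, B0_2, G_zero']; linarith )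

theorem I_PN_PN_1 {a b c d : E} (ha : RQ a) (hb : RS b) (hc : RQ c) (hd : RS d) :
    Meet a (G 1 b) (G 1 c) (G 2 d) := by
  obtain ⟨a1, a2, a3, a4, a5, a6⟩ := ha
  obtain ⟨b1, b2, b3, b4, b5, b6⟩ := hb
  obtain ⟨c1, c2, c3, c4, c5, c6⟩ := hc
  obtain ⟨d1, d2, d3, d4, d5, d6⟩ := hd
  refine meet_sep (-3 / 5) (-1) (1 / 10) (1 / 10) ?_ ?_ ?_ ?_ <;>
  ( simp only [lin, E_sub, G1_0, G1_1, G1_2, G2_0, G2_1, G2_2, G3_0, G3_1, G3_2, G4_0, G4_1, G4_2, B0_0, B0_1, B0_2, G_zero']; linarith )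

theorem I_PN_PN_2 {a b c d : E} (ha : RQ a) (hb : RS b) (hc : RQ c) (hd : RS d) :
    Meet a (G 1 b) (G 2 c) (G 3 d) := by
  obtain ⟨a1, a2, a3, a4, a5, a6⟩ := ha
  obtain ⟨b1, b2, b3, b4, b5, b6⟩ := hb
  obtain ⟨c1, c2, c3, c4, c5, c6⟩ := hc
  obtain ⟨d1, d2, d3, d4, d5, d6⟩ := hd
  refine meet_sep (2 / 5) (-1) 0 0 ?_ ?_ ?_ ?_ <;>
  ( simp only [lin, E_sub, G1_0, G1_1, G1_2, G2_0, G2_1, G2_2, G3_0, G3_1, G3_2, G4_0, G4_1, G4_2, B0_0, B0_1, B0_2, G_zero']; linarith )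

theorem I_PN_PN_3 {a b c d : E} (ha : RQ a) (hb : RS b) (hc : RQ c) (hd : RS d) :
    Meet a (G 1 b) (G 3 c) (G 4 d) := by
  obtain ⟨a1, a2, a3, a4, a5, a6⟩ := ha
  obtain ⟨b1, b2, b3, b4, b5, b6⟩ := hb
  obtain ⟨c1, c2, c3, c4, c5, c6⟩ := hc
  obtain ⟨d1, d2, d3, d4, d5, d6⟩ := hd
  refine meet_sep 1 (-3 / 5) (1 / 10) (-1 / 10) ?_ ?_ ?_ ?_ <;>
  ( simp only [lin, E_sub, G1_0, G1_1, G1_2, G2_0, G2_1, G2_2, G3_0, G3_1, G3_2, G4_0, G4_1, G4_2, B0_0, B0_1, B0_2, G_zero']; linarith )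

theorem I_PN_L0_1 {a b c : E} (ha : RQ a) (hb : RS b) (hc : RQ c) :
    Meet a (G 1 b) (G 1 c) (G 1 B0) := by
  obtain ⟨a1, a2, a3, a4, a5, a6⟩ := ha
  obtain ⟨b1, b2, b3, b4, b5, b6⟩ := hb
  obtain ⟨c1, c2, c3, c4, c5, c6⟩ := hc
  refine meet_sep (-1) (-1) (-7 / 10) (9 / 25) ?_ ?_ ?_ ?_ <;>
  ( simp only [lin, E_sub, G1_0, G1_1, G1_2, G2_0, G2_1, G2_2, G3_0, G3_1, G3_2, G4_0, G4_1, G4_2, B0_0, B0_1, B0_2, G_zero']; linarith )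

theorem I_PN_L0_2 {a b c : E} (ha : RQ a) (hb : RS b) (hc : RQ c) :
    Meet a (G 1 b) (G 2 c) (G 2 B0) := by
  obtain ⟨a1, a2, a3, a4, a5, a6⟩ := ha
  obtain ⟨b1, b2, b3, b4, b5, b6⟩ := hb
  obtain ⟨c1, c2, c3, c4, c5, c6⟩ := hc
  refine meet_sep (1 / 5) (-1) (1 / 2) (1 / 10) ?_ ?_ ?_ ?_ <;>
  ( simp only [lin, E_sub, G1_0, G1_1, G1_2, G2_0, G2_1, G2_2, G3_0, G3_1, G3_2, G4_0, G4_1, G4_2, B0_0, B0_1, B0_2, G_zero']; linarith )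

theorem I_PN_L0_3 {a b c : E} (ha : RQ a) (hb : RS b) (hc : RQ c) :
    Meet a (G 1 b) (G 3 c) (G 3 B0) := by
  obtain ⟨a1, a2, a3, a4, a5, a6⟩ := ha
  obtain ⟨b1, b2, b3, b4, b5, b6⟩ := hb
  obtain ⟨c1, c2, c3, c4, c5, c6⟩ := hc
  refine meet_sep 1 (-1) (1 / 10) 0 ?_ ?_ ?_ ?_ <;>
  ( simp only [lin, E_sub, G1_0, G1_1, G1_2, G2_0, G2_1, G2_2, G3_0, G3_1, G3_2, G4_0, G4_1, G4_2, B0_0, B0_1, B0_2, G_zero']; linarith )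

theorem I_PN_L1_1 {a b c : E} (ha : RQ a) (hb : RS b) (hc : RQ c) :
    Meet a (G 1 b) (G 1 c) (G 2 B0) := by
  obtain ⟨a1, a2, a3, a4, a5, a6⟩ := ha
  obtain ⟨b1, b2, b3, b4, b5, b6⟩ := hb
  obtain ⟨c1, c2, c3, c4, c5, c6⟩ := hc
  refine meet_sep (-1) (-1) (1 / 10) (1 / 5) ?_ ?_ ?_ ?_ <;>
  ( simp only [lin, E_sub, G1_0, G1_1, G1_2, G2_0, G2_1, G2_2, G3_0, G3_1, G3_2, G4_0, G4_1, G4_2, B0_0, B0_1, B0_2, G_zero']; linarith )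

theorem I_PN_L1_2 {a b c : E} (ha : RQ a) (hb : RS b) (hc : RQ c) :
    Meet a (G 1 b) (G 2 c) (G 3 B0) := by
  obtain ⟨a1, a2, a3, a4, a5, a6⟩ := ha
  obtain ⟨b1, b2, b3, b4, b5, b6⟩ := hb
  obtain ⟨c1, c2, c3, c4, c5, c6⟩ := hc
  refine meet_sep (2 / 5) (-1) (-1 / 5) 0 ?_ ?_ ?_ ?_ <;>
  ( simp only [lin, E_sub, G1_0, G1_1, G1_2, G2_0, G2_1, G2_2, G3_0, G3_1, G3_2, G4_0, G4_1, G4_2, B0_0, B0_1, B0_2, G_zero']; linarith )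

theorem I_PN_L1_3 {a b c : E} (ha : RQ a) (hb : RS b) (hc : RQ c) :
    Meet a (G 1 b) (G 3 c) (G 4 B0) := by
  obtain ⟨a1, a2, a3, a4, a5, a6⟩ := ha
  obtain ⟨b1, b2, b3, b4, b5, b6⟩ := hb
  obtain ⟨c1, c2, c3, c4, c5, c6⟩ := hc
  refine meet_sep 1 (-1) 1 (1 / 10) ?_ ?_ ?_ ?_ <;>
  ( simp only [lin, E_sub, G1_0, G1_1, G1_2, G2_0, G2_1, G2_2, G3_0, G3_1, G3_2, G4_0, G4_1, G4_2, B0_0, B0_1, B0_2, G_zero']; linarith )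

theorem I_PN_LS_0 {a b c : E} (ha : RQ a) (hb : RS b) (hc : RS c) :
    Meet a (G 1 b) (G 0 c) (G 0 B0) := by
  obtain ⟨a1, a2, a3, a4, a5, a6⟩ := ha
  obtain ⟨b1, b2, b3, b4, b5, b6⟩ := hb
  obtain ⟨c1, c2, c3, c4, c5, c6⟩ := hc
  refine meet_sep 1 (-3 / 10) (1 / 10) (3 / 50) ?_ ?_ ?_ ?_ <;>
  ( simp only [lin, E_sub, G1_0, G1_1, G1_2, G2_0, G2_1, G2_2, G3_0, G3_1, G3_2, G4_0, G4_1, G4_2, B0_0, B0_1, B0_2, G_zero']; linarith )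

theorem I_PN_LS_2 {a b c : E} (ha : RQ a) (hb : RS b) (hc : RS c) :
    Meet a (G 1 b) (G 2 c) (G 2 B0) := by
  obtain ⟨a1, a2, a3, a4, a5, a6⟩ := ha
  obtain ⟨b1, b2, b3, b4, b5, b6⟩ := hb
  obtain ⟨c1, c2, c3, c4, c5, c6⟩ := hc
  refine meet_sep (-1 / 5) (-1) (1 / 5) (1 / 10) ?_ ?_ ?_ ?_ <;>
  ( simp only [lin, E_sub, G1_0, G1_1, G1_2, G2_0, G2_1, G2_2, G3_0, G3_1, G3_2, G4_0, G4_1, G4_2, B0_0, B0_1, B0_2, G_zero']; linarith )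

theorem I_PN_LS_3 {a b c : E} (ha : RQ a) (hb : RS b) (hc : RS c) :
    Meet a (G 1 b) (G 3 c) (G 3 B0) := by
  obtain ⟨a1, a2, a3, a4, a5, a6⟩ := ha
  obtain ⟨b1, b2, b3, b4, b5, b6⟩ := hb
  obtain ⟨c1, c2, c3, c4, c5, c6⟩ := hc
  refine meet_sep 1 (-1) (-2 / 5) (1 / 10) ?_ ?_ ?_ ?_ <;>
  ( simp only [lin, E_sub, G1_0, G1_1, G1_2, G2_0, G2_1, G2_2, G3_0, G3_1, G3_2, G4_0, G4_1, G4_2, B0_0, B0_1, B0_2, G_zero']; linarith )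

theorem I_L0_L0_1 {a c : E} (ha : RQ a) (hc : RQ c) :
    Meet a B0 (G 1 c) (G 1 B0) := by
  obtain ⟨a1, a2, a3, a4, a5, a6⟩ := ha
  obtain ⟨c1, c2, c3, c4, c5, c6⟩ := hc
  refine meet_sep (-1) (-1) (-1) (1 / 10) ?_ ?_ ?_ ?_ <;>
  ( simp only [lin, E_sub, G1_0, G1_1, G1_2, G2_0, G2_1, G2_2, G3_0, G3_1, G3_2, G4_0, G4_1, G4_2, B0_0, B0_1, B0_2, G_zero']; linarith )

theorem I_L0_L0_2 {a c : E} (ha : RQ a) (hc : RQ c) :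
    Meet a B0 (G 2 c) (G 2 B0) := by
  obtain ⟨a1, a2, a3, a4, a5, a6⟩ := ha
  obtain ⟨c1, c2, c3, c4, c5, c6⟩ := hc
  refine meet_sep (-2 / 5) (-1) 0 0 ?_ ?_ ?_ ?_ <;>
  ( simp only [lin, E_sub, G1_0, G1_1, G1_2, G2_0, G2_1, G2_2, G3_0, G3_1, G3_2, G4_0, G4_1, G4_2, B0_0, B0_1, B0_2, G_zero']; linarith )

theorem I_L0_L0_3 {a c : E} (ha : RQ a) (hc : RQ c) :
    Meet a B0 (G 3 c) (G 3 B0) := by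
  obtain ⟨a1, a2, a3, a4, a5, a6⟩ := ha
  obtain ⟨c1, c2, c3, c4, c5, c6⟩ := hc
  refine meet_sep 1 (-1) (-1) (-1 / 10) ?_ ?_ ?_ ?_ <;>
  ( simp only [lin, E_sub, G1_0, G1_1, G1_2, G2_0, G2_1, G2_2, G3_0, G3_1, G3_2, G4_0, G4_1, G4_2, B0_0, B0_1, B0_2, G_zero']; linarith )

theorem I_L0_L1_1 {a c : E} (ha : RQ a) (hc : RQ c) :
    Meet a B0 (G 1 c) (G 2 B0) := by
  obtain ⟨a1, a2, a3, a4, a5, a6⟩ := ha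
  obtain ⟨c1, c2, c3, c4, c5, c6⟩ := hc
  refine meet_sep (-1) (-1) 0 0 ?_ ?_ ?_ ?_ <;>
  ( simp only [lin, E_sub, G1_0, G1_1, G1_2, G2_0, G2_1, G2_2, G3_0, G3_1, G3_2, G4_0, G4_1, G4_2, B0_0, B0_1, B0_2, G_zero']; linarith )

theorem I_L0_L1_2 {a c : E} (ha : RQ a) (hc : RQ c) :
    Meet a B0 (G 2 c) (G 3 B0) := by
  obtain ⟨a1, a2, a3, a4, a5, a6⟩ := ha
  obtain ⟨c1, c2, c3, c4, c5, c6⟩ := hc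
  refine meet_sep 0 (-1) (-3 / 10) 0 ?_ ?_ ?_ ?_ <;>
  ( simp only [lin, E_sub, G1_0, G1_1, G1_2, G2_0, G2_1, G2_2, G3_0, G3_1, G3_2, G4_0, G4_1, G4_2, B0_0, B0_1, B0_2, G_zero']; linarith )

theorem I_L0_LS_1 {a c : E} (ha : RQ a) (hc : RS c) :
    Meet a B0 (G 1 c) (G 1 B0) := by
  obtain ⟨a1, a2, a3, a4, a5, a6⟩ := ha
  obtain ⟨c1, c2, c3, c4, c5, c6⟩ := hc
  refine meet_sep (-1) (-3 / 10) (-1 / 10) (3 / 50) ?_ ?_ ?_ ?_ <;>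
  ( simp only [lin, E_sub, G1_0, G1_1, G1_2, G2_0, G2_1, G2_2, G3_0, G3_1, G3_2, G4_0, G4_1, G4_2, B0_0, B0_1, B0_2, G_zero']; linarith )

theorem I_L0_LS_2 {a c : E} (ha : RQ a) (hc : RS c) :
    Meet a B0 (G 2 c) (G 2 B0) := by
  obtain ⟨a1, a2, a3, a4, a5, a6⟩ := ha
  obtain ⟨c1, c2, c3, c4, c5, c6⟩ := hc
  refine meet_sep (-1) (-1) (1 / 5) (1 / 10) ?_ ?_ ?_ ?_ <;>
  ( simp only [lin, E_sub, G1_0, G1_1, G1_2, G2_0, G2_1, G2_2, G3_0, G3_1, G3_2, G4_0, G4_1, G4_2, B0_0, B0_1, B0_2, G_zero']; linarith )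

theorem I_L0_LS_3 {a c : E} (ha : RQ a) (hc : RS c) :
    Meet a B0 (G 3 c) (G 3 B0) := by
  obtain ⟨a1, a2, a3, a4, a5, a6⟩ := ha
  obtain ⟨c1, c2, c3, c4, c5, c6⟩ := hc
  refine meet_sep (7 / 10) (-1) (-1) 0 ?_ ?_ ?_ ?_ <;>
  ( simp only [lin, E_sub, G1_0, G1_1, G1_2, G2_0, G2_1, G2_2, G3_0, G3_1, G3_2, G4_0, G4_1, G4_2, B0_0, B0_1, B0_2, G_zero']; linarith )

theorem I_L1_L1_1 {a c : E} (ha : RQ a) (hc : RQ c) :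
    Meet a (G 1 B0) (G 1 c) (G 2 B0) := by
  obtain ⟨a1, a2, a3, a4, a5, a6⟩ := ha
  obtain ⟨c1, c2, c3, c4, c5, c6⟩ := hc
  refine meet_sep (-1) (-1) 1 (-1 / 10) ?_ ?_ ?_ ?_ <;>
  ( simp only [lin, E_sub, G1_0, G1_1, G1_2, G2_0, G2_1, G2_2, G3_0, G3_1, G3_2, G4_0, G4_1, G4_2, B0_0, B0_1, B0_2, G_zero']; linarith )

theorem I_L1_L1_2 {a c : E} (ha : RQ a) (hc : RQ c) :
    Meet a (G 1 B0) (G 2 c) (G 3 B0) := by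
  obtain ⟨a1, a2, a3, a4, a5, a6⟩ := ha
  obtain ⟨c1, c2, c3, c4, c5, c6⟩ := hc
  refine meet_sep (2 / 5) (-1) 0 0 ?_ ?_ ?_ ?_ <;>
  ( simp only [lin, E_sub, G1_0, G1_1, G1_2, G2_0, G2_1, G2_2, G3_0, G3_1, G3_2, G4_0, G4_1, G4_2, B0_0, B0_1, B0_2, G_zero']; linarith )

theorem I_L1_L1_3 {a c : E} (ha : RQ a) (hc : RQ c) :
    Meet a (G 1 B0) (G 3 c) (G 4 B0) := by
  obtain ⟨a1, a2, a3, a4, a5, a6⟩ := ha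
  obtain ⟨c1, c2, c3, c4, c5, c6⟩ := hc
  refine meet_sep 1 (-1) 1 (1 / 10) ?_ ?_ ?_ ?_ <;>
  ( simp only [lin, E_sub, G1_0, G1_1, G1_2, G2_0, G2_1, G2_2, G3_0, G3_1, G3_2, G4_0, G4_1, G4_2, B0_0, B0_1, B0_2, G_zero']; linarith )

theorem I_L1_LS_0 {a c : E} (ha : RQ a) (hc : RS c) :
    Meet a (G 1 B0) (G 0 c) (G 0 B0) := by
  obtain ⟨a1, a2, a3, a4, a5, a6⟩ := ha
  obtain ⟨c1, c2, c3, c4, c5, c6⟩ := hc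
  refine meet_sep 1 (-3 / 10) (1 / 10) (3 / 50) ?_ ?_ ?_ ?_ <;>
  ( simp only [lin, E_sub, G1_0, G1_1, G1_2, G2_0, G2_1, G2_2, G3_0, G3_1, G3_2, G4_0, G4_1, G4_2, B0_0, B0_1, B0_2, G_zero']; linarith )

theorem I_L1_LS_2 {a c : E} (ha : RQ a) (hc : RS c) :
    Meet a (G 1 B0) (G 2 c) (G 2 B0) := by
  obtain ⟨a1, a2, a3, a4, a5, a6⟩ := ha
  obtain ⟨c1, c2, c3, c4, c5, c6⟩ := hc
  refine meet_sep (-7 / 10) (-1) 1 0 ?_ ?_ ?_ ?_ <;>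
  ( simp only [lin, E_sub, G1_0, G1_1, G1_2, G2_0, G2_1, G2_2, G3_0, G3_1, G3_2, G4_0, G4_1, G4_2, B0_0, B0_1, B0_2, G_zero']; linarith )

theorem I_L1_LS_3 {a c : E} (ha : RQ a) (hc : RS c) :
    Meet a (G 1 B0) (G 3 c) (G 3 B0) := by
  obtain ⟨a1, a2, a3, a4, a5, a6⟩ := ha
  obtain ⟨c1, c2, c3, c4, c5, c6⟩ := hc
  refine meet_sep 1 (-1) (-1 / 5) (1 / 10) ?_ ?_ ?_ ?_ <;>
  ( simp only [lin, E_sub, G1_0, G1_1, G1_2, G2_0, G2_1, G2_2, G3_0, G3_1, G3_2, G4_0, G4_1, G4_2, B0_0, B0_1, B0_2, G_zero']; linarith )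

end Pool.Agent.Helper39.Net
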