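import Pool.Agent.Helper39.Net.Emb1

/-! # Embedding: linear separation certificates (generated), part 3 -/

set_option linter.unusedSimpArgs false
set_option linter.unusedVariables false

namespace Pool.Agent.Helper39.Net

theorem B_X2_LS_1 {a c : E} (ha : RSL a) (hc : RS c) :
    Meet a (G 1 B0) (G 1 c) (G 1 B0) := by
  obtain ⟨a1, a2, a3, a4, a5, a6⟩ := ha
  obtain ⟨c1, c2, c3, c4, c5, c6⟩ := hc
  refine meet_vertex' 1 1 (-2 / 5) ?_ ?_ <;>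
  ( simp only [lin, E_sub, G1_0, G1_1, G1_2, G2_0, G2_1, G2_2, G3_0, G3_1, G3_2, G4_0, G4_1, G4_2, B0_0, B0_1, B0_2, G_zero']; linarith )

theorem V_PS_PN {q s t : E} (hq : RQ q) (hs : RS s) (ht : RS t) : Meet s q q (G 1 t) := by
  obtain ⟨q1, q2, q3, q4, q5, q6⟩ := hq
  obtain ⟨s1, s2, s3, s4, s5, s6⟩ := hs
  obtain ⟨t1, t2, t3, t4, t5, t6⟩ := ht
  refine (meet_vertex 1 0 0 ?_ ?_).swap_left <;>
  ( simp only [lin, E_sub, G1_0, G1_1, G1_2, G2_0, G2_1, G2_2, G3_0, G3_1, G3_2, G4_0, G4_1, G4_2, B0_0, B0_1, B0_2, G_zero']; linarith )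

theorem U_PS_PN {q s p t : E} (hq : RQ q) (hs : RS s) (hp : RQ p) (ht : RS t) (hK : K (q - p)) :
    Meet s q p (G 1 t) := by
  obtain ⟨q1, q2, q3, q4, q5, q6⟩ := hq
  obtain ⟨s1, s2, s3, s4, s5, s6⟩ := hs
  obtain ⟨p1, p2, p3, p4, p5, p6⟩ := hp
  obtain ⟨t1, t2, t3, t4, t5, t6⟩ := ht
  obtain ⟨k1, k2, k3, k4, k5⟩ := hK
  simp only [E_sub] at k1 k2 k3 k4 k5
  refine (meet_updown 1 0 (1 / 10) ?_ ?_ ?_).swap_left <;>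
  ( simp only [lin, E_sub, G1_0, G1_1, G1_2, G2_0, G2_1, G2_2, G3_0, G3_1, G3_2, G4_0, G4_1, G4_2, B0_0, B0_1, B0_2, G_zero']; linarith )

theorem W_PS_PN {q s p t : E} (hq : RQ q) (hs : RS s) (hp : RQ p) (ht : RS t) (hK : K (p - q)) :
    Meet s q p (G 1 t) := by
  obtain ⟨q1, q2, q3, q4, q5, q6⟩ := hq
  obtain ⟨s1, s2, s3, s4, s5, s6⟩ := hs
  obtain ⟨p1, p2, p3, p4, p5, p6⟩ := hp
  obtain ⟨t1, t2, t3, t4, t5, t6⟩ := ht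
  obtain ⟨k1, k2, k3, k4, k5⟩ := hK
  simp only [E_sub] at k1 k2 k3 k4 k5
  refine (meet_updown (-1) 0 (9 / 10) ?_ ?_ ?_).symm.swap_left <;>
  ( simp only [lin, E_sub, G1_0, G1_1, G1_2, G2_0, G2_1, G2_2, G3_0, G3_1, G3_2, G4_0, G4_1, G4_2, B0_0, B0_1, B0_2, G_zero']; linarith )

theorem V_PS_L0 {q s : E} (hq : RQ q) (hs : RS s) : Meet s q q B0 := by
  obtain ⟨q1, q2, q3, q4, q5, q6⟩ := hq
  obtain ⟨s1, s2, s3, s4, s5, s6⟩ := hs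
  refine (meet_vertex 1 (-1) (-9 / 10) ?_ ?_).swap_left <;>
  ( simp only [lin, E_sub, G1_0, G1_1, G1_2, G2_0, G2_1, G2_2, G3_0, G3_1, G3_2, G4_0, G4_1, G4_2, B0_0, B0_1, B0_2, G_zero']; linarith )

theorem U_PS_L0 {q s p : E} (hq : RQ q) (hs : RS s) (hp : RQ p) (hK : K (q - p)) :
    Meet s q p B0 := by
  obtain ⟨q1, q2, q3, q4, q5, q6⟩ := hq
  obtain ⟨s1, s2, s3, s4, s5, s6⟩ := hs
  obtain ⟨p1, p2, p3, p4, p5, p6⟩ := hp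
  obtain ⟨k1, k2, k3, k4, k5⟩ := hK
  simp only [E_sub] at k1 k2 k3 k4 k5
  refine (meet_updown (1 / 10) (-1) (3 / 10) ?_ ?_ ?_).swap_left <;>
  ( simp only [lin, E_sub, G1_0, G1_1, G1_2, G2_0, G2_1, G2_2, G3_0, G3_1, G3_2, G4_0, G4_1, G4_2, B0_0, B0_1, B0_2, G_zero']; linarith )

theorem W_PS_L0 {q s p : E} (hq : RQ q) (hs : RS s) (hp : RQ p) (hK : K (p - q)) :
    Meet s q p B0 := by
  obtain ⟨q1, q2, q3, q4, q5, q6⟩ := hq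
  obtain ⟨s1, s2, s3, s4, s5, s6⟩ := hs
  obtain ⟨p1, p2, p3, p4, p5, p6⟩ := hp
  obtain ⟨k1, k2, k3, k4, k5⟩ := hK
  simp only [E_sub] at k1 k2 k3 k4 k5
  refine (meet_updown (-1) (11 / 50) (49 / 50) ?_ ?_ ?_).symm.swap_left <;>
  ( simp only [lin, E_sub, G1_0, G1_1, G1_2, G2_0, G2_1, G2_2, G3_0, G3_1, G3_2, G4_0, G4_1, G4_2, B0_0, B0_1, B0_2, G_zero']; linarith )

theorem V_PS_L1 {q s : E} (hq : RQ q) (hs : RS s) : Meet s q q (G 1 B0) := by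
  obtain ⟨q1, q2, q3, q4, q5, q6⟩ := hq
  obtain ⟨s1, s2, s3, s4, s5, s6⟩ := hs
  refine (meet_vertex 1 (-1) (1 / 10) ?_ ?_).swap_left <;>
  ( simp only [lin, E_sub, G1_0, G1_1, G1_2, G2_0, G2_1, G2_2, G3_0, G3_1, G3_2, G4_0, G4_1, G4_2, B0_0, B0_1, B0_2, G_zero']; linarith )

theorem U_PS_L1 {q s p : E} (hq : RQ q) (hs : RS s) (hp : RQ p) (hK : K (q - p)) :
    Meet s q p (G 1 B0) := by
  obtain ⟨q1, q2, q3, q4, q5, q6⟩ := hq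
  obtain ⟨s1, s2, s3, s4, s5, s6⟩ := hs
  obtain ⟨p1, p2, p3, p4, p5, p6⟩ := hp
  obtain ⟨k1, k2, k3, k4, k5⟩ := hK
  simp only [E_sub] at k1 k2 k3 k4 k5
  refine (meet_updown 1 (-7 / 10) (2 / 5) ?_ ?_ ?_).swap_left <;>
  ( simp only [lin, E_sub, G1_0, G1_1, G1_2, G2_0, G2_1, G2_2, G3_0, G3_1, G3_2, G4_0, G4_1, G4_2, B0_0, B0_1, B0_2, G_zero']; linarith )

theorem W_PS_L1 {q s p : E} (hq : RQ q) (hs : RS s) (hp : RQ p) (hK : K (p - q)) :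
    Meet s q p (G 1 B0) := by
  obtain ⟨q1, q2, q3, q4, q5, q6⟩ := hq
  obtain ⟨s1, s2, s3, s4, s5, s6⟩ := hs
  obtain ⟨p1, p2, p3, p4, p5, p6⟩ := hp
  obtain ⟨k1, k2, k3, k4, k5⟩ := hK
  simp only [E_sub] at k1 k2 k3 k4 k5
  refine (meet_updown (-1) 0 (9 / 10) ?_ ?_ ?_).symm.swap_left <;>
  ( simp only [lin, E_sub, G1_0, G1_1, G1_2, G2_0, G2_1, G2_2, G3_0, G3_1, G3_2, G4_0, G4_1, G4_2, B0_0, B0_1, B0_2, G_zero']; linarith )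

theorem V_PN_L0 {q s : E} (hq : RQ q) (hs : RS s) : Meet q (G 1 s) q B0 := by
  obtain ⟨q1, q2, q3, q4, q5, q6⟩ := hq
  obtain ⟨s1, s2, s3, s4, s5, s6⟩ := hs
  refine meet_vertex (-1) (-1) (-1 / 10) ?_ ?_ <;>
  ( simp only [lin, E_sub, G1_0, G1_1, G1_2, G2_0, G2_1, G2_2, G3_0, G3_1, G3_2, G4_0, G4_1, G4_2, B0_0, B0_1, B0_2, G_zero']; linarith )

theorem U_PN_L0 {q s p : E} (hq : RQ q) (hs : RS s) (hp : RQ p) (hK : K (q - p)) :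
    Meet q (G 1 s) p B0 := by
  obtain ⟨q1, q2, q3, q4, q5, q6⟩ := hq
  obtain ⟨s1, s2, s3, s4, s5, s6⟩ := hs
  obtain ⟨p1, p2, p3, p4, p5, p6⟩ := hp
  obtain ⟨k1, k2, k3, k4, k5⟩ := hK
  simp only [E_sub] at k1 k2 k3 k4 k5
  refine (meet_updown (-1) 0 (9 / 10) ?_ ?_ ?_) <;>
  ( simp only [lin, E_sub, G1_0, G1_1, G1_2, G2_0, G2_1, G2_2, G3_0, G3_1, G3_2, G4_0, G4_1, G4_2, B0_0, B0_1, B0_2, G_zero']; linarith )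

theorem W_PN_L0 {q s p : E} (hq : RQ q) (hs : RS s) (hp : RQ p) (hK : K (p - q)) :
    Meet q (G 1 s) p B0 := by
  obtain ⟨q1, q2, q3, q4, q5, q6⟩ := hq
  obtain ⟨s1, s2, s3, s4, s5, s6⟩ := hs
  obtain ⟨p1, p2, p3, p4, p5, p6⟩ := hp
  obtain ⟨k1, k2, k3, k4, k5⟩ := hK
  simp only [E_sub] at k1 k2 k3 k4 k5
  refine (meet_updown 1 (7 / 10) (2 / 5) ?_ ?_ ?_).symm <;>
  ( simp only [lin, E_sub, G1_0, G1_1, G1_2, G2_0, G2_1, G2_2, G3_0, G3_1, G3_2, G4_0, G4_1, G4_2, B0_0, B0_1, B0_2, G_zero']; linarith )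

theorem V_PN_L1 {q s : E} (hq : RQ q) (hs : RS s) : Meet q (G 1 s) q (G 1 B0) := by
  obtain ⟨q1, q2, q3, q4, q5, q6⟩ := hq
  obtain ⟨s1, s2, s3, s4, s5, s6⟩ := hs
  refine meet_vertex (-1) (-1) (9 / 10) ?_ ?_ <;>
  ( simp only [lin, E_sub, G1_0, G1_1, G1_2, G2_0, G2_1, G2_2, G3_0, G3_1, G3_2, G4_0, G4_1, G4_2, B0_0, B0_1, B0_2, G_zero']; linarith )

theorem U_PN_L1 {q s p : E} (hq : RQ q) (hs : RS s) (hp : RQ p) (hK : K (q - p)) :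
    Meet q (G 1 s) p (G 1 B0) := by
  obtain ⟨q1, q2, q3, q4, q5, q6⟩ := hq
  obtain ⟨s1, s2, s3, s4, s5, s6⟩ := hs
  obtain ⟨p1, p2, p3, p4, p5, p6⟩ := hp
  obtain ⟨k1, k2, k3, k4, k5⟩ := hK
  simp only [E_sub] at k1 k2 k3 k4 k5
  refine (meet_updown (-1) (-11 / 50) (49 / 50) ?_ ?_ ?_) <;>
  ( simp only [lin, E_sub, G1_0, G1_1, G1_2, G2_0, G2_1, G2_2, G3_0, G3_1, G3_2, G4_0, G4_1, G4_2, B0_0, B0_1, B0_2, G_zero']; linarith )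

theorem W_PN_L1 {q s p : E} (hq : RQ q) (hs : RS s) (hp : RQ p) (hK : K (p - q)) :
    Meet q (G 1 s) p (G 1 B0) := by
  obtain ⟨q1, q2, q3, q4, q5, q6⟩ := hq
  obtain ⟨s1, s2, s3, s4, s5, s6⟩ := hs
  obtain ⟨p1, p2, p3, p4, p5, p6⟩ := hp
  obtain ⟨k1, k2, k3, k4, k5⟩ := hK
  simp only [E_sub] at k1 k2 k3 k4 k5
  refine (meet_updown (1 / 10) 1 (3 / 10) ?_ ?_ ?_).symm <;>
  ( simp only [lin, E_sub, G1_0, G1_1, G1_2, G2_0, G2_1, G2_2, G3_0, G3_1, G3_2, G4_0, G4_1, G4_2, B0_0, B0_1, B0_2, G_zero']; linarith )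

theorem V_L0_L1 {q : E} (hq : RQ q) : Meet q B0 q (G 1 B0) := by
  obtain ⟨q1, q2, q3, q4, q5, q6⟩ := hq
  refine meet_vertex 1 0 1 ?_ ?_ <;>
  ( simp only [lin, E_sub, G1_0, G1_1, G1_2, G2_0, G2_1, G2_2, G3_0, G3_1, G3_2, G4_0, G4_1, G4_2, B0_0, B0_1, B0_2, G_zero']; linarith )

theorem U_L0_L1 {q p : E} (hq : RQ q) (hp : RQ p) (hK : K (q - p)) :
    Meet q B0 p (G 1 B0) := by
  obtain ⟨q1, q2, q3, q4, q5, q6⟩ := hq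
  obtain ⟨p1, p2, p3, p4, p5, p6⟩ := hp
  obtain ⟨k1, k2, k3, k4, k5⟩ := hK
  simp only [E_sub] at k1 k2 k3 k4 k5
  refine (meet_updown 1 0 1 ?_ ?_ ?_) <;>
  ( simp only [lin, E_sub, G1_0, G1_1, G1_2, G2_0, G2_1, G2_2, G3_0, G3_1, G3_2, G4_0, G4_1, G4_2, B0_0, B0_1, B0_2, G_zero']; linarith )

theorem W_L0_L1 {q p : E} (hq : RQ q) (hp : RQ p) (hK : K (p - q)) :
    Meet q B0 p (G 1 B0) := by
  obtain ⟨q1, q2, q3, q4, q5, q6⟩ := hq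
  obtain ⟨p1, p2, p3, p4, p5, p6⟩ := hp
  obtain ⟨k1, k2, k3, k4, k5⟩ := hK
  simp only [E_sub] at k1 k2 k3 k4 k5
  refine (meet_updown (-1) 0 (9 / 10) ?_ ?_ ?_).symm <;>
  ( simp only [lin, E_sub, G1_0, G1_1, G1_2, G2_0, G2_1, G2_2, G3_0, G3_1, G3_2, G4_0, G4_1, G4_2, B0_0, B0_1, B0_2, G_zero']; linarith )

theorem VS_PS_PN {s q u : E} (hs : RS s) (hq : RQ q) (hu : RQ u) : Meet s q (G 3 u) s := by
  obtain ⟨s1, s2, s3, s4, s5, s6⟩ := hs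
  obtain ⟨q1, q2, q3, q4, q5, q6⟩ := hq
  obtain ⟨u1, u2, u3, u4, u5, u6⟩ := hu
  refine (meet_vertex (-1) 1 0 ?_ ?_).swap_right <;>
  ( simp only [lin, E_sub, G1_0, G1_1, G1_2, G2_0, G2_1, G2_2, G3_0, G3_1, G3_2, G4_0, G4_1, G4_2, B0_0, B0_1, B0_2, G_zero']; linarith )

theorem US_PS_PN {s q t u : E} (hs : RS s) (hq : RQ q) (ht : RS t) (hu : RQ u) (hK : KS (s - t)) :
    Meet s q (G 3 u) t := by
  obtain ⟨s1, s2, s3, s4, s5, s6⟩ := hs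
  obtain ⟨q1, q2, q3, q4, q5, q6⟩ := hq
  obtain ⟨t1, t2, t3, t4, t5, t6⟩ := ht
  obtain ⟨u1, u2, u3, u4, u5, u6⟩ := hu
  obtain ⟨k1, k2, k3, k4, k5, k6, k7⟩ := hK
  simp only [E_sub] at k1 k2 k3 k4 k5 k6 k7
  refine (meet_updown (-1) (9 / 10) 1 ?_ ?_ ?_).swap_right <;>
  ( simp only [lin, E_sub, G1_0, G1_1, G1_2, G2_0, G2_1, G2_2, G3_0, G3_1, G3_2, G4_0, G4_1, G4_2, B0_0, B0_1, B0_2, G_zero']; linarith )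

theorem WS_PS_PN {s q t u : E} (hs : RS s) (hq : RQ q) (ht : RS t) (hu : RQ u) (hK : KS (t - s)) :
    Meet s q (G 3 u) t := by
  obtain ⟨s1, s2, s3, s4, s5, s6⟩ := hs
  obtain ⟨q1, q2, q3, q4, q5, q6⟩ := hq
  obtain ⟨t1, t2, t3, t4, t5, t6⟩ := ht
  obtain ⟨u1, u2, u3, u4, u5, u6⟩ := hu
  obtain ⟨k1, k2, k3, k4, k5, k6, k7⟩ := hK
  simp only [E_sub] at k1 k2 k3 k4 k5 k6 k7
  refine (meet_updown (9 / 10) (-1) 1 ?_ ?_ ?_).symm.swap_right <;>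
  ( simp only [lin, E_sub, G1_0, G1_1, G1_2, G2_0, G2_1, G2_2, G3_0, G3_1, G3_2, G4_0, G4_1, G4_2, B0_0, B0_1, B0_2, G_zero']; linarith )

theorem VS_PS_LS {s q : E} (hs : RS s) (hq : RQ q) : Meet s q s B0 := by
  obtain ⟨s1, s2, s3, s4, s5, s6⟩ := hs
  obtain ⟨q1, q2, q3, q4, q5, q6⟩ := hq
  refine (meet_vertex (-1) (1 / 5) (-3 / 10) ?_ ?_) <;>
  ( simp only [lin, E_sub, G1_0, G1_1, G1_2, G2_0, G2_1, G2_2, G3_0, G3_1, G3_2, G4_0, G4_1, G4_2, B0_0, B0_1, B0_2, G_zero']; linarith )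

theorem US_PS_LS {s q t : E} (hs : RS s) (hq : RQ q) (ht : RS t) (hK : KS (s - t)) :
    Meet s q t B0 := by
  obtain ⟨s1, s2, s3, s4, s5, s6⟩ := hs
  obtain ⟨q1, q2, q3, q4, q5, q6⟩ := hq
  obtain ⟨t1, t2, t3, t4, t5, t6⟩ := ht
  obtain ⟨k1, k2, k3, k4, k5, k6, k7⟩ := hK
  simp only [E_sub] at k1 k2 k3 k4 k5 k6 k7
  refine (meet_updown (-1) (-41 / 100) (79 / 100) ?_ ?_ ?_) <;>
  ( simp only [lin, E_sub, G1_0, G1_1, G1_2, G2_0, G2_1, G2_2, G3_0, G3_1, G3_2, G4_0, G4_1, G4_2, B0_0, B0_1, B0_2, G_zero']; linarith )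

theorem WS_PS_LS {s q t : E} (hs : RS s) (hq : RQ q) (ht : RS t) (hK : KS (t - s)) :
    Meet s q t B0 := by
  obtain ⟨s1, s2, s3, s4, s5, s6⟩ := hs
  obtain ⟨q1, q2, q3, q4, q5, q6⟩ := hq
  obtain ⟨t1, t2, t3, t4, t5, t6⟩ := ht
  obtain ⟨k1, k2, k3, k4, k5, k6, k7⟩ := hK
  simp only [E_sub] at k1 k2 k3 k4 k5 k6 k7
  refine (meet_updown 1 (-7 / 10) 1 ?_ ?_ ?_).symm <;>
  ( simp only [lin, E_sub, G1_0, G1_1, G1_2, G2_0, G2_1, G2_2, G3_0, G3_1, G3_2, G4_0, G4_1, G4_2, B0_0, B0_1, B0_2, G_zero']; linarith )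

theorem VS_PN_LS {s q : E} (hs : RS s) (hq : RQ q) : Meet (G 3 q) s s B0 := by
  obtain ⟨s1, s2, s3, s4, s5, s6⟩ := hs
  obtain ⟨q1, q2, q3, q4, q5, q6⟩ := hq
  refine (meet_vertex (1 / 5) (-1) (-3 / 10) ?_ ?_).swap_left <;>
  ( simp only [lin, E_sub, G1_0, G1_1, G1_2, G2_0, G2_1, G2_2, G3_0, G3_1, G3_2, G4_0, G4_1, G4_2, B0_0, B0_1, B0_2, G_zero']; linarith )

theorem US_PN_LS {s q t : E} (hs : RS s) (hq : RQ q) (ht : RS t) (hK : KS (s - t)) :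
    Meet (G 3 q) s t B0 := by
  obtain ⟨s1, s2, s3, s4, s5, s6⟩ := hs
  obtain ⟨q1, q2, q3, q4, q5, q6⟩ := hq
  obtain ⟨t1, t2, t3, t4, t5, t6⟩ := ht
  obtain ⟨k1, k2, k3, k4, k5, k6, k7⟩ := hK
  simp only [E_sub] at k1 k2 k3 k4 k5 k6 k7
  refine (meet_updown (-41 / 100) (-1) (79 / 100) ?_ ?_ ?_).swap_left <;>
  ( simp only [lin, E_sub, G1_0, G1_1, G1_2, G2_0, G2_1, G2_2, G3_0, G3_1, G3_2, G4_0, G4_1, G4_2, B0_0, B0_1, B0_2, G_zero']; linarith )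

theorem WS_PN_LS {s q t : E} (hs : RS s) (hq : RQ q) (ht : RS t) (hK : KS (t - s)) :
    Meet (G 3 q) s t B0 := by
  obtain ⟨s1, s2, s3, s4, s5, s6⟩ := hs
  obtain ⟨q1, q2, q3, q4, q5, q6⟩ := hq
  obtain ⟨t1, t2, t3, t4, t5, t6⟩ := ht
  obtain ⟨k1, k2, k3, k4, k5, k6, k7⟩ := hK
  simp only [E_sub] at k1 k2 k3 k4 k5 k6 k7
  refine (meet_updown (-7 / 10) 1 1 ?_ ?_ ?_).symm.swap_left <;>
  ( simp only [lin, E_sub, G1_0, G1_1, G1_2, G2_0, G2_1, G2_2, G3_0, G3_1, G3_2, G4_0, G4_1, G4_2, B0_0, B0_1, B0_2, G_zero']; linarith )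

theorem V_X1_PS {s u : E} (hs : RS1 s) (hu : RQ u) : Meet s (G 3 B0) s u := by
  obtain ⟨s1, s2, s3, s4, s5, s6⟩ := hs
  obtain ⟨u1, u2, u3, u4, u5, u6⟩ := hu
  refine (meet_vertex (-1) 1 (1 / 5) ?_ ?_).symm <;>
  ( simp only [lin, E_sub, G1_0, G1_1, G1_2, G2_0, G2_1, G2_2, G3_0, G3_1, G3_2, G4_0, G4_1, G4_2, B0_0, B0_1, B0_2, G_zero']; linarith )

theorem U_X1_PS {s t u : E} (hs : RS1 s) (ht : RS t) (hu : RQ u) (hz : 1 / 10 ≤ t 2) :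
    Meet s (G 3 B0) t u := by
  obtain ⟨s1, s2, s3, s4, s5, s6⟩ := hs
  obtain ⟨t1, t2, t3, t4, t5, t6⟩ := ht
  obtain ⟨u1, u2, u3, u4, u5, u6⟩ := hu
  refine meet_sep (-4 / 5) (-4 / 5) 1 (-53 / 100) ?_ ?_ ?_ ?_ <;>
  ( simp only [lin, E_sub, G1_0, G1_1, G1_2, G2_0, G2_1, G2_2, G3_0, G3_1, G3_2, G4_0, G4_1, G4_2, B0_0, B0_1, B0_2, G_zero']; linarith )

theorem U_X1_PN {s t u : E} (hs : RS1 s) (ht : RS t) (hu : RQ u) (hz : 1 / 10 ≤ t 2) :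
    Meet s (G 3 B0) (G 3 u) t := by
  obtain ⟨s1, s2, s3, s4, s5, s6⟩ := hs
  obtain ⟨t1, t2, t3, t4, t5, t6⟩ := ht
  obtain ⟨u1, u2, u3, u4, u5, u6⟩ := hu
  refine meet_sep (1 / 10) (-2 / 5) 1 (-1 / 10) ?_ ?_ ?_ ?_ <;>
  ( simp only [lin, E_sub, G1_0, G1_1, G1_2, G2_0, G2_1, G2_2, G3_0, G3_1, G3_2, G4_0, G4_1, G4_2, B0_0, B0_1, B0_2, G_zero']; linarith )

theorem V_X1_LS {s : E} (hs : RS1 s) : Meet s (G 3 B0) s B0 := by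
  obtain ⟨s1, s2, s3, s4, s5, s6⟩ := hs
  refine (meet_vertex (1 / 10) 1 1 ?_ ?_).symm <;>
  ( simp only [lin, E_sub, G1_0, G1_1, G1_2, G2_0, G2_1, G2_2, G3_0, G3_1, G3_2, G4_0, G4_1, G4_2, B0_0, B0_1, B0_2, G_zero']; linarith )

theorem U_X1_LS {s t : E} (hs : RS1 s) (ht : RS t) (hz : 1 / 10 ≤ t 2) :
    Meet s (G 3 B0) t B0 := by
  obtain ⟨s1, s2, s3, s4, s5, s6⟩ := hs
  obtain ⟨t1, t2, t3, t4, t5, t6⟩ := ht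
  refine meet_sep 1 (4 / 5) 1 (3 / 5) ?_ ?_ ?_ ?_ <;>
  ( simp only [lin, E_sub, G1_0, G1_1, G1_2, G2_0, G2_1, G2_2, G3_0, G3_1, G3_2, G4_0, G4_1, G4_2, B0_0, B0_1, B0_2, G_zero']; linarith )

theorem U_X2_PS {s t u : E} (hs : RSL s) (ht : RS t) (hu : RQ u) (hz : 1 / 10 ≤ t 2) :
    Meet s (G 1 B0) t u := by
  obtain ⟨s1, s2, s3, s4, s5, s6⟩ := hs
  obtain ⟨t1, t2, t3, t4, t5, t6⟩ := ht
  obtain ⟨u1, u2, u3, u4, u5, u6⟩ := hu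
  refine meet_sep (-2 / 5) (1 / 10) 1 (-1 / 10) ?_ ?_ ?_ ?_ <;>
  ( simp only [lin, E_sub, G1_0, G1_1, G1_2, G2_0, G2_1, G2_2, G3_0, G3_1, G3_2, G4_0, G4_1, G4_2, B0_0, B0_1, B0_2, G_zero']; linarith )

theorem V_X2_PN {s u : E} (hs : RSL s) (hu : RQ u) : Meet s (G 1 B0) (G 3 u) s := by
  obtain ⟨s1, s2, s3, s4, s5, s6⟩ := hs
  obtain ⟨u1, u2, u3, u4, u5, u6⟩ := hu
  refine (meet_vertex 1 (-1) (1 / 5) ?_ ?_).symm.swap_right <;>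
  ( simp only [lin, E_sub, G1_0, G1_1, G1_2, G2_0, G2_1, G2_2, G3_0, G3_1, G3_2, G4_0, G4_1, G4_2, B0_0, B0_1, B0_2, G_zero']; linarith )

theorem U_X2_PN {s t u : E} (hs : RSL s) (ht : RS t) (hu : RQ u) (hz : 1 / 10 ≤ t 2) :
    Meet s (G 1 B0) (G 3 u) t := by
  obtain ⟨s1, s2, s3, s4, s5, s6⟩ := hs
  obtain ⟨t1, t2, t3, t4, t5, t6⟩ := ht
  obtain ⟨u1, u2, u3, u4, u5, u6⟩ := hu
  refine meet_sep (-4 / 5) (-4 / 5) 1 (-53 / 100) ?_ ?_ ?_ ?_ <;>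
  ( simp only [lin, E_sub, G1_0, G1_1, G1_2, G2_0, G2_1, G2_2, G3_0, G3_1, G3_2, G4_0, G4_1, G4_2, B0_0, B0_1, B0_2, G_zero']; linarith )

theorem V_X2_LS {s : E} (hs : RSL s) : Meet s (G 1 B0) s B0 := by
  obtain ⟨s1, s2, s3, s4, s5, s6⟩ := hs
  refine (meet_vertex 1 (1 / 10) 1 ?_ ?_).symm <;>
  ( simp only [lin, E_sub, G1_0, G1_1, G1_2, G2_0, G2_1, G2_2, G3_0, G3_1, G3_2, G4_0, G4_1, G4_2, B0_0, B0_1, B0_2, G_zero']; linarith )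

theorem U_X2_LS {s t : E} (hs : RSL s) (ht : RS t) (hz : 1 / 10 ≤ t 2) :
    Meet s (G 1 B0) t B0 := by
  obtain ⟨s1, s2, s3, s4, s5, s6⟩ := hs
  obtain ⟨t1, t2, t3, t4, t5, t6⟩ := ht
  refine meet_sep (4 / 5) 1 1 (3 / 5) ?_ ?_ ?_ ?_ <;>
  ( simp only [lin, E_sub, G1_0, G1_1, G1_2, G2_0, G2_1, G2_2, G3_0, G3_1, G3_2, G4_0, G4_1, G4_2, B0_0, B0_1, B0_2, G_zero']; linarith )

end Pool.Agent.Helper39.Net
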