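import Pool.Agent.Helper39.Net.Basic

/-! # The minimisation lemma -/

namespace Pool.Agent.Helper39.Net

open scoped RealInnerProductSpace

theorem growth_ineq {a n : E} {R : ℝ} (hn : ‖n‖ = 1) (hR : ‖a‖ ≤ R) (hR0 : 0 < R) :
    ⟪n, a⟫ + (‖a‖ ^ 2 - ⟪n, a⟫ ^ 2) / (2 * R) ≤ ‖a‖ := by
  have h1 : ⟪n, a⟫ ≤ ‖a‖ := by
    have := real_inner_le_norm n a
    rwa [hn, one_mul] at this
  have h2 : (‖a‖ ^ 2 - ⟪n, a⟫ ^ 2) / (2 * R) ≤ ‖a‖ - ⟪n, a⟫ := by
    rw [div_le_iff₀ (by positivity)]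
    have h3 : 0 ≤ ‖a‖ - ⟪n, a⟫ := by linarith
    nlinarith [norm_nonneg a]
  linarith

theorem perp_eq {d b : E} (hd : d ≠ 0) :
    ‖d + b‖ ^ 2 - ⟪un d, d + b⟫ ^ 2 = ‖b‖ ^ 2 - ⟪un d, b⟫ ^ 2 := by
  have hd0 : ‖d‖ ≠ 0 := norm_ne_zero_iff.mpr hd
  have h1 : ⟪un d, d⟫ = ‖d‖ := by
    rw [un, real_inner_smul_left, real_inner_self_eq_norm_sq]
    field_simp
  have h2 : ⟪d, b⟫ = ‖d‖ * ⟪un d, b⟫ := by
    rw [un, real_inner_smul_left]
    field_simp
  rw [inner_add_right, h1, norm_add_sq_real, h2]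
  ring

theorem inner_un_self {d : E} (hd : d ≠ 0) : ⟪un d, d⟫ = ‖d‖ := by
  have hd0 : ‖d‖ ≠ 0 := norm_ne_zero_iff.mpr hd
  rw [un, real_inner_smul_left, real_inner_self_eq_norm_sq]
  field_simp

theorem hasDerivAt_norm_line {a b : E} (ha : a ≠ 0) :
    HasDerivAt (fun s : ℝ => ‖a + s • b‖) ⟪un a, b⟫ 0 := by
  have hline : HasDerivAt (fun s : ℝ => a + s • b) b 0 := by
    simpa using ((hasDerivAt_id (0 : ℝ)).smul_const b).const_add a
  have hsq : HasDerivAt (fun s : ℝ => ‖a + s • b‖ ^ 2) (2 * ⟪a, b⟫) 0 := by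
    have := hline.norm_sq
    simpa using this
  have hne : ‖a + (0 : ℝ) • b‖ ^ 2 ≠ 0 := by simpa using ha
  have h := hsq.sqrt hne
  have hfun : (fun s : ℝ => ‖a + s • b‖) = fun s : ℝ => Real.sqrt (‖a + s • b‖ ^ 2) := by
    funext s
    rw [Real.sqrt_sq (norm_nonneg _)]
  rw [hfun]
  convert h using 1
  rw [zero_smul, add_zero, Real.sqrt_sq (norm_nonneg _), un, real_inner_smul_left]
  have ha0 : ‖a‖ ≠ 0 := norm_ne_zero_iff.mpr ha
  field_simp

/-- minimisation of a sum of norms of affine maps near an approximate critical point -/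
theorem min_lemma {X : Type*} [NormedAddCommGroup X] [InnerProductSpace ℝ X]
    [FiniteDimensional ℝ X] {κ : Type*} [Fintype κ] (A : κ → X →ₗ[ℝ] E) (t : κ → E) (x0 : X)
    (r c ρ : ℝ) (R : κ → ℝ) (hr : 0 < r) (hc : 0 < c) (hρ : 0 ≤ ρ)
    (hρr : ρ < c * r)
    (hR : ∀ e, ∀ x, ‖x - x0‖ ≤ r → ‖A e x - t e‖ ≤ R e)
    (hne : ∀ e, ∀ x, ‖x - x0‖ ≤ r → A e x - t e ≠ 0)
    (hcoer : ∀ δ : X, c * ‖δ‖ ^ 2 ≤
      ∑ e, (‖A e δ‖ ^ 2 - ⟪un (A e x0 - t e), A e δ⟫ ^ 2) / (2 * R e))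
    (hres : ∀ δ : X, |∑ e, ⟪un (A e x0 - t e), A e δ⟫| ≤ ρ * ‖δ‖) :
    ∃ x : X, ‖x - x0‖ ≤ ρ / c ∧ ‖x - x0‖ ≤ r ∧
      ∀ h : X, ∑ e, ⟪un (A e x - t e), A e h⟫ = 0 := by
  classical
  set f : X → ℝ := fun x => ∑ e, ‖A e x - t e‖ with hf
  have hcont : Continuous f := by
    refine continuous_finsetSum _ (fun e _ => ?_)
    exact (((A e).continuous_of_finiteDimensional).sub continuous_const).norm
  have hcomp : IsCompact (Metric.closedBall x0 r) := isCompact_closedBall x0 r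
  obtain ⟨x, hxmem, hxmin⟩ := hcomp.exists_isMinOn ⟨x0, Metric.mem_closedBall_self hr.le⟩
    hcont.continuousOn
  have hxr : ‖x - x0‖ ≤ r := by simpa [dist_eq_norm] using hxmem
  have hx0 : ‖x0 - x0‖ ≤ r := by simpa using hr.le
  -- main estimate
  set δ : X := x - x0 with hδ
  have hkey : ∀ e, ‖A e x0 - t e‖ + ⟪un (A e x0 - t e), A e δ⟫ +
      (‖A e δ‖ ^ 2 - ⟪un (A e x0 - t e), A e δ⟫ ^ 2) / (2 * R e) ≤ ‖A e x - t e‖ := by
    intro e
    have hd := hne e x0 hx0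
    have hsum : A e x - t e = (A e x0 - t e) + A e δ := by
      rw [hδ, map_sub]
      abel
    have hRe : ‖A e x - t e‖ ≤ R e := hR e x hxr
    have hR0 : 0 < R e := lt_of_lt_of_le (norm_pos_iff.mpr (hne e x hxr)) hRe
    have h1 := growth_ineq (a := A e x - t e) (n := un (A e x0 - t e)) (norm_un hd) hRe hR0
    have h2 : ⟪un (A e x0 - t e), A e x - t e⟫ =
        ‖A e x0 - t e‖ + ⟪un (A e x0 - t e), A e δ⟫ := by
      rw [hsum, inner_add_right, inner_un_self hd]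
    have h3 : ‖A e x - t e‖ ^ 2 - ⟪un (A e x0 - t e), A e x - t e⟫ ^ 2 =
        ‖A e δ‖ ^ 2 - ⟪un (A e x0 - t e), A e δ⟫ ^ 2 := by
      rw [hsum]
      exact perp_eq hd
    rw [h3, h2] at h1
    exact h1
  have hfx : f x0 + ∑ e, ⟪un (A e x0 - t e), A e δ⟫ +
      ∑ e, (‖A e δ‖ ^ 2 - ⟪un (A e x0 - t e), A e δ⟫ ^ 2) / (2 * R e) ≤ f x := by
    simp only [hf]
    rw [← Finset.sum_add_distrib, ← Finset.sum_add_distrib]
    exact Finset.sum_le_sum (fun e _ => hkey e)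
  have hmin : f x ≤ f x0 := hxmin (Metric.mem_closedBall_self hr.le)
  have hc1 := hcoer δ
  have hr1 := hres δ
  have hle : c * ‖δ‖ ^ 2 ≤ ρ * ‖δ‖ := by
    have := (abs_le.mp hr1).1
    linarith
  have hδle : ‖δ‖ ≤ ρ / c := by
    rw [le_div_iff₀ hc]
    rcases (norm_nonneg δ).eq_or_lt with h0 | h0
    · rw [← h0]
      simpa using hρ
    · nlinarith
  refine ⟨x, hδle, hxr, fun h => ?_⟩
  have hlt : ‖x - x0‖ < r := lt_of_le_of_lt hδle (by rwa [div_lt_iff₀ hc, mul_comm])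
  -- stationarity
  have hder : HasDerivAt (fun s : ℝ => f (x + s • h)) (∑ e, ⟪un (A e x - t e), A e h⟫) 0 := by
    have hfe : (fun s : ℝ => f (x + s • h)) =
        fun s : ℝ => ∑ e, ‖(A e x - t e) + s • A e h‖ := by
      funext s
      simp only [hf]
      refine Finset.sum_congr rfl (fun e _ => ?_)
      rw [map_add, map_smul]
      congr 1
      abel
    rw [hfe]
    have := HasDerivAt.fun_sum (u := Finset.univ) (A := fun e (s : ℝ) => ‖(A e x - t e) + s • A e h‖)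
      (A' := fun e => ⟪un (A e x - t e), A e h⟫) (x := (0 : ℝ))
      (fun e _ => hasDerivAt_norm_line (hne e x hxr))
    simpa using this
  have hloc : IsLocalMin (fun s : ℝ => f (x + s • h)) 0 := by
    have hcl : ContinuousAt (fun s : ℝ => x + s • h) 0 := by fun_prop
    have hnhds : Metric.ball x0 r ∈ nhds (x + (0 : ℝ) • h) := by
      refine Metric.isOpen_ball.mem_nhds ?_
      simpa [dist_eq_norm] using hlt
    filter_upwards [hcl hnhds] with s hs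
    have h8 : x + s • h ∈ Metric.closedBall x0 r := Metric.ball_subset_closedBall hs
    have h9 := hxmin h8
    simpa using h9
  exact hloc.hasDerivAt_eq_zero hder

end Pool.Agent.Helper39.Net
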