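import Pool.Agent.Helper39.Net.Shared
import Pool.Agent.Helper39.Net.MinL

/-! # A balanced chain near an approximately balanced reference chain -/

namespace Pool.Agent.Helper39.Net

open scoped RealInnerProductSpace

/-! ## Orthogonal parts -/

/-- the square of the norm of the component of `a` orthogonal to `v` -/
noncomputable def chP (v a : E) : ℝ := ‖a‖ ^ 2 - ⟪un v, a⟫ ^ 2

theorem ch_P_nonneg {v : E} (hv : v ≠ 0) (a : E) : 0 ≤ chP v a := by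
  have h1 : |⟪un v, a⟫| ≤ ‖a‖ := by
    have := abs_real_inner_le_norm (un v) a
    rwa [norm_un hv, one_mul] at this
  have h2 := sq_le_sq' (by linarith [abs_nonneg ⟪un v, a⟫, norm_nonneg a]) h1
  rw [sq_abs] at h2
  unfold chP
  linarith

theorem ch_par (v x b : E) : chP v (x + b) + chP v (x - b) = 2 * chP v x + 2 * chP v b := by
  unfold chP
  rw [norm_add_sq_real, norm_sub_sq_real, inner_add_right, inner_sub_right]
  ring

theorem ch_P_sub {v : E} (hv : v ≠ 0) (a b : E) :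
    1 / 2 * chP v a - chP v b ≤ chP v (a - b) := by
  have h1 := ch_P_nonneg hv (a - b - b)
  have h2 := ch_par v (a - b) b
  rw [sub_add_cancel] at h2
  linarith

theorem ch_unit {n1 n2 : E} (h1 : ‖n1‖ = 1) (h2 : ‖n2‖ = 1) (a : E) :
    ⟪n1, a⟫ ^ 2 + ⟪n2, a⟫ ^ 2 ≤ (1 + |⟪n1, n2⟫|) * ‖a‖ ^ 2 := by
  set p := ⟪n1, a⟫ with hp
  set q := ⟪n2, a⟫ with hq
  set c := ⟪n1, n2⟫ with hc
  have hpos : 0 < 1 + |c| := by positivity
  have h3 : 0 ≤ ‖(1 + |c|) • a - p • n1 - q • n2‖ ^ 2 := by positivity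
  have h4 : ‖(1 + |c|) • a - p • n1 - q • n2‖ ^ 2 =
      (1 + |c|) ^ 2 * ‖a‖ ^ 2 - 2 * (1 + |c|) * (p ^ 2 + q ^ 2) + p ^ 2 + q ^ 2 +
        2 * c * p * q := by
    rw [norm_sub_sq_real, norm_sub_sq_real, inner_sub_left, real_inner_smul_left,
      real_inner_smul_right, real_inner_smul_left, real_inner_smul_right,
      real_inner_smul_left, real_inner_smul_right, norm_smul, norm_smul, norm_smul, h1, h2,
      real_inner_comm n1 a, real_inner_comm n2 a, ← hp, ← hq, ← hc, mul_pow, mul_pow, mul_pow]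
    simp only [Real.norm_eq_abs, sq_abs]
    ring
  rw [h4] at h3
  have h5 : 2 * c * p * q ≤ |c| * (p ^ 2 + q ^ 2) := by
    have h6 : |c * (2 * p * q)| ≤ |c| * (p ^ 2 + q ^ 2) := by
      rw [abs_mul]
      apply mul_le_mul_of_nonneg_left _ (abs_nonneg c)
      rw [abs_le]
      constructor <;> nlinarith [sq_nonneg (p + q), sq_nonneg (p - q)]
    have h7 := le_abs_self (c * (2 * p * q))
    linarith
  have h6 : 0 ≤ (1 + |c|) * ((1 + |c|) * ‖a‖ ^ 2 - (p ^ 2 + q ^ 2)) := by nlinarith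
  have h7 := nonneg_of_mul_nonneg_right h6 hpos
  linarith

theorem ch_two {u v : E} (hu : u ≠ 0) (hv : v ≠ 0) (a : E) (τ : ℝ) (h1 : τ ≤ 1)
    (h : τ * (‖u‖ ^ 2 * ‖v‖ ^ 2) ≤ ‖u‖ ^ 2 * ‖v‖ ^ 2 - ⟪u, v⟫ ^ 2) :
    τ / 2 * ‖a‖ ^ 2 ≤ chP u a + chP v a := by
  have hu0 : 0 < ‖u‖ := norm_pos_iff.mpr hu
  have hv0 : 0 < ‖v‖ := norm_pos_iff.mpr hv
  have h2 := ch_unit (norm_un hu) (norm_un hv) a
  have h3 : ⟪un u, un v⟫ ^ 2 ≤ 1 - τ := by
    have h4 : ⟪un u, un v⟫ = ⟪u, v⟫ / (‖u‖ * ‖v‖) := by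
      rw [un, un, real_inner_smul_left, real_inner_smul_right]
      field_simp
    rw [h4, div_pow, div_le_iff₀ (by positivity)]
    nlinarith
  have h5 : |⟪un u, un v⟫| ≤ 1 - τ / 2 := by
    apply abs_le_of_sq_le_sq _ (by linarith)
    nlinarith [sq_nonneg τ]
  unfold chP
  have h6 : (1 + |⟪un u, un v⟫|) * ‖a‖ ^ 2 ≤ (2 - τ / 2) * ‖a‖ ^ 2 :=
    mul_le_mul_of_nonneg_right (by linarith) (by positivity)
  linarith

theorem ch_lagrange (u v : E) : ‖u‖ ^ 2 * ‖v‖ ^ 2 - ⟪u, v⟫ ^ 2 =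
    (u 1 * v 2 - u 2 * v 1) ^ 2 + (u 2 * v 0 - u 0 * v 2) ^ 2 + (u 0 * v 1 - u 1 * v 0) ^ 2 := by
  rw [normsq3, normsq3, inner3]
  ring

/-! ## Boxes -/

/-- enlarged region of the pair vertices -/
structure ChQ (v : E) : Prop where
  x1 : v 0 ≤ 971 / 10000
  x2 : -(971 / 10000) ≤ v 0
  y1 : v 1 ≤ 4993 / 10000
  y2 : 4669 / 10000 ≤ v 1
  z1 : v 2 ≤ 134 / 1000
  z2 : -(134 / 1000) ≤ v 2

/-- enlarged region of the single vertices -/
structure ChS (v : E) : Prop where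
  p1 : 6446 / 10000 ≤ v 0 + v 1
  p2 : v 0 + v 1 ≤ 7316 / 10000
  m1 : v 0 - v 1 ≤ 1213 / 10000
  m2 : -(1213 / 10000) ≤ v 0 - v 1
  z1 : -(519 / 10000) ≤ v 2
  z2 : v 2 ≤ 2144 / 10000

theorem ch_Q {q v : E} (hq : RQ q) (h : ‖v - q‖ ≤ 2 / 10 ^ 5) : ChQ v := by
  have h0 := abs_le.mp ((coord_le_norm (v - q) 0).trans h)
  have h1 := abs_le.mp ((coord_le_norm (v - q) 1).trans h)
  have h2 := abs_le.mp ((coord_le_norm (v - q) 2).trans h)
  simp only [E_sub] at h0 h1 h2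
  obtain ⟨a1, a2, a3, a4, a5, a6⟩ := hq
  constructor <;> linarith

theorem ch_S {q v : E} (hq : RS q) (h : ‖v - q‖ ≤ 2 / 10 ^ 5) : ChS v := by
  have h0 := abs_le.mp ((coord_le_norm (v - q) 0).trans h)
  have h1 := abs_le.mp ((coord_le_norm (v - q) 1).trans h)
  have h2 := abs_le.mp ((coord_le_norm (v - q) 2).trans h)
  simp only [E_sub] at h0 h1 h2
  obtain ⟨a1, a2, a3, a4, a5, a6⟩ := hq
  constructor <;> linarith

theorem ch_sq_bd {x b : ℝ} (h1 : x ≤ b) (h2 : -b ≤ x) : x ^ 2 ≤ b ^ 2 := by nlinarith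

theorem ch_norm_le {w : E} (b0 b1 b2 R : ℝ) (hR : 0 ≤ R) (h0 : w 0 ^ 2 ≤ b0) (h1 : w 1 ^ 2 ≤ b1)
    (h2 : w 2 ^ 2 ≤ b2) (h : b0 + b1 + b2 ≤ R ^ 2) : ‖w‖ ≤ R := by
  apply le_of_sq_le_sq _ hR
  rw [normsq3]
  linarith

theorem ch_ne {w : E} (i : Fin 3) (h : w i ≠ 0) : w ≠ 0 := by
  rintro rfl
  exact h rfl

theorem ch_path1 {q s : E} (hq : ChQ q) (hs : ChS s) : ‖s - q‖ ≤ 3 / 4 := by
  obtain ⟨a1, a2, a3, a4, a5, a6⟩ := hq
  obtain ⟨c1, c2, c3, c4, c5, c6⟩ := hs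
  apply ch_norm_le ((5236 / 10000) ^ 2) ((2378 / 10000) ^ 2) ((3484 / 10000) ^ 2) _ (by norm_num)
  · exact ch_sq_bd (by simp only [E_sub]; linarith) (by simp only [E_sub]; linarith)
  · exact ch_sq_bd (by simp only [E_sub]; linarith) (by simp only [E_sub]; linarith)
  · exact ch_sq_bd (by simp only [E_sub]; linarith) (by simp only [E_sub]; linarith)
  · norm_num

theorem ch_path2 {q s : E} (hq : ChQ q) (hs : ChS s) : ‖g s - q‖ ≤ 3 / 4 := by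
  obtain ⟨a1, a2, a3, a4, a5, a6⟩ := hq
  obtain ⟨c1, c2, c3, c4, c5, c6⟩ := hs
  apply ch_norm_le ((5236 / 10000) ^ 2) ((2378 / 10000) ^ 2) ((3484 / 10000) ^ 2) _ (by norm_num)
  · exact ch_sq_bd (by simp only [E_sub, g_0]; linarith) (by simp only [E_sub, g_0]; linarith)
  · exact ch_sq_bd (by simp only [E_sub, g_1]; linarith) (by simp only [E_sub, g_1]; linarith)
  · exact ch_sq_bd (by simp only [E_sub, g_2]; linarith) (by simp only [E_sub, g_2]; linarith)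
  · norm_num

theorem B0_0 : B0 0 = 1 := rfl
theorem B0_1 : B0 1 = 1 := rfl
theorem B0_2 : B0 2 = 1 := rfl
theorem B1_0 : B1 0 = -1 := rfl
theorem B1_1 : B1 1 = 1 := rfl
theorem B1_2 : B1 2 = -1 := rfl
theorem B3_0 : B3 0 = 1 := rfl
theorem B3_1 : B3 1 = -1 := rfl
theorem B3_2 : B3 2 = -1 := rfl

theorem ch_lab0 {q : E} (hq : ChQ q) : ‖q - B0‖ ^ 2 ≤ 279 / 100 := by
  obtain ⟨a1, a2, a3, a4, a5, a6⟩ := hq
  rw [normsq3]
  simp only [E_sub, B0_0, B0_1, B0_2]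
  have h0 : (q 0 - 1) ^ 2 ≤ (10971 / 10000) ^ 2 := ch_sq_bd (by linarith) (by linarith)
  have h1 : (q 1 - 1) ^ 2 ≤ (5331 / 10000) ^ 2 := ch_sq_bd (by linarith) (by linarith)
  have h2 : (q 2 - 1) ^ 2 ≤ (1134 / 1000) ^ 2 := ch_sq_bd (by linarith) (by linarith)
  norm_num at h0 h1 h2 ⊢
  linarith

theorem ch_lab1 {q : E} (hq : ChQ q) : ‖q - B1‖ ^ 2 ≤ 279 / 100 := by
  obtain ⟨a1, a2, a3, a4, a5, a6⟩ := hq
  rw [normsq3]
  simp only [E_sub, B1_0, B1_1, B1_2]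
  have h0 : (q 0 - -1) ^ 2 ≤ (10971 / 10000) ^ 2 := ch_sq_bd (by linarith) (by linarith)
  have h1 : (q 1 - 1) ^ 2 ≤ (5331 / 10000) ^ 2 := ch_sq_bd (by linarith) (by linarith)
  have h2 : (q 2 - -1) ^ 2 ≤ (1134 / 1000) ^ 2 := ch_sq_bd (by linarith) (by linarith)
  norm_num at h0 h1 h2 ⊢
  linarith

theorem ch_labS {s : E} (hs : ChS s) : ‖s - B0‖ ^ 2 ≤ 204 / 100 := by
  obtain ⟨c1, c2, c3, c4, c5, c6⟩ := hs
  rw [normsq3]
  simp only [E_sub, B0_0, B0_1, B0_2]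
  have h0 : (s 0 + s 1 - 2) ^ 2 ≤ (13554 / 10000) ^ 2 := ch_sq_bd (by linarith) (by linarith)
  have h1 : (s 0 - s 1) ^ 2 ≤ (1213 / 10000) ^ 2 := ch_sq_bd (by linarith) (by linarith)
  have h2 : (s 2 - 1) ^ 2 ≤ (10519 / 10000) ^ 2 := ch_sq_bd (by linarith) (by linarith)
  have h3 : (s 0 - 1) ^ 2 + (s 1 - 1) ^ 2 = ((s 0 + s 1 - 2) ^ 2 + (s 0 - s 1) ^ 2) / 2 := by ring
  norm_num at h0 h1 h2 ⊢
  linarith

theorem ch_labE1 {s : E} (hs : ChS s) : ‖s - B1‖ ^ 2 ≤ 41 / 10 := by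
  obtain ⟨c1, c2, c3, c4, c5, c6⟩ := hs
  rw [normsq3]
  simp only [E_sub, B1_0, B1_1, B1_2]
  have h0 : (s 0 - -1) ^ 2 ≤ (14265 / 10000) ^ 2 := ch_sq_bd (by linarith) (by linarith)
  have h1 : (s 1 - 1) ^ 2 ≤ (7384 / 10000) ^ 2 := ch_sq_bd (by linarith) (by linarith)
  have h2 : (s 2 - -1) ^ 2 ≤ (12144 / 10000) ^ 2 := ch_sq_bd (by linarith) (by linarith)
  norm_num at h0 h1 h2 ⊢
  linarith

theorem ch_labE3 {s : E} (hs : ChS s) : ‖s - B3‖ ^ 2 ≤ 41 / 10 := by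
  obtain ⟨c1, c2, c3, c4, c5, c6⟩ := hs
  rw [normsq3]
  simp only [E_sub, B3_0, B3_1, B3_2]
  have h0 : (s 0 - 1) ^ 2 ≤ (7384 / 10000) ^ 2 := ch_sq_bd (by linarith) (by linarith)
  have h1 : (s 1 - -1) ^ 2 ≤ (14265 / 10000) ^ 2 := ch_sq_bd (by linarith) (by linarith)
  have h2 : (s 2 - -1) ^ 2 ≤ (12144 / 10000) ^ 2 := ch_sq_bd (by linarith) (by linarith)
  norm_num at h0 h1 h2 ⊢
  linarith

theorem ch_ne1 {q s : E} (hq : ChQ q) (hs : ChS s) : s - q ≠ 0 := by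
  apply ch_ne 0
  obtain ⟨a1, a2, a3, a4, a5, a6⟩ := hq
  obtain ⟨c1, c2, c3, c4, c5, c6⟩ := hs
  simp only [E_sub]
  intro h
  linarith

theorem ch_ne2 {q s : E} (hq : ChQ q) (hs : ChS s) : g s - q ≠ 0 := by
  apply ch_ne 0
  obtain ⟨a1, a2, a3, a4, a5, a6⟩ := hq
  obtain ⟨c1, c2, c3, c4, c5, c6⟩ := hs
  simp only [E_sub, g_0]
  intro h
  linarith

theorem ch_ne3 {q : E} (hq : ChQ q) : q - B0 ≠ 0 := by
  apply ch_ne 1
  obtain ⟨a1, a2, a3, a4, a5, a6⟩ := hq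
  simp only [E_sub, B0_1]
  intro h
  linarith

theorem ch_ne4 {q : E} (hq : ChQ q) : q - B1 ≠ 0 := by
  apply ch_ne 1
  obtain ⟨a1, a2, a3, a4, a5, a6⟩ := hq
  simp only [E_sub, B1_1]
  intro h
  linarith

theorem ch_ne5 {s : E} (hs : ChS s) : s - B0 ≠ 0 := by
  apply ch_ne 0
  obtain ⟨c1, c2, c3, c4, c5, c6⟩ := hs
  simp only [E_sub, B0_0]
  intro h
  linarith

theorem ch_ne6 {s : E} (hs : ChS s) : s - B3 ≠ 0 := by
  apply ch_ne 0
  obtain ⟨c1, c2, c3, c4, c5, c6⟩ := hs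
  simp only [E_sub, B3_0]
  intro h
  linarith

theorem ch_ne7 {s : E} (hs : ChS s) : s - B1 ≠ 0 := by
  apply ch_ne 0
  obtain ⟨c1, c2, c3, c4, c5, c6⟩ := hs
  simp only [E_sub, B1_0]
  intro h
  linarith

/-! ## Coercivity at the vertices -/

theorem ch_coQ {q : E} (hq : ChQ q) (a : E) :
    1 / 8 * ‖a‖ ^ 2 ≤ chP (q - B0) a + chP (q - B1) a := by
  have h := ch_two (ch_ne3 hq) (ch_ne4 hq) a (1 / 4) (by norm_num) (by
    rw [ch_lagrange]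
    have h1 := ch_lab0 hq
    have h2 := ch_lab1 hq
    have h3 : ‖q - B0‖ ^ 2 * ‖q - B1‖ ^ 2 ≤ 279 / 100 * (279 / 100) :=
      mul_le_mul h1 h2 (by positivity) (by norm_num)
    obtain ⟨a1, a2, a3, a4, a5, a6⟩ := hq
    simp only [E_sub, B0_0, B0_1, B0_2, B1_0, B1_1, B1_2]
    have h4 : (5007 / 10000) ^ 2 ≤ (1 - q 1) ^ 2 := by nlinarith
    have h5 : ((q 1 - 1) * (q 2 - -1) - (q 2 - 1) * (q 1 - 1)) ^ 2 = 4 * (1 - q 1) ^ 2 := by ring
    have h6 : ((q 0 - 1) * (q 1 - 1) - (q 1 - 1) * (q 0 - -1)) ^ 2 = 4 * (1 - q 1) ^ 2 := by ring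
    rw [h5, h6]
    have h7 := sq_nonneg ((q 2 - 1) * (q 0 - -1) - (q 0 - 1) * (q 2 - -1))
    norm_num at h3 h4 ⊢
    linarith)
  linarith

theorem ch_coS {q s : E} (hq : ChQ q) (hs : ChS s) (a : E) :
    385 / 20000 * ‖a‖ ^ 2 ≤ chP (s - B0) a + chP (s - q) a := by
  have h := ch_two (ch_ne5 hs) (ch_ne1 hq hs) a (385 / 10000) (by norm_num) (by
    rw [ch_lagrange]
    have h1 := ch_labS hs
    obtain ⟨a1, a2, a3, a4, a5, a6⟩ := hq
    obtain ⟨c1, c2, c3, c4, c5, c6⟩ := hs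
    have e0 : (s - q) 0 = s 0 - q 0 := rfl
    have e1 : (s - q) 1 = s 1 - q 1 := rfl
    have e2 : (s - q) 2 = s 2 - q 2 := rfl
    set v0 := (s - q) 0 with hv0
    set v1 := (s - q) 1 with hv1
    set v2 := (s - q) 2 with hv2
    have b0 : 16 / 100 ≤ v0 := by linarith
    have b1 : v1 ≤ -(4 / 100) := by linarith
    have b2 : v2 ^ 2 ≤ (35 / 100) ^ 2 := ch_sq_bd (by linarith) (by linarith)
    have hn : ‖s - q‖ ^ 2 = v0 ^ 2 + v1 ^ 2 + v2 ^ 2 := normsq3 _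
    have hm : (2 / 10) ^ 2 ≤ (v0 - v1) ^ 2 := by nlinarith
    have h2 : ‖s - q‖ ^ 2 ≤ 41 / 10 * (v0 - v1) ^ 2 := by
      rw [hn]
      nlinarith
    have h3 : ‖s - B0‖ ^ 2 * ‖s - q‖ ^ 2 ≤ 204 / 100 * (41 / 10 * (v0 - v1) ^ 2) :=
      mul_le_mul h1 h2 (by positivity) (by norm_num)
    have h4 : 57 / 100 * (v0 - v1) ≤ (s - B0) 0 * v1 - (s - B0) 1 * v0 := by
      simp only [E_sub, B0_0, B0_1]
      nlinarith
    have h5 : (57 / 100 * (v0 - v1)) ^ 2 ≤ ((s - B0) 0 * v1 - (s - B0) 1 * v0) ^ 2 :=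
      pow_le_pow_left₀ (by linarith) h4 2
    have h6 := sq_nonneg ((s - B0) 1 * v2 - (s - B0) 2 * v1)
    have h7 := sq_nonneg ((s - B0) 2 * v0 - (s - B0) 0 * v2)
    have h8 : 0 ≤ (v0 - v1) ^ 2 := sq_nonneg _
    have h9 : (57 / 100 * (v0 - v1)) ^ 2 = 3249 / 10000 * (v0 - v1) ^ 2 := by ring
    rw [h9] at h5
    linarith)
  linarith

theorem ch_coL {s : E} (hs : ChS s) (a : E) :
    3 / 40 * ‖a‖ ^ 2 ≤ chP (s - B0) a + chP (s - B1) a := by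
  have h := ch_two (ch_ne5 hs) (ch_ne7 hs) a (15 / 100) (by norm_num) (by
    rw [ch_lagrange]
    have h1 := ch_labS hs
    have h2 := ch_labE1 hs
    have h3 : ‖s - B0‖ ^ 2 * ‖s - B1‖ ^ 2 ≤ 204 / 100 * (41 / 10) :=
      mul_le_mul h1 h2 (by positivity) (by norm_num)
    obtain ⟨c1, c2, c3, c4, c5, c6⟩ := hs
    simp only [E_sub, B0_0, B0_1, B0_2, B1_0, B1_1, B1_2]
    have h4 : (573 / 1000) ^ 2 ≤ (1 - s 1) ^ 2 := by nlinarith
    have h6 : ((s 0 - 1) * (s 1 - 1) - (s 1 - 1) * (s 0 - -1)) ^ 2 = 4 * (1 - s 1) ^ 2 := by ring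
    rw [h6]
    have h7 := sq_nonneg ((s 1 - 1) * (s 2 - -1) - (s 2 - 1) * (s 1 - 1))
    have h8 := sq_nonneg ((s 2 - 1) * (s 0 - -1) - (s 0 - 1) * (s 2 - -1))
    norm_num at h3 h4 ⊢
    linarith)
  linarith

/-! ## The function to be minimised -/

/-- the configuration space -/
abbrev ChX (L : ℕ) : Type := PiLp 2 (fun _ : Fin L ⊕ Fin (L + 1) => E)

/-- the edges -/
abbrev ChK (L : ℕ) : Type :=
  (Fin L ⊕ Fin L) ⊕ ((Fin L ⊕ Fin L) ⊕ (Fin (L + 1) ⊕ (Unit ⊕ Unit)))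

/-- the projections -/
noncomputable def chp (L : ℕ) (i : Fin L ⊕ Fin (L + 1)) : ChX L →ₗ[ℝ] E :=
  PiLp.projₗ 2 (fun _ : Fin L ⊕ Fin (L + 1) => E) i

theorem chp_apply (L : ℕ) (i : Fin L ⊕ Fin (L + 1)) (x : ChX L) : chp L i x = x i := rfl

/-- the linear parts -/
noncomputable def chA (L : ℕ) : ChK L → ChX L →ₗ[ℝ] E :=
  Sum.elim
    (Sum.elim (fun i => chp L (Sum.inr i.castSucc) - chp L (Sum.inl i))
      (fun i => g.toLinearEquiv.toLinearMap ∘ₗ chp L (Sum.inr i.succ) - chp L (Sum.inl i)))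
    (Sum.elim (Sum.elim (fun i => chp L (Sum.inl i)) (fun i => chp L (Sum.inl i)))
      (Sum.elim (fun i => chp L (Sum.inr i))
        (Sum.elim (fun _ => chp L (Sum.inr 0)) (fun _ => chp L (Sum.inr (Fin.last L))))))

/-- the constants -/
noncomputable def cht (L : ℕ) : ChK L → E :=
  Sum.elim (Sum.elim (fun _ => 0) (fun _ => 0))
    (Sum.elim (Sum.elim (fun _ => B0) (fun _ => B1))
      (Sum.elim (fun _ => B0) (Sum.elim (fun _ => B3) (fun _ => B1))))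

/-- the length bounds -/
noncomputable def chR (L : ℕ) : ChK L → ℝ :=
  Sum.elim (Sum.elim (fun _ => 3 / 4) (fun _ => 3 / 4))
    (Sum.elim (Sum.elim (fun _ => 17 / 10) (fun _ => 17 / 10))
      (Sum.elim (fun _ => 29 / 20) (Sum.elim (fun _ => 3) (fun _ => 3))))

/-- the configuration of two sequences -/
noncomputable def chX0 (L : ℕ) (q s : ℕ → E) : ChX L :=
  WithLp.toLp 2 (Sum.elim (fun i : Fin L => q (i + 1)) (fun i : Fin (L + 1) => s (i + 1)))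

theorem chX0_inl (L : ℕ) (q s : ℕ → E) (i : Fin L) : chX0 L q s (Sum.inl i) = q (i + 1) := rfl
theorem chX0_inr (L : ℕ) (q s : ℕ → E) (i : Fin (L + 1)) :
    chX0 L q s (Sum.inr i) = s (i + 1) := rfl

/-- the vector of residuals -/
noncomputable def chRes (L : ℕ) (q s : ℕ → E) : ChX L :=
  WithLp.toLp 2 (Sum.elim (fun i : Fin L => resQ q s (i + 1))
    (fun i : Fin (L + 1) => resS L q s (i + 1)))

theorem un_comm (u v : E) : un (u - v) = - un (v - u) := by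
  rw [← un_neg, neg_sub]

theorem ch_res_sum (L : ℕ) (q s : ℕ → E) (h : ChX L) :
    ∑ i : Fin (L + 1), ⟪resS L q s (i + 1), h (Sum.inr i)⟫ =
      (∑ i : Fin L, ⟪un (q (i + 1) - s (i + 1)), h (Sum.inr i.castSucc)⟫ +
        ⟪un (B1 - s (L + 1)), h (Sum.inr (Fin.last L))⟫) +
      (⟪un (B3 - s 1), h (Sum.inr 0)⟫ +
        ∑ i : Fin L, ⟪un (g.symm (q (i + 1)) - s (i + 1 + 1)), h (Sum.inr i.succ)⟫) +
      ∑ i : Fin (L + 1), ⟪un (B0 - s (i + 1)), h (Sum.inr i)⟫ := by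
  simp only [resS, inner_add_left, Finset.sum_add_distrib]
  congr 1
  congr 1
  · rw [Fin.sum_univ_castSucc]
    congr 1
    · apply Finset.sum_congr rfl
      intro i _
      have hi : ((i.castSucc : Fin (L + 1)) : ℕ) + 1 ≤ L := by
        have := i.isLt
        simp only [Fin.val_castSucc]
        omega
      rw [if_pos hi]
      rfl
    · have hi : ¬ (((Fin.last L : Fin (L + 1)) : ℕ) + 1 ≤ L) := by
        simp only [Fin.val_last]
        omega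
      rw [if_neg hi]
      rfl
  · rw [Fin.sum_univ_succ]
    congr 1

theorem ch_identity (L : ℕ) (q s : ℕ → E) (h : ChX L) :
    ∑ e, ⟪un (chA L e (chX0 L q s) - cht L e), chA L e h⟫ = - ⟪chRes L q s, h⟫ := by
  have hI : ⟪chRes L q s, h⟫ = ∑ i : Fin L, ⟪resQ q s (i + 1), h (Sum.inl i)⟫ +
      ∑ i : Fin (L + 1), ⟪resS L q s (i + 1), h (Sum.inr i)⟫ := by
    rw [PiLp.inner_apply, Fintype.sum_sum_type]
    rfl
  have hsum : ∑ e, ⟪un (chA L e (chX0 L q s) - cht L e), chA L e h⟫ =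
      (∑ i : Fin L, ⟪un (s (i + 1) - q (i + 1)), h (Sum.inr i.castSucc) - h (Sum.inl i)⟫ +
        ∑ i : Fin L, ⟪un (g (s (i + 1 + 1)) - q (i + 1)),
          g (h (Sum.inr i.succ)) - h (Sum.inl i)⟫) +
      ((∑ i : Fin L, ⟪un (q (i + 1) - B0), h (Sum.inl i)⟫ +
        ∑ i : Fin L, ⟪un (q (i + 1) - B1), h (Sum.inl i)⟫) +
      (∑ i : Fin (L + 1), ⟪un (s (i + 1) - B0), h (Sum.inr i)⟫ +
        (⟪un (s 1 - B3), h (Sum.inr 0)⟫ +
          ⟪un (s (L + 1) - B1), h (Sum.inr (Fin.last L))⟫))) := by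
    simp only [Fintype.sum_sum_type, chA, cht, Sum.elim_inl, Sum.elim_inr, LinearMap.sub_apply,
      LinearMap.comp_apply, chp_apply, chX0_inl, chX0_inr, sub_zero, Finset.univ_unique,
      Finset.sum_singleton, Fin.val_castSucc, Fin.val_succ, Fin.val_zero, Fin.val_last]
    rfl
  have e1 : ∀ i : Fin L, ⟪un (s (i + 1) - q (i + 1)), h (Sum.inr i.castSucc) - h (Sum.inl i)⟫ =
      - ⟪un (q (i + 1) - s (i + 1)), h (Sum.inr i.castSucc)⟫ -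
        ⟪un (s (i + 1) - q (i + 1)), h (Sum.inl i)⟫ := by
    intro i
    rw [inner_sub_right, un_comm (q (i + 1)) (s (i + 1)), inner_neg_left, neg_neg]
  have e2 : ∀ i : Fin L, ⟪un (g (s (i + 1 + 1)) - q (i + 1)),
      g (h (Sum.inr i.succ)) - h (Sum.inl i)⟫ =
      - ⟪un (g.symm (q (i + 1)) - s (i + 1 + 1)), h (Sum.inr i.succ)⟫ -
        ⟪un (g (s (i + 1 + 1)) - q (i + 1)), h (Sum.inl i)⟫ := by
    intro i
    rw [inner_sub_right]
    congr 1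
    have h1 : un (g (s (i + 1 + 1)) - q (i + 1)) =
        g (un (s (i + 1 + 1) - g.symm (q (i + 1)))) := by
      rw [g_un, map_sub, LinearIsometryEquiv.apply_symm_apply]
    rw [h1, LinearIsometryEquiv.inner_map_map, un_comm (s (i + 1 + 1)), inner_neg_left]
  have e3 : ∀ (v b w : E), ⟪un (v - b), w⟫ = - ⟪un (b - v), w⟫ := by
    intro v b w
    rw [un_comm v b, inner_neg_left]
  have r1 : ∀ i : Fin L, ⟪resQ q s (i + 1), h (Sum.inl i)⟫ =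
      ⟪un (s (i + 1) - q (i + 1)), h (Sum.inl i)⟫ +
      ⟪un (g (s (i + 1 + 1)) - q (i + 1)), h (Sum.inl i)⟫ +
      ⟪un (B0 - q (i + 1)), h (Sum.inl i)⟫ + ⟪un (B1 - q (i + 1)), h (Sum.inl i)⟫ := by
    intro i
    rw [resQ, inner_add_left, inner_add_left, inner_add_left]
  rw [hI, hsum, ch_res_sum, Finset.sum_congr rfl (fun i _ => e1 i),
    Finset.sum_congr rfl (fun i _ => e2 i), Finset.sum_congr rfl (fun i _ => r1 i),
    Finset.sum_congr rfl (fun (i : Fin L) _ => e3 (q (i + 1)) B0 (h (Sum.inl i))),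
    Finset.sum_congr rfl (fun (i : Fin L) _ => e3 (q (i + 1)) B1 (h (Sum.inl i))),
    Finset.sum_congr rfl (fun (i : Fin (L + 1)) _ => e3 (s (i + 1)) B0 (h (Sum.inr i))),
    e3 (s 1) B3, e3 (s (L + 1)) B1]
  simp only [Finset.sum_add_distrib, Finset.sum_sub_distrib, Finset.sum_neg_distrib]
  ring

/-! ## Hypotheses of the minimisation lemma -/

section hyps

variable {L : ℕ} {q s : ℕ → E} (hq : ∀ j, 1 ≤ j → j ≤ L → RQ (q j))
  (hs : ∀ j, 1 ≤ j → j ≤ L + 1 → RS (s j))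

include hq in
theorem ch_ballQ {x : ChX L} (hx : ‖x - chX0 L q s‖ ≤ 2 / 10 ^ 5) (i : Fin L) :
    ChQ (x (Sum.inl i)) := by
  apply ch_Q (hq (i + 1) (by omega) (by have := i.isLt; omega))
  have := PiLp.norm_apply_le (x - chX0 L q s) (Sum.inl i)
  rw [PiLp.sub_apply, chX0_inl] at this
  exact this.trans hx

include hs in
theorem ch_ballS {x : ChX L} (hx : ‖x - chX0 L q s‖ ≤ 2 / 10 ^ 5) (i : Fin (L + 1)) :
    ChS (x (Sum.inr i)) := by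
  apply ch_S (hs (i + 1) (by omega) (by have := i.isLt; omega))
  have := PiLp.norm_apply_le (x - chX0 L q s) (Sum.inr i)
  rw [PiLp.sub_apply, chX0_inr] at this
  exact this.trans hx

theorem ch_edge_cases (P : ChK L → Prop) (h1 : ∀ i, P (Sum.inl (Sum.inl i)))
    (h2 : ∀ i, P (Sum.inl (Sum.inr i))) (h3 : ∀ i, P (Sum.inr (Sum.inl (Sum.inl i))))
    (h4 : ∀ i, P (Sum.inr (Sum.inl (Sum.inr i)))) (h5 : ∀ i, P (Sum.inr (Sum.inr (Sum.inl i))))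
    (h6 : ∀ i, P (Sum.inr (Sum.inr (Sum.inr (Sum.inl i)))))
    (h7 : ∀ i, P (Sum.inr (Sum.inr (Sum.inr (Sum.inr i))))) : ∀ e, P e := by
  rintro ((i | i) | ((i | i) | (i | (i | i))))
  · exact h1 i
  · exact h2 i
  · exact h3 i
  · exact h4 i
  · exact h5 i
  · exact h6 i
  · exact h7 i

include hq hs in
theorem ch_hR : ∀ e, ∀ x : ChX L, ‖x - chX0 L q s‖ ≤ 2 / 10 ^ 5 →
    ‖chA L e x - cht L e‖ ≤ chR L e := by
  apply ch_edge_cases
  · intro i x hx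
    have := ch_path1 (ch_ballQ hq hx i) (ch_ballS hs hx i.castSucc)
    simpa [chA, cht, chR, chp_apply] using this
  · intro i x hx
    have := ch_path2 (ch_ballQ hq hx i) (ch_ballS hs hx i.succ)
    simpa [chA, cht, chR, chp_apply] using this
  · intro i x hx
    have := ch_lab0 (ch_ballQ hq hx i)
    have h2 : ‖x (Sum.inl i) - B0‖ ≤ 17 / 10 :=
      le_of_sq_le_sq (by norm_num; linarith) (by norm_num)
    simpa [chA, cht, chR, chp_apply] using h2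
  · intro i x hx
    have := ch_lab1 (ch_ballQ hq hx i)
    have h2 : ‖x (Sum.inl i) - B1‖ ≤ 17 / 10 :=
      le_of_sq_le_sq (by norm_num; linarith) (by norm_num)
    simpa [chA, cht, chR, chp_apply] using h2
  · intro i x hx
    have := ch_labS (ch_ballS hs hx i)
    have h2 : ‖x (Sum.inr i) - B0‖ ≤ 29 / 20 :=
      le_of_sq_le_sq (by norm_num; linarith) (by norm_num)
    simpa [chA, cht, chR, chp_apply] using h2
  · intro i x hx
    have := ch_labE3 (ch_ballS hs hx 0)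
    have h2 : ‖x (Sum.inr 0) - B3‖ ≤ 3 :=
      le_of_sq_le_sq (by norm_num; linarith) (by norm_num)
    simpa [chA, cht, chR, chp_apply] using h2
  · intro i x hx
    have := ch_labE1 (ch_ballS hs hx (Fin.last L))
    have h2 : ‖x (Sum.inr (Fin.last L)) - B1‖ ≤ 3 :=
      le_of_sq_le_sq (by norm_num; linarith) (by norm_num)
    simpa [chA, cht, chR, chp_apply] using h2

include hq hs in
theorem ch_hne : ∀ e, ∀ x : ChX L, ‖x - chX0 L q s‖ ≤ 2 / 10 ^ 5 →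
    chA L e x - cht L e ≠ 0 := by
  apply ch_edge_cases
  · intro i x hx
    have := ch_ne1 (ch_ballQ hq hx i) (ch_ballS hs hx i.castSucc)
    simpa [chA, cht, chp_apply] using this
  · intro i x hx
    have := ch_ne2 (ch_ballQ hq hx i) (ch_ballS hs hx i.succ)
    simpa [chA, cht, chp_apply] using this
  · intro i x hx
    have := ch_ne3 (ch_ballQ hq hx i)
    simpa [chA, cht, chp_apply] using this
  · intro i x hx
    have := ch_ne4 (ch_ballQ hq hx i)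
    simpa [chA, cht, chp_apply] using this
  · intro i x hx
    have := ch_ne5 (ch_ballS hs hx i)
    simpa [chA, cht, chp_apply] using this
  · intro i x hx
    have := ch_ne6 (ch_ballS hs hx 0)
    simpa [chA, cht, chp_apply] using this
  · intro i x hx
    have := ch_ne7 (ch_ballS hs hx (Fin.last L))
    simpa [chA, cht, chp_apply] using this

theorem ch_normsq (x : ChX L) : ‖x‖ ^ 2 = ∑ i : Fin L, ‖x (Sum.inl i)‖ ^ 2 +
    ∑ i : Fin (L + 1), ‖x (Sum.inr i)‖ ^ 2 := by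
  rw [PiLp.norm_sq_eq_of_L2, Fintype.sum_sum_type]

theorem ch_arith1 (P5 P7 n : ℝ) (h2 : 3 / 40 * n ≤ P5 + P7) (h3 : 0 ≤ P5) (h4 : 0 ≤ P7)
    (h5 : 0 ≤ n) : 1 / 10 ^ 4 * n ≤ P5 / (2 * (29 / 20)) + P7 / (2 * 3) := by
  have e1 : P5 / (2 * (29 / 20)) = 10 / 29 * P5 := by ring
  have e2 : P7 / (2 * 3) = 1 / 6 * P7 := by ring
  rw [e1, e2]
  linarith

theorem ch_arith2 (P3 P4 P5 Pa Pb Pc a b : ℝ) (h2 : 1 / 8 * a ≤ P3 + P4)
    (h3 : 385 / 20000 * b ≤ P5 + Pb) (h4 : 1 / 2 * Pb - Pa ≤ Pc) (h5 : 0 ≤ Pc) (h6 : 0 ≤ P5)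
    (h7 : Pa ≤ a) (h8 : 0 ≤ a) (h9 : 0 ≤ b) : 1 / 10 ^ 4 * (a + b) ≤
      Pc / (2 * (3 / 4)) + P3 / (2 * (17 / 10)) + P4 / (2 * (17 / 10)) +
        P5 / (2 * (29 / 20)) := by
  have e1 : P5 / (2 * (29 / 20)) = 10 / 29 * P5 := by ring
  have e2 : P3 / (2 * (17 / 10)) = 5 / 17 * P3 := by ring
  have e3 : P4 / (2 * (17 / 10)) = 5 / 17 * P4 := by ring
  have e4 : Pc / (2 * (3 / 4)) = 2 / 3 * Pc := by ring
  rw [e1, e2, e3, e4]
  linarith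

include hq hs in
theorem ch_coer (δ : ChX L) : 1 / 10 ^ 4 * ‖δ‖ ^ 2 ≤
    ∑ e, (‖chA L e δ‖ ^ 2 - ⟪un (chA L e (chX0 L q s) - cht L e), chA L e δ⟫ ^ 2) /
      (2 * chR L e) := by
  have h0 : ‖chX0 L q s - chX0 L q s‖ ≤ 2 / 10 ^ 5 := by
    rw [sub_self, norm_zero]; norm_num
  have hQ : ∀ i : Fin L, ChQ (q (i + 1)) := fun i => ch_ballQ hq h0 i
  have hS : ∀ i : Fin (L + 1), ChS (s (i + 1)) := fun i => ch_ballS hs h0 i
  have hsum : ∑ e, (‖chA L e δ‖ ^ 2 -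
      ⟪un (chA L e (chX0 L q s) - cht L e), chA L e δ⟫ ^ 2) / (2 * chR L e) =
      (∑ i : Fin L, chP (s (i + 1) - q (i + 1)) (δ (Sum.inr i.castSucc) - δ (Sum.inl i)) /
          (2 * (3 / 4)) +
        ∑ i : Fin L, chP (g (s (i + 1 + 1)) - q (i + 1))
          (g (δ (Sum.inr i.succ)) - δ (Sum.inl i)) / (2 * (3 / 4))) +
      ((∑ i : Fin L, chP (q (i + 1) - B0) (δ (Sum.inl i)) / (2 * (17 / 10)) +
        ∑ i : Fin L, chP (q (i + 1) - B1) (δ (Sum.inl i)) / (2 * (17 / 10))) +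
      (∑ i : Fin (L + 1), chP (s (i + 1) - B0) (δ (Sum.inr i)) / (2 * (29 / 20)) +
        (chP (s 1 - B3) (δ (Sum.inr 0)) / (2 * 3) +
          chP (s (L + 1) - B1) (δ (Sum.inr (Fin.last L))) / (2 * 3)))) := by
    simp only [Fintype.sum_sum_type, chA, cht, chR, Sum.elim_inl, Sum.elim_inr,
      LinearMap.sub_apply, LinearMap.comp_apply, chp_apply, chX0_inl, chX0_inr, sub_zero,
      Finset.univ_unique, Finset.sum_singleton, Fin.val_castSucc, Fin.val_succ, Fin.val_zero,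
      Fin.val_last]
    rfl
  rw [hsum, ch_normsq, Fin.sum_univ_castSucc (fun i : Fin (L + 1) => ‖δ (Sum.inr i)‖ ^ 2),
    Fin.sum_univ_castSucc (fun i : Fin (L + 1) =>
      chP (s (i + 1) - B0) (δ (Sum.inr i)) / (2 * (29 / 20)))]
  have hdrop1 : 0 ≤ ∑ i : Fin L, chP (g (s (i + 1 + 1)) - q (i + 1))
          (g (δ (Sum.inr i.succ)) - δ (Sum.inl i)) / (2 * (3 / 4)) := by
    apply Finset.sum_nonneg
    intro i _
    apply div_nonneg _ (by norm_num)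
    exact ch_P_nonneg (ch_ne2 (hQ i) (hS i.succ)) _
  have hdrop2 : 0 ≤ chP (s 1 - B3) (δ (Sum.inr 0)) / (2 * 3) :=
    div_nonneg (ch_P_nonneg (ch_ne6 (hS 0)) _) (by norm_num)
  have hlast : 1 / 10 ^ 4 * ‖δ (Sum.inr (Fin.last L))‖ ^ 2 ≤
      chP (s (((Fin.last L : Fin (L + 1)) : ℕ) + 1) - B0) (δ (Sum.inr (Fin.last L))) /
        (2 * (29 / 20)) +
      chP (s (L + 1) - B1) (δ (Sum.inr (Fin.last L))) / (2 * 3) := by
    have h1 := hS (Fin.last L)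
    rw [Fin.val_last] at h1 ⊢
    have h2 := ch_coL h1 (δ (Sum.inr (Fin.last L)))
    have h3 := ch_P_nonneg (ch_ne5 h1) (δ (Sum.inr (Fin.last L)))
    have h4 := ch_P_nonneg (ch_ne7 h1) (δ (Sum.inr (Fin.last L)))
    have h5 : 0 ≤ ‖δ (Sum.inr (Fin.last L))‖ ^ 2 := by positivity
    exact ch_arith1 _ _ _ h2 h3 h4 h5
  have hmain : ∀ i : Fin L, 1 / 10 ^ 4 * (‖δ (Sum.inl i)‖ ^ 2 + ‖δ (Sum.inr i.castSucc)‖ ^ 2) ≤
      chP (s (i + 1) - q (i + 1)) (δ (Sum.inr i.castSucc) - δ (Sum.inl i)) / (2 * (3 / 4)) +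
      chP (q (i + 1) - B0) (δ (Sum.inl i)) / (2 * (17 / 10)) +
      chP (q (i + 1) - B1) (δ (Sum.inl i)) / (2 * (17 / 10)) +
      chP (s ((i.castSucc : Fin (L + 1)) + 1) - B0) (δ (Sum.inr i.castSucc)) /
        (2 * (29 / 20)) := by
    intro i
    have h1 := hS i.castSucc
    rw [Fin.val_castSucc] at h1 ⊢
    have h2 := ch_coQ (hQ i) (δ (Sum.inl i))
    have h3 := ch_coS (hQ i) h1 (δ (Sum.inr i.castSucc))
    have h4 := ch_P_sub (ch_ne1 (hQ i) h1) (δ (Sum.inr i.castSucc)) (δ (Sum.inl i))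
    have h5 := ch_P_nonneg (ch_ne1 (hQ i) h1) (δ (Sum.inr i.castSucc) - δ (Sum.inl i))
    have h6 := ch_P_nonneg (ch_ne5 h1) (δ (Sum.inr i.castSucc))
    have h7 : chP (s (i + 1) - q (i + 1)) (δ (Sum.inl i)) ≤ ‖δ (Sum.inl i)‖ ^ 2 := by
      unfold chP
      have := sq_nonneg ⟪un (s (i + 1) - q (i + 1)), δ (Sum.inl i)⟫
      linarith
    have h8 : 0 ≤ ‖δ (Sum.inl i)‖ ^ 2 := by positivity
    have h9 : 0 ≤ ‖δ (Sum.inr i.castSucc)‖ ^ 2 := by positivity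
    exact ch_arith2 _ _ _ _ _ _ _ _ h2 h3 h4 h5 h6 h7 h8 h9
  have hsum2 := Finset.sum_le_sum (fun i (_ : i ∈ (Finset.univ : Finset (Fin L))) => hmain i)
  simp only [← Finset.mul_sum, Finset.sum_add_distrib] at hsum2
  linarith

theorem ch_sum_Icc (f : ℕ → ℝ) (n : ℕ) : ∑ j ∈ Finset.Icc 1 n, f j = ∑ i : Fin n, f (i + 1) := by
  rw [← Finset.sum_range (fun i => f (i + 1)), Finset.range_eq_Ico,
    Finset.sum_Ico_add' f 0 n 1]
  rfl

theorem ch_residual (ρ : ℝ) (hρ0 : 0 ≤ ρ)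
    (hres : ∑ j ∈ Finset.Icc 1 L, ‖resQ q s j‖ ^ 2 +
      ∑ j ∈ Finset.Icc 1 (L + 1), ‖resS L q s j‖ ^ 2 ≤ ρ ^ 2) (δ : ChX L) :
    |∑ e, ⟪un (chA L e (chX0 L q s) - cht L e), chA L e δ⟫| ≤ ρ * ‖δ‖ := by
  rw [ch_identity, abs_neg]
  apply (abs_real_inner_le_norm _ _).trans
  apply mul_le_mul_of_nonneg_right _ (norm_nonneg δ)
  apply le_of_sq_le_sq _ hρ0
  rw [ch_normsq]
  rw [ch_sum_Icc, ch_sum_Icc] at hres
  exact hres

end hyps

/-! ## The theorem -/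

theorem exists_chain (L : ℕ) (hL : 1 ≤ L) (q s : ℕ → E) (ρ : ℝ) (hρ0 : 0 ≤ ρ)
    (hρ : ρ ≤ 1 / 10 ^ 9)
    (hq : ∀ j, 1 ≤ j → j ≤ L → RQ (q j)) (hs : ∀ j, 1 ≤ j → j ≤ L + 1 → RS (s j))
    (hres : ∑ j ∈ Finset.Icc 1 L, ‖resQ q s j‖ ^ 2 +
      ∑ j ∈ Finset.Icc 1 (L + 1), ‖resS L q s j‖ ^ 2 ≤ ρ ^ 2) :
    ∃ Q S : ℕ → E, IsChain L Q S ∧ (∀ j, 1 ≤ j → j ≤ L → ‖Q j - q j‖ ≤ 10 ^ 4 * ρ) ∧
      (∀ j, 1 ≤ j → j ≤ L + 1 → ‖S j - s j‖ ≤ 10 ^ 4 * ρ) := by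
  obtain ⟨x, hx1, -, hx3⟩ := min_lemma (chA L) (cht L) (chX0 L q s) (2 / 10 ^ 5) (1 / 10 ^ 4) ρ
    (chR L) (by norm_num) (by norm_num) hρ0 (by norm_num at hρ ⊢; linarith) (ch_hR hq hs)
    (ch_hne hq hs) (ch_coer hq hs) (ch_residual ρ hρ0 hres)
  let Q : ℕ → E := fun j => if h : j - 1 < L then x (Sum.inl ⟨j - 1, h⟩) else 0
  let S : ℕ → E := fun j => if h : j - 1 < L + 1 then x (Sum.inr ⟨j - 1, h⟩) else 0
  have hQ : ∀ i : Fin L, Q (i + 1) = x (Sum.inl i) := by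
    intro i
    have h : ((i : ℕ) + 1) - 1 < L := by have := i.isLt; omega
    show (if h : ((i : ℕ) + 1) - 1 < L then x (Sum.inl ⟨(i : ℕ) + 1 - 1, h⟩) else 0) = _
    rw [dif_pos h]
    rfl
  have hS : ∀ i : Fin (L + 1), S (i + 1) = x (Sum.inr i) := by
    intro i
    have h : ((i : ℕ) + 1) - 1 < L + 1 := by have := i.isLt; omega
    show (if h : ((i : ℕ) + 1) - 1 < L + 1 then x (Sum.inr ⟨(i : ℕ) + 1 - 1, h⟩) else 0) = _
    rw [dif_pos h]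
    rfl
  have hx : chX0 L Q S = x := by
    ext1 i
    rcases i with i | i
    · exact hQ i
    · exact hS i
  have hzero : chRes L Q S = 0 := by
    have h1 := hx3 (chRes L Q S)
    rw [← hx, ch_identity, neg_eq_zero] at h1
    exact inner_self_eq_zero.mp h1
  have hle : ‖x - chX0 L q s‖ ≤ 10 ^ 4 * ρ := by
    have : ρ / (1 / 10 ^ 4) = 10 ^ 4 * ρ := by field_simp
    rwa [this] at hx1
  refine ⟨Q, S, ⟨?_, ?_⟩, ?_, ?_⟩
  · intro j h1 h2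
    obtain ⟨i, rfl⟩ : ∃ i, j = i + 1 := ⟨j - 1, by omega⟩
    have := congrArg (fun v : ChX L => v (Sum.inl ⟨i, by omega⟩)) hzero
    exact this
  · intro j h1 h2
    obtain ⟨i, rfl⟩ : ∃ i, j = i + 1 := ⟨j - 1, by omega⟩
    have := congrArg (fun v : ChX L => v (Sum.inr ⟨i, by omega⟩)) hzero
    exact this
  · intro j h1 h2
    obtain ⟨i, rfl⟩ : ∃ i, j = i + 1 := ⟨j - 1, by omega⟩
    have h3 := PiLp.norm_apply_le (x - chX0 L q s) (Sum.inl ⟨i, by omega⟩)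
    rw [PiLp.sub_apply, chX0_inl, ← hQ] at h3
    exact h3.trans hle
  · intro j h1 h2
    obtain ⟨i, rfl⟩ : ∃ i, j = i + 1 := ⟨j - 1, by omega⟩
    have h3 := PiLp.norm_apply_le (x - chX0 L q s) (Sum.inr ⟨i, by omega⟩)
    rw [PiLp.sub_apply, chX0_inr, ← hS] at h3
    exact h3.trans hle

end Pool.Agent.Helper39.Net
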