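import Pool.Agent.Helper39.Net.Basic

/-!
# Geodesic nets and the combinatorial data of the caterpillar nets
-/

namespace Pool.Agent.Helper39.Net

/-- `H` (a finite graph whose vertices are points of Euclidean three-space, each edge being drawn
as the straight segment between its end points) is a geodesic net with set of unbalanced vertices
`T`. -/
structure IsGeodesicNet (T : Set E) (H : (⊤ : SimpleGraph E).Subgraph) : Prop where
  finite : H.verts.Finite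
  connected : H.Connected
  boundary : T ⊆ H.verts
  no_boundary_edge : ∀ a ∈ T, ∀ b ∈ T, ¬ H.Adj a b
  embedded : ∀ a b c d, H.Adj a b → H.Adj c d → s(a, b) ≠ s(c, d) →
    segment ℝ a b ∩ segment ℝ c d ⊆ {a, b} ∩ {c, d}
  degree : ∀ v ∈ H.verts, v ∉ T → 3 ≤ (H.neighborSet v).ncard
  balanced : ∀ v ∈ H.verts, v ∉ T → ∑ᶠ w ∈ H.neighborSet v, ‖w - v‖⁻¹ • (w - v) = 0

/-- `H` is an irreducible geodesic net: no proper subset of its edges forms a geodesic net with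
the same set of unbalanced vertices. -/
def IsIrreducibleNet (T : Set E) (H : (⊤ : SimpleGraph E).Subgraph) : Prop :=
  IsGeodesicNet T H ∧
    ∀ H' : (⊤ : SimpleGraph E).Subgraph, H'.edgeSet ⊂ H.edgeSet → ¬ IsGeodesicNet T H'

/-- indices of the edges of a caterpillar net -/
inductive EIdx where
  | PS (j : ℕ) | PN (j : ℕ) | L0 (j : ℕ) | L1 (j : ℕ) | LS (j : ℕ) | X1 | X2
  deriving DecidableEq

/-- range of the indices -/
def EIdx.valid (L : ℕ) : EIdx → Prop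
  | .PS j => 1 ≤ j ∧ j ≤ L
  | .PN j => 1 ≤ j ∧ j ≤ L
  | .L0 j => 1 ≤ j ∧ j ≤ L
  | .L1 j => 1 ≤ j ∧ j ≤ L
  | .LS j => 1 ≤ j ∧ j ≤ L + 1
  | .X1 => True
  | .X2 => True

/-- first end point of an edge (always a path vertex) -/
def EIdx.src (L : ℕ) (qa sa : ℕ → E) : EIdx → E
  | .PS j => sa j
  | .PN j => qa j
  | .L0 j => qa j
  | .L1 j => qa j
  | .LS j => sa j
  | .X1 => sa 1
  | .X2 => sa (L + 1)

/-- second end point of an edge -/
def EIdx.tgt (L : ℕ) (qa sa ba : ℕ → E) : EIdx → E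
  | .PS j => qa j
  | .PN j => sa (j + 1)
  | .L0 j => ba j
  | .L1 j => ba (j + 1)
  | .LS j => ba j
  | .X1 => ba 0
  | .X2 => ba (L + 2)

/-- all the facts about the points of a caterpillar net with path
`sa 1, qa 1, sa 2, ..., qa L, sa (L+1)` (absolute coordinates) -/
structure NetData (L : ℕ) (qa sa ba : ℕ → E) : Prop where
  ba4 : ∀ j, ba (j + 4) = ba j
  ba_inj : ∀ i j, i < 4 → j < 4 → ba i = ba j → i = j
  q_inj : ∀ i j, 1 ≤ i → i ≤ L → 1 ≤ j → j ≤ L → qa i = qa j → i = j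
  s_inj : ∀ i j, 1 ≤ i → i ≤ L + 1 → 1 ≤ j → j ≤ L + 1 → sa i = sa j → i = j
  q_ne_s : ∀ i j, 1 ≤ i → i ≤ L → 1 ≤ j → j ≤ L + 1 → qa i ≠ sa j
  q_ne_b : ∀ i j, 1 ≤ i → i ≤ L → qa i ≠ ba j
  s_ne_b : ∀ i j, 1 ≤ i → i ≤ L + 1 → sa i ≠ ba j
  balQ : ∀ j, 1 ≤ j → j ≤ L →
    un (sa j - qa j) + un (sa (j + 1) - qa j) + un (ba j - qa j) + un (ba (j + 1) - qa j) = 0
  balS : ∀ j, 1 ≤ j → j ≤ L + 1 →
    (if j ≤ L then un (qa j - sa j) else un (ba (L + 2) - sa j)) +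
      (if 2 ≤ j then un (qa (j - 1) - sa j) else un (ba 0 - sa j)) + un (ba j - sa j) = 0
  meet : ∀ e f : EIdx, e.valid L → f.valid L → e ≠ f →
    segment ℝ (e.src L qa sa) (e.tgt L qa sa ba) ∩ segment ℝ (f.src L qa sa) (f.tgt L qa sa ba) ⊆
      {e.src L qa sa, e.tgt L qa sa ba} ∩ {f.src L qa sa, f.tgt L qa sa ba}

/-- rotated points: `G n = g^n` -/
noncomputable def G (n : ℕ) (v : E) : E := (⇑g)^[n] v

end Pool.Agent.Helper39.Net
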