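import Pool.Agent.Helper39.Net.Pairs

/-! # Embedding: `NetData` from `ChainData` -/

namespace Pool.Agent.Helper39.Net

theorem G_sub (n : ℕ) (u v : E) : G n (u - v) = G n u - G n v := by
  induction n with
  | zero => rfl
  | succ n ih => rw [G_succ, G_succ, G_succ, ih, map_sub]

theorem G_plus (n : ℕ) (u v : E) : G n (u + v) = G n u + G n v := by
  induction n with
  | zero => rfl
  | succ n ih => rw [G_succ, G_succ, G_succ, ih, map_add]

theorem G_un (n : ℕ) (v : E) : G n (un v) = un (G n v) := by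
  induction n with
  | zero => rfl
  | succ n ih => rw [G_succ, G_succ, ih, g_un]

theorem G_inj {n : ℕ} {u v : E} (h : G n u = G n v) : u = v := by
  induction n with
  | zero => exact h
  | succ n ih =>
    rw [G_succ, G_succ] at h
    exact ih (g.injective h)

theorem G_z (n : ℕ) : G n (0 : E) = 0 := by
  induction n with
  | zero => rfl
  | succ n ih => rw [G_succ, ih, map_zero]

theorem G_1_B0 : G 1 B0 = B1 := g_B0

theorem G_1_B3 : G 1 B3 = B0 := by
  apply ext3 <;> simp [B0, B3]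

theorem RQ.x_lt {v : E} (h : RQ v) : v 0 < 1 / 5 := by
  obtain ⟨a1, a2, a3, a4, a5, a6⟩ := h
  linarith

theorem RQ.lt_x {v : E} (h : RQ v) : -(1 / 5) < v 0 := by
  obtain ⟨a1, a2, a3, a4, a5, a6⟩ := h
  linarith

theorem RS.x_lt {v : E} (h : RS v) : v 0 < 1 / 2 := by
  obtain ⟨a1, a2, a3, a4, a5, a6⟩ := h
  linarith

theorem RS.lt_x {v : E} (h : RS v) : 1 / 4 < v 0 := by
  obtain ⟨a1, a2, a3, a4, a5, a6⟩ := h
  linarith

theorem RS.y_lt {v : E} (h : RS v) : v 1 < 1 / 2 := by
  obtain ⟨a1, a2, a3, a4, a5, a6⟩ := h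
  linarith

theorem RS.lt_y {v : E} (h : RS v) : 1 / 4 < v 1 := by
  obtain ⟨a1, a2, a3, a4, a5, a6⟩ := h
  linarith

theorem qa_inj {L k : ℕ} {Q S : ℕ → E} (h : ChainData L Q S) (i j : ℕ) (hi1 : 1 ≤ i)
    (hi2 : i ≤ L) (hj1 : 1 ≤ j) (hj2 : j ≤ L) (he : G i (Q i) = G j (Q j)) : i = j := by
  by_contra hij
  obtain ⟨r, hr, hm⟩ := exists_shift i j
  rw [G_shift hm] at he
  have he := G_inj he
  have h0 := congrArg (fun v : E => v 0) he
  have h1 := congrArg (fun v : E => v 1) he
  have h2 := congrArg (fun v : E => v 2) he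
  have a1 := (h.rq i hi1 hi2).x_lt
  have a2 := (h.rq i hi1 hi2).lt_x
  have a3 := (h.rq i hi1 hi2).y1
  have b1 := (h.rq j hj1 hj2).y1
  interval_cases r
  · simp only [G_zero'] at h0 h1 h2
    rcases ordQ h hij hi1 hi2 hj1 hj2 (by omega) with c | c
    · have := c.pos
      simp only [E_sub] at this
      linarith
    · have := c.pos
      simp only [E_sub] at this
      linarith
  · simp only [G1_0] at h0
    linarith
  · simp only [G2_1] at h1
    linarith
  · simp only [G3_0] at h0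
    linarith

theorem sa_inj {L k : ℕ} {Q S : ℕ → E} (h : ChainData L Q S) (i j : ℕ) (hi1 : 1 ≤ i)
    (hi2 : i ≤ L + 1) (hj1 : 1 ≤ j) (hj2 : j ≤ L + 1) (he : G i (S i) = G j (S j)) : i = j := by
  by_contra hij
  obtain ⟨r, hr, hm⟩ := exists_shift i j
  rw [G_shift hm] at he
  have he := G_inj he
  have h0 := congrArg (fun v : E => v 0) he
  have h1 := congrArg (fun v : E => v 1) he
  have h2 := congrArg (fun v : E => v 2) he
  have a1 := (h.rs i hi1 hi2).lt_x
  have a2 := (h.rs i hi1 hi2).lt_y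
  have b1 := (h.rs j hj1 hj2).lt_x
  have b2 := (h.rs j hj1 hj2).lt_y
  interval_cases r
  · simp only [G_zero'] at h0 h1 h2
    rcases ordS h hij hi1 hi2 hj1 hj2 (by omega) with c | c
    · have := c.pos
      simp only [E_sub] at this
      linarith
    · have := c.pos
      simp only [E_sub] at this
      linarith
  · simp only [G1_0] at h0
    linarith
  · simp only [G2_1] at h1
    linarith
  · simp only [G3_1] at h1
    linarith

theorem qa_ne_sa {L k : ℕ} {Q S : ℕ → E} (h : ChainData L Q S) (i j : ℕ) (hi1 : 1 ≤ i)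
    (hi2 : i ≤ L) (hj1 : 1 ≤ j) (hj2 : j ≤ L + 1) : G i (Q i) ≠ G j (S j) := by
  intro he
  obtain ⟨r, hr, hm⟩ := exists_shift i j
  rw [G_shift hm] at he
  have he := G_inj he
  have h0 := congrArg (fun v : E => v 0) he
  have a1 := (h.rq i hi1 hi2).x_lt
  have a2 := (h.rq i hi1 hi2).lt_x
  have b1 := (h.rs j hj1 hj2).lt_x
  have b2 := (h.rs j hj1 hj2).lt_y
  interval_cases r
  · simp only [G_zero'] at h0
    linarith
  · simp only [G1_0] at h0
    linarith
  · simp only [G2_0] at h0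
    linarith
  · simp only [G3_0] at h0
    linarith

theorem qa_ne_ba {L k : ℕ} {Q S : ℕ → E} (h : ChainData L Q S) (i j : ℕ) (hi1 : 1 ≤ i)
    (hi2 : i ≤ L) : G i (Q i) ≠ G j B0 := by
  intro he
  obtain ⟨r, hr, hm⟩ := exists_shift i j
  rw [G_shift hm] at he
  have he := G_inj he
  have h0 := congrArg (fun v : E => v 0) he
  have a1 := (h.rq i hi1 hi2).x_lt
  have a2 := (h.rq i hi1 hi2).lt_x
  interval_cases r
  · simp only [G_zero', B0_0] at h0
    linarith
  · simp only [G1_0, B0_1] at h0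
    linarith
  · simp only [G2_0, B0_0] at h0
    linarith
  · simp only [G3_0, B0_1] at h0
    linarith

theorem sa_ne_ba {L k : ℕ} {Q S : ℕ → E} (h : ChainData L Q S) (i j : ℕ) (hi1 : 1 ≤ i)
    (hi2 : i ≤ L + 1) : G i (S i) ≠ G j B0 := by
  intro he
  obtain ⟨r, hr, hm⟩ := exists_shift i j
  rw [G_shift hm] at he
  have he := G_inj he
  have h0 := congrArg (fun v : E => v 0) he
  have a1 := (h.rs i hi1 hi2).x_lt
  have a2 := (h.rs i hi1 hi2).lt_x
  interval_cases r
  · simp only [G_zero', B0_0] at h0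
    linarith
  · simp only [G1_0, B0_1] at h0
    linarith
  · simp only [G2_0, B0_0] at h0
    linarith
  · simp only [G3_0, B0_1] at h0
    linarith

theorem ba_inj_aux (i j : ℕ) (hi : i < 4) (hj : j < 4) (he : G i B0 = G j B0) : i = j := by
  have h0 := congrArg (fun v : E => v 0) he
  have h1 := congrArg (fun v : E => v 1) he
  interval_cases i <;> interval_cases j <;>
    simp only [G_zero', G1_0, G1_1, G2_0, G2_1, G3_0, G3_1, B0_0, B0_1] at h0 h1 ⊢ <;>
    (exfalso; linarith)

theorem netData_of_chainData (k : ℕ) (hk : 1 ≤ k) (Q S : ℕ → E) (h : ChainData (4 * k + 1) Q S) :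
    NetData (4 * k + 1) (fun j => G j (Q j)) (fun j => G j (S j)) (fun j => G j B0) := by
  generalize hL : 4 * k + 1 = L at h
  have hL' : L = 4 * k + 1 := hL.symm
  refine { ba4 := fun j => G_add_four j B0, ba_inj := ba_inj_aux,
           q_inj := qa_inj (k := k) h, s_inj := sa_inj (k := k) h, q_ne_s := qa_ne_sa (k := k) h,
           q_ne_b := qa_ne_ba (k := k) h, s_ne_b := sa_ne_ba (k := k) h,
           balQ := ?_, balS := ?_, meet := ?_ }
  · intro j h1 h2
    have hb := h.balQ j h1 h2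
    rw [resQ] at hb
    have := congrArg (G j) hb
    rw [G_plus, G_plus, G_plus, G_un, G_un, G_un, G_un, G_sub, G_sub, G_sub, G_sub, G_z] at this
    simp only [G_add j 1]
    rw [G_1_B0]
    exact this
  · intro j h1 h2
    have hb := h.balS j h1 h2
    rw [resS] at hb
    have := congrArg (G j) hb
    rw [G_plus, G_plus, G_un, G_sub, G_z] at this
    have e1 : (if j ≤ L then un (G j (Q j) - G j (S j)) else un (G (L + 2) B0 - G j (S j))) =
        G j (if j ≤ L then un (Q j - S j) else un (B1 - S j)) := by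
      split_ifs with hj
      · rw [G_un, G_sub]
      · rw [G_un, G_sub]
        have : j = L + 1 := by omega
        rw [this, G_add (L + 1) 1, G_1_B0]
    have e2 : (if 2 ≤ j then un (G (j - 1) (Q (j - 1)) - G j (S j)) else
        un (G 0 B0 - G j (S j))) =
        G j (if 2 ≤ j then un (g.symm (Q (j - 1)) - S j) else un (B3 - S j)) := by
      split_ifs with hj
      · rw [G_un, G_sub]
        obtain ⟨i, rfl⟩ : ∃ i, j = i + 1 := ⟨j - 1, by omega⟩
        rw [Nat.add_sub_cancel, G_add i 1 (g.symm (Q i))]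
        have : G 1 (g.symm (Q i)) = Q i := g.apply_symm_apply (Q i)
        rw [this]
      · rw [G_un, G_sub]
        have : j = 1 := by omega
        rw [this, G_1_B3]
        rfl
    rw [e1, e2]
    exact this
  · intro e f he hf hne
    cases e <;> cases f
    case PS.PS i j => exact M_PS_PS hL' h he.1 he.2 hf.1 hf.2 (fun hij => hne (by rw [hij]))
    case PS.PN i j => exact M_PS_PN hL' h he.1 he.2 hf.1 hf.2
    case PS.L0 i j => exact M_PS_L0 hL' h he.1 he.2 hf.1 hf.2
    case PS.L1 i j => exact M_PS_L1 hL' h he.1 he.2 hf.1 hf.2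
    case PS.LS i j => exact M_PS_LS hL' h he.1 he.2 hf.1 hf.2
    case PS.X1 i => exact (M_X1_PS hL' h he.1 he.2).symm
    case PS.X2 i => exact (M_X2_PS hL' h he.1 he.2).symm
    case PN.PS i j => exact (M_PS_PN hL' h hf.1 hf.2 he.1 he.2).symm
    case PN.PN i j => exact M_PN_PN hL' h he.1 he.2 hf.1 hf.2 (fun hij => hne (by rw [hij]))
    case PN.L0 i j => exact M_PN_L0 hL' h he.1 he.2 hf.1 hf.2
    case PN.L1 i j => exact M_PN_L1 hL' h he.1 he.2 hf.1 hf.2
    case PN.LS i j => exact M_PN_LS hL' h he.1 he.2 hf.1 hf.2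
    case PN.X1 i => exact (M_X1_PN hL' h he.1 he.2).symm
    case PN.X2 i => exact (M_X2_PN hL' h he.1 he.2).symm
    case L0.PS i j => exact (M_PS_L0 hL' h hf.1 hf.2 he.1 he.2).symm
    case L0.PN i j => exact (M_PN_L0 hL' h hf.1 hf.2 he.1 he.2).symm
    case L0.L0 i j => exact M_L0_L0 hL' h he.1 he.2 hf.1 hf.2 (fun hij => hne (by rw [hij]))
    case L0.L1 i j => exact M_L0_L1 hL' h he.1 he.2 hf.1 hf.2
    case L0.LS i j => exact M_L0_LS hL' h he.1 he.2 hf.1 hf.2
    case L0.X1 i => exact (M_X1_L0 hL' h he.1 he.2).symm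
    case L0.X2 i => exact (M_X2_L0 hL' h he.1 he.2).symm
    case L1.PS i j => exact (M_PS_L1 hL' h hf.1 hf.2 he.1 he.2).symm
    case L1.PN i j => exact (M_PN_L1 hL' h hf.1 hf.2 he.1 he.2).symm
    case L1.L0 i j => exact (M_L0_L1 hL' h hf.1 hf.2 he.1 he.2).symm
    case L1.L1 i j => exact M_L1_L1 hL' h he.1 he.2 hf.1 hf.2 (fun hij => hne (by rw [hij]))
    case L1.LS i j => exact M_L1_LS hL' h he.1 he.2 hf.1 hf.2
    case L1.X1 i => exact (M_X1_L1 hL' h he.1 he.2).symm
    case L1.X2 i => exact (M_X2_L1 hL' h he.1 he.2).symm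
    case LS.PS i j => exact (M_PS_LS hL' h hf.1 hf.2 he.1 he.2).symm
    case LS.PN i j => exact (M_PN_LS hL' h hf.1 hf.2 he.1 he.2).symm
    case LS.L0 i j => exact (M_L0_LS hL' h hf.1 hf.2 he.1 he.2).symm
    case LS.L1 i j => exact (M_L1_LS hL' h hf.1 hf.2 he.1 he.2).symm
    case LS.LS i j => exact M_LS_LS hL' h he.1 he.2 hf.1 hf.2 (fun hij => hne (by rw [hij]))
    case LS.X1 i => exact (M_X1_LS hL' h he.1 he.2).symm
    case LS.X2 i => exact (M_X2_LS hL' h he.1 he.2).symm
    case X1.PS j => exact M_X1_PS hL' h hf.1 hf.2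
    case X1.PN j => exact M_X1_PN hL' h hf.1 hf.2
    case X1.L0 j => exact M_X1_L0 hL' h hf.1 hf.2
    case X1.L1 j => exact M_X1_L1 hL' h hf.1 hf.2
    case X1.LS j => exact M_X1_LS hL' h hf.1 hf.2
    case X1.X1 => exact absurd rfl hne
    case X1.X2 => exact M_X1_X2 hL' h
    case X2.PS j => exact M_X2_PS hL' h hf.1 hf.2
    case X2.PN j => exact M_X2_PN hL' h hf.1 hf.2
    case X2.L0 j => exact M_X2_L0 hL' h hf.1 hf.2
    case X2.L1 j => exact M_X2_L1 hL' h hf.1 hf.2
    case X2.LS j => exact M_X2_LS hL' h hf.1 hf.2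
    case X2.X1 => exact (M_X1_X2 hL' h).symm
    case X2.X2 => exact absurd rfl hne

end Pool.Agent.Helper39.Net
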