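import Pool.Agent.Helper39.Net.Def

/-! # Embedding: basic tools -/

namespace Pool.Agent.Helper39.Net

@[simp] theorem G_zero' (v : E) : G 0 v = v := rfl

theorem G_succ (n : ℕ) (v : E) : G (n + 1) v = g (G n v) := by
  simp only [G, Function.iterate_succ_apply']

theorem G_add (m n : ℕ) (v : E) : G (m + n) v = G m (G n v) := by
  simp only [G, Function.iterate_add_apply]

theorem g4 (v : E) : g (g (g (g v))) = v := by
  apply ext3 <;> simp

theorem G_four (v : E) : G 4 v = v := g4 v

theorem G_add_four (n : ℕ) (v : E) : G (n + 4) v = G n v := by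
  rw [G_add, G_four]

theorem G_add_mul_four (n k : ℕ) (v : E) : G (n + 4 * k) v = G n v := by
  induction k with
  | zero => rfl
  | succ k ih => rw [show n + 4 * (k + 1) = (n + 4 * k) + 4 by ring, G_add_four, ih]

theorem G_mod (n : ℕ) (v : E) : G (n % 4) v = G n v := by
  conv_rhs => rw [← Nat.mod_add_div n 4, G_add_mul_four]

theorem G_shift {i j r : ℕ} (h : (i + r) % 4 = j % 4) (v : E) : G j v = G i (G r v) := by
  rw [← G_add, ← G_mod j, ← h, G_mod]

theorem exists_shift (i j : ℕ) : ∃ r, r < 4 ∧ (i + r) % 4 = j % 4 :=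
  ⟨(j + 3 * i) % 4, Nat.mod_lt _ (by norm_num), by omega⟩

@[simp] theorem G1_0 (v : E) : G 1 v 0 = - v 1 := rfl
@[simp] theorem G1_1 (v : E) : G 1 v 1 = v 0 := rfl
@[simp] theorem G1_2 (v : E) : G 1 v 2 = - v 2 := rfl
@[simp] theorem G2_0 (v : E) : G 2 v 0 = - v 0 := rfl
@[simp] theorem G2_1 (v : E) : G 2 v 1 = - v 1 := rfl
@[simp] theorem G2_2 (v : E) : G 2 v 2 = v 2 := by
  change -(-(v 2)) = v 2
  ring
@[simp] theorem G3_0 (v : E) : G 3 v 0 = v 1 := by
  change -(-(v 1)) = v 1
  ring
@[simp] theorem G3_1 (v : E) : G 3 v 1 = - v 0 := rfl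
@[simp] theorem G3_2 (v : E) : G 3 v 2 = - v 2 := by
  change -(-(-(v 2))) = - v 2
  ring
@[simp] theorem G4_0 (v : E) : G 4 v 0 = v 0 := by rw [G_four]
@[simp] theorem G4_1 (v : E) : G 4 v 1 = v 1 := by rw [G_four]
@[simp] theorem G4_2 (v : E) : G 4 v 2 = v 2 := by rw [G_four]

@[simp] theorem B0_0 : B0 0 = 1 := rfl
@[simp] theorem B0_1 : B0 1 = 1 := rfl
@[simp] theorem B0_2 : B0 2 = 1 := rfl

/-- linear functional with given coefficients -/
def lin (α β γ : ℝ) (v : E) : ℝ := α * v 0 + β * v 1 + γ * v 2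

theorem lin_comb (α β γ s t : ℝ) (a b : E) :
    lin α β γ (s • a + t • b) = s * lin α β γ a + t * lin α β γ b := by
  simp only [lin, E_add, E_smul]
  ring

/-- two segments meet at most in common end points -/
def Meet (a b c d : E) : Prop :=
  segment ℝ a b ∩ segment ℝ c d ⊆ ({a, b} ∩ {c, d} : Set E)

theorem Meet.symm {a b c d : E} (h : Meet a b c d) : Meet c d a b := by
  intro x hx
  have := h ⟨hx.2, hx.1⟩
  exact ⟨this.2, this.1⟩

theorem Meet.swap_left {a b c d : E} (h : Meet a b c d) : Meet b a c d := by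
  intro x hx
  rw [segment_symm] at hx
  have := h hx
  rw [Set.pair_comm b a]
  exact this

theorem Meet.swap_right {a b c d : E} (h : Meet a b c d) : Meet a b d c :=
  (h.symm.swap_left).symm

theorem meet_G {n : ℕ} {a b c d : E} (h : Meet a b c d) :
    Meet (G n a) (G n b) (G n c) (G n d) := by
  induction n with
  | zero => simpa using h
  | succ n ih =>
    simp only [G_succ]
    generalize G n a = a', G n b = b', G n c = c', G n d = d' at ih ⊢
    intro x hx
    have him : ∀ u v : E, segment ℝ (g u) (g v) = g '' segment ℝ u v := by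
      intro u v
      exact (image_segment ℝ (g.toLinearIsometry.toLinearMap.toAffineMap) u v).symm
    rw [him, him, ← Set.image_inter g.injective] at hx
    obtain ⟨y, hy, rfl⟩ := hx
    have := ih hy
    obtain ⟨h1, h2⟩ := this
    refine ⟨?_, ?_⟩
    · rcases h1 with rfl | h1
      · left; rfl
      · right
        rw [Set.mem_singleton_iff] at h1
        rw [h1]; rfl
    · rcases h2 with rfl | h2
      · left; rfl
      · right
        rw [Set.mem_singleton_iff] at h2
        rw [h2]; rfl

/-- separated segments -/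
theorem meet_sep {a b c d : E} (α β γ κ : ℝ) (h1 : lin α β γ a < κ) (h2 : lin α β γ b < κ)
    (h3 : κ < lin α β γ c) (h4 : κ < lin α β γ d) : Meet a b c d := by
  rintro x ⟨⟨s, t, hs, ht, hst, rfl⟩, ⟨s', t', hs', ht', hst', hx⟩⟩
  exfalso
  have e1 := lin_comb α β γ s t a b
  have e2 := lin_comb α β γ s' t' c d
  rw [hx] at e2
  have l1 : lin α β γ (s • a + t • b) < κ := by
    rw [e1]
    have hk : s * κ + t * κ = κ := by rw [← add_mul, hst, one_mul]
    rcases hs.eq_or_lt with h0 | h0
    · have : t = 1 := by linarith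
      rw [← h0, this]
      linarith
    · have i1 := mul_lt_mul_of_pos_left h1 h0
      have i2 := mul_le_mul_of_nonneg_left h2.le ht
      linarith
  have l2 : κ < lin α β γ (s • a + t • b) := by
    rw [e2]
    have hk : s' * κ + t' * κ = κ := by rw [← add_mul, hst', one_mul]
    rcases hs'.eq_or_lt with h0 | h0
    · have : t' = 1 := by linarith
      rw [← h0, this]
      linarith
    · have i1 := mul_lt_mul_of_pos_left h3 h0
      have i2 := mul_le_mul_of_nonneg_left h4.le ht'
      linarith
  linarith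

/-- upper segment `[p,t]`, lower segment `[p',t']` -/
theorem meet_updown {p t p' t' : E} (α β γ : ℝ) (h1 : 0 < lin α β γ (p - p'))
    (h2 : 0 ≤ lin α β γ (t - p)) (h3 : lin α β γ (t' - p') ≤ 0) : Meet p t p' t' := by
  have hs : ∀ u v : E, lin α β γ (u - v) = lin α β γ u - lin α β γ v := by
    intro u v
    simp only [lin, E_sub]
    ring
  rw [hs] at h1 h2 h3
  refine (meet_sep α β γ ((lin α β γ p + lin α β γ p') / 2) ?_ ?_ ?_ ?_).symm <;> linarith

/-- two segments with the same first end point -/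
theorem meet_vertex {a b d : E} (α β γ : ℝ) (h1 : 0 < lin α β γ (b - a))
    (h2 : lin α β γ (d - a) ≤ 0) : Meet a b a d := by
  have hs : ∀ u v : E, lin α β γ (u - v) = lin α β γ u - lin α β γ v := by
    intro u v
    simp only [lin, E_sub]
    ring
  rw [hs] at h1 h2
  rintro x ⟨⟨s, t, hs, ht, hst, rfl⟩, ⟨s', t', hs', ht', hst', hx⟩⟩
  have e1 := lin_comb α β γ s t a b
  have e2 := lin_comb α β γ s' t' a d
  rw [hx] at e2
  have e3 : s * lin α β γ a + t * lin α β γ b = s' * lin α β γ a + t' * lin α β γ d := by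
    rw [← e1, ← e2]
  have h4 : t * (lin α β γ b - lin α β γ a) = t' * (lin α β γ d - lin α β γ a) := by
    have hs1 : s = 1 - t := by linarith
    have hs2 : s' = 1 - t' := by linarith
    rw [hs1, hs2] at e3
    linarith
  have h5 : t = 0 := by
    have h6 : t * (lin α β γ b - lin α β γ a) ≤ 0 := by
      rw [h4]
      exact mul_nonpos_of_nonneg_of_nonpos ht' h2
    rcases ht.eq_or_lt with h0 | h0
    · exact h0.symm
    · have := mul_pos h0 h1
      linarith
  have h7 : s = 1 := by linarith
  rw [h5, h7]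
  simp

/-- two segments with the same second end point -/
theorem meet_vertex' {a b d : E} (α β γ : ℝ) (h1 : 0 < lin α β γ (b - a))
    (h2 : lin α β γ (d - a) ≤ 0) : Meet b a d a :=
  (meet_vertex α β γ h1 h2).swap_left.swap_right

end Pool.Agent.Helper39.Net
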