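import Pool.Agent.Helper39.Net.Emb0

/-! # Embedding: end regions and pairs of edges of the same type -/

namespace Pool.Agent.Helper39.Net

/-- region of the first single vertex -/
structure RS1 (v : E) : Prop where
  x1 : v 0 ≤ 2618382 / 10000000
  x2 : 2618182 / 10000000 ≤ v 0
  y1 : v 1 ≤ 3829840 / 10000000
  y2 : 3829640 / 10000000 ≤ v 1
  z1 : v 2 ≤ -(517098 / 10000000)
  z2 : -(517298 / 10000000) ≤ v 2

/-- region of the last single vertex -/
structure RSL (v : E) : Prop where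
  x1 : v 0 ≤ 3829840 / 10000000
  x2 : 3829640 / 10000000 ≤ v 0
  y1 : v 1 ≤ 2618382 / 10000000
  y2 : 2618182 / 10000000 ≤ v 1
  z1 : v 2 ≤ -(517098 / 10000000)
  z2 : -(517298 / 10000000) ≤ v 2

theorem RS1_of {v : E}
    (h : ‖v - vec (2618282 / 10000000) (3829740 / 10000000) (-(517198 / 10000000))‖ ≤ 1 / 100000) :
    RS1 v := by
  have h0 := (coord_le_norm _ 0).trans h
  have h1 := (coord_le_norm _ 1).trans h
  have h2 := (coord_le_norm _ 2).trans h
  simp only [E_sub, vec_0, vec_1, vec_2] at h0 h1 h2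
  rw [abs_le] at h0 h1 h2
  constructor <;> linarith [h0.1, h0.2, h1.1, h1.2, h2.1, h2.2]

theorem RSL_of {v : E}
    (h : ‖v - vec (3829740 / 10000000) (2618282 / 10000000) (-(517198 / 10000000))‖ ≤ 1 / 100000) :
    RSL v := by
  have h0 := (coord_le_norm _ 0).trans h
  have h1 := (coord_le_norm _ 1).trans h
  have h2 := (coord_le_norm _ 2).trans h
  simp only [E_sub, vec_0, vec_1, vec_2] at h0 h1 h2
  rw [abs_le] at h0 h1 h2
  constructor <;> linarith [h0.1, h0.2, h1.1, h1.2, h2.1, h2.2]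

theorem meet_sep_le {a b c d : E} (α β γ κ : ℝ) (h1 : κ ≤ lin α β γ a) (h2 : κ ≤ lin α β γ b)
    (h3 : lin α β γ c < κ) (h4 : lin α β γ d < κ) : Meet a b c d := by
  refine (meet_sep α β γ ((κ + max (lin α β γ c) (lin α β γ d)) / 2) ?_ ?_ ?_ ?_).symm
  · have := le_max_left (lin α β γ c) (lin α β γ d)
    have := le_max_right (lin α β γ c) (lin α β γ d)
    have : max (lin α β γ c) (lin α β γ d) < κ := max_lt h3 h4
    linarith
  · have := le_max_right (lin α β γ c) (lin α β γ d)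
    have : max (lin α β γ c) (lin α β γ d) < κ := max_lt h3 h4
    linarith
  · have : max (lin α β γ c) (lin α β γ d) < κ := max_lt h3 h4
    linarith
  · have : max (lin α β γ c) (lin α β γ d) < κ := max_lt h3 h4
    linarith

theorem bil_pos {A B C S W Y α β : ℝ} (hS : 0 < S) (hβ : 0 ≤ β) (hα : 0 ≤ α) (w1 : W ≤ β * S)
    (w2 : -β * S ≤ W) (y1 : Y ≤ α * S) (y2 : -α * S ≤ Y) (h1 : 0 < A - β * B - α * C)
    (h2 : 0 < A + β * B - α * C) (h3 : 0 < A - β * B + α * C) (h4 : 0 < A + β * B + α * C) :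
    0 < A * S + B * W + C * Y := by
  have hW : |W| ≤ β * S := abs_le.mpr ⟨by linarith, w1⟩
  have hY : |Y| ≤ α * S := abs_le.mpr ⟨by linarith, y1⟩
  have hBW : -(|B| * (β * S)) ≤ B * W := by
    have : |B * W| ≤ |B| * (β * S) := by
      rw [abs_mul]
      exact mul_le_mul_of_nonneg_left hW (abs_nonneg B)
    linarith [neg_abs_le (B * W)]
  have hCY : -(|C| * (α * S)) ≤ C * Y := by
    have : |C * Y| ≤ |C| * (α * S) := by
      rw [abs_mul]
      exact mul_le_mul_of_nonneg_left hY (abs_nonneg C)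
    linarith [neg_abs_le (C * Y)]
  have hA : 0 < A - |B| * β - |C| * α := by
    rcases abs_cases B with ⟨hB, _⟩ | ⟨hB, _⟩ <;> rcases abs_cases C with ⟨hC, _⟩ | ⟨hC, _⟩ <;>
      rw [hB, hC] <;> linarith
  have := mul_pos hA hS
  nlinarith

/-- positivity of a functional on the cone `K` -/
theorem K_pos {d : E} (h : K d) (a b c : ℝ)
    (h1 : 0 < (2 * a + 3 * c) - 13 / 100 * (-3 * a + 2 * c) - 91 / 100 * b)
    (h2 : 0 < (2 * a + 3 * c) + 13 / 100 * (-3 * a + 2 * c) - 91 / 100 * b)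
    (h3 : 0 < (2 * a + 3 * c) - 13 / 100 * (-3 * a + 2 * c) + 91 / 100 * b)
    (h4 : 0 < (2 * a + 3 * c) + 13 / 100 * (-3 * a + 2 * c) + 91 / 100 * b) :
    0 < lin a b c d := by
  obtain ⟨k1, k2, k3, k4, k5⟩ := h
  have := bil_pos (A := (2 * a + 3 * c)) (B := (-3 * a + 2 * c)) (C := 13 * b)
    (S := 2 * d 0 + 3 * d 2) (W := -3 * d 0 + 2 * d 2) (Y := d 1) (α := 7 / 100)
    (β := 13 / 100) k1 (by norm_num) (by norm_num) k2 k3 k4 k5 (by linarith) (by linarith)
    (by linarith) (by linarith)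
  simp only [lin]
  linarith

/-- positivity of a functional on the cone `KS` -/
theorem KS_pos {d : E} (h : KS d) (a b c : ℝ)
    (h1 : 0 < (c + 22 / 100 * (a + b)) - 9 / 10 * ((a - b) / 2) - 34 / 100 * ((a + b) / 2))
    (h2 : 0 < (c + 22 / 100 * (a + b)) + 9 / 10 * ((a - b) / 2) - 34 / 100 * ((a + b) / 2))
    (h3 : 0 < (c + 22 / 100 * (a + b)) - 9 / 10 * ((a - b) / 2) + 34 / 100 * ((a + b) / 2))
    (h4 : 0 < (c + 22 / 100 * (a + b)) + 9 / 10 * ((a - b) / 2) + 34 / 100 * ((a + b) / 2)) :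
    0 < lin a b c d := by
  obtain ⟨k1, k2, k3, k4, k5, k6, k7⟩ := h
  have := bil_pos (A := (c + 22 / 100 * (a + b))) (B := (a - b) / 2) (C := (a + b) / 2)
    (S := d 2) (W := d 0 - d 1) (Y := d 0 + d 1 - 44 / 100 * d 2) (α := 34 / 100)
    (β := 9 / 10) k1 (by norm_num) (by norm_num) (by linarith) (by linarith) (by linarith)
    (by linarith) h1 h2 h3 h4
  simp only [lin]
  linarith

theorem T_PS {s q s2 q2 : E} (hs : RS s) (hq : RQ q) (hS : KS (s - s2)) (hK : K (q - q2)) :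
    Meet s q s2 q2 := by
  obtain ⟨a1, a2, a3, a4, a5, a6⟩ := hs
  obtain ⟨b1, b2, b3, b4, b5, b6⟩ := hq
  set e0 := s 0 - q 0 with he0
  set e1 := s 1 - q 1 with he1
  set e2 := s 2 - q 2 with he2
  have p1 := K_pos hK (-10 * e2) (3 * e2) (10 * e0 - 3 * e1)
    (by linarith) (by linarith) (by linarith) (by linarith)
  have p2 := KS_pos hS (-10 * e2) (3 * e2) (10 * e0 - 3 * e1)
    (by linarith) (by linarith) (by linarith) (by linarith)
  refine meet_sep_le (-10 * e2) (3 * e2) (10 * e0 - 3 * e1)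
    (lin (-10 * e2) (3 * e2) (10 * e0 - 3 * e1) s) le_rfl ?_ ?_ ?_
  · apply le_of_eq
    simp only [lin, he0, he1, he2]
    ring
  · simp only [lin, E_sub] at p2 ⊢
    linarith
  · have h0 : lin (-10 * e2) (3 * e2) (10 * e0 - 3 * e1) s =
        lin (-10 * e2) (3 * e2) (10 * e0 - 3 * e1) q := by
      simp only [lin, he0, he1, he2]
      ring
    rw [h0]
    simp only [lin, E_sub] at p1 ⊢
    linarith

theorem T_PN {s q s2 q2 : E} (hs : RS s) (hq : RQ q) (hS : KS (s2 - s)) (hK : K (q - q2)) :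
    Meet q (G 1 s) q2 (G 1 s2) := by
  obtain ⟨a1, a2, a3, a4, a5, a6⟩ := hs
  obtain ⟨b1, b2, b3, b4, b5, b6⟩ := hq
  set e0 := -s 1 - q 0 with he0
  set e1 := s 0 - q 1 with he1
  set e2 := -s 2 - q 2 with he2
  have p1 := K_pos hK (10 * e2) (3 * e2) (-10 * e0 - 3 * e1)
    (by linarith) (by linarith) (by linarith) (by linarith)
  have p2 := KS_pos hS (-(3 * e2)) (10 * e2) (-10 * e0 - 3 * e1)
    (by linarith) (by linarith) (by linarith) (by linarith)
  refine meet_sep_le (10 * e2) (3 * e2) (-10 * e0 - 3 * e1)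
    (lin (10 * e2) (3 * e2) (-10 * e0 - 3 * e1) q) le_rfl ?_ ?_ ?_
  · apply le_of_eq
    simp only [lin, he0, he1, he2, G1_0, G1_1, G1_2]
    ring
  · simp only [lin, E_sub] at p1 ⊢
    linarith
  · have h0 : lin (10 * e2) (3 * e2) (-10 * e0 - 3 * e1) q =
        lin (10 * e2) (3 * e2) (-10 * e0 - 3 * e1) (G 1 s) := by
      simp only [lin, he0, he1, he2, G1_0, G1_1, G1_2]
      ring
    rw [h0]
    simp only [lin, E_sub, G1_0, G1_1, G1_2] at p2 ⊢
    linarith

theorem T_L0 {q q2 : E} (hq : RQ q) (hK : K (q - q2)) : Meet q B0 q2 B0 := by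
  obtain ⟨b1, b2, b3, b4, b5, b6⟩ := hq
  set S := 2 * q 0 + 3 * q 2 - 5 with hS
  set W := -3 * q 0 + 2 * q 2 + 1 with hW
  have p1 := K_pos hK (2 * W + 3 * S) 0 (3 * W - 2 * S)
    (by linarith) (by linarith) (by linarith) (by linarith)
  refine (meet_vertex' (-(2 * W + 3 * S)) 0 (-(3 * W - 2 * S)) ?_ ?_).symm
  · simp only [lin, E_sub, B0_0, B0_1, B0_2] at p1 ⊢
    have h0 : (2 * W + 3 * S) * (q 0 - 1) + (3 * W - 2 * S) * (q 2 - 1) = 0 := by
      simp only [hS, hW]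
      ring
    linarith
  · apply le_of_eq
    simp only [lin, E_sub, B0_0, B0_1, B0_2, hS, hW]
    ring

theorem T_L1 {q q2 : E} (hq : RQ q) (hK : K (q - q2)) : Meet q (G 1 B0) q2 (G 1 B0) := by
  obtain ⟨b1, b2, b3, b4, b5, b6⟩ := hq
  set S := 2 * q 0 + 3 * q 2 + 5 with hS
  set W := -3 * q 0 + 2 * q 2 - 1 with hW
  have p1 := K_pos hK (-(2 * W + 3 * S)) 0 (-(3 * W - 2 * S))
    (by linarith) (by linarith) (by linarith) (by linarith)
  refine (meet_vertex' (2 * W + 3 * S) 0 (3 * W - 2 * S) ?_ ?_).symm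
  · simp only [lin, E_sub, B0_0, B0_1, B0_2, G1_0, G1_1, G1_2] at p1 ⊢
    have h0 : (2 * W + 3 * S) * (q 0 + 1) + (3 * W - 2 * S) * (q 2 + 1) = 0 := by
      simp only [hS, hW]
      ring
    linarith
  · apply le_of_eq
    simp only [lin, E_sub, B0_0, B0_1, B0_2, G1_0, G1_1, G1_2, hS, hW]
    ring

theorem T_LS {s s2 : E} (hs : RS s) (hK : KS (s - s2)) : Meet s B0 s2 B0 := by
  obtain ⟨b1, b2, b3, b4, b5, b6⟩ := hs
  set p := s 0 + s 1 - 2 with hp
  set z := s 2 - 1 with hz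
  have p1 := KS_pos hK z z (-p) (by linarith) (by linarith) (by linarith) (by linarith)
  refine (meet_vertex' (-z) (-z) p ?_ ?_).symm
  · simp only [lin, E_sub, B0_0, B0_1, B0_2] at p1 ⊢
    have h0 : z * (s 0 - 1) + z * (s 1 - 1) - p * (s 2 - 1) = 0 := by
      simp only [hp, hz]
      ring
    linarith
  · apply le_of_eq
    simp only [lin, E_sub, B0_0, B0_1, B0_2, hp, hz]
    ring

end Pool.Agent.Helper39.Net
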