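import Pool.Agent.Helper39.Net.Shared

/-!
# From the data of a caterpillar net to an irreducible geodesic net (graph theory)
-/

namespace Pool.Agent.Helper39.Net

/-! ### finite sums over sets with three or four elements -/

theorem gr_sum3 (f : E → E) {a b c : E} (hab : a ≠ b) (hac : a ≠ c) (hbc : b ≠ c) :
    ∑ᶠ w ∈ ({a, b, c} : Set E), f w = f a + f b + f c := by
  rw [finsum_mem_insert _ (by simp [hab, hac]) (by simp), finsum_mem_pair hbc, add_assoc]

theorem gr_sum4 (f : E → E) {a b c d : E} (hab : a ≠ b) (hac : a ≠ c) (had : a ≠ d)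
    (hbc : b ≠ c) (hbd : b ≠ d) (hcd : c ≠ d) :
    ∑ᶠ w ∈ ({a, b, c, d} : Set E), f w = f a + f b + f c + f d := by
  rw [finsum_mem_insert _ (by simp [hab, hac, had]) (by simp), gr_sum3 f hbc hbd hcd]
  abel

theorem gr_card3 {a b c : E} (hab : a ≠ b) (hac : a ≠ c) (hbc : b ≠ c) :
    ({a, b, c} : Set E).ncard = 3 := by
  rw [Set.ncard_insert_of_notMem (by simp [hab, hac]) (by simp), Set.ncard_pair hbc]

theorem gr_card4 {a b c d : E} (hab : a ≠ b) (hac : a ≠ c) (had : a ≠ d)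
    (hbc : b ≠ c) (hbd : b ≠ d) (hcd : c ≠ d) :
    ({a, b, c, d} : Set E).ncard = 4 := by
  rw [Set.ncard_insert_of_notMem (by simp [hab, hac, had]) (by simp), gr_card3 hbc hbd hcd]

/-- a subset of a balanced star of degree at most four which is balanced and of degree at least
three is the whole star -/
theorem gr_star {v : E} {N N' : Set E} (hfin : N.Finite) (hc : N.ncard ≤ 4) (hv : v ∉ N)
    (hsub : N' ⊆ N) (hc' : 3 ≤ N'.ncard)
    (hN : ∑ᶠ w ∈ N, ‖w - v‖⁻¹ • (w - v) = 0)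
    (hN' : ∑ᶠ w ∈ N', ‖w - v‖⁻¹ • (w - v) = 0) : N' = N := by
  by_contra hne
  have hss : N' ⊂ N := lt_of_le_of_ne hsub hne
  have hlt : N'.ncard < N.ncard := Set.ncard_lt_ncard hss hfin
  have h4 : N.ncard = N'.ncard + 1 := by omega
  obtain ⟨x, hxN, hxN'⟩ := Set.exists_of_ssubset hss
  have hfin' : N'.Finite := hfin.subset hsub
  have hins : insert x N' = N := by
    apply Set.eq_of_subset_of_ncard_le (Set.insert_subset hxN hsub) _ hfin
    rw [Set.ncard_insert_of_notMem hxN' hfin']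
    omega
  rw [← hins, finsum_mem_insert _ hxN' hfin', hN', add_zero] at hN
  have hxv : x - v ≠ 0 := by
    intro h0
    rw [sub_eq_zero] at h0
    exact hv (h0 ▸ hxN)
  have hn : ‖un (x - v)‖ = 1 := norm_un hxv
  unfold un at hn
  rw [hN, norm_zero] at hn
  exact zero_ne_one hn

theorem gr_exists_adj {V : Type*} {G : SimpleGraph V} {u v : V} (h : G.Reachable u v)
    (hne : u ≠ v) : ∃ w, G.Adj u w := by
  obtain ⟨p⟩ := h
  cases p with
  | nil => exact absurd rfl hne
  | cons hadj _ => exact ⟨_, hadj⟩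

section

variable {L : ℕ} {qa sa ba : ℕ → E}

theorem gr_ba_mod (h : NetData L qa sa ba) (j : ℕ) : ba j = ba (j % 4) := by
  induction j using Nat.strong_induction_on with
  | _ j ih =>
    by_cases hj : j < 4
    · rw [Nat.mod_eq_of_lt hj]
    · obtain ⟨k, rfl⟩ : ∃ k, j = k + 4 := ⟨j - 4, by omega⟩
      rw [h.ba4, ih k (by omega)]
      congr 1
      omega

theorem gr_ba_ne (h : NetData L qa sa ba) {i j : ℕ} (hij : i % 4 ≠ j % 4) : ba i ≠ ba j := by
  intro he
  rw [gr_ba_mod h i, gr_ba_mod h j] at he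
  exact hij (h.ba_inj _ _ (Nat.mod_lt _ (by norm_num)) (Nat.mod_lt _ (by norm_num)) he)

/-- the vertices of the net -/
def grVerts (L : ℕ) (qa sa ba : ℕ → E) : Set E :=
  {x | (∃ j, 1 ≤ j ∧ j ≤ L ∧ x = qa j) ∨ (∃ j, 1 ≤ j ∧ j ≤ L + 1 ∧ x = sa j) ∨ ∃ j, x = ba j}

theorem gr_q_mem {j : ℕ} (h1 : 1 ≤ j) (h2 : j ≤ L) : qa j ∈ grVerts L qa sa ba :=
  Or.inl ⟨j, h1, h2, rfl⟩

theorem gr_s_mem {j : ℕ} (h1 : 1 ≤ j) (h2 : j ≤ L + 1) : sa j ∈ grVerts L qa sa ba :=
  Or.inr (Or.inl ⟨j, h1, h2, rfl⟩)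

theorem gr_b_mem (j : ℕ) : ba j ∈ grVerts L qa sa ba :=
  Or.inr (Or.inr ⟨j, rfl⟩)

/-- adjacency in the net -/
def grAdj (L : ℕ) (qa sa ba : ℕ → E) (x y : E) : Prop :=
  ∃ e : EIdx, e.valid L ∧ ((x = e.src L qa sa ∧ y = e.tgt L qa sa ba) ∨
    (y = e.src L qa sa ∧ x = e.tgt L qa sa ba))

theorem gr_adj_symm {x y : E} (h : grAdj L qa sa ba x y) : grAdj L qa sa ba y x := by
  obtain ⟨e, he, h1 | h1⟩ := h
  · exact ⟨e, he, Or.inr h1⟩
  · exact ⟨e, he, Or.inl h1⟩

theorem gr_adj_of (e : EIdx) (he : e.valid L) :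
    grAdj L qa sa ba (e.src L qa sa) (e.tgt L qa sa ba) :=
  ⟨e, he, Or.inl ⟨rfl, rfl⟩⟩

theorem gr_src_mem (e : EIdx) (he : e.valid L) : e.src L qa sa ∈ grVerts L qa sa ba := by
  cases e with
  | PS j => exact gr_s_mem he.1 (by have := he.2; omega)
  | PN j => exact gr_q_mem he.1 he.2
  | L0 j => exact gr_q_mem he.1 he.2
  | L1 j => exact gr_q_mem he.1 he.2
  | LS j => exact gr_s_mem he.1 he.2
  | X1 => exact gr_s_mem (j := 1) le_rfl (by omega)
  | X2 => exact gr_s_mem (j := L + 1) (by omega) le_rfl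

theorem gr_tgt_mem (e : EIdx) (he : e.valid L) : e.tgt L qa sa ba ∈ grVerts L qa sa ba := by
  cases e with
  | PS j => exact gr_q_mem he.1 he.2
  | PN j => exact gr_s_mem (by omega) (by have := he.2; omega)
  | L0 j => exact gr_b_mem _
  | L1 j => exact gr_b_mem _
  | LS j => exact gr_b_mem _
  | X1 => exact gr_b_mem _
  | X2 => exact gr_b_mem _

theorem gr_src_ne_b (h : NetData L qa sa ba) (e : EIdx) (he : e.valid L) (i : ℕ) :
    e.src L qa sa ≠ ba i := by
  cases e with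
  | PS j => exact h.s_ne_b _ _ he.1 (by have := he.2; omega)
  | PN j => exact h.q_ne_b _ _ he.1 he.2
  | L0 j => exact h.q_ne_b _ _ he.1 he.2
  | L1 j => exact h.q_ne_b _ _ he.1 he.2
  | LS j => exact h.s_ne_b _ _ he.1 he.2
  | X1 => exact h.s_ne_b _ _ le_rfl (by omega)
  | X2 => exact h.s_ne_b _ _ (by omega) le_rfl

theorem gr_src_ne_tgt (h : NetData L qa sa ba) (e : EIdx) (he : e.valid L) :
    e.src L qa sa ≠ e.tgt L qa sa ba := by
  cases e with
  | PS j => exact (h.q_ne_s j j he.1 he.2 he.1 (by have := he.2; omega)).symm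
  | PN j => exact h.q_ne_s j (j + 1) he.1 he.2 (by omega) (by have := he.2; omega)
  | L0 j => exact h.q_ne_b _ _ he.1 he.2
  | L1 j => exact h.q_ne_b _ _ he.1 he.2
  | LS j => exact h.s_ne_b _ _ he.1 he.2
  | X1 => exact h.s_ne_b _ _ le_rfl (by omega)
  | X2 => exact h.s_ne_b _ _ (by omega) le_rfl

theorem gr_adj_ne (h : NetData L qa sa ba) {x y : E} (hxy : grAdj L qa sa ba x y) : x ≠ y := by
  obtain ⟨e, he, ⟨rfl, rfl⟩ | ⟨rfl, rfl⟩⟩ := hxy
  · exact gr_src_ne_tgt h e he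
  · exact (gr_src_ne_tgt h e he).symm

theorem gr_adj_mem {x y : E} (hxy : grAdj L qa sa ba x y) : x ∈ grVerts L qa sa ba := by
  obtain ⟨e, he, ⟨rfl, rfl⟩ | ⟨rfl, rfl⟩⟩ := hxy
  · exact gr_src_mem e he
  · exact gr_tgt_mem e he

/-- the net as a subgraph of the complete graph on Euclidean three-space -/
def grNet (h : NetData L qa sa ba) : (⊤ : SimpleGraph E).Subgraph where
  verts := grVerts L qa sa ba
  Adj := grAdj L qa sa ba
  adj_sub := fun {x y} hxy => by
    rw [SimpleGraph.top_adj]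
    exact gr_adj_ne h hxy
  edge_vert := fun {x y} hxy => gr_adj_mem hxy
  symm := ⟨fun x y hxy => gr_adj_symm hxy⟩

/-- neighbours of a pair vertex -/
theorem gr_nb_q (h : NetData L qa sa ba) {j : ℕ} (h1 : 1 ≤ j) (h2 : j ≤ L) :
    (grNet h).neighborSet (qa j) = {sa j, sa (j + 1), ba j, ba (j + 1)} := by
  ext x
  simp only [SimpleGraph.Subgraph.mem_neighborSet, Set.mem_insert_iff, Set.mem_singleton_iff]
  constructor
  · rintro ⟨e, he, ⟨hs, ht⟩ | ⟨hs, ht⟩⟩
    · cases e with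
      | PS i => exact absurd hs (h.q_ne_s _ _ h1 h2 he.1 (by have := he.2; omega))
      | PN i =>
        have := h.q_inj _ _ h1 h2 he.1 he.2 hs
        subst this
        exact Or.inr (Or.inl ht)
      | L0 i =>
        have := h.q_inj _ _ h1 h2 he.1 he.2 hs
        subst this
        exact Or.inr (Or.inr (Or.inl ht))
      | L1 i =>
        have := h.q_inj _ _ h1 h2 he.1 he.2 hs
        subst this
        exact Or.inr (Or.inr (Or.inr ht))
      | LS i => exact absurd hs (h.q_ne_s _ _ h1 h2 he.1 he.2)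
      | X1 => exact absurd hs (h.q_ne_s _ _ h1 h2 le_rfl (by omega))
      | X2 => exact absurd hs (h.q_ne_s _ _ h1 h2 (by omega) le_rfl)
    · cases e with
      | PS i =>
        have := h.q_inj _ _ h1 h2 he.1 he.2 ht
        subst this
        exact Or.inl hs
      | PN i => exact absurd ht (h.q_ne_s _ _ h1 h2 (by omega) (by have := he.2; omega))
      | L0 i => exact absurd ht (h.q_ne_b _ _ h1 h2)
      | L1 i => exact absurd ht (h.q_ne_b _ _ h1 h2)
      | LS i => exact absurd ht (h.q_ne_b _ _ h1 h2)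
      | X1 => exact absurd ht (h.q_ne_b _ _ h1 h2)
      | X2 => exact absurd ht (h.q_ne_b _ _ h1 h2)
  · rintro (rfl | rfl | rfl | rfl)
    · exact gr_adj_symm (gr_adj_of (.PS j) ⟨h1, h2⟩)
    · exact gr_adj_of (.PN j) ⟨h1, h2⟩
    · exact gr_adj_of (.L0 j) ⟨h1, h2⟩
    · exact gr_adj_of (.L1 j) ⟨h1, h2⟩

/-- neighbours of a single vertex -/
theorem gr_nb_s (h : NetData L qa sa ba) {j : ℕ} (h1 : 1 ≤ j) (h2 : j ≤ L + 1) :
    (grNet h).neighborSet (sa j) =
      {(if j ≤ L then qa j else ba (L + 2)), (if 2 ≤ j then qa (j - 1) else ba 0), ba j} := by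
  ext x
  simp only [SimpleGraph.Subgraph.mem_neighborSet, Set.mem_insert_iff, Set.mem_singleton_iff]
  constructor
  · rintro ⟨e, he, ⟨hs, ht⟩ | ⟨hs, ht⟩⟩
    · cases e with
      | PS i =>
        have := h.s_inj _ _ h1 h2 he.1 (by have := he.2; omega) hs
        subst this
        left
        rw [if_pos he.2]
        exact ht
      | PN i => exact absurd hs.symm (h.q_ne_s _ _ he.1 he.2 h1 h2)
      | L0 i => exact absurd hs.symm (h.q_ne_s _ _ he.1 he.2 h1 h2)
      | L1 i => exact absurd hs.symm (h.q_ne_s _ _ he.1 he.2 h1 h2)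
      | LS i =>
        have := h.s_inj _ _ h1 h2 he.1 he.2 hs
        subst this
        right; right
        exact ht
      | X1 =>
        have := h.s_inj _ _ h1 h2 le_rfl (by omega) hs
        subst this
        right; left
        rw [if_neg (by omega)]
        exact ht
      | X2 =>
        have := h.s_inj _ _ h1 h2 (by omega) le_rfl hs
        subst this
        left
        rw [if_neg (by omega)]
        exact ht
    · cases e with
      | PS i => exact absurd ht.symm (h.q_ne_s _ _ he.1 he.2 h1 h2)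
      | PN i =>
        have := h.s_inj _ _ h1 h2 (by omega) (by have := he.2; omega) ht
        subst this
        right; left
        have := he.1
        rw [if_pos (by omega)]
        exact hs
      | L0 i => exact absurd ht (h.s_ne_b _ _ h1 h2)
      | L1 i => exact absurd ht (h.s_ne_b _ _ h1 h2)
      | LS i => exact absurd ht (h.s_ne_b _ _ h1 h2)
      | X1 => exact absurd ht (h.s_ne_b _ _ h1 h2)
      | X2 => exact absurd ht (h.s_ne_b _ _ h1 h2)
  · rintro (hx | hx | hx)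
    · split_ifs at hx with hj
      · subst hx
        exact gr_adj_of (.PS j) ⟨h1, hj⟩
      · subst hx
        have : j = L + 1 := by omega
        subst this
        exact gr_adj_of .X2 trivial
    · split_ifs at hx with hj
      · subst hx
        obtain ⟨i, rfl⟩ : ∃ i, j = i + 1 := ⟨j - 1, by omega⟩
        exact gr_adj_symm (gr_adj_of (.PN i) ⟨by omega, by omega⟩)
      · subst hx
        have : j = 1 := by omega
        subst this
        exact gr_adj_of .X1 trivial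
    · subst hx
      exact gr_adj_of (.LS j) ⟨h1, h2⟩

theorem gr_T (h : NetData L qa sa ba) (x : E) :
    x ∈ (Set.range fun i : Fin 4 => ba i) ↔ ∃ j, x = ba j := by
  constructor
  · rintro ⟨i, rfl⟩
    exact ⟨i, rfl⟩
  · rintro ⟨j, rfl⟩
    exact ⟨⟨j % 4, Nat.mod_lt _ (by norm_num)⟩, (gr_ba_mod h j).symm⟩

/-- the sets of neighbours at a path vertex, with all we need about them -/
theorem gr_star_facts (h : NetData L qa sa ba) {v : E} (hv : v ∈ (grNet h).verts)
    (hT : v ∉ Set.range fun i : Fin 4 => ba i) :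
    ((grNet h).neighborSet v).Finite ∧ ((grNet h).neighborSet v).ncard ≤ 4 ∧
      3 ≤ ((grNet h).neighborSet v).ncard ∧
      ∑ᶠ w ∈ (grNet h).neighborSet v, ‖w - v‖⁻¹ • (w - v) = 0 := by
  rcases hv with ⟨j, h1, h2, rfl⟩ | ⟨j, h1, h2, rfl⟩ | ⟨j, rfl⟩
  · rw [gr_nb_q h h1 h2]
    have e1 : sa j ≠ sa (j + 1) := fun he => by
      have := h.s_inj _ _ h1 (by omega) (by omega) (by omega) he
      omega
    have e2 : ba j ≠ ba (j + 1) := gr_ba_ne h (by omega)
    have e3 : sa j ≠ ba j := h.s_ne_b _ _ h1 (by omega)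
    have e4 : sa j ≠ ba (j + 1) := h.s_ne_b _ _ h1 (by omega)
    have e5 : sa (j + 1) ≠ ba j := h.s_ne_b _ _ (by omega) (by omega)
    have e6 : sa (j + 1) ≠ ba (j + 1) := h.s_ne_b _ _ (by omega) (by omega)
    refine ⟨by simp, (gr_card4 e1 e3 e4 e5 e6 e2).le, ?_, ?_⟩
    · rw [gr_card4 e1 e3 e4 e5 e6 e2]; norm_num
    · rw [gr_sum4 _ e1 e3 e4 e5 e6 e2]
      exact h.balQ j h1 h2
  · rw [gr_nb_s h h1 h2]
    have hb := h.balS j h1 h2
    have key : ∀ a b : E, a ≠ b → a ≠ ba j → b ≠ ba j →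
        un (a - sa j) + un (b - sa j) + un (ba j - sa j) = 0 →
        (({a, b, ba j} : Set E).Finite ∧ ({a, b, ba j} : Set E).ncard ≤ 4 ∧
          3 ≤ ({a, b, ba j} : Set E).ncard ∧
          ∑ᶠ w ∈ ({a, b, ba j} : Set E), ‖w - sa j‖⁻¹ • (w - sa j) = 0) := by
      intro a b e1 e2 e3 hs
      refine ⟨by simp, ?_, ?_, ?_⟩
      · rw [gr_card3 e1 e2 e3]; norm_num
      · rw [gr_card3 e1 e2 e3]
      · rw [gr_sum3 _ e1 e2 e3]
        exact hs
    by_cases hL : j ≤ L
    · by_cases h2j : 2 ≤ j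
      · rw [if_pos hL, if_pos h2j]
        rw [if_pos hL, if_pos h2j] at hb
        apply key _ _ _ (h.q_ne_b _ _ h1 hL) (h.q_ne_b _ _ (by omega) (by omega)) hb
        intro he
        have := h.q_inj _ _ h1 hL (by omega) (by omega) he
        omega
      · rw [if_pos hL, if_neg h2j]
        rw [if_pos hL, if_neg h2j] at hb
        have : j = 1 := by omega
        subst this
        exact key _ _ (h.q_ne_b _ _ h1 hL) (h.q_ne_b _ _ h1 hL) (gr_ba_ne h (by omega)) hb
    · by_cases h2j : 2 ≤ j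
      · rw [if_neg hL, if_pos h2j]
        rw [if_neg hL, if_pos h2j] at hb
        have : j = L + 1 := by omega
        subst this
        exact key _ _ (h.q_ne_b _ _ (by omega) (by omega)).symm (gr_ba_ne h (by omega))
          (h.q_ne_b _ _ (by omega) (by omega)) hb
      · rw [if_neg hL, if_neg h2j]
        rw [if_neg hL, if_neg h2j] at hb
        have hj1 : j = L + 1 := by omega
        have hL0 : L = 0 := by omega
        subst hj1
        subst hL0
        exact key _ _ (gr_ba_ne h (by omega)) (gr_ba_ne h (by omega)) (gr_ba_ne h (by omega)) hb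
  · exact absurd ((gr_T h _).mpr ⟨j, rfl⟩) hT

theorem gr_finite (h : NetData L qa sa ba) : (grNet h).verts.Finite := by
  have h1 : (grNet h).verts ⊆ (qa '' Set.Icc 1 L) ∪ ((sa '' Set.Icc 1 (L + 1)) ∪
      Set.range fun i : Fin 4 => ba i) := by
    rintro x (⟨j, h1, h2, rfl⟩ | ⟨j, h1, h2, rfl⟩ | hj)
    · exact Or.inl ⟨j, ⟨h1, h2⟩, rfl⟩
    · exact Or.inr (Or.inl ⟨j, ⟨h1, h2⟩, rfl⟩)
    · exact Or.inr (Or.inr ((gr_T h _).mpr hj))
  apply Set.Finite.subset _ h1
  exact ((Set.finite_Icc 1 L).image _).union (((Set.finite_Icc 1 (L + 1)).image _).union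
    (Set.finite_range _))

theorem gr_connected (hL : 3 ≤ L) (h : NetData L qa sa ba) : (grNet h).Connected := by
  have hs1 : sa 1 ∈ (grNet h).verts := gr_s_mem le_rfl (by omega)
  set R : E → Prop := fun x => ∃ hx : x ∈ (grNet h).verts,
    (grNet h).coe.Reachable ⟨sa 1, hs1⟩ ⟨x, hx⟩ with hR
  have hstep : ∀ x y, R x → (grNet h).Adj x y → R y := by
    rintro x y ⟨hx, hr⟩ hxy
    have hy : y ∈ (grNet h).verts := (grNet h).edge_vert hxy.symm
    refine ⟨hy, hr.trans ?_⟩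
    apply SimpleGraph.Adj.reachable
    exact hxy
  have h0 : R (sa 1) := ⟨hs1, SimpleGraph.Reachable.refl _⟩
  have hS : ∀ j, 1 ≤ j → j ≤ L + 1 → R (sa j) := by
    intro j h1
    induction j, h1 using Nat.le_induction with
    | base => intro _; exact h0
    | succ n hn ih =>
      intro hn2
      have h3 := ih (by omega)
      have h4 : R (qa n) := hstep _ _ h3 (gr_adj_of (.PS n) ⟨hn, by omega⟩)
      exact hstep _ _ h4 (gr_adj_of (.PN n) ⟨hn, by omega⟩)
  have hQ : ∀ j, 1 ≤ j → j ≤ L → R (qa j) := by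
    intro j h1 h2
    exact hstep _ _ (hS j h1 (by omega)) (gr_adj_of (.PS j) ⟨h1, h2⟩)
  have hB : ∀ j, R (ba j) := by
    intro j
    rw [gr_ba_mod h j]
    have hlt : j % 4 < 4 := Nat.mod_lt _ (by norm_num)
    interval_cases (j % 4)
    · exact hstep _ _ h0 (gr_adj_of .X1 trivial)
    · exact hstep _ _ h0 (gr_adj_of (.LS 1) ⟨le_rfl, by omega⟩)
    · exact hstep _ _ (hQ 1 le_rfl (by omega)) (gr_adj_of (.L1 1) ⟨le_rfl, by omega⟩)
    · exact hstep _ _ (hQ 2 (by omega) (by omega)) (gr_adj_of (.L1 2) ⟨by omega, by omega⟩)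
  have hall : ∀ x ∈ (grNet h).verts, R x := by
    rintro x (⟨j, h1, h2, rfl⟩ | ⟨j, h1, h2, rfl⟩ | ⟨j, rfl⟩)
    · exact hQ j h1 h2
    · exact hS j h1 h2
    · exact hB j
  rw [SimpleGraph.Subgraph.connected_iff']
  have : Nonempty (grNet h).verts := ⟨⟨sa 1, hs1⟩⟩
  refine SimpleGraph.Connected.mk ?_
  intro x y
  obtain ⟨hx, hxr⟩ := hall x.1 x.2
  obtain ⟨hy, hyr⟩ := hall y.1 y.2
  exact hxr.symm.trans hyr

theorem gr_isNet (hL : 3 ≤ L) (h : NetData L qa sa ba) :
    IsGeodesicNet (Set.range fun i : Fin 4 => ba i) (grNet h) where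
  finite := gr_finite h
  connected := gr_connected hL h
  boundary := by
    rintro x ⟨i, rfl⟩
    exact gr_b_mem _
  no_boundary_edge := by
    rintro a ha b hb ⟨e, he, ⟨hs, ht⟩ | ⟨hs, ht⟩⟩
    · obtain ⟨j, hj⟩ := (gr_T h a).mp ha
      exact gr_src_ne_b h e he j (hs ▸ hj)
    · obtain ⟨j, hj⟩ := (gr_T h b).mp hb
      exact gr_src_ne_b h e he j (hs ▸ hj)
  embedded := by
    rintro a b c d ⟨e, he, h1⟩ ⟨f, hf, h2⟩ hne
    have hef : e ≠ f := by
      rintro rfl
      apply hne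
      rcases h1 with ⟨rfl, rfl⟩ | ⟨rfl, rfl⟩ <;> rcases h2 with ⟨rfl, rfl⟩ | ⟨rfl, rfl⟩
      · rfl
      · exact Sym2.eq_swap
      · exact Sym2.eq_swap
      · rfl
    have hm := h.meet e f he hf hef
    rcases h1 with ⟨rfl, rfl⟩ | ⟨rfl, rfl⟩ <;> rcases h2 with ⟨rfl, rfl⟩ | ⟨rfl, rfl⟩
    · exact hm
    · rw [segment_symm ℝ (f.tgt L qa sa ba), Set.pair_comm (f.tgt L qa sa ba)]
      exact hm
    · rw [segment_symm ℝ (e.tgt L qa sa ba), Set.pair_comm (e.tgt L qa sa ba)]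
      exact hm
    · rw [segment_symm ℝ (f.tgt L qa sa ba), Set.pair_comm (f.tgt L qa sa ba),
        segment_symm ℝ (e.tgt L qa sa ba), Set.pair_comm (e.tgt L qa sa ba)]
      exact hm
  degree := fun v hv hT => (gr_star_facts h hv hT).2.2.1
  balanced := fun v hv hT => (gr_star_facts h hv hT).2.2.2

theorem gr_irred (hL : 3 ≤ L) (h : NetData L qa sa ba) (H' : (⊤ : SimpleGraph E).Subgraph)
    (hss : H'.edgeSet ⊂ (grNet h).edgeSet) :
    ¬ IsGeodesicNet (Set.range fun i : Fin 4 => ba i) H' := by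
  intro hN
  have hadj : ∀ {x y : E}, H'.Adj x y → (grNet h).Adj x y := by
    intro x y hxy
    have := hss.subset (SimpleGraph.Subgraph.mem_edgeSet.mpr hxy)
    exact SimpleGraph.Subgraph.mem_edgeSet.mp this
  -- at a path vertex of `H'` all the edges of the net belong to `H'`
  have hstar : ∀ v ∈ H'.verts, v ∈ (grNet h).verts → (v ∉ Set.range fun i : Fin 4 => ba i) →
      ∀ w, (grNet h).Adj v w → H'.Adj v w := by
    intro v hv hv2 hvT w hw
    obtain ⟨f1, f2, _, f4⟩ := gr_star_facts h hv2 hvT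
    have he : H'.neighborSet v = (grNet h).neighborSet v :=
      gr_star f1 f2 (fun hh => gr_adj_ne h hh rfl)
        (fun w hw => hadj hw) (hN.degree v hv hvT) f4 (hN.balanced v hv hvT)
    have : w ∈ H'.neighborSet v := by
      rw [he]
      exact hw
    exact this
  have hqT : ∀ j, 1 ≤ j → j ≤ L → (qa j ∉ Set.range fun i : Fin 4 => ba i) := by
    rintro j h1 h2 ⟨i, hi⟩
    exact h.q_ne_b _ _ h1 h2 hi.symm
  have hsT : ∀ j, 1 ≤ j → j ≤ L + 1 → (sa j ∉ Set.range fun i : Fin 4 => ba i) := by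
    rintro j h1 h2 ⟨i, hi⟩
    exact h.s_ne_b _ _ h1 h2 hi.symm
  -- moving along the path inside `H'`
  have qs : ∀ j, 1 ≤ j → j ≤ L → qa j ∈ H'.verts → sa j ∈ H'.verts := by
    intro j h1 h2 hq
    have := hstar _ hq (gr_q_mem h1 h2) (hqT j h1 h2) (sa j)
      (gr_adj_symm (gr_adj_of (.PS j) ⟨h1, h2⟩))
    exact H'.edge_vert this.symm
  have qs' : ∀ j, 1 ≤ j → j ≤ L → qa j ∈ H'.verts → sa (j + 1) ∈ H'.verts := by
    intro j h1 h2 hq
    have := hstar _ hq (gr_q_mem h1 h2) (hqT j h1 h2) (sa (j + 1))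
      (gr_adj_of (.PN j) ⟨h1, h2⟩)
    exact H'.edge_vert this.symm
  have sq : ∀ j, 1 ≤ j → j ≤ L → sa j ∈ H'.verts → qa j ∈ H'.verts := by
    intro j h1 h2 hs
    have := hstar _ hs (gr_s_mem h1 (by omega)) (hsT j h1 (by omega)) (qa j)
      (gr_adj_of (.PS j) ⟨h1, h2⟩)
    exact H'.edge_vert this.symm
  have sq' : ∀ j, 1 ≤ j → j ≤ L → sa (j + 1) ∈ H'.verts → qa j ∈ H'.verts := by
    intro j h1 h2 hs
    have := hstar _ hs (gr_s_mem (by omega) (by omega)) (hsT (j + 1) (by omega) (by omega)) (qa j)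
      (gr_adj_symm (gr_adj_of (.PN j) ⟨h1, h2⟩))
    exact H'.edge_vert this.symm
  -- some path vertex is in `H'`
  have hb0 : ba 0 ∈ H'.verts := hN.boundary ⟨0, rfl⟩
  have hb1 : ba 1 ∈ H'.verts := hN.boundary ⟨1, rfl⟩
  have hb01 : ba 0 ≠ ba 1 := gr_ba_ne h (by norm_num)
  obtain ⟨v0, hv0⟩ : ∃ v0, H'.Adj (ba 0) v0 := by
    have hc := (SimpleGraph.Subgraph.connected_iff'.mp hN.connected).preconnected
      ⟨ba 0, hb0⟩ ⟨ba 1, hb1⟩
    obtain ⟨w, hw⟩ := gr_exists_adj hc (fun he => hb01 (congrArg Subtype.val he))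
    exact ⟨w.1, hw⟩
  have hv0H : v0 ∈ H'.verts := H'.edge_vert hv0.symm
  have hv0T : v0 ∉ Set.range fun i : Fin 4 => ba i := by
    intro hT
    exact hN.no_boundary_edge _ ⟨0, rfl⟩ _ hT hv0
  have hv0N : v0 ∈ (grNet h).verts := (grNet h).edge_vert (hadj hv0).symm
  -- hence some single vertex is in `H'`
  obtain ⟨j0, hj01, hj02, hj0⟩ : ∃ j, 1 ≤ j ∧ j ≤ L + 1 ∧ sa j ∈ H'.verts := by
    rcases hv0N with ⟨j, h1, h2, rfl⟩ | ⟨j, h1, h2, rfl⟩ | ⟨j, rfl⟩
    · exact ⟨j, h1, by omega, qs j h1 h2 hv0H⟩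
    · exact ⟨j, h1, h2, hv0H⟩
    · exact absurd ((gr_T h _).mpr ⟨j, rfl⟩) hv0T
  have hup : ∀ j, j0 ≤ j → j ≤ L + 1 → sa j ∈ H'.verts := by
    intro j hj
    induction j, hj using Nat.le_induction with
    | base => intro _; exact hj0
    | succ n hn ih =>
      intro h2
      exact qs' n (by omega) (by omega) (sq n (by omega) (by omega) (ih (by omega)))
  have hdown : ∀ d j, j + d = j0 → 1 ≤ j → sa j ∈ H'.verts := by
    intro d
    induction d with
    | zero =>
      intro j hj _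
      have : j = j0 := by omega
      rw [this]; exact hj0
    | succ d ih =>
      intro j hj h1
      exact qs j h1 (by omega) (sq' j h1 (by omega) (ih (j + 1) (by omega) (by omega)))
  have hS : ∀ j, 1 ≤ j → j ≤ L + 1 → sa j ∈ H'.verts := by
    intro j h1 h2
    by_cases hj : j0 ≤ j
    · exact hup j hj h2
    · exact hdown (j0 - j) j (by omega) h1
  have hQ : ∀ j, 1 ≤ j → j ≤ L → qa j ∈ H'.verts := by
    intro j h1 h2
    exact sq j h1 h2 (hS j h1 (by omega))
  -- so all the edges are in `H'`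
  apply hss.2
  intro z
  induction z using Sym2.ind with
  | _ x y =>
    intro hz
    rw [SimpleGraph.Subgraph.mem_edgeSet] at hz ⊢
    have main : ∀ e : EIdx, e.valid L → H'.Adj (e.src L qa sa) (e.tgt L qa sa ba) := by
      intro e he
      apply hstar _ _ (gr_src_mem e he) _ _ (gr_adj_of e he)
      · cases e with
        | PS j => exact hS _ he.1 (by have := he.2; omega)
        | PN j => exact hQ _ he.1 he.2
        | L0 j => exact hQ _ he.1 he.2
        | L1 j => exact hQ _ he.1 he.2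
        | LS j => exact hS _ he.1 he.2
        | X1 => exact hS _ le_rfl (by omega)
        | X2 => exact hS _ (by omega) le_rfl
      · intro hT
        obtain ⟨j, hj⟩ := (gr_T h _).mp hT
        exact gr_src_ne_b h e he j hj
    obtain ⟨e, he, ⟨rfl, rfl⟩ | ⟨rfl, rfl⟩⟩ := hz
    · exact main e he
    · exact (main e he).symm

theorem gr_count (h : NetData L qa sa ba) :
    ((grNet h).verts \ Set.range fun i : Fin 4 => ba i).ncard = 2 * L + 1 := by
  classical
  have hset : ((grNet h).verts \ Set.range fun i : Fin 4 => ba i) =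
      (((Finset.Icc 1 L).image qa ∪ (Finset.Icc 1 (L + 1)).image sa : Finset E) : Set E) := by
    ext x
    simp only [Finset.coe_union, Finset.coe_image, Finset.coe_Icc]
    constructor
    · rintro ⟨⟨j, h1, h2, rfl⟩ | ⟨j, h1, h2, rfl⟩ | ⟨j, rfl⟩, hT⟩
      · exact Or.inl ⟨j, ⟨h1, h2⟩, rfl⟩
      · exact Or.inr ⟨j, ⟨h1, h2⟩, rfl⟩
      · exact absurd ((gr_T h _).mpr ⟨j, rfl⟩) hT
    · rintro (⟨j, ⟨h1, h2⟩, rfl⟩ | ⟨j, ⟨h1, h2⟩, rfl⟩)
      · refine ⟨gr_q_mem h1 h2, ?_⟩
        rintro ⟨i, hi⟩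
        exact h.q_ne_b _ _ h1 h2 hi.symm
      · refine ⟨gr_s_mem h1 h2, ?_⟩
        rintro ⟨i, hi⟩
        exact h.s_ne_b _ _ h1 h2 hi.symm
  rw [hset, Set.ncard_coe_finset, Finset.card_union_of_disjoint, Finset.card_image_of_injOn,
    Finset.card_image_of_injOn, Nat.card_Icc, Nat.card_Icc]
  · omega
  · intro i hi j hj hij
    simp only [Finset.coe_Icc, Set.mem_Icc] at hi hj
    exact h.s_inj _ _ hi.1 hi.2 hj.1 hj.2 hij
  · intro i hi j hj hij
    simp only [Finset.coe_Icc, Set.mem_Icc] at hi hj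
    exact h.q_inj _ _ hi.1 hi.2 hj.1 hj.2 hij
  · rw [Finset.disjoint_left]
    intro x hx hx2
    rw [Finset.mem_image] at hx hx2
    obtain ⟨i, hi, rfl⟩ := hx
    obtain ⟨j, hj, hij⟩ := hx2
    rw [Finset.mem_Icc] at hi hj
    exact h.q_ne_s _ _ hi.1 hi.2 hj.1 hj.2 hij.symm

end

theorem exists_net_of_netData (L : ℕ) (hL : 3 ≤ L) (qa sa ba : ℕ → E)
    (h : NetData L qa sa ba) :
    ∃ H : (⊤ : SimpleGraph E).Subgraph,
      IsIrreducibleNet (Set.range fun i : Fin 4 => ba i) H ∧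
        (H.verts \ Set.range fun i : Fin 4 => ba i).ncard = 2 * L + 1 :=
  ⟨grNet h, ⟨gr_isNet hL h, gr_irred hL h⟩, gr_count h⟩

end Pool.Agent.Helper39.Net
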