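import Pool.Agent.Helper39.Net.Shared

/-! # The maximum principle for the cone (module NET-MAX)

`cone_max`: three sequences `S, W, Y` on `[a,b]` which satisfy the three-term relations of the
linearised chain, up to a small relative error, and which lie in the cone
`|W| ≤ S/50, |Y| ≤ S/100, S > 0` at the two first and at the two last indices, lie in the cone at
all indices. -/

namespace Pool.Agent.Helper39.Net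

theorem mx_abs (s w y θ : ℝ) (h1 : |w| ≤ 1 / 50 * (s + θ)) (h2 : |y| ≤ 1 / 100 * (s + θ))
    (hθ : 0 ≤ θ) : |s| + |w| + |y| ≤ 103 / 100 * s + 203 / 100 * θ := by
  have h3 : 0 ≤ s + θ := by
    have := abs_nonneg w
    linarith
  have h4 : |s| ≤ s + 2 * θ := by
    rw [abs_le]; constructor <;> linarith
  linarith

theorem mx_facet1 (S0 S1 S2 S3 S4 W0 W1 W2 W3 W4 Y0 Y1 Y2 Y3 Y4 θ : ℝ) (hθ : 0 < θ)
    (w0 : |W0| ≤ 1 / 50 * (S0 + θ)) (w1 : |W1| ≤ 1 / 50 * (S1 + θ))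
    (w2 : |W2| ≤ 1 / 50 * (S2 + θ))
    (w3 : |W3| ≤ 1 / 50 * (S3 + θ)) (w4 : |W4| ≤ 1 / 50 * (S4 + θ))
    (y0 : |Y0| ≤ 1 / 100 * (S0 + θ)) (y1 : |Y1| ≤ 1 / 100 * (S1 + θ))
    (y2 : |Y2| ≤ 1 / 100 * (S2 + θ))
    (y3 : |Y3| ≤ 1 / 100 * (S3 + θ)) (y4 : |Y4| ≤ 1 / 100 * (S4 + θ))
    (e2 : W2 = 1 / 50 * (S2 + θ))
    (a1 : |S1 - (333521 / 10 ^ 6 * (S0 + S2) + 246071 / 10 ^ 6 * (W0 + W2)
        + 1259585 / 10 ^ 6 * (Y2 - Y0))| ≤ 1 / 10 ^ 4 * (103 / 100 * (S0 + S1 + S2) + 609 / 100 * θ))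
    (a2 : |S2 - (333521 / 10 ^ 6 * (S1 + S3) + 246071 / 10 ^ 6 * (W1 + W3)
        + 1259585 / 10 ^ 6 * (Y3 - Y1))| ≤ 1 / 10 ^ 4 * (103 / 100 * (S1 + S2 + S3) + 609 / 100 * θ))
    (a3 : |S3 - (333521 / 10 ^ 6 * (S2 + S4) + 246071 / 10 ^ 6 * (W2 + W4)
        + 1259585 / 10 ^ 6 * (Y4 - Y2))| ≤ 1 / 10 ^ 4 * (103 / 100 * (S2 + S3 + S4) + 609 / 100 * θ))
    (b1 : |W1 - (-(3012 / 10 ^ 6) * (S0 + S2) + 147685 / 10 ^ 6 * (W0 + W2)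
        + 835709 / 10 ^ 6 * (Y0 - Y2))| ≤ 1 / 10 ^ 4 * (103 / 100 * (S0 + S1 + S2) + 609 / 100 * θ))
    (b2 : |W2 - (-(3012 / 10 ^ 6) * (S1 + S3) + 147685 / 10 ^ 6 * (W1 + W3)
        + 835709 / 10 ^ 6 * (Y1 - Y3))| ≤ 1 / 10 ^ 4 * (103 / 100 * (S1 + S2 + S3) + 609 / 100 * θ))
    (b3 : |W3 - (-(3012 / 10 ^ 6) * (S2 + S4) + 147685 / 10 ^ 6 * (W2 + W4)
        + 835709 / 10 ^ 6 * (Y2 - Y4))| ≤ 1 / 10 ^ 4 * (103 / 100 * (S2 + S3 + S4) + 609 / 100 * θ))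
    (c1 : |Y1 - (2671 / 10 ^ 6 * (S0 - S2) - 38728 / 10 ^ 6 * (W0 - W2)
        - 233894 / 10 ^ 6 * (Y0 + Y2))| ≤ 1 / 10 ^ 4 * (103 / 100 * (S0 + S1 + S2) + 609 / 100 * θ))
    (c2 : |Y2 - (2671 / 10 ^ 6 * (S1 - S3) - 38728 / 10 ^ 6 * (W1 - W3)
        - 233894 / 10 ^ 6 * (Y1 + Y3))| ≤ 1 / 10 ^ 4 * (103 / 100 * (S1 + S2 + S3) + 609 / 100 * θ))
    (c3 : |Y3 - (2671 / 10 ^ 6 * (S2 - S4) - 38728 / 10 ^ 6 * (W2 - W4)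
        - 233894 / 10 ^ 6 * (Y2 + Y4))| ≤ 1 / 10 ^ 4 * (103 / 100 * (S2 + S3 + S4) + 609 / 100 * θ)) :
    False := by
  subst e2
  rw [abs_le] at w0 w1 w2 w3 w4 y0 y1 y2 y3 y4 a1 a2 a3 b1 b2 b3 c1 c2 c3
  obtain ⟨w0, w0'⟩ := w0
  obtain ⟨w1, w1'⟩ := w1
  obtain ⟨w2, w2'⟩ := w2
  obtain ⟨w3, w3'⟩ := w3
  obtain ⟨w4, w4'⟩ := w4
  obtain ⟨y0, y0'⟩ := y0
  obtain ⟨y1, y1'⟩ := y1
  obtain ⟨y2, y2'⟩ := y2
  obtain ⟨y3, y3'⟩ := y3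
  obtain ⟨y4, y4'⟩ := y4
  obtain ⟨a1, a1'⟩ := a1
  obtain ⟨a2, a2'⟩ := a2
  obtain ⟨a3, a3'⟩ := a3
  obtain ⟨b1, b1'⟩ := b1
  obtain ⟨b2, b2'⟩ := b2
  obtain ⟨b3, b3'⟩ := b3
  obtain ⟨c1, c1'⟩ := c1
  obtain ⟨c2, c2'⟩ := c2
  obtain ⟨c3, c3'⟩ := c3
  linarith

theorem mx_facet2 (S0 S1 S2 S3 S4 W0 W1 W2 W3 W4 Y0 Y1 Y2 Y3 Y4 θ : ℝ) (hθ : 0 < θ)
    (w0 : |W0| ≤ 1 / 50 * (S0 + θ)) (w1 : |W1| ≤ 1 / 50 * (S1 + θ))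
    (w2 : |W2| ≤ 1 / 50 * (S2 + θ))
    (w3 : |W3| ≤ 1 / 50 * (S3 + θ)) (w4 : |W4| ≤ 1 / 50 * (S4 + θ))
    (y0 : |Y0| ≤ 1 / 100 * (S0 + θ)) (y1 : |Y1| ≤ 1 / 100 * (S1 + θ))
    (y2 : |Y2| ≤ 1 / 100 * (S2 + θ))
    (y3 : |Y3| ≤ 1 / 100 * (S3 + θ)) (y4 : |Y4| ≤ 1 / 100 * (S4 + θ))
    (e2 : W2 = -(1 / 50 * (S2 + θ)))
    (a1 : |S1 - (333521 / 10 ^ 6 * (S0 + S2) + 246071 / 10 ^ 6 * (W0 + W2)
        + 1259585 / 10 ^ 6 * (Y2 - Y0))| ≤ 1 / 10 ^ 4 * (103 / 100 * (S0 + S1 + S2) + 609 / 100 * θ))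
    (a2 : |S2 - (333521 / 10 ^ 6 * (S1 + S3) + 246071 / 10 ^ 6 * (W1 + W3)
        + 1259585 / 10 ^ 6 * (Y3 - Y1))| ≤ 1 / 10 ^ 4 * (103 / 100 * (S1 + S2 + S3) + 609 / 100 * θ))
    (a3 : |S3 - (333521 / 10 ^ 6 * (S2 + S4) + 246071 / 10 ^ 6 * (W2 + W4)
        + 1259585 / 10 ^ 6 * (Y4 - Y2))| ≤ 1 / 10 ^ 4 * (103 / 100 * (S2 + S3 + S4) + 609 / 100 * θ))
    (b1 : |W1 - (-(3012 / 10 ^ 6) * (S0 + S2) + 147685 / 10 ^ 6 * (W0 + W2)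
        + 835709 / 10 ^ 6 * (Y0 - Y2))| ≤ 1 / 10 ^ 4 * (103 / 100 * (S0 + S1 + S2) + 609 / 100 * θ))
    (b2 : |W2 - (-(3012 / 10 ^ 6) * (S1 + S3) + 147685 / 10 ^ 6 * (W1 + W3)
        + 835709 / 10 ^ 6 * (Y1 - Y3))| ≤ 1 / 10 ^ 4 * (103 / 100 * (S1 + S2 + S3) + 609 / 100 * θ))
    (b3 : |W3 - (-(3012 / 10 ^ 6) * (S2 + S4) + 147685 / 10 ^ 6 * (W2 + W4)
        + 835709 / 10 ^ 6 * (Y2 - Y4))| ≤ 1 / 10 ^ 4 * (103 / 100 * (S2 + S3 + S4) + 609 / 100 * θ))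
    (c1 : |Y1 - (2671 / 10 ^ 6 * (S0 - S2) - 38728 / 10 ^ 6 * (W0 - W2)
        - 233894 / 10 ^ 6 * (Y0 + Y2))| ≤ 1 / 10 ^ 4 * (103 / 100 * (S0 + S1 + S2) + 609 / 100 * θ))
    (c2 : |Y2 - (2671 / 10 ^ 6 * (S1 - S3) - 38728 / 10 ^ 6 * (W1 - W3)
        - 233894 / 10 ^ 6 * (Y1 + Y3))| ≤ 1 / 10 ^ 4 * (103 / 100 * (S1 + S2 + S3) + 609 / 100 * θ))
    (c3 : |Y3 - (2671 / 10 ^ 6 * (S2 - S4) - 38728 / 10 ^ 6 * (W2 - W4)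
        - 233894 / 10 ^ 6 * (Y2 + Y4))| ≤ 1 / 10 ^ 4 * (103 / 100 * (S2 + S3 + S4) + 609 / 100 * θ)) :
    False := by
  subst e2
  rw [abs_le] at w0 w1 w2 w3 w4 y0 y1 y2 y3 y4 a1 a2 a3 b1 b2 b3 c1 c2 c3
  obtain ⟨w0, w0'⟩ := w0
  obtain ⟨w1, w1'⟩ := w1
  obtain ⟨w2, w2'⟩ := w2
  obtain ⟨w3, w3'⟩ := w3
  obtain ⟨w4, w4'⟩ := w4
  obtain ⟨y0, y0'⟩ := y0
  obtain ⟨y1, y1'⟩ := y1
  obtain ⟨y2, y2'⟩ := y2
  obtain ⟨y3, y3'⟩ := y3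
  obtain ⟨y4, y4'⟩ := y4
  obtain ⟨a1, a1'⟩ := a1
  obtain ⟨a2, a2'⟩ := a2
  obtain ⟨a3, a3'⟩ := a3
  obtain ⟨b1, b1'⟩ := b1
  obtain ⟨b2, b2'⟩ := b2
  obtain ⟨b3, b3'⟩ := b3
  obtain ⟨c1, c1'⟩ := c1
  obtain ⟨c2, c2'⟩ := c2
  obtain ⟨c3, c3'⟩ := c3
  linarith

theorem mx_facet3 (S0 S1 S2 S3 S4 W0 W1 W2 W3 W4 Y0 Y1 Y2 Y3 Y4 θ : ℝ) (hθ : 0 < θ)
    (w0 : |W0| ≤ 1 / 50 * (S0 + θ)) (w1 : |W1| ≤ 1 / 50 * (S1 + θ))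
    (w2 : |W2| ≤ 1 / 50 * (S2 + θ))
    (w3 : |W3| ≤ 1 / 50 * (S3 + θ)) (w4 : |W4| ≤ 1 / 50 * (S4 + θ))
    (y0 : |Y0| ≤ 1 / 100 * (S0 + θ)) (y1 : |Y1| ≤ 1 / 100 * (S1 + θ))
    (y2 : |Y2| ≤ 1 / 100 * (S2 + θ))
    (y3 : |Y3| ≤ 1 / 100 * (S3 + θ)) (y4 : |Y4| ≤ 1 / 100 * (S4 + θ))
    (e2 : Y2 = 1 / 100 * (S2 + θ))
    (a1 : |S1 - (333521 / 10 ^ 6 * (S0 + S2) + 246071 / 10 ^ 6 * (W0 + W2)
        + 1259585 / 10 ^ 6 * (Y2 - Y0))| ≤ 1 / 10 ^ 4 * (103 / 100 * (S0 + S1 + S2) + 609 / 100 * θ))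
    (a2 : |S2 - (333521 / 10 ^ 6 * (S1 + S3) + 246071 / 10 ^ 6 * (W1 + W3)
        + 1259585 / 10 ^ 6 * (Y3 - Y1))| ≤ 1 / 10 ^ 4 * (103 / 100 * (S1 + S2 + S3) + 609 / 100 * θ))
    (a3 : |S3 - (333521 / 10 ^ 6 * (S2 + S4) + 246071 / 10 ^ 6 * (W2 + W4)
        + 1259585 / 10 ^ 6 * (Y4 - Y2))| ≤ 1 / 10 ^ 4 * (103 / 100 * (S2 + S3 + S4) + 609 / 100 * θ))
    (b1 : |W1 - (-(3012 / 10 ^ 6) * (S0 + S2) + 147685 / 10 ^ 6 * (W0 + W2)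
        + 835709 / 10 ^ 6 * (Y0 - Y2))| ≤ 1 / 10 ^ 4 * (103 / 100 * (S0 + S1 + S2) + 609 / 100 * θ))
    (b2 : |W2 - (-(3012 / 10 ^ 6) * (S1 + S3) + 147685 / 10 ^ 6 * (W1 + W3)
        + 835709 / 10 ^ 6 * (Y1 - Y3))| ≤ 1 / 10 ^ 4 * (103 / 100 * (S1 + S2 + S3) + 609 / 100 * θ))
    (b3 : |W3 - (-(3012 / 10 ^ 6) * (S2 + S4) + 147685 / 10 ^ 6 * (W2 + W4)
        + 835709 / 10 ^ 6 * (Y2 - Y4))| ≤ 1 / 10 ^ 4 * (103 / 100 * (S2 + S3 + S4) + 609 / 100 * θ))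
    (c1 : |Y1 - (2671 / 10 ^ 6 * (S0 - S2) - 38728 / 10 ^ 6 * (W0 - W2)
        - 233894 / 10 ^ 6 * (Y0 + Y2))| ≤ 1 / 10 ^ 4 * (103 / 100 * (S0 + S1 + S2) + 609 / 100 * θ))
    (c2 : |Y2 - (2671 / 10 ^ 6 * (S1 - S3) - 38728 / 10 ^ 6 * (W1 - W3)
        - 233894 / 10 ^ 6 * (Y1 + Y3))| ≤ 1 / 10 ^ 4 * (103 / 100 * (S1 + S2 + S3) + 609 / 100 * θ))
    (c3 : |Y3 - (2671 / 10 ^ 6 * (S2 - S4) - 38728 / 10 ^ 6 * (W2 - W4)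
        - 233894 / 10 ^ 6 * (Y2 + Y4))| ≤ 1 / 10 ^ 4 * (103 / 100 * (S2 + S3 + S4) + 609 / 100 * θ)) :
    False := by
  subst e2
  rw [abs_le] at w0 w1 w2 w3 w4 y0 y1 y2 y3 y4 a1 a2 a3 b1 b2 b3 c1 c2 c3
  obtain ⟨w0, w0'⟩ := w0
  obtain ⟨w1, w1'⟩ := w1
  obtain ⟨w2, w2'⟩ := w2
  obtain ⟨w3, w3'⟩ := w3
  obtain ⟨w4, w4'⟩ := w4
  obtain ⟨y0, y0'⟩ := y0
  obtain ⟨y1, y1'⟩ := y1
  obtain ⟨y2, y2'⟩ := y2
  obtain ⟨y3, y3'⟩ := y3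
  obtain ⟨y4, y4'⟩ := y4
  obtain ⟨a1, a1'⟩ := a1
  obtain ⟨a2, a2'⟩ := a2
  obtain ⟨a3, a3'⟩ := a3
  obtain ⟨b1, b1'⟩ := b1
  obtain ⟨b2, b2'⟩ := b2
  obtain ⟨b3, b3'⟩ := b3
  obtain ⟨c1, c1'⟩ := c1
  obtain ⟨c2, c2'⟩ := c2
  obtain ⟨c3, c3'⟩ := c3
  linarith

theorem mx_facet4 (S0 S1 S2 S3 S4 W0 W1 W2 W3 W4 Y0 Y1 Y2 Y3 Y4 θ : ℝ) (hθ : 0 < θ)
    (w0 : |W0| ≤ 1 / 50 * (S0 + θ)) (w1 : |W1| ≤ 1 / 50 * (S1 + θ))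
    (w2 : |W2| ≤ 1 / 50 * (S2 + θ))
    (w3 : |W3| ≤ 1 / 50 * (S3 + θ)) (w4 : |W4| ≤ 1 / 50 * (S4 + θ))
    (y0 : |Y0| ≤ 1 / 100 * (S0 + θ)) (y1 : |Y1| ≤ 1 / 100 * (S1 + θ))
    (y2 : |Y2| ≤ 1 / 100 * (S2 + θ))
    (y3 : |Y3| ≤ 1 / 100 * (S3 + θ)) (y4 : |Y4| ≤ 1 / 100 * (S4 + θ))
    (e2 : Y2 = -(1 / 100 * (S2 + θ)))
    (a1 : |S1 - (333521 / 10 ^ 6 * (S0 + S2) + 246071 / 10 ^ 6 * (W0 + W2)
        + 1259585 / 10 ^ 6 * (Y2 - Y0))| ≤ 1 / 10 ^ 4 * (103 / 100 * (S0 + S1 + S2) + 609 / 100 * θ))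
    (a2 : |S2 - (333521 / 10 ^ 6 * (S1 + S3) + 246071 / 10 ^ 6 * (W1 + W3)
        + 1259585 / 10 ^ 6 * (Y3 - Y1))| ≤ 1 / 10 ^ 4 * (103 / 100 * (S1 + S2 + S3) + 609 / 100 * θ))
    (a3 : |S3 - (333521 / 10 ^ 6 * (S2 + S4) + 246071 / 10 ^ 6 * (W2 + W4)
        + 1259585 / 10 ^ 6 * (Y4 - Y2))| ≤ 1 / 10 ^ 4 * (103 / 100 * (S2 + S3 + S4) + 609 / 100 * θ))
    (b1 : |W1 - (-(3012 / 10 ^ 6) * (S0 + S2) + 147685 / 10 ^ 6 * (W0 + W2)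
        + 835709 / 10 ^ 6 * (Y0 - Y2))| ≤ 1 / 10 ^ 4 * (103 / 100 * (S0 + S1 + S2) + 609 / 100 * θ))
    (b2 : |W2 - (-(3012 / 10 ^ 6) * (S1 + S3) + 147685 / 10 ^ 6 * (W1 + W3)
        + 835709 / 10 ^ 6 * (Y1 - Y3))| ≤ 1 / 10 ^ 4 * (103 / 100 * (S1 + S2 + S3) + 609 / 100 * θ))
    (b3 : |W3 - (-(3012 / 10 ^ 6) * (S2 + S4) + 147685 / 10 ^ 6 * (W2 + W4)
        + 835709 / 10 ^ 6 * (Y2 - Y4))| ≤ 1 / 10 ^ 4 * (103 / 100 * (S2 + S3 + S4) + 609 / 100 * θ))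
    (c1 : |Y1 - (2671 / 10 ^ 6 * (S0 - S2) - 38728 / 10 ^ 6 * (W0 - W2)
        - 233894 / 10 ^ 6 * (Y0 + Y2))| ≤ 1 / 10 ^ 4 * (103 / 100 * (S0 + S1 + S2) + 609 / 100 * θ))
    (c2 : |Y2 - (2671 / 10 ^ 6 * (S1 - S3) - 38728 / 10 ^ 6 * (W1 - W3)
        - 233894 / 10 ^ 6 * (Y1 + Y3))| ≤ 1 / 10 ^ 4 * (103 / 100 * (S1 + S2 + S3) + 609 / 100 * θ))
    (c3 : |Y3 - (2671 / 10 ^ 6 * (S2 - S4) - 38728 / 10 ^ 6 * (W2 - W4)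
        - 233894 / 10 ^ 6 * (Y2 + Y4))| ≤ 1 / 10 ^ 4 * (103 / 100 * (S2 + S3 + S4) + 609 / 100 * θ)) :
    False := by
  subst e2
  rw [abs_le] at w0 w1 w2 w3 w4 y0 y1 y2 y3 y4 a1 a2 a3 b1 b2 b3 c1 c2 c3
  obtain ⟨w0, w0'⟩ := w0
  obtain ⟨w1, w1'⟩ := w1
  obtain ⟨w2, w2'⟩ := w2
  obtain ⟨w3, w3'⟩ := w3
  obtain ⟨w4, w4'⟩ := w4
  obtain ⟨y0, y0'⟩ := y0
  obtain ⟨y1, y1'⟩ := y1
  obtain ⟨y2, y2'⟩ := y2
  obtain ⟨y3, y3'⟩ := y3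
  obtain ⟨y4, y4'⟩ := y4
  obtain ⟨a1, a1'⟩ := a1
  obtain ⟨a2, a2'⟩ := a2
  obtain ⟨a3, a3'⟩ := a3
  obtain ⟨b1, b1'⟩ := b1
  obtain ⟨b2, b2'⟩ := b2
  obtain ⟨b3, b3'⟩ := b3
  obtain ⟨c1, c1'⟩ := c1
  obtain ⟨c2, c2'⟩ := c2
  obtain ⟨c3, c3'⟩ := c3
  linarith


theorem cone_max (a b : ℕ) (hab : a + 3 ≤ b) (S W Y : ℕ → ℝ)
    (rS : ∀ j, a < j → j < b →
      |S j - (333521 / 10 ^ 6 * (S (j - 1) + S (j + 1)) + 246071 / 10 ^ 6 * (W (j - 1) + W (j + 1))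
        + 1259585 / 10 ^ 6 * (Y (j + 1) - Y (j - 1)))| ≤ 1 / 10 ^ 4 *
        (|S (j - 1)| + |W (j - 1)| + |Y (j - 1)| + (|S j| + |W j| + |Y j|) +
          (|S (j + 1)| + |W (j + 1)| + |Y (j + 1)|)))
    (rW : ∀ j, a < j → j < b →
      |W j - (-(3012 / 10 ^ 6) * (S (j - 1) + S (j + 1)) +
        147685 / 10 ^ 6 * (W (j - 1) + W (j + 1)) + 835709 / 10 ^ 6 * (Y (j - 1) - Y (j + 1)))| ≤
        1 / 10 ^ 4 *
        (|S (j - 1)| + |W (j - 1)| + |Y (j - 1)| + (|S j| + |W j| + |Y j|) +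
          (|S (j + 1)| + |W (j + 1)| + |Y (j + 1)|)))
    (rY : ∀ j, a < j → j < b →
      |Y j - (2671 / 10 ^ 6 * (S (j - 1) - S (j + 1)) - 38728 / 10 ^ 6 * (W (j - 1) - W (j + 1)) -
        233894 / 10 ^ 6 * (Y (j - 1) + Y (j + 1)))| ≤ 1 / 10 ^ 4 *
        (|S (j - 1)| + |W (j - 1)| + |Y (j - 1)| + (|S j| + |W j| + |Y j|) +
          (|S (j + 1)| + |W (j + 1)| + |Y (j + 1)|)))
    (hbd : ∀ j, j = a ∨ j = a + 1 ∨ j + 1 = b ∨ j = b →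
      0 < S j ∧ |W j| ≤ 1 / 50 * S j ∧ |Y j| ≤ 1 / 100 * S j) :
    (∀ j, a ≤ j → j ≤ b → 0 < S j ∧ |W j| ≤ 1 / 50 * S j ∧ |Y j| ≤ 1 / 100 * S j) ∧
    (∀ j, a < j → j < b → S (j - 1) ≤ 16 / 5 * S j ∧ S (j + 1) ≤ 16 / 5 * S j) := by
  classical
  -- the defect at an index
  let f : ℕ → ℝ := fun j => max (50 * |W j| - S j) (100 * |Y j| - S j)
  have hf1 : ∀ j, 50 * |W j| - S j ≤ f j := fun j => le_max_left _ _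
  have hf2 : ∀ j, 100 * |Y j| - S j ≤ f j := fun j => le_max_right _ _
  obtain ⟨j0, hj0, hmax⟩ := Finset.exists_max_image (Finset.Icc a b) f
    ⟨a, Finset.mem_Icc.2 ⟨le_refl _, by omega⟩⟩
  rw [Finset.mem_Icc] at hj0
  have hmax' : ∀ j, a ≤ j → j ≤ b → f j ≤ f j0 := fun j h1 h2 =>
    hmax j (Finset.mem_Icc.2 ⟨h1, h2⟩)
  have hθ : f j0 ≤ 0 := by
    by_contra hcon
    rw [not_le] at hcon
    have hne : ¬ (j0 = a ∨ j0 = a + 1 ∨ j0 + 1 = b ∨ j0 = b) := by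
      intro h
      obtain ⟨-, h2, h3⟩ := hbd j0 h
      have : f j0 ≤ 0 := max_le (by linarith) (by linarith)
      linarith
    obtain ⟨θ, hθd⟩ : ∃ θ, θ = f j0 := ⟨_, rfl⟩
    have hθ0 : 0 < θ := by rw [hθd]; exact hcon
    have hW : ∀ j, a ≤ j → j ≤ b → |W j| ≤ 1 / 50 * (S j + θ) := by
      intro j h1 h2
      have := hf1 j
      have := hmax' j h1 h2
      linarith
    have hY : ∀ j, a ≤ j → j ≤ b → |Y j| ≤ 1 / 100 * (S j + θ) := by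
      intro j h1 h2
      have := hf2 j
      have := hmax' j h1 h2
      linarith
    have herr : ∀ j, a < j → j < b →
        1 / 10 ^ 4 * (|S (j - 1)| + |W (j - 1)| + |Y (j - 1)| + (|S j| + |W j| + |Y j|) +
          (|S (j + 1)| + |W (j + 1)| + |Y (j + 1)|)) ≤
        1 / 10 ^ 4 * (103 / 100 * (S (j - 1) + S j + S (j + 1)) + 609 / 100 * θ) := by
      intro j h1 h2
      have e1 := mx_abs _ _ _ θ (hW (j - 1) (by omega) (by omega))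
        (hY (j - 1) (by omega) (by omega)) hθ0.le
      have e2 := mx_abs _ _ _ θ (hW j (by omega) (by omega))
        (hY j (by omega) (by omega)) hθ0.le
      have e3 := mx_abs _ _ _ θ (hW (j + 1) (by omega) (by omega))
        (hY (j + 1) (by omega) (by omega)) hθ0.le
      linarith
    obtain ⟨i, hi⟩ : ∃ i, j0 = i + 2 := ⟨j0 - 2, by omega⟩
    subst hi
    have hia : a ≤ i := by omega
    have hib : i + 4 ≤ b := by omega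
    have A := fun (k : ℕ) (h1 : a < k) (h2 : k < b) => (rS k h1 h2).trans (herr k h1 h2)
    have B := fun (k : ℕ) (h1 : a < k) (h2 : k < b) => (rW k h1 h2).trans (herr k h1 h2)
    have C := fun (k : ℕ) (h1 : a < k) (h2 : k < b) => (rY k h1 h2).trans (herr k h1 h2)
    have a1 := A (i + 1) (by omega) (by omega)
    have a2 := A (i + 2) (by omega) (by omega)
    have a3 := A (i + 3) (by omega) (by omega)
    have b1 := B (i + 1) (by omega) (by omega)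
    have b2 := B (i + 2) (by omega) (by omega)
    have b3 := B (i + 3) (by omega) (by omega)
    have c1 := C (i + 1) (by omega) (by omega)
    have c2 := C (i + 2) (by omega) (by omega)
    have c3 := C (i + 3) (by omega) (by omega)
    have k1 : i + 1 - 1 = i := by omega
    have k2 : i + 2 - 1 = i + 1 := by omega
    have k3 : i + 3 - 1 = i + 2 := by omega
    have k4 : i + 1 + 1 = i + 2 := by omega
    have k5 : i + 2 + 1 = i + 3 := by omega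
    have k6 : i + 3 + 1 = i + 4 := by omega
    rw [k1, k4] at a1 b1 c1
    rw [k2, k5] at a2 b2 c2
    rw [k3, k6] at a3 b3 c3
    have w0 := hW i (by omega) (by omega)
    have w1 := hW (i + 1) (by omega) (by omega)
    have w2 := hW (i + 2) (by omega) (by omega)
    have w3 := hW (i + 3) (by omega) (by omega)
    have w4 := hW (i + 4) (by omega) (by omega)
    have y0 := hY i (by omega) (by omega)
    have y1 := hY (i + 1) (by omega) (by omega)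
    have y2 := hY (i + 2) (by omega) (by omega)
    have y3 := hY (i + 3) (by omega) (by omega)
    have y4 := hY (i + 4) (by omega) (by omega)
    rcases max_choice (50 * |W (i + 2)| - S (i + 2)) (100 * |Y (i + 2)| - S (i + 2)) with h | h
    · have h' : θ = 50 * |W (i + 2)| - S (i + 2) := by rw [hθd]; exact h
      rcases abs_choice (W (i + 2)) with g | g
      · exact mx_facet1 _ _ _ _ _ _ _ _ _ _ _ _ _ _ _ θ hθ0 w0 w1 w2 w3 w4 y0 y1 y2 y3 y4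
          (by rw [g] at h'; linarith) a1 a2 a3 b1 b2 b3 c1 c2 c3
      · exact mx_facet2 _ _ _ _ _ _ _ _ _ _ _ _ _ _ _ θ hθ0 w0 w1 w2 w3 w4 y0 y1 y2 y3 y4
          (by rw [g] at h'; linarith) a1 a2 a3 b1 b2 b3 c1 c2 c3
    · have h' : θ = 100 * |Y (i + 2)| - S (i + 2) := by rw [hθd]; exact h
      rcases abs_choice (Y (i + 2)) with g | g
      · exact mx_facet3 _ _ _ _ _ _ _ _ _ _ _ _ _ _ _ θ hθ0 w0 w1 w2 w3 w4 y0 y1 y2 y3 y4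
          (by rw [g] at h'; linarith) a1 a2 a3 b1 b2 b3 c1 c2 c3
      · exact mx_facet4 _ _ _ _ _ _ _ _ _ _ _ _ _ _ _ θ hθ0 w0 w1 w2 w3 w4 y0 y1 y2 y3 y4
          (by rw [g] at h'; linarith) a1 a2 a3 b1 b2 b3 c1 c2 c3
  have hW : ∀ j, a ≤ j → j ≤ b → |W j| ≤ 1 / 50 * (S j + 0) := by
    intro j h1 h2
    have := hf1 j
    have := hmax' j h1 h2
    linarith
  have hY : ∀ j, a ≤ j → j ≤ b → |Y j| ≤ 1 / 100 * (S j + 0) := by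
    intro j h1 h2
    have := hf2 j
    have := hmax' j h1 h2
    linarith
  have hS0 : ∀ j, a ≤ j → j ≤ b → 0 ≤ S j := by
    intro j h1 h2
    have := hW j h1 h2
    have := abs_nonneg (W j)
    linarith
  have key : ∀ j, a < j → j < b → 3158 / 10 ^ 4 * (S (j - 1) + S (j + 1)) ≤
      10002 / 10 ^ 4 * S j := by
    intro j h1 h2
    have e1 := mx_abs _ _ _ 0 (hW (j - 1) (by omega) (by omega))
      (hY (j - 1) (by omega) (by omega)) le_rfl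
    have e2 := mx_abs _ _ _ 0 (hW j (by omega) (by omega))
      (hY j (by omega) (by omega)) le_rfl
    have e3 := mx_abs _ _ _ 0 (hW (j + 1) (by omega) (by omega))
      (hY (j + 1) (by omega) (by omega)) le_rfl
    have r := (abs_le.1 (rS j h1 h2)).1
    have u1 := abs_le.1 (hW (j - 1) (by omega) (by omega))
    have u3 := abs_le.1 (hW (j + 1) (by omega) (by omega))
    have v1 := abs_le.1 (hY (j - 1) (by omega) (by omega))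
    have v3 := abs_le.1 (hY (j + 1) (by omega) (by omega))
    have s1 := hS0 (j - 1) (by omega) (by omega)
    have s2 := hS0 j (by omega) (by omega)
    have s3 := hS0 (j + 1) (by omega) (by omega)
    obtain ⟨u1, u1'⟩ := u1
    obtain ⟨u3, u3'⟩ := u3
    obtain ⟨v1, v1'⟩ := v1
    obtain ⟨v3, v3'⟩ := v3
    linarith
  have hpos : ∀ n, a + n ≤ b → 0 < S (a + n) := by
    intro n
    induction n with
    | zero => intro _; exact (hbd a (Or.inl rfl)).1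
    | succ n ih =>
      intro hn
      have h1 := ih (by omega)
      rcases Nat.lt_or_ge (a + (n + 1)) b with h2 | h2
      · have h3 := key (a + (n + 1)) (by omega) h2
        have h4 : a + (n + 1) - 1 = a + n := by omega
        rw [h4] at h3
        have h5 := hS0 (a + (n + 1) + 1) (by omega) (by omega)
        have h6 : (0 : ℝ) < 10002 / 10 ^ 4 * S (a + (n + 1)) := by
          have : (0 : ℝ) < 3158 / 10 ^ 4 * (S (a + n) + S (a + (n + 1) + 1)) := by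
            have : 0 < S (a + n) + S (a + (n + 1) + 1) := by linarith
            positivity
          linarith
        linarith
      · have h3 : a + (n + 1) = b := by omega
        exact (hbd _ (Or.inr (Or.inr (Or.inr h3)))).1
  have hpos' : ∀ j, a ≤ j → j ≤ b → 0 < S j := by
    intro j h1 h2
    have h3 := hpos (j - a) (by omega)
    have h4 : a + (j - a) = j := by omega
    rwa [h4] at h3
  refine ⟨fun j h1 h2 => ⟨hpos' j h1 h2, by simpa using hW j h1 h2, by simpa using hY j h1 h2⟩,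
    fun j h1 h2 => ?_⟩
  have k1 := key j h1 h2
  have k2 := hS0 (j - 1) (by omega) (by omega)
  have k3 := hS0 (j + 1) (by omega) (by omega)
  have k4 := hS0 j (by omega) (by omega)
  constructor <;> linarith

end Pool.Agent.Helper39.Net
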