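import Pool.Agent.Helper39.Net.Shared
import Pool.Agent.Helper39.Net.MinL

/-! # The exact symmetric periodic point -/

namespace Pool.Agent.Helper39.Net

open scoped RealInnerProductSpace

theorem pe_un_smul {c : ℝ} (hc : 0 < c) (v : E) : un (c • v) = un v := by
  rw [un, un, norm_smul, Real.norm_of_nonneg hc.le, smul_smul]
  congr 1
  field_simp

theorem pe_un_apply (v : E) (i : Fin 3) : un v i = ‖v‖⁻¹ * v i := rfl

theorem pe_un_close {v : E} {t ε : ℝ} (hv : v ≠ 0) (ht : 0 ≤ t)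
    (h : |t ^ 2 * ‖v‖ ^ 2 - 1| ≤ ε) : ‖un v - t • v‖ ≤ ε := by
  have hv0 : 0 < ‖v‖ := norm_pos_iff.mpr hv
  have h1 : un v - t • v = (‖v‖⁻¹ - t) • v := by
    rw [un, sub_smul]
  rw [h1, norm_smul, Real.norm_eq_abs]
  have h2 : |‖v‖⁻¹ - t| * ‖v‖ = |1 - t * ‖v‖| := by
    rw [← abs_of_pos hv0, ← abs_mul, abs_of_pos hv0, sub_mul, inv_mul_cancel₀ hv0.ne']
  rw [h2]
  refine le_trans ?_ h
  have h3 : t ^ 2 * ‖v‖ ^ 2 - 1 = -((1 - t * ‖v‖) * (1 + t * ‖v‖)) := by ring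
  rw [h3, abs_neg, abs_mul]
  have h4 : 1 ≤ |1 + t * ‖v‖| := by
    rw [abs_of_nonneg (by positivity)]
    nlinarith [mul_nonneg ht hv0.le]
  nlinarith [abs_nonneg (1 - t * ‖v‖)]

/-- the linear parts of the three kinds of edges -/
noncomputable def peA : Fin 3 → E →ₗ[ℝ] E :=
  ![{ toFun := fun p => vec (2 * p 1) (2 * (p 1 - p 0)) (2 * p 2)
      map_add' := fun u v => by apply ext3 <;> simp <;> ring
      map_smul' := fun c v => by apply ext3 <;> simp <;> ring },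
    { toFun := fun p => vec 0 (2 * p 0) 0
      map_add' := fun u v => by apply ext3 <;> simp <;> ring
      map_smul' := fun c v => by apply ext3 <;> simp <;> ring },
    { toFun := fun p => vec (p 1) (p 1) (p 2)
      map_add' := fun u v => by apply ext3 <;> simp
      map_smul' := fun c v => by apply ext3 <;> simp }]

/-- the targets of the three kinds of edges -/
def pet : Fin 3 → E := ![0, vec 2 2 2, vec 1 1 1]

theorem peA0 (p : E) : peA 0 p = vec (2 * p 1) (2 * (p 1 - p 0)) (2 * p 2) := rfl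
theorem peA1 (p : E) : peA 1 p = vec 0 (2 * p 0) 0 := rfl
theorem peA2 (p : E) : peA 2 p = vec (p 1) (p 1) (p 2) := rfl
theorem pet0 : pet 0 = 0 := rfl
theorem pet1 : pet 1 = vec 2 2 2 := rfl
theorem pet2 : pet 2 = vec 1 1 1 := rfl

/-- centre of the ball -/
noncomputable def pex : E := vec (467250259797465298628002 / 10 ^ 24)
  (332758394999488271305483 / 10 ^ 24) (129353491311186047403164 / 10 ^ 24)

theorem pex0 : pex 0 = 467250259797465298628002 / 10 ^ 24 := rfl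
theorem pex1 : pex 1 = 332758394999488271305483 / 10 ^ 24 := rfl
theorem pex2 : pex 2 = 129353491311186047403164 / 10 ^ 24 := rfl

theorem pe_bounds {x : E} (hx : ‖x - pex‖ ≤ 1 / 1000) :
    (466 / 1000 ≤ x 0 ∧ x 0 ≤ 469 / 1000) ∧ (331 / 1000 ≤ x 1 ∧ x 1 ≤ 334 / 1000) ∧
      (128 / 1000 ≤ x 2 ∧ x 2 ≤ 131 / 1000) := by
  have h0 := (coord_le_norm (x - pex) 0).trans hx
  have h1 := (coord_le_norm (x - pex) 1).trans hx
  have h2 := (coord_le_norm (x - pex) 2).trans hx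
  rw [E_sub, pex0, abs_le] at h0
  rw [E_sub, pex1, abs_le] at h1
  rw [E_sub, pex2, abs_le] at h2
  refine ⟨⟨?_, ?_⟩, ⟨?_, ?_⟩, ⟨?_, ?_⟩⟩ <;> linarith

theorem pe_ne (e : Fin 3) (x : E) (hx : ‖x - pex‖ ≤ 1 / 1000) : peA e x - pet e ≠ 0 := by
  obtain ⟨⟨h0, h0'⟩, ⟨h1, h1'⟩, ⟨h2, h2'⟩⟩ := pe_bounds hx
  intro h
  have h3 := congrArg (fun v : E => v 0) h
  fin_cases e
  · change (peA 0 x - pet 0) 0 = (0 : E) 0 at h3
    rw [E_sub, peA0, pet0, vec_0, E_zero] at h3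
    linarith
  · change (peA 1 x - pet 1) 0 = (0 : E) 0 at h3
    rw [E_sub, peA1, pet1, vec_0, vec_0, E_zero] at h3
    linarith
  · change (peA 2 x - pet 2) 0 = (0 : E) 0 at h3
    rw [E_sub, peA2, pet2, vec_0, vec_0, E_zero] at h3
    linarith

/-- length bounds -/
noncomputable def peR : Fin 3 → ℝ := ![4 / 5, 31 / 10, 13 / 10]

theorem pe_R (e : Fin 3) (x : E) (hx : ‖x - pex‖ ≤ 1 / 1000) : ‖peA e x - pet e‖ ≤ peR e := by
  obtain ⟨⟨h0, h0'⟩, ⟨h1, h1'⟩, ⟨h2, h2'⟩⟩ := pe_bounds hx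
  fin_cases e
  · change ‖peA 0 x - pet 0‖ ≤ 4 / 5
    refine abs_le_of_sq_le_sq' ?_ (by norm_num) |>.2
    rw [normsq3]
    simp only [E_sub, peA0, pet0, vec_0, vec_1, vec_2, E_zero]
    nlinarith
  · change ‖peA 1 x - pet 1‖ ≤ 31 / 10
    refine abs_le_of_sq_le_sq' ?_ (by norm_num) |>.2
    rw [normsq3]
    simp only [E_sub, peA1, pet1, vec_0, vec_1, vec_2]
    nlinarith
  · change ‖peA 2 x - pet 2‖ ≤ 13 / 10
    refine abs_le_of_sq_le_sq' ?_ (by norm_num) |>.2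
    rw [normsq3]
    simp only [E_sub, peA2, pet2, vec_0, vec_1, vec_2]
    nlinarith

/-- the three edge vectors at the centre -/
theorem pe_V0 : peA 0 pex - pet 0 = vec (2 * (332758394999488271305483 / 10 ^ 24))
    (2 * (332758394999488271305483 / 10 ^ 24 - 467250259797465298628002 / 10 ^ 24))
    (2 * (129353491311186047403164 / 10 ^ 24)) := by
  apply ext3
  · rw [E_sub, peA0, pet0, vec_0, E_zero, vec_0, pex1]; ring
  · rw [E_sub, peA0, pet0, vec_1, E_zero, vec_1, pex1, pex0]; ring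
  · rw [E_sub, peA0, pet0, vec_2, E_zero, vec_2, pex2]; ring

theorem pe_V1 : peA 1 pex - pet 1 = vec (-2)
    (2 * (467250259797465298628002 / 10 ^ 24) - 2) (-2) := by
  apply ext3
  · rw [E_sub, peA1, pet1, vec_0, vec_0, vec_0]; ring
  · rw [E_sub, peA1, pet1, vec_1, vec_1, vec_1, pex0]
  · rw [E_sub, peA1, pet1, vec_2, vec_2, vec_2]; ring

theorem pe_V2 : peA 2 pex - pet 2 = vec (332758394999488271305483 / 10 ^ 24 - 1)
    (332758394999488271305483 / 10 ^ 24 - 1) (129353491311186047403164 / 10 ^ 24 - 1) := by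
  apply ext3
  · rw [E_sub, peA2, pet2, vec_0, vec_0, vec_0, pex1]
  · rw [E_sub, peA2, pet2, vec_1, vec_1, vec_1, pex1]
  · rw [E_sub, peA2, pet2, vec_2, vec_2, vec_2, pex2]

/-- approximate inverse lengths -/
noncomputable def pT : Fin 3 → ℝ := ![2621175367398335999595379 / (2 * 10 ^ 24),
  661711750417569748764697 / (2 * 10 ^ 24), 778865318422913612623417 / 10 ^ 24]

theorem pe_close (e : Fin 3) :
    ‖un (peA e pex - pet e) - pT e • (peA e pex - pet e)‖ ≤ 1 / 10 ^ 22 := by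
  apply pe_un_close (pe_ne e pex (by simp))
  · fin_cases e
    · change 0 ≤ (2621175367398335999595379 : ℝ) / (2 * 10 ^ 24); norm_num
    · change 0 ≤ (661711750417569748764697 : ℝ) / (2 * 10 ^ 24); norm_num
    · change 0 ≤ (778865318422913612623417 : ℝ) / 10 ^ 24; norm_num
  · fin_cases e
    · change |pT 0 ^ 2 * ‖peA 0 pex - pet 0‖ ^ 2 - 1| ≤ _
      rw [pe_V0, normsq3, vec_0, vec_1, vec_2]
      change |((2621175367398335999595379 : ℝ) / (2 * 10 ^ 24)) ^ 2 * _ - 1| ≤ _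
      rw [abs_le]
      constructor <;> norm_num
    · change |pT 1 ^ 2 * ‖peA 1 pex - pet 1‖ ^ 2 - 1| ≤ _
      rw [pe_V1, normsq3, vec_0, vec_1, vec_2]
      change |((661711750417569748764697 : ℝ) / (2 * 10 ^ 24)) ^ 2 * _ - 1| ≤ _
      rw [abs_le]
      constructor <;> norm_num
    · change |pT 2 ^ 2 * ‖peA 2 pex - pet 2‖ ^ 2 - 1| ≤ _
      rw [pe_V2, normsq3, vec_0, vec_1, vec_2]
      change |((778865318422913612623417 : ℝ) / 10 ^ 24) ^ 2 * _ - 1| ≤ _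
      rw [abs_le]
      constructor <;> norm_num

theorem pe_A_norm (e : Fin 3) (d : E) : ‖peA e d‖ ≤ 4 * ‖d‖ := by
  refine abs_le_of_sq_le_sq' ?_ (by positivity) |>.2
  rw [mul_pow, normsq3 d]
  fin_cases e
  · change ‖peA 0 d‖ ^ 2 ≤ _
    rw [normsq3, peA0, vec_0, vec_1, vec_2]
    nlinarith [sq_nonneg (d 0 + d 1), sq_nonneg (d 0), sq_nonneg (d 1), sq_nonneg (d 2)]
  · change ‖peA 1 d‖ ^ 2 ≤ _
    rw [normsq3, peA1, vec_0, vec_1, vec_2]
    nlinarith [sq_nonneg (d 0), sq_nonneg (d 1), sq_nonneg (d 2)]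
  · change ‖peA 2 d‖ ^ 2 ≤ _
    rw [normsq3, peA2, vec_0, vec_1, vec_2]
    nlinarith [sq_nonneg (d 0), sq_nonneg (d 1), sq_nonneg (d 2)]

theorem pe_lin (d : E) : |∑ e, ⟪pT e • (peA e pex - pet e), peA e d⟫| ≤ 1 / 10 ^ 22 * ‖d‖ := by
  have h0 := coord_le_norm d 0
  have h1 := coord_le_norm d 1
  have h2 := coord_le_norm d 2
  have hn := norm_nonneg d
  rw [abs_le] at h0 h1 h2
  rw [Fin.sum_univ_three, pe_V0, pe_V1, pe_V2]
  simp only [inner3, E_smul, peA0, peA1, peA2, vec_0, vec_1, vec_2]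
  have e0 : pT 0 = 2621175367398335999595379 / (2 * 10 ^ 24) := rfl
  have e1 : pT 1 = 661711750417569748764697 / (2 * 10 ^ 24) := rfl
  have e2 : pT 2 = 778865318422913612623417 / 10 ^ 24 := rfl
  rw [e0, e1, e2, abs_le]
  constructor <;> linarith

theorem pe_res (d : E) :
    |∑ e, ⟪un (peA e pex - pet e), peA e d⟫| ≤ 1 / 10 ^ 20 * ‖d‖ := by
  have h1 : ∑ e, ⟪un (peA e pex - pet e), peA e d⟫ =
      ∑ e, ⟪pT e • (peA e pex - pet e), peA e d⟫ +
        ∑ e, ⟪un (peA e pex - pet e) - pT e • (peA e pex - pet e), peA e d⟫ := by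
    rw [← Finset.sum_add_distrib]
    refine Finset.sum_congr rfl (fun e _ => ?_)
    rw [inner_sub_left]
    ring
  have h2 : |∑ e, ⟪un (peA e pex - pet e) - pT e • (peA e pex - pet e), peA e d⟫| ≤
      ∑ _e : Fin 3, 1 / 10 ^ 22 * (4 * ‖d‖) := by
    refine (Finset.abs_sum_le_sum_abs _ _).trans (Finset.sum_le_sum (fun e _ => ?_))
    refine (abs_real_inner_le_norm _ _).trans ?_
    exact mul_le_mul (pe_close e) (pe_A_norm e d) (norm_nonneg _) (by positivity)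
  have h3 := pe_lin d
  have hn := norm_nonneg d
  rw [h1]
  refine (abs_add_le _ _).trans ?_
  rw [Finset.sum_const, Finset.card_univ, Fintype.card_fin] at h2
  have h4 : (3 : ℕ) • (1 / 10 ^ 22 * (4 * ‖d‖)) = 12 / 10 ^ 22 * ‖d‖ := by
    rw [nsmul_eq_mul]; push_cast; ring
  rw [h4] at h2
  linarith

theorem pe_perp {v w : E} (hv : v ≠ 0) :
    ‖w‖ ^ 2 - ⟪un v, w⟫ ^ 2 = ((v 1 * w 2 - v 2 * w 1) ^ 2 + (v 2 * w 0 - v 0 * w 2) ^ 2 +
      (v 0 * w 1 - v 1 * w 0) ^ 2) / ‖v‖ ^ 2 := by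
  have hv0 : ‖v‖ ≠ 0 := norm_ne_zero_iff.mpr hv
  rw [un, real_inner_smul_left, mul_pow, inner3, eq_div_iff (by positivity), sub_mul]
  have h1 : (‖v‖⁻¹) ^ 2 * (v 0 * w 0 + v 1 * w 1 + v 2 * w 2) ^ 2 * ‖v‖ ^ 2 =
      (v 0 * w 0 + v 1 * w 1 + v 2 * w 2) ^ 2 := by
    field_simp
  rw [h1, normsq3, normsq3]
  ring

theorem pe_num0 : ‖peA 0 pex - pet 0‖ ^ 2 ≤ 5823 / 10000 := by
  rw [pe_V0, normsq3, vec_0, vec_1, vec_2]
  norm_num

theorem pe_num1 : ‖peA 1 pex - pet 1‖ ^ 2 ≤ 91354 / 10000 := by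
  rw [pe_V1, normsq3, vec_0, vec_1, vec_2]
  norm_num

theorem pe_num2 : ‖peA 2 pex - pet 2‖ ^ 2 ≤ 16485 / 10000 := by
  rw [pe_V2, normsq3, vec_0, vec_1, vec_2]
  norm_num

theorem pe_div {n m M R k : ℝ} (hn : 0 ≤ n) (hm : 0 < m) (hM : m ≤ M) (hR : 0 < R)
    (hk0 : 0 ≤ k) (hk : k * (M * (2 * R)) ≤ 1) :
    k * n ≤ n / m / (2 * R) := by
  rw [div_div, le_div_iff₀ (by positivity)]
  have h1 : k * (m * (2 * R)) ≤ k * (M * (2 * R)) := by
    apply mul_le_mul_of_nonneg_left _ hk0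
    nlinarith
  have h2 : k * (m * (2 * R)) ≤ 1 := h1.trans hk
  calc k * n * (m * (2 * R)) = k * (m * (2 * R)) * n := by ring
    _ ≤ 1 * n := mul_le_mul_of_nonneg_right h2 hn
    _ = n := one_mul n

theorem pe_coer (d : E) : 1 / 10 * ‖d‖ ^ 2 ≤
    ∑ e, (‖peA e d‖ ^ 2 - ⟪un (peA e pex - pet e), peA e d⟫ ^ 2) / (2 * peR e) := by
  have hp : ∀ e, 0 < ‖peA e pex - pet e‖ ^ 2 := fun e =>
    pow_pos (norm_pos_iff.mpr (pe_ne e pex (by simp))) 2
  rw [Fin.sum_univ_three, pe_perp (pe_ne 0 pex (by simp)), pe_perp (pe_ne 1 pex (by simp)),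
    pe_perp (pe_ne 2 pex (by simp))]
  have e0 : peR 0 = 4 / 5 := rfl
  have e1 : peR 1 = 31 / 10 := rfl
  have e2 : peR 2 = 13 / 10 := rfl
  rw [e0, e1, e2]
  refine le_trans ?_ (add_le_add (add_le_add
    (pe_div (k := 1073 / 1000) (by positivity) (hp 0) pe_num0 (by norm_num) (by norm_num)
      (by norm_num))
    (pe_div (k := 176 / 10000) (by positivity) (hp 1) pe_num1 (by norm_num) (by norm_num)
      (by norm_num)))
    (pe_div (k := 2333 / 10000) (by positivity) (hp 2) pe_num2 (by norm_num) (by norm_num)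
      (by norm_num)))
  rw [pe_V0, pe_V1, pe_V2, normsq3]
  simp only [peA0, peA1, peA2, vec_0, vec_1, vec_2]
  generalize d 0 = a
  generalize d 1 = b
  generalize d 2 = c
  nlinarith [sq_nonneg (a - (11229 / 10000) * b - (1134 / 10000) * c), sq_nonneg (b - (8464 / 10000) * c), sq_nonneg c,
    sq_nonneg a, sq_nonneg b, sq_nonneg (a + b), sq_nonneg (a - b), sq_nonneg (a + c),
    sq_nonneg (a - c), sq_nonneg (b + c), sq_nonneg (b - c)]

theorem exists_periodic : ∃ Qs Ss : E, IsPer Qs Ss := by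
  obtain ⟨x, hx1, hx2, hst⟩ := min_lemma peA pet pex (1 / 1000) (1 / 10) (1 / 10 ^ 20) peR
    (by norm_num) (by norm_num) (by norm_num) (by norm_num) pe_R pe_ne pe_coer pe_res
  set α := ‖peA 0 x - pet 0‖⁻¹ with hα
  set β := ‖peA 1 x - pet 1‖⁻¹ with hβ
  set γ := ‖peA 2 x - pet 2‖⁻¹ with hγ
  have s0 := hst (vec 1 0 0)
  have s1 := hst (vec 0 1 0)
  have s2 := hst (vec 0 0 1)
  simp only [Fin.sum_univ_three, inner3, pe_un_apply, ← hα, ← hβ, ← hγ] at s0 s1 s2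
  simp only [E_sub, peA0, peA1, peA2, pet0, pet1, pet2, vec_0, vec_1, vec_2, E_zero] at s0 s1 s2
  set Q : E := vec 0 (x 0) 0 with hQ
  set S : E := vec (x 1) (x 1) (x 2) with hS
  have n1 : ‖S - Q‖⁻¹ = 2 * α := by
    have h1 : peA 0 x - pet 0 = (2 : ℝ) • (S - Q) := by
      apply ext3
      · simp only [E_sub, E_smul, peA0, pet0, vec_0, E_zero, hS, hQ]; ring
      · simp only [E_sub, E_smul, peA0, pet0, vec_1, E_zero, hS, hQ]; ring
      · simp only [E_sub, E_smul, peA0, pet0, vec_2, E_zero, hS, hQ]; ring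
    rw [hα, h1, norm_smul, Real.norm_of_nonneg (by norm_num : (0 : ℝ) ≤ 2), mul_inv]
    ring
  have n2 : ‖g S - Q‖⁻¹ = 2 * α := by
    rw [← n1, norm3, norm3]
    congr 2
    simp only [E_sub, g_0, g_1, g_2, hS, hQ, vec_0, vec_1, vec_2]
    ring
  have n3 : ‖Q - S‖⁻¹ = 2 * α := by
    rw [← n1, norm_sub_rev]
  have n4 : ‖g.symm Q - S‖⁻¹ = 2 * α := by
    rw [← n1, norm3, norm3]
    congr 2
    simp only [E_sub, gs_0, gs_1, gs_2, hS, hQ, vec_0, vec_1, vec_2]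
    ring
  have m1 : ‖B0 - Q‖⁻¹ = 2 * β := by
    have h1 : peA 1 x - pet 1 = (-2 : ℝ) • (B0 - Q) := by
      apply ext3
      · simp only [E_sub, E_smul, peA1, pet1, vec_0, B0, hQ]; ring
      · simp only [E_sub, E_smul, peA1, pet1, vec_1, B0, hQ]; ring
      · simp only [E_sub, E_smul, peA1, pet1, vec_2, B0, hQ]; ring
    rw [hβ, h1, norm_smul, Real.norm_of_nonpos (by norm_num : (-2 : ℝ) ≤ 0), mul_inv]
    ring
  have m2 : ‖B1 - Q‖⁻¹ = 2 * β := by
    rw [← m1, norm3, norm3]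
    congr 2
    simp only [E_sub, B0, B1, hQ, vec_0, vec_1, vec_2]
    ring
  have k1 : ‖B0 - S‖⁻¹ = γ := by
    rw [hγ, norm_sub_rev]
    congr 2
  refine ⟨Q, S, ⟨rfl, rfl, rfl, ?_, ?_, ?_, ?_⟩⟩
  · refine le_trans ?_ (hx1.trans (by norm_num : (1 : ℝ) / 10 ^ 20 / (1 / 10) ≤ 1 / 10 ^ 18))
    refine abs_le_of_sq_le_sq' ?_ (by positivity) |>.2
    rw [normsq3, normsq3]
    have q0 : (Q - qh) 0 = 0 := by simp [hQ, qh, ofZ, zq]
    have q1 : (Q - qh) 1 = (x - pex) 0 := by simp [hQ, qh, ofZ, zq, pex]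
    have q2 : (Q - qh) 2 = 0 := by simp [hQ, qh, ofZ, zq]
    rw [q0, q1, q2]
    nlinarith [sq_nonneg ((x - pex) 1), sq_nonneg ((x - pex) 2)]
  · refine le_trans (b := 2 * ‖x - pex‖) ?_ (by
      have : (1 : ℝ) / 10 ^ 20 / (1 / 10) ≤ 1 / 10 ^ 19 := by norm_num
      linarith)
    refine abs_le_of_sq_le_sq' ?_ (by positivity) |>.2
    rw [mul_pow, normsq3, normsq3]
    have q0 : (S - sh) 0 = (x - pex) 1 := by simp [hS, sh, ofZ, zs, pex]
    have q1 : (S - sh) 1 = (x - pex) 1 := by simp [hS, sh, ofZ, zs, pex]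
    have q2 : (S - sh) 2 = (x - pex) 2 := by simp [hS, sh, ofZ, zs, pex]
    rw [q0, q1, q2]
    nlinarith [sq_nonneg ((x - pex) 0), sq_nonneg ((x - pex) 1), sq_nonneg ((x - pex) 2)]
  · apply ext3
    · simp only [E_add, pe_un_apply, n1, n2, m1, m2, E_zero]
      simp only [E_sub, g_0, hS, hQ, B0, B1, vec_0, vec_1, vec_2]
      ring
    · simp only [E_add, pe_un_apply, n1, n2, m1, m2, E_zero]
      simp only [E_sub, g_1, hS, hQ, B0, B1, vec_0, vec_1, vec_2]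
      linarith
    · simp only [E_add, pe_un_apply, n1, n2, m1, m2, E_zero]
      simp only [E_sub, g_2, hS, hQ, B0, B1, vec_0, vec_1, vec_2]
      ring
  · apply ext3
    · simp only [E_add, pe_un_apply, n3, n4, k1, E_zero]
      simp only [E_sub, gs_0, hS, hQ, B0, vec_0, vec_1, vec_2]
      linarith
    · simp only [E_add, pe_un_apply, n3, n4, k1, E_zero]
      simp only [E_sub, gs_1, hS, hQ, B0, vec_0, vec_1, vec_2]
      linarith
    · simp only [E_add, pe_un_apply, n3, n4, k1, E_zero]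
      simp only [E_sub, gs_2, hS, hQ, B0, vec_0, vec_1, vec_2]
      linarith

end Pool.Agent.Helper39.Net
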