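import Pool.Agent.Helper39.Net.Shared

/-! # Transport of geodesic nets under similarities -/

namespace Pool.Agent.Helper39.Net

open scoped RealInnerProductSpace

/-- the affine equivalence `F` acts on unit directions through `U` -/
def si_OK (F : E ≃ᵃ[ℝ] E) (U : E ≃ₗᵢ[ℝ] E) : Prop :=
  ∀ x y, ‖F x - F y‖⁻¹ • (F x - F y) = U (‖x - y‖⁻¹ • (x - y))

theorem si_OK_symm {F : E ≃ᵃ[ℝ] E} {U : E ≃ₗᵢ[ℝ] E} (h : si_OK F U) : si_OK F.symm U.symm := by
  intro x y
  have := h (F.symm x) (F.symm y)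
  rw [F.apply_symm_apply, F.apply_symm_apply] at this
  rw [this, U.symm_apply_apply]

/-- the image of a subgraph -/
def si_map (F : E ≃ᵃ[ℝ] E) (H : (⊤ : SimpleGraph E).Subgraph) :
    (⊤ : SimpleGraph E).Subgraph where
  verts := F '' H.verts
  Adj x y := H.Adj (F.symm x) (F.symm y)
  adj_sub := by
    intro x y h
    have h1 := H.adj_sub h
    rw [SimpleGraph.top_adj] at h1 ⊢
    intro hxy
    exact h1 (by rw [hxy])
  edge_vert := by
    intro x y h
    exact ⟨F.symm x, H.edge_vert h, F.apply_symm_apply x⟩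
  symm := ⟨fun _ _ h => H.symm.symm _ _ h⟩

theorem si_map_adj (F : E ≃ᵃ[ℝ] E) (H : (⊤ : SimpleGraph E).Subgraph) (x y : E) :
    (si_map F H).Adj x y ↔ H.Adj (F.symm x) (F.symm y) := Iff.rfl

theorem si_map_adj' (F : E ≃ᵃ[ℝ] E) (H : (⊤ : SimpleGraph E).Subgraph) (x y : E) :
    (si_map F H).Adj (F x) (F y) ↔ H.Adj x y := by
  rw [si_map_adj, F.symm_apply_apply, F.symm_apply_apply]

theorem si_nbr (F : E ≃ᵃ[ℝ] E) (H : (⊤ : SimpleGraph E).Subgraph) (v : E) :
    (si_map F H).neighborSet (F v) = F '' H.neighborSet v := by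
  ext w
  constructor
  · intro hw
    refine ⟨F.symm w, ?_, F.apply_symm_apply w⟩
    have : (si_map F H).Adj (F v) w := hw
    rw [si_map_adj, F.symm_apply_apply] at this
    exact this
  · rintro ⟨u, hu, rfl⟩
    exact (si_map_adj' F H v u).mpr hu

theorem si_seg (F : E ≃ᵃ[ℝ] E) (a b : E) :
    segment ℝ (F a) (F b) = F '' segment ℝ a b := by
  have := image_segment ℝ (F : E →ᵃ[ℝ] E) a b
  exact this.symm

theorem si_net {F : E ≃ᵃ[ℝ] E} {U : E ≃ₗᵢ[ℝ] E} (hF : si_OK F U) {T : Set E}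
    {H : (⊤ : SimpleGraph E).Subgraph} (h : IsGeodesicNet T H) :
    IsGeodesicNet (F '' T) (si_map F H) where
  finite := h.finite.image _
  connected := by
    refine ⟨?_⟩
    have h1 : H.coe.Connected := h.connected.coe
    let e : H.coe ≃g (si_map F H).coe :=
      { toEquiv := F.toEquiv.image H.verts
        map_rel_iff' := by
          intro a b
          change (si_map F H).Adj (F a) (F b) ↔ H.Adj a b
          exact si_map_adj' F H a b }
    exact (SimpleGraph.Iso.connected_iff e).mp h1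
  boundary := Set.image_mono h.boundary
  no_boundary_edge := by
    rintro _ ⟨a, ha, rfl⟩ _ ⟨b, hb, rfl⟩ hab
    exact h.no_boundary_edge a ha b hb ((si_map_adj' F H a b).mp hab)
  embedded := by
    intro a b c d hab hcd hne
    obtain ⟨a, rfl⟩ := F.surjective a
    obtain ⟨b, rfl⟩ := F.surjective b
    obtain ⟨c, rfl⟩ := F.surjective c
    obtain ⟨d, rfl⟩ := F.surjective d
    rw [si_map_adj'] at hab hcd
    have hne' : s(a, b) ≠ s(c, d) := by
      intro h2
      apply hne
      have := congrArg (Sym2.map F) h2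
      simpa using this
    have h3 := h.embedded a b c d hab hcd hne'
    rw [si_seg, si_seg, ← Set.image_inter F.injective]
    rintro _ ⟨x, hx, rfl⟩
    obtain ⟨h4, h5⟩ := h3 hx
    constructor
    · rcases h4 with rfl | h4
      · exact Or.inl rfl
      · rw [Set.mem_singleton_iff] at h4
        subst h4
        exact Or.inr rfl
    · rcases h5 with rfl | h5
      · exact Or.inl rfl
      · rw [Set.mem_singleton_iff] at h5
        subst h5
        exact Or.inr rfl
  degree := by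
    rintro _ ⟨v, hv, rfl⟩ hvT
    rw [si_nbr, Set.ncard_image_of_injective _ F.injective]
    exact h.degree v hv fun hT => hvT ⟨v, hT, rfl⟩
  balanced := by
    rintro _ ⟨v, hv, rfl⟩ hvT
    have h1 := h.balanced v hv fun hT => hvT ⟨v, hT, rfl⟩
    have hfin : (H.neighborSet v).Finite :=
      h.finite.subset fun w hw => H.edge_vert (H.symm.symm _ _ hw)
    rw [si_nbr, finsum_mem_image F.injective.injOn]
    have h2 : ∀ w, ‖F w - F v‖⁻¹ • (F w - F v) = U (‖w - v‖⁻¹ • (w - v)) := fun w => hF w v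
    simp only [h2]
    have h3 := (U.toLinearEquiv.toAddMonoidHom).map_finsum_mem
      (fun w => ‖w - v‖⁻¹ • (w - v)) hfin
    have h4 : ∑ᶠ w ∈ H.neighborSet v, U (‖w - v‖⁻¹ • (w - v)) =
        U (∑ᶠ w ∈ H.neighborSet v, ‖w - v‖⁻¹ • (w - v)) := h3.symm
    rw [h4, h1, map_zero]

theorem si_ssub (H1 H2 : (⊤ : SimpleGraph E).Subgraph) :
    H1.edgeSet ⊂ H2.edgeSet ↔
      (∀ x y, H1.Adj x y → H2.Adj x y) ∧ ∃ x y, H2.Adj x y ∧ ¬ H1.Adj x y := by
  constructor
  · intro h
    refine ⟨fun x y hxy => ?_, ?_⟩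
    · have := h.1 (show s(x, y) ∈ H1.edgeSet from hxy)
      exact this
    · obtain ⟨e, he, he'⟩ := Set.exists_of_ssubset h
      induction e using Sym2.ind with
      | _ x y => exact ⟨x, y, he, he'⟩
  · rintro ⟨h1, x, y, h2, h3⟩
    refine ⟨?_, ?_⟩
    · intro e he
      induction e using Sym2.ind with
      | _ x y => exact h1 x y he
    · intro h4
      exact h3 (h4 (show s(x, y) ∈ H2.edgeSet from h2))

theorem si_irr {F : E ≃ᵃ[ℝ] E} {U : E ≃ₗᵢ[ℝ] E} (hF : si_OK F U) {T : Set E}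
    {H : (⊤ : SimpleGraph E).Subgraph} (h : IsIrreducibleNet T H) :
    IsIrreducibleNet (F '' T) (si_map F H) := by
  refine ⟨si_net hF h.1, fun H' hH' hnet => ?_⟩
  have h1 := si_net (si_OK_symm hF) hnet
  have h2 : F.symm '' (F '' T) = T := by
    rw [← Set.image_comp]
    have : (F.symm : E → E) ∘ F = id := by
      funext x
      exact F.symm_apply_apply x
    rw [this, Set.image_id]
  rw [h2] at h1
  refine h.2 _ ?_ h1
  rw [si_ssub] at hH' ⊢
  obtain ⟨h3, x, y, h4, h5⟩ := hH'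
  refine ⟨fun a b hab => ?_, F.symm x, F.symm y, ?_, ?_⟩
  · rw [si_map_adj] at hab
    have := h3 _ _ hab
    rw [si_map_adj] at this
    simpa using this
  · exact h4
  · rw [si_map_adj]
    simpa using h5

theorem si_card (F : E ≃ᵃ[ℝ] E) (T : Set E) (H : (⊤ : SimpleGraph E).Subgraph) :
    ((si_map F H).verts \ F '' T).ncard = (H.verts \ T).ncard := by
  have : (si_map F H).verts \ F '' T = F '' (H.verts \ T) := by
    rw [Set.image_sdiff F.injective]
    rfl
  rw [this, Set.ncard_image_of_injective _ F.injective]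

/-- inner products of edge vectors of a regular tetrahedron -/
theorem si_gram (b : Fin 4 → E) (r : ℝ) (hb : ∀ i j, i ≠ j → dist (b i) (b j) = r)
    (i j : Fin 3) : ⟪b i.succ - b 0, b j.succ - b 0⟫ = if i = j then r ^ 2 else r ^ 2 / 2 := by
  have hi : ‖b i.succ - b 0‖ = r := by
    rw [← dist_eq_norm]
    exact hb _ _ (Fin.succ_ne_zero i)
  have hj : ‖b j.succ - b 0‖ = r := by
    rw [← dist_eq_norm]
    exact hb _ _ (Fin.succ_ne_zero j)
  split_ifs with hij
  · subst hij
    rw [real_inner_self_eq_norm_sq, hi]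
  · have hd : ‖(b i.succ - b 0) - (b j.succ - b 0)‖ = r := by
      rw [sub_sub_sub_cancel_right, ← dist_eq_norm]
      exact hb _ _ fun h => hij (Fin.succ_injective _ h)
    have h1 := norm_sub_sq_real (b i.succ - b 0) (b j.succ - b 0)
    rw [hd, hi, hj] at h1
    linarith

theorem si_indep (b : Fin 4 → E) (r : ℝ) (hr : 0 < r)
    (hb : ∀ i j, i ≠ j → dist (b i) (b j) = r) :
    LinearIndependent ℝ fun i : Fin 3 => b i.succ - b 0 := by
  rw [Fintype.linearIndependent_iff]
  intro t ht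
  have h1 : ∀ j : Fin 3, ∑ i : Fin 3, t i * (if i = j then r ^ 2 else r ^ 2 / 2) = 0 := by
    intro j
    have h2 := congrArg (fun x => ⟪x, b j.succ - b 0⟫) ht
    simp only [sum_inner, real_inner_smul_left, inner_zero_left] at h2
    rw [← h2]
    refine Finset.sum_congr rfl fun i _ => ?_
    rw [si_gram b r hb]
  have h0 := h1 0
  have h2 := h1 1
  have h3 := h1 2
  simp [Fin.sum_univ_three] at h0 h2 h3
  have hr2 : r ^ 2 ≠ 0 := by positivity
  have e0 : t 0 + t 1 / 2 + t 2 / 2 = 0 := by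
    apply mul_left_cancel₀ hr2
    linarith
  have e1 : t 0 / 2 + t 1 + t 2 / 2 = 0 := by
    apply mul_left_cancel₀ hr2
    linarith
  have e2 : t 0 / 2 + t 1 / 2 + t 2 = 0 := by
    apply mul_left_cancel₀ hr2
    linarith
  intro i
  fin_cases i
  · change t 0 = 0
    linarith
  · change t 1 = 0
    linarith
  · change t 2 = 0
    linarith

theorem si_exists (b A : Fin 4 → E) (r r' : ℝ) (hr : 0 < r) (hr' : 0 < r')
    (hb : ∀ i j, i ≠ j → dist (b i) (b j) = r) (hA : ∀ i j, i ≠ j → dist (A i) (A j) = r') :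
    ∃ U : E ≃ₗᵢ[ℝ] E, ∀ i : Fin 3, A i.succ - A 0 = (r' / r) • U (b i.succ - b 0) := by
  have hc : 0 < r' / r := div_pos hr' hr
  let B : Module.Basis (Fin 3) ℝ E :=
    basisOfLinearIndependentOfCardEqFinrank (si_indep b r hr hb) (by simp)
  have hB : ∀ i : Fin 3, B i = b i.succ - b 0 := fun i => by
    simp [B]
  let U0 : E →ₗ[ℝ] E := B.constr ℝ fun i : Fin 3 => (r' / r)⁻¹ • (A i.succ - A 0)
  have hU0 : ∀ i : Fin 3, U0 (b i.succ - b 0) = (r' / r)⁻¹ • (A i.succ - A 0) := fun i => by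
    rw [← hB]
    exact B.constr_basis ℝ _ i
  have hin : (innerₗ E).compl₁₂ U0 U0 = innerₗ E := by
    refine LinearMap.ext_basis B B fun i j => ?_
    simp only [LinearMap.compl₁₂_apply, hB, hU0, innerₗ_apply_apply]
    rw [real_inner_smul_left, real_inner_smul_right, si_gram A r' hA, si_gram b r hb]
    split_ifs
    · field_simp
    · field_simp
  have hin' : ∀ x y, ⟪U0 x, U0 y⟫ = ⟪x, y⟫ := by
    intro x y
    have := congrArg (fun f : E →ₗ[ℝ] E →ₗ[ℝ] ℝ => f x y) hin
    simpa using this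
  let U1 : E →ₗᵢ[ℝ] E := U0.isometryOfInner hin'
  let U : E ≃ₗᵢ[ℝ] E := U1.toLinearIsometryEquiv rfl
  refine ⟨U, fun i => ?_⟩
  have : U (b i.succ - b 0) = U0 (b i.succ - b 0) := rfl
  rw [this, hU0, smul_smul, mul_inv_cancel₀ hc.ne', one_smul]

/-! ## NET-SIM -/

theorem similarity_transport (b A : Fin 4 → E)
    (hb : ∃ r, 0 < r ∧ ∀ i j, i ≠ j → dist (b i) (b j) = r)
    (hA : ∃ r, 0 < r ∧ ∀ i j, i ≠ j → dist (A i) (A j) = r)
    (H : (⊤ : SimpleGraph E).Subgraph) (hH : IsIrreducibleNet (Set.range b) H) :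
    ∃ H' : (⊤ : SimpleGraph E).Subgraph, IsIrreducibleNet (Set.range A) H' ∧
      (H'.verts \ Set.range A).ncard = (H.verts \ Set.range b).ncard := by
  obtain ⟨r, hr, hb⟩ := hb
  obtain ⟨r', hr', hA⟩ := hA
  obtain ⟨U, hU⟩ := si_exists b A r r' hr hr' hb hA
  have hc : 0 < r' / r := div_pos hr' hr
  let e' : E ≃ₗ[ℝ] E := U.toLinearEquiv.trans (LinearEquiv.smulOfNeZero ℝ E (r' / r) hc.ne')
  let F : E ≃ᵃ[ℝ] E := AffineEquiv.mk' (fun x => (r' / r) • U (x - b 0) + A 0) e' (b 0)
    (fun p => by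
      change (r' / r) • U (p - b 0) + A 0 = (r' / r) • U (p - b 0) + ((r' / r) • U (b 0 - b 0) + A 0)
      simp)
  have hFx : ∀ x, F x = (r' / r) • U (x - b 0) + A 0 := fun x => rfl
  have hF : si_OK F U := by
    intro x y
    have h1 : F x - F y = (r' / r) • U (x - y) := by
      rw [hFx, hFx, add_sub_add_right_eq_sub, ← smul_sub, ← map_sub, sub_sub_sub_cancel_right]
    rw [h1, norm_smul, U.norm_map, Real.norm_eq_abs, abs_of_pos hc, map_smul, smul_smul]
    congr 1
    field_simp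
  have hrange : F '' Set.range b = Set.range A := by
    rw [← Set.range_comp]
    congr 1
    funext i
    change F (b i) = A i
    rw [hFx]
    refine Fin.cases ?_ (fun i => ?_) i
    · simp
    · rw [← hU]
      simp
  refine ⟨si_map F H, ?_, ?_⟩
  · rw [← hrange]
    exact si_irr hF hH
  · rw [← hrange]
    exact si_card F _ H

end Pool.Agent.Helper39.Net
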