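import Pool.Agent.Helper39.Net.StepC

/-! # One step of the linearised recursion: elimination -/

namespace Pool.Agent.Helper39.Net

open scoped RealInnerProductSpace

theorem st_tri8 {X a b c d e f g' h A B C D F G' H I T : ℝ}
    (hX : X = a + b + c + d + e + f + g' + h)
    (ha : |a| ≤ A) (hb : |b| ≤ B) (hc : |c| ≤ C) (hd : |d| ≤ D) (he : |e| ≤ F) (hf : |f| ≤ G')
    (hg : |g'| ≤ H) (hh : |h| ≤ I) (hT : A + B + C + D + F + G' + H + I ≤ T) : |X| ≤ T := by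
  rw [abs_le] at *
  constructor <;> linarith

theorem one_step (Q0 Q1 Q2 S1 S2 R0 R1 R2 T1 T2 : E)
    (hQ0 : NQ Q0) (hQ1 : NQ Q1) (hQ2 : NQ Q2) (hS1 : NS S1) (hS2 : NS S2)
    (hR0 : NQ R0) (hR1 : NQ R1) (hR2 : NQ R2) (hT1 : NS T1) (hT2 : NS T2)
    (b1 : un (S1 - Q1) + un (g S2 - Q1) + un (B0 - Q1) + un (B1 - Q1) = 0)
    (b2 : un (Q1 - S1) + un (g.symm Q0 - S1) + un (B0 - S1) = 0)
    (b3 : un (Q2 - S2) + un (g.symm Q1 - S2) + un (B0 - S2) = 0)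
    (c1 : un (T1 - R1) + un (g T2 - R1) + un (B0 - R1) + un (B1 - R1) = 0)
    (c2 : un (R1 - T1) + un (g.symm R0 - T1) + un (B0 - T1) = 0)
    (c3 : un (R2 - T2) + un (g.symm R1 - T2) + un (B0 - T2) = 0)
    (d0 d1 d2 e1 : E) (h0 : d0 = R0 - Q0) (h1 : d1 = Q1 - R1) (h2 : d2 = R2 - Q2)
    (h3 : e1 = S1 - T1) (n : ℝ) (hn : n = cN d0 + cN d1 + cN d2) :
    |cS d1 - (333521 / 10 ^ 6 * (cS d0 + cS d2) + 246071 / 10 ^ 6 * (cW d0 + cW d2) +
        1259585 / 10 ^ 6 * (cY d2 - cY d0))| ≤ 1 / 10 ^ 4 * n ∧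
    |cW d1 - (-(3012 / 10 ^ 6) * (cS d0 + cS d2) + 147685 / 10 ^ 6 * (cW d0 + cW d2) +
        835709 / 10 ^ 6 * (cY d0 - cY d2))| ≤ 1 / 10 ^ 4 * n ∧
    |cY d1 - (2671 / 10 ^ 6 * (cS d0 - cS d2) - 38728 / 10 ^ 6 * (cW d0 - cW d2) -
        233894 / 10 ^ 6 * (cY d0 + cY d2))| ≤ 1 / 10 ^ 4 * n ∧
    |e1 2 - (89534 / 10 ^ 6 * (cS d1 + cS d0) + 98232 / 10 ^ 6 * (cW d1 + cW d0) +
        161213 / 10 ^ 6 * (cY d1 - cY d0))| ≤ 1 / 10 ^ 4 * n ∧
    |e1 0 - e1 1 - (133387 / 10 ^ 6 * (cS d0 - cS d1) + 60387 / 10 ^ 6 * (cW d0 - cW d1) -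
        712852 / 10 ^ 6 * (cY d0 + cY d1))| ≤ 1 / 10 ^ 4 * n ∧
    |e1 0 + e1 1 - (50227 / 10 ^ 6 * (cS d0 + cS d1) - 52547 / 10 ^ 6 * (cW d0 + cW d1) +
        682422 / 10 ^ 6 * (cY d1 - cY d0))| ≤ 1 / 10 ^ 4 * n := by
  set e2 : E := T2 - S2 with he2
  obtain ⟨r1, nr1, q10, q11, q12⟩ := st_vtxQ hQ1 hR1 hS1 hT1 hS2 hT2 b1 c1 h1 h3 he2
  obtain ⟨r2, nr2, q20, q21, q22⟩ := st_vtxS hQ1 hR1 hQ0 hR0 hS1 hT1 b2 c2 h1 h0 h3
  obtain ⟨r3, nr3, q30, q31, q32⟩ := st_vtxS hR2 hQ2 hR1 hQ1 hT2 hS2 c3 b3 h2 h1 he2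
  obtain ⟨ne1, nr2'⟩ := st_normS nr2 q20 q21 q22
  obtain ⟨ne2, nr3'⟩ := st_normS nr3 q30 q31 q32
  have k0 := st_norm_cN d0
  have k1 := st_norm_cN d1
  have k2 := st_norm_cN d2
  have p0 := norm_nonneg d0
  have p1 := norm_nonneg d1
  have p2 := norm_nonneg d2
  have p3 := norm_nonneg e1
  have p4 := norm_nonneg e2
  clear b1 b2 b3 c1 c2 c3
  rw [hn]
  refine ⟨?_, ?_, ?_, ?_, ?_, ?_⟩
  · refine st_tri8
      (a := ((1411510282 / 10 ^ 16) * d0 0 + (-409254788916 / 10 ^ 18) * d0 1 + (677032353527 / 10 ^ 18) * d0 2))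
      (b := ((-2131727862 / 10 ^ 18) * d1 0 + (0) * d1 1 + (4679391862 / 10 ^ 18) * d1 2))
      (c := ((1411510282 / 10 ^ 16) * d2 0 + (409254788916 / 10 ^ 18) * d2 1 + (677032353527 / 10 ^ 18) * d2 2))
      (d := ((1926306799 / 10 ^ 18) * e1 0 + (489039474 / 10 ^ 18) * e1 1 + (-2955389417 / 10 ^ 18) * e1 2))
      (e := ((489039474 / 10 ^ 18) * e2 0 + (1926306799 / 10 ^ 18) * e2 1 + (-2955389417 / 10 ^ 18) * e2 2))
      (f := ((7261587131 / 10 ^ 9) * r1 0 + (0) * r1 1 + (5366298129 / 10 ^ 9) * r1 2))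
      (g' := ((-649177618 / 10 ^ 9) * r2 0 + (2767988967 / 10 ^ 9) * r2 1 + (1656037459 / 10 ^ 9) * r2 2))
      (h := ((2767988967 / 10 ^ 9) * r3 0 + (-649177618 / 10 ^ 9) * r3 1 + (1656037459 / 10 ^ 9) * r3 2))
      ?_
      (st_cs (K := (81 / 10 ^ 8)) (by norm_num) (by norm_num) d0)
      (st_cs (K := (1 / 10 ^ 8)) (by norm_num) (by norm_num) d1)
      (st_cs (K := (81 / 10 ^ 8)) (by norm_num) (by norm_num) d2)
      (st_cs (K := (1 / 10 ^ 8)) (by norm_num) (by norm_num) e1)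
      (st_cs (K := (1 / 10 ^ 8)) (by norm_num) (by norm_num) e2)
      (st_cs (K := (90293 / 10 ^ 4)) (by norm_num) (by norm_num) r1)
      (st_cs (K := (32903 / 10 ^ 4)) (by norm_num) (by norm_num) r2)
      (st_cs (K := (32903 / 10 ^ 4)) (by norm_num) (by norm_num) r3)
      ?_
    · unfold cS cW cY
      linear_combination (7261587131 / 10 ^ 9) * q10 + (5366298129 / 10 ^ 9) * q12 + (-649177618 / 10 ^ 9) * q20 + (2767988967 / 10 ^ 9) * q21 + (1656037459 / 10 ^ 9) * q22 + (2767988967 / 10 ^ 9) * q30 + (-649177618 / 10 ^ 9) * q31 + (1656037459 / 10 ^ 9) * q32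
    · linarith
  · refine st_tri8
      (a := ((1430307052207 / 10 ^ 18) * d0 0 + (153402389162 / 10 ^ 18) * d0 1 + (-414364721988 / 10 ^ 18) * d0 2))
      (b := ((355931348 / 10 ^ 18) * d1 0 + (0) * d1 1 + (228958552 / 10 ^ 18) * d1 2))
      (c := ((1430307052207 / 10 ^ 18) * d2 0 + (-153402389162 / 10 ^ 18) * d2 1 + (-414364721988 / 10 ^ 18) * d2 2))
      (d := ((-142450275 / 10 ^ 17) * e1 0 + (-928738731 / 10 ^ 18) * e1 1 + (339328451 / 10 ^ 18) * e1 2))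
      (e := ((-928738731 / 10 ^ 18) * e2 0 + (-142450275 / 10 ^ 17) * e2 1 + (339328451 / 10 ^ 18) * e2 2))
      (f := ((-3540014184 / 10 ^ 9) * r1 0 + (0) * r1 1 + (-1324045589 / 10 ^ 9) * r1 2))
      (g' := ((9393488 / 10 ^ 9) * r2 0 + (-983413808 / 10 ^ 9) * r2 1 + (-206444745 / 10 ^ 9) * r2 2))
      (h := ((-983413808 / 10 ^ 9) * r3 0 + (9393488 / 10 ^ 9) * r3 1 + (-206444745 / 10 ^ 9) * r3 2))
      ?_
      (st_cs (K := (15 / 10 ^ 7)) (by norm_num) (by norm_num) d0)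
      (st_cs (K := (1 / 10 ^ 8)) (by norm_num) (by norm_num) d1)
      (st_cs (K := (15 / 10 ^ 7)) (by norm_num) (by norm_num) d2)
      (st_cs (K := (1 / 10 ^ 8)) (by norm_num) (by norm_num) e1)
      (st_cs (K := (1 / 10 ^ 8)) (by norm_num) (by norm_num) e2)
      (st_cs (K := (37796 / 10 ^ 4)) (by norm_num) (by norm_num) r1)
      (st_cs (K := (10049 / 10 ^ 4)) (by norm_num) (by norm_num) r2)
      (st_cs (K := (10049 / 10 ^ 4)) (by norm_num) (by norm_num) r3)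
      ?_
    · unfold cS cW cY
      linear_combination (-3540014184 / 10 ^ 9) * q10 + (-1324045589 / 10 ^ 9) * q12 + (9393488 / 10 ^ 9) * q20 + (-983413808 / 10 ^ 9) * q21 + (-206444745 / 10 ^ 9) * q22 + (-983413808 / 10 ^ 9) * q30 + (9393488 / 10 ^ 9) * q31 + (-206444745 / 10 ^ 9) * q32
    · linarith
  · refine st_tri8
      (a := ((2082389757774 / 10 ^ 18) * d0 0 + (163078965508 / 10 ^ 18) * d0 1 + (178641506667 / 10 ^ 18) * d0 2))
      (b := ((0) * d1 0 + (-65814504 / 10 ^ 17) * d1 1 + (0) * d1 2))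
      (c := ((-2082389757774 / 10 ^ 18) * d2 0 + (163078965508 / 10 ^ 18) * d2 1 + (-178641506667 / 10 ^ 18) * d2 2))
      (d := ((-1124297665 / 10 ^ 18) * e1 0 + (193778917 / 10 ^ 18) * e1 1 + (-262174596 / 10 ^ 18) * e1 2))
      (e := ((-193778917 / 10 ^ 18) * e2 0 + (1124297665 / 10 ^ 18) * e2 1 + (262174596 / 10 ^ 18) * e2 2))
      (f := ((0) * r1 0 + (404764829 / 10 ^ 9) * r1 1 + (0) * r1 2))
      (g' := ((-615831 / 10 ^ 8) * r2 0 + (282378747 / 10 ^ 9) * r2 1 + (65253245 / 10 ^ 9) * r2 2))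
      (h := ((-282378747 / 10 ^ 9) * r3 0 + (615831 / 10 ^ 8) * r3 1 + (-65253245 / 10 ^ 9) * r3 2))
      ?_
      (st_cs (K := (21 / 10 ^ 7)) (by norm_num) (by norm_num) d0)
      (st_cs (K := (1 / 10 ^ 8)) (by norm_num) (by norm_num) d1)
      (st_cs (K := (21 / 10 ^ 7)) (by norm_num) (by norm_num) d2)
      (st_cs (K := (1 / 10 ^ 8)) (by norm_num) (by norm_num) e1)
      (st_cs (K := (1 / 10 ^ 8)) (by norm_num) (by norm_num) e2)
      (st_cs (K := (4048 / 10 ^ 4)) (by norm_num) (by norm_num) r1)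
      (st_cs (K := (2899 / 10 ^ 4)) (by norm_num) (by norm_num) r2)
      (st_cs (K := (2899 / 10 ^ 4)) (by norm_num) (by norm_num) r3)
      ?_
    · unfold cS cW cY
      linear_combination (404764829 / 10 ^ 9) * q11 + (-615831 / 10 ^ 8) * q20 + (282378747 / 10 ^ 9) * q21 + (65253245 / 10 ^ 9) * q22 + (-282378747 / 10 ^ 9) * q30 + (615831 / 10 ^ 8) * q31 + (-65253245 / 10 ^ 9) * q32
    · linarith
  · refine st_tri8
      (a := ((885536367483 / 10 ^ 18) * d0 0 + (265885866986 / 10 ^ 18) * d0 1 + (-1673808259772 / 10 ^ 18) * d0 2))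
      (b := ((885536367483 / 10 ^ 18) * d1 0 + (-265885866986 / 10 ^ 18) * d1 1 + (-1673808259772 / 10 ^ 18) * d1 2))
      (c := ((0) * d2 0 + (0) * d2 1 + (0) * d2 2))
      (d := ((558888563 / 10 ^ 18) * e1 0 + (558888563 / 10 ^ 18) * e1 1 + (94543891 / 10 ^ 18) * e1 2))
      (e := ((0) * e2 0 + (0) * e2 1 + (0) * e2 2))
      (f := ((0) * r1 0 + (0) * r1 1 + (0) * r1 2))
      (g' := ((31103608 / 10 ^ 9) * r2 0 + (31103608 / 10 ^ 9) * r2 1 + (206664779 / 10 ^ 9) * r2 2))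
      (h := ((0) * r3 0 + (0) * r3 1 + (0) * r3 2))
      ?_
      (st_cs (K := (192 / 10 ^ 8)) (by norm_num) (by norm_num) d0)
      (st_cs (K := (192 / 10 ^ 8)) (by norm_num) (by norm_num) d1)
      (st_cs (K := (1 / 10 ^ 8)) (by norm_num) (by norm_num) d2)
      (st_cs (K := (1 / 10 ^ 8)) (by norm_num) (by norm_num) e1)
      (st_cs (K := (1 / 10 ^ 8)) (by norm_num) (by norm_num) e2)
      (st_cs (K := (1 / 10 ^ 4)) (by norm_num) (by norm_num) r1)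
      (st_cs (K := (2113 / 10 ^ 4)) (by norm_num) (by norm_num) r2)
      (st_cs (K := (1 / 10 ^ 4)) (by norm_num) (by norm_num) r3)
      ?_
    · unfold cS cW cY
      linear_combination (31103608 / 10 ^ 9) * q20 + (31103608 / 10 ^ 9) * q21 + (206664779 / 10 ^ 9) * q22
    · linarith
  · refine st_tri8
      (a := ((-1498396622978 / 10 ^ 18) * d0 0 + (890244661222 / 10 ^ 18) * d0 1 + (-244278681138 / 10 ^ 18) * d0 2))
      (b := ((1498396622978 / 10 ^ 18) * d1 0 + (890244661222 / 10 ^ 18) * d1 1 + (244278681138 / 10 ^ 18) * d1 2))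
      (c := ((0) * d2 0 + (0) * d2 1 + (0) * d2 2))
      (d := ((305831842 / 10 ^ 18) * e1 0 + (-305831842 / 10 ^ 18) * e1 1 + (0) * e1 2))
      (e := ((0) * e2 0 + (0) * e2 1 + (0) * e2 2))
      (f := ((0) * r1 0 + (0) * r1 1 + (0) * r1 2))
      (g' := ((478594158 / 10 ^ 9) * r2 0 + (-478594158 / 10 ^ 9) * r2 1 + (0) * r2 2))
      (h := ((0) * r3 0 + (0) * r3 1 + (0) * r3 2))
      ?_
      (st_cs (K := (176 / 10 ^ 8)) (by norm_num) (by norm_num) d0)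
      (st_cs (K := (176 / 10 ^ 8)) (by norm_num) (by norm_num) d1)
      (st_cs (K := (1 / 10 ^ 8)) (by norm_num) (by norm_num) d2)
      (st_cs (K := (1 / 10 ^ 8)) (by norm_num) (by norm_num) e1)
      (st_cs (K := (1 / 10 ^ 8)) (by norm_num) (by norm_num) e2)
      (st_cs (K := (1 / 10 ^ 4)) (by norm_num) (by norm_num) r1)
      (st_cs (K := (6769 / 10 ^ 4)) (by norm_num) (by norm_num) r2)
      (st_cs (K := (1 / 10 ^ 4)) (by norm_num) (by norm_num) r3)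
      ?_
    · unfold cS cW cY
      linear_combination (478594158 / 10 ^ 9) * q20 + (-478594158 / 10 ^ 9) * q21
    · linarith
  · refine st_tri8
      (a := ((825572922624 / 10 ^ 18) * d0 0 + (-32111728048 / 10 ^ 18) * d0 1 + (-1380521623024 / 10 ^ 18) * d0 2))
      (b := ((825572922624 / 10 ^ 18) * d1 0 + (32111728048 / 10 ^ 18) * d1 1 + (-1380521623024 / 10 ^ 18) * d1 2))
      (c := ((0) * d2 0 + (0) * d2 1 + (0) * d2 2))
      (d := ((-1660480768 / 10 ^ 18) * e1 0 + (-1660480768 / 10 ^ 18) * e1 1 + (16843892 / 10 ^ 16) * e1 2))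
      (e := ((0) * e2 0 + (0) * e2 1 + (0) * e2 2))
      (f := ((0) * r1 0 + (0) * r1 1 + (0) * r1 2))
      (g' := ((213753456 / 10 ^ 9) * r2 0 + (213753456 / 10 ^ 9) * r2 1 + (62207216 / 10 ^ 9) * r2 2))
      (h := ((0) * r3 0 + (0) * r3 1 + (0) * r3 2))
      ?_
      (st_cs (K := (161 / 10 ^ 8)) (by norm_num) (by norm_num) d0)
      (st_cs (K := (161 / 10 ^ 8)) (by norm_num) (by norm_num) d1)
      (st_cs (K := (1 / 10 ^ 8)) (by norm_num) (by norm_num) d2)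
      (st_cs (K := (1 / 10 ^ 8)) (by norm_num) (by norm_num) e1)
      (st_cs (K := (1 / 10 ^ 8)) (by norm_num) (by norm_num) e2)
      (st_cs (K := (1 / 10 ^ 4)) (by norm_num) (by norm_num) r1)
      (st_cs (K := (3087 / 10 ^ 4)) (by norm_num) (by norm_num) r2)
      (st_cs (K := (1 / 10 ^ 4)) (by norm_num) (by norm_num) r3)
      ?_
    · unfold cS cW cY
      linear_combination (213753456 / 10 ^ 9) * q20 + (213753456 / 10 ^ 9) * q21 + (62207216 / 10 ^ 9) * q22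
    · linarith

end Pool.Agent.Helper39.Net
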