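import Pool.Agent.Helper39.Net.Shared

/-! # NET-TAB1: residual of the numerical reference chain -/

namespace Pool.Agent.Helper39.Net

/-! ## Integer part -/

/-- integer vectors -/
abbrev ta_Z : Type := ℤ × ℤ × ℤ

def ta_sub (a b : ta_Z) : ta_Z := (a.1 - b.1, a.2.1 - b.2.1, a.2.2 - b.2.2)
def ta_add (a b : ta_Z) : ta_Z := (a.1 + b.1, a.2.1 + b.2.1, a.2.2 + b.2.2)
def ta_smul (r : ℤ) (a : ta_Z) : ta_Z := (r * a.1, r * a.2.1, r * a.2.2)
def ta_g (a : ta_Z) : ta_Z := (-a.2.1, a.1, -a.2.2)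
def ta_gs (a : ta_Z) : ta_Z := (a.2.1, -a.1, -a.2.2)
def ta_n (a : ta_Z) : ℤ := a.1 * a.1 + a.2.1 * a.2.1 + a.2.2 * a.2.2
def ta_B0 : ta_Z := (10 ^ 24, 10 ^ 24, 10 ^ 24)
def ta_B1 : ta_Z := (-10 ^ 24, 10 ^ 24, -10 ^ 24)
def ta_B3 : ta_Z := (10 ^ 24, -10 ^ 24, -10 ^ 24)

/-- Newton iteration for `10^48 / sqrt V` -/
def ta_newt (V : ℤ) : ℕ → ℤ → ℤ
  | 0, r => r
  | k + 1, r => ta_newt V k ((r * (3 * 10 ^ 96 - V * r * r)) / (2 * 10 ^ 96))

def ta_rt (a : ta_Z) : ℤ := ta_newt (ta_n a) 20 (5 * 10 ^ 23)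

/-- `r` is a good approximation of `10^48 / |a|` -/
def ta_ok (a : ta_Z) : Bool :=
  let r := ta_rt a
  let e := r * r * ta_n a - 10 ^ 96
  decide (0 < r) && decide (e ≤ 10 ^ 76) && decide (-10 ^ 76 ≤ e)

def ta_sum : List ta_Z → ta_Z
  | [] => (0, 0, 0)
  | a :: l => ta_add (ta_smul (ta_rt a) a) (ta_sum l)

def ta_chk (l : List ta_Z) : Bool :=
  l.all ta_ok && decide (ta_n (ta_sum l) ≤ (534 * 10 ^ 29) ^ 2)

def ta_Q (j : ℕ) : ta_Z := tabQ.getD (j - 1) zq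
def ta_S (j : ℕ) : ta_Z := tabS.getD (j - 1) zs

def ta_eQ (j : ℕ) : List ta_Z :=
  [ta_sub (ta_S j) (ta_Q j), ta_sub (ta_g (ta_S (j + 1))) (ta_Q j), ta_sub ta_B0 (ta_Q j),
    ta_sub ta_B1 (ta_Q j)]

def ta_eS (j : ℕ) : List ta_Z :=
  [ta_sub (ta_Q j) (ta_S j),
    if 2 ≤ j then ta_sub (ta_gs (ta_Q (j - 1))) (ta_S j) else ta_sub ta_B3 (ta_S j),
    ta_sub ta_B0 (ta_S j)]

theorem ta_chkQ : ∀ i ∈ List.range 38, ta_chk (ta_eQ (i + 1)) = true := by
  decide +kernel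

theorem ta_chkS : ∀ i ∈ List.range 39, ta_chk (ta_eS (i + 1)) = true := by
  decide +kernel

theorem ta_small : ∀ a ∈ ta_eQ 38 ++ ta_eS 39, ta_rt a ≤ 29 * 10 ^ 23 := by
  decide +kernel

/-! ## Real part -/

theorem ta_un_sub (w u : E) (hu : u ≠ 0) : ‖un w - un u‖ ≤ 2 * ‖w - u‖ / ‖u‖ := by
  have hu' : 0 < ‖u‖ := norm_pos_iff.mpr hu
  by_cases hw : w = 0
  · subst hw
    have h1 : un (0 : E) = 0 := by simp [un]
    rw [h1, zero_sub, norm_neg, norm_un hu, zero_sub, norm_neg, le_div_iff₀ hu']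
    linarith
  have hw' : 0 < ‖w‖ := norm_pos_iff.mpr hw
  have h1 : un w - un u = (‖w‖⁻¹ - ‖u‖⁻¹) • w + ‖u‖⁻¹ • (w - u) := by
    simp only [un, sub_smul, smul_sub]
    abel
  have h2 : ‖(‖w‖⁻¹ - ‖u‖⁻¹) • w‖ ≤ ‖w - u‖ / ‖u‖ := by
    rw [norm_smul, Real.norm_eq_abs]
    have h3 : (‖w‖⁻¹ - ‖u‖⁻¹) = (‖u‖ - ‖w‖) / (‖w‖ * ‖u‖) := by
      field_simp
    rw [h3, abs_div, abs_of_pos (mul_pos hw' hu')]
    have h4 : |‖u‖ - ‖w‖| ≤ ‖w - u‖ := by
      rw [abs_sub_comm]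
      exact abs_norm_sub_norm_le w u
    have h5 : |‖u‖ - ‖w‖| / (‖w‖ * ‖u‖) * ‖w‖ = |‖u‖ - ‖w‖| / ‖u‖ := by
      field_simp
    rw [h5]
    exact div_le_div_of_nonneg_right h4 hu'.le
  have h3 : ‖‖u‖⁻¹ • (w - u)‖ = ‖w - u‖ / ‖u‖ := by
    rw [norm_smul, norm_inv, norm_norm]
    field_simp
  rw [h1]
  calc _ ≤ ‖(‖w‖⁻¹ - ‖u‖⁻¹) • w‖ + ‖‖u‖⁻¹ • (w - u)‖ := norm_add_le _ _
    _ ≤ ‖w - u‖ / ‖u‖ + ‖w - u‖ / ‖u‖ := by rw [h3]; linarith
    _ = _ := by ring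

theorem ta_ofZ_norm (a : ta_Z) : ‖ofZ a‖ ^ 2 = (ta_n a : ℝ) / 10 ^ 48 := by
  rw [normsq3]
  simp only [ofZ, vec_0, vec_1, vec_2, ta_n]
  push_cast
  ring

/-- `R / 10^48` -/
noncomputable def ta_big (a : ta_Z) : E :=
  vec ((a.1 : ℝ) / 10 ^ 48) ((a.2.1 : ℝ) / 10 ^ 48) ((a.2.2 : ℝ) / 10 ^ 48)

theorem ta_big_norm (a : ta_Z) : ‖ta_big a‖ ^ 2 = (ta_n a : ℝ) / 10 ^ 96 := by
  rw [normsq3]
  simp only [ta_big, vec_0, vec_1, vec_2, ta_n]
  push_cast
  ring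

theorem ta_big_add (a b : ta_Z) : ta_big (ta_add a b) = ta_big a + ta_big b := by
  apply ext3 <;> simp [ta_big, ta_add] <;> ring

theorem ta_big_smul (r : ℤ) (a : ta_Z) :
    ta_big (ta_smul r a) = ((r : ℝ) / 10 ^ 24) • ofZ a := by
  apply ext3 <;> simp [ta_big, ta_smul, ofZ] <;> ring

theorem ta_edge (a : ta_Z) (h : ta_ok a = true) (w : E) (δ : ℝ) (hw : ‖w - ofZ a‖ ≤ δ)
    (hs : δ = 0 ∨ ta_rt a ≤ 29 * 10 ^ 23) :
    ‖un w - ta_big (ta_smul (ta_rt a) a)‖ ≤ 1 / 10 ^ 20 + 6 * δ := by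
  have hδ : 0 ≤ δ := (norm_nonneg _).trans hw
  simp only [ta_ok, Bool.and_eq_true, decide_eq_true_eq] at h
  obtain ⟨⟨h0, h1⟩, h2⟩ := h
  rw [ta_big_smul]
  set t : ℝ := (ta_rt a : ℝ) / 10 ^ 24 with ht
  have ht0 : 0 < t := by
    have : (0 : ℝ) < ta_rt a := by exact_mod_cast h0
    positivity
  have hN := ta_ofZ_norm a
  set u : E := ofZ a with hu
  have e1 : t ^ 2 * ‖u‖ ^ 2 - 1 ≤ 1 / 10 ^ 20 := by
    rw [hN, ht]
    have : (ta_rt a * ta_rt a * ta_n a - 10 ^ 96 : ℝ) ≤ 10 ^ 76 := by exact_mod_cast h1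
    have h3 : ((ta_rt a : ℝ) / 10 ^ 24) ^ 2 * ((ta_n a : ℝ) / 10 ^ 48) - 1 =
      (ta_rt a * ta_rt a * ta_n a - 10 ^ 96 : ℝ) / 10 ^ 96 := by ring
    rw [h3, div_le_iff₀ (by positivity)]
    linarith
  have e2 : -(1 / 10 ^ 20) ≤ t ^ 2 * ‖u‖ ^ 2 - 1 := by
    rw [hN, ht]
    have : (-10 ^ 76 : ℝ) ≤ (ta_rt a * ta_rt a * ta_n a - 10 ^ 96 : ℝ) := by exact_mod_cast h2
    have h3 : ((ta_rt a : ℝ) / 10 ^ 24) ^ 2 * ((ta_n a : ℝ) / 10 ^ 48) - 1 =
      (ta_rt a * ta_rt a * ta_n a - 10 ^ 96 : ℝ) / 10 ^ 96 := by ring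
    rw [h3, le_div_iff₀ (by positivity)]
    linarith
  have hu0 : 0 < ‖u‖ := by
    rcases (norm_nonneg u).eq_or_lt with h | h
    · rw [← h] at e2
      norm_num at e2
    · exact h
  have hune : u ≠ 0 := norm_pos_iff.mp hu0
  have e3 : ‖un u - t • u‖ ≤ 1 / 10 ^ 20 := by
    have h3 : un u - t • u = (‖u‖⁻¹ - t) • u := by rw [sub_smul]; rfl
    have h4 : ‖un u - t • u‖ = |1 - t * ‖u‖| := by
      rw [h3, norm_smul, Real.norm_eq_abs]
      have : |‖u‖⁻¹ - t| * ‖u‖ = |‖u‖⁻¹ - t| * |‖u‖| := by rw [abs_of_pos hu0]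
      rw [this, ← abs_mul]
      congr 1
      field_simp
    rw [h4]
    have h5 : 0 < t * ‖u‖ := by positivity
    rw [abs_le]
    constructor
    · nlinarith
    · nlinarith
  have e4 : ‖un w - un u‖ ≤ 6 * δ := by
    rcases hs with hs | hs
    · have : w = u := by
        rw [hs] at hw
        exact sub_eq_zero.mp (norm_le_zero_iff.mp hw)
      rw [this, sub_self, norm_zero]
      linarith
    · have ht1 : t ≤ 29 / 10 := by
        rw [ht, div_le_iff₀ (by positivity)]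
        have : (ta_rt a : ℝ) ≤ 29 * 10 ^ 23 := by exact_mod_cast hs
        linarith
      have hu1 : 1 / 3 ≤ ‖u‖ := by
        by_contra hcon
        push Not at hcon
        have : t * ‖u‖ < 29 / 30 := by nlinarith
        have h6 : 0 < t * ‖u‖ := by positivity
        nlinarith
      calc ‖un w - un u‖ ≤ 2 * ‖w - u‖ / ‖u‖ := ta_un_sub w u hune
        _ ≤ 6 * δ := by
          rw [div_le_iff₀ hu0]
          nlinarith [norm_nonneg (w - u)]
  calc ‖un w - t • u‖ = ‖(un w - un u) + (un u - t • u)‖ := by congr 1; abel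
    _ ≤ ‖un w - un u‖ + ‖un u - t • u‖ := norm_add_le _ _
    _ ≤ _ := by linarith

theorem ta_final (l : List ta_Z) (h : ta_chk l = true) : ‖ta_big (ta_sum l)‖ ≤ 534 / 10 ^ 19 := by
  simp only [ta_chk, Bool.and_eq_true, decide_eq_true_eq] at h
  have h1 : ((ta_n (ta_sum l) : ℤ) : ℝ) ≤ (534 * 10 ^ 29) ^ 2 := by exact_mod_cast h.2
  have h2 := ta_big_norm (ta_sum l)
  have h3 : ‖ta_big (ta_sum l)‖ ^ 2 ≤ (534 / 10 ^ 19) ^ 2 := by
    rw [h2, div_le_iff₀ (by positivity)]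
    calc _ ≤ _ := h1
      _ = _ := by norm_num
  exact le_of_sq_le_sq_aux h3
where
  le_of_sq_le_sq_aux {x : ℝ} (h : x ^ 2 ≤ (534 / 10 ^ 19) ^ 2) : x ≤ 534 / 10 ^ 19 :=
    abs_le_of_sq_le_sq' h (by norm_num) |>.2

theorem ta_four (a b c d : ta_Z) (h : ta_chk [a, b, c, d] = true) (w x y z : E) (δ : ℝ)
    (ha : w = ofZ a) (hb : ‖x - ofZ b‖ ≤ δ) (hs : δ = 0 ∨ ta_rt b ≤ 29 * 10 ^ 23)
    (hc : y = ofZ c) (hd : z = ofZ d) (hδ : δ ≤ 1 / 10 ^ 18) :
    ‖un w + un x + un y + un z‖ ≤ 8 / 10 ^ 17 := by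
  have hall := h
  simp only [ta_chk, Bool.and_eq_true, List.all_cons, List.all_nil] at hall
  obtain ⟨⟨oa, ob, oc, od, -⟩, -⟩ := hall
  have ea := ta_edge a oa w 0 (by rw [ha, sub_self, norm_zero]) (Or.inl rfl)
  have eb := ta_edge b ob x δ hb hs
  have ec := ta_edge c oc y 0 (by rw [hc, sub_self, norm_zero]) (Or.inl rfl)
  have ed := ta_edge d od z 0 (by rw [hd, sub_self, norm_zero]) (Or.inl rfl)
  have hf := ta_final _ h
  have h0 : ta_big (0, 0, 0) = 0 := by apply ext3 <;> simp [ta_big]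
  simp only [ta_sum, ta_big_add, h0, add_zero] at hf
  set A := ta_big (ta_smul (ta_rt a) a)
  set B := ta_big (ta_smul (ta_rt b) b)
  set C := ta_big (ta_smul (ta_rt c) c)
  set D := ta_big (ta_smul (ta_rt d) d)
  have e : un w + un x + un y + un z = (un w - A) + (un x - B) + (un y - C) + (un z - D) +
      (A + (B + (C + D))) := by abel
  rw [e]
  have n1 := norm_add_le ((un w - A) + (un x - B) + (un y - C) + (un z - D)) (A + (B + (C + D)))
  have n2 := norm_add_le ((un w - A) + (un x - B) + (un y - C)) (un z - D)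
  have n3 := norm_add_le ((un w - A) + (un x - B)) (un y - C)
  have n4 := norm_add_le (un w - A) (un x - B)
  norm_num at *
  linarith

theorem ta_three (a b c : ta_Z) (h : ta_chk [a, b, c] = true) (w x y : E) (δ : ℝ)
    (ha : ‖w - ofZ a‖ ≤ 2 * δ) (hb : ‖x - ofZ b‖ ≤ δ) (hc : ‖y - ofZ c‖ ≤ δ)
    (hs : δ = 0 ∨ (ta_rt a ≤ 29 * 10 ^ 23 ∧ ta_rt b ≤ 29 * 10 ^ 23 ∧ ta_rt c ≤ 29 * 10 ^ 23))
    (hδ : δ ≤ 1 / 10 ^ 18) :
    ‖un w + un x + un y‖ ≤ 8 / 10 ^ 17 := by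
  have hall := h
  simp only [ta_chk, Bool.and_eq_true, List.all_cons, List.all_nil] at hall
  obtain ⟨⟨oa, ob, oc, -⟩, -⟩ := hall
  have ea := ta_edge a oa w (2 * δ) ha (hs.imp (fun h => by rw [h]; ring) (fun h => h.1))
  have eb := ta_edge b ob x δ hb (hs.imp id (fun h => h.2.1))
  have ec := ta_edge c oc y δ hc (hs.imp id (fun h => h.2.2))
  have hf := ta_final _ h
  have h0 : ta_big (0, 0, 0) = 0 := by apply ext3 <;> simp [ta_big]
  simp only [ta_sum, ta_big_add, h0, add_zero] at hf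
  set A := ta_big (ta_smul (ta_rt a) a)
  set B := ta_big (ta_smul (ta_rt b) b)
  set C := ta_big (ta_smul (ta_rt c) c)
  have e : un w + un x + un y = (un w - A) + (un x - B) + (un y - C) + (A + (B + C)) := by abel
  rw [e]
  have n1 := norm_add_le ((un w - A) + (un x - B) + (un y - C)) (A + (B + C))
  have n3 := norm_add_le ((un w - A) + (un x - B)) (un y - C)
  have n4 := norm_add_le (un w - A) (un x - B)
  norm_num at *
  linarith

/-! ## Maps on integer vectors -/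

theorem ta_ofZ_sub (a b : ta_Z) : ofZ (ta_sub a b) = ofZ a - ofZ b := by
  apply ext3 <;> simp [ofZ, ta_sub] <;> ring

theorem ta_ofZ_g (a : ta_Z) : ofZ (ta_g a) = g (ofZ a) := by
  apply ext3 <;> simp [ofZ, ta_g] <;> ring

theorem ta_ofZ_gs (a : ta_Z) : ofZ (ta_gs a) = g.symm (ofZ a) := by
  apply ext3 <;> simp [ofZ, ta_gs] <;> ring

theorem ta_ofZ_B0 : ofZ ta_B0 = B0 := by
  apply ext3 <;> simp [ofZ, ta_B0, B0] <;> norm_num

theorem ta_ofZ_B1 : ofZ ta_B1 = B1 := by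
  apply ext3 <;> simp [ofZ, ta_B1, B1] <;> norm_num

theorem ta_ofZ_B3 : ofZ ta_B3 = B3 := by
  apply ext3 <;> simp [ofZ, ta_B3, B3] <;> norm_num

theorem ta_refQ_low (L : ℕ) (Qs : E) (j : ℕ) (hj : j ≤ 38) : refQ L Qs j = ofZ (ta_Q j) := by
  simp [refQ, hj, tq, ta_Q]

theorem ta_refS_low (L : ℕ) (Ss : E) (j : ℕ) (hj : j ≤ 38) : refS L Ss j = ofZ (ta_S j) := by
  simp [refS, hj, ts, ta_S]

theorem ta_Q39 : ta_Q 39 = zq := by rfl
theorem ta_S39 : ta_S 39 = zs := by rfl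

theorem ta_leftQ (Qs Ss : E) (hP : IsPer Qs Ss) (L : ℕ) (hL : 100 ≤ L) (j : ℕ) (h1 : 1 ≤ j)
    (h38 : j ≤ 38) : ‖resQ (refQ L Qs) (refS L Ss) j‖ ≤ 8 / 10 ^ 17 := by
  have hc := ta_chkQ (j - 1) (by rw [List.mem_range]; omega)
  rw [Nat.sub_add_cancel h1] at hc
  unfold resQ
  rw [ta_refQ_low L Qs j h38, ta_refS_low L Ss j h38]
  rcases Nat.lt_or_ge j 38 with h | h
  · rw [ta_refS_low L Ss (j + 1) (by omega)]
    refine ta_four _ _ _ _ hc _ _ _ _ 0 ?_ ?_ (Or.inl rfl) ?_ ?_ (by norm_num)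
    · rw [ta_ofZ_sub]
    · rw [ta_ofZ_sub, ta_ofZ_g, sub_self, norm_zero]
    · rw [ta_ofZ_sub, ta_ofZ_B0]
    · rw [ta_ofZ_sub, ta_ofZ_B1]
  · have hj : j = 38 := by omega
    subst hj
    have hS : refS L Ss (38 + 1) = Ss := by
      simp only [refS]
      rw [if_neg (by norm_num), if_pos (by omega)]
    rw [hS]
    refine ta_four _ _ _ _ hc _ _ _ _ (1 / 10 ^ 18) ?_ ?_ (Or.inr ?_) ?_ ?_ le_rfl
    · rw [ta_ofZ_sub]
    · rw [ta_ofZ_sub, ta_ofZ_g, ta_S39]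
      have : g Ss - ofZ (ta_Q 38) - (g (ofZ zs) - ofZ (ta_Q 38)) = g (Ss - sh) := by
        rw [map_sub]; simp only [sh]; abel
      rw [this, LinearIsometryEquiv.norm_map]
      exact hP.ns
    · exact ta_small _ (by simp [ta_eQ])
    · rw [ta_ofZ_sub, ta_ofZ_B0]
    · rw [ta_ofZ_sub, ta_ofZ_B1]

theorem ta_leftS (Qs Ss : E) (hP : IsPer Qs Ss) (L : ℕ) (hL : 100 ≤ L) (j : ℕ) (h1 : 1 ≤ j)
    (h39 : j ≤ 39) : ‖resS L (refQ L Qs) (refS L Ss) j‖ ≤ 8 / 10 ^ 17 := by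
  have hc := ta_chkS (j - 1) (by rw [List.mem_range]; omega)
  rw [Nat.sub_add_cancel h1] at hc
  unfold resS
  rw [if_pos (by omega : j ≤ L)]
  rcases Nat.lt_or_ge j 39 with h | h
  · rw [ta_refQ_low L Qs j (by omega), ta_refS_low L Ss j (by omega)]
    rcases Nat.lt_or_ge j 2 with h2 | h2
    · rw [if_neg (by omega)]
      rw [ta_eS, if_neg (by omega)] at hc
      refine ta_three _ _ _ hc (ofZ (ta_Q j) - ofZ (ta_S j)) (B3 - ofZ (ta_S j))
        (B0 - ofZ (ta_S j)) 0 ?_ ?_ ?_ (Or.inl rfl) (by norm_num)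
      · rw [ta_ofZ_sub, sub_self, norm_zero]; norm_num
      · rw [ta_ofZ_sub, ta_ofZ_B3, sub_self, norm_zero]
      · rw [ta_ofZ_sub, ta_ofZ_B0, sub_self, norm_zero]
    · rw [if_pos h2, ta_refQ_low L Qs (j - 1) (by omega)]
      rw [ta_eS, if_pos h2] at hc
      refine ta_three _ _ _ hc (ofZ (ta_Q j) - ofZ (ta_S j))
        (g.symm (ofZ (ta_Q (j - 1))) - ofZ (ta_S j))
        (B0 - ofZ (ta_S j)) 0 ?_ ?_ ?_ (Or.inl rfl) (by norm_num)
      · rw [ta_ofZ_sub, sub_self, norm_zero]; norm_num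
      · rw [ta_ofZ_sub, ta_ofZ_gs, sub_self, norm_zero]
      · rw [ta_ofZ_sub, ta_ofZ_B0, sub_self, norm_zero]
  · have hj : j = 39 := by omega
    subst hj
    have hS : refS L Ss 39 = Ss := by
      simp only [refS]
      rw [if_neg (by norm_num), if_pos (by omega)]
    have hQ : refQ L Qs 39 = Qs := by
      simp only [refQ]
      rw [if_neg (by norm_num), if_pos (by omega)]
    have hQ8 : refQ L Qs (39 - 1) = ofZ (ta_Q 38) := ta_refQ_low L Qs 38 le_rfl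
    have hc' := hc
    rw [ta_eS, if_pos (by norm_num)] at hc
    rw [hS, hQ, if_pos (by norm_num), hQ8]
    have hnq := hP.nq
    have hns := hP.ns
    refine ta_three _ _ _ hc (Qs - Ss) (g.symm (ofZ (ta_Q 38)) - Ss) (B0 - Ss) (1 / 10 ^ 18)
      ?_ ?_ ?_ (Or.inr ⟨?_, ?_, ?_⟩) le_rfl
    · rw [ta_ofZ_sub, ta_Q39, ta_S39]
      have : Qs - Ss - (ofZ zq - ofZ zs) = (Qs - qh) - (Ss - sh) := by
        simp only [sh, qh]; abel
      rw [this]
      have := norm_sub_le (Qs - qh) (Ss - sh)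
      linarith
    · rw [ta_ofZ_sub, ta_ofZ_gs, ta_S39]
      have : g.symm (ofZ (ta_Q 38)) - Ss - (g.symm (ofZ (ta_Q (39 - 1))) - ofZ zs) =
          -(Ss - sh) := by
        simp only [sh]; abel
      rw [this, norm_neg]
      exact hns
    · rw [ta_ofZ_sub, ta_ofZ_B0, ta_S39]
      have : B0 - Ss - (B0 - ofZ zs) = -(Ss - sh) := by
        simp only [sh]; abel
      rw [this, norm_neg]
      exact hns
    · exact ta_small _ (by simp [ta_eS])
    · exact ta_small _ (by simp [ta_eS])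
    · exact ta_small _ (by simp [ta_eS])

/-! ## The middle part -/

theorem ta_midQ (Qs Ss : E) (hP : IsPer Qs Ss) (L : ℕ) (j : ℕ) (h1 : 39 ≤ j)
    (h2 : j + 38 ≤ L) : resQ (refQ L Qs) (refS L Ss) j = 0 := by
  have e1 : refQ L Qs j = Qs := by
    simp only [refQ]; rw [if_neg (by omega), if_pos (by omega)]
  have e2 : refS L Ss j = Ss := by
    simp only [refS]; rw [if_neg (by omega), if_pos (by omega)]
  have e3 : refS L Ss (j + 1) = Ss := by
    simp only [refS]; rw [if_neg (by omega), if_pos (by omega)]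
  unfold resQ
  rw [e1, e2, e3]
  exact hP.bq

theorem ta_midS (Qs Ss : E) (hP : IsPer Qs Ss) (L : ℕ) (j : ℕ) (h1 : 40 ≤ j)
    (h2 : j + 38 ≤ L) : resS L (refQ L Qs) (refS L Ss) j = 0 := by
  have e1 : refQ L Qs j = Qs := by
    simp only [refQ]; rw [if_neg (by omega), if_pos (by omega)]
  have e2 : refS L Ss j = Ss := by
    simp only [refS]; rw [if_neg (by omega), if_pos (by omega)]
  have e3 : refQ L Qs (j - 1) = Qs := by
    simp only [refQ]; rw [if_neg (by omega), if_pos (by omega)]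
  unfold resS
  rw [if_pos (by omega : j ≤ L), if_pos (by omega : 2 ≤ j), e1, e2, e3]
  exact hP.bs

/-! ## The right end -/

theorem ta_sg_norm (v : E) : ‖sg v‖ = ‖v‖ := by
  rw [norm3, norm3]
  congr 1
  simp only [sg, vec_0, vec_1, vec_2]
  ring

theorem ta_mu_norm (v : E) : ‖mu v‖ = ‖v‖ := by
  rw [norm3, norm3]
  congr 1
  simp only [mu, vec_0, vec_1, vec_2]
  ring

theorem ta_sg_add (u v : E) : sg (u + v) = sg u + sg v := by
  apply ext3 <;> simp [sg] <;> ring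

theorem ta_mu_add (u v : E) : mu (u + v) = mu u + mu v := by
  apply ext3 <;> simp [mu]

theorem ta_sg_sub (u v : E) : sg (u - v) = sg u - sg v := by
  apply ext3 <;> simp [sg] <;> ring

theorem ta_mu_sub (u v : E) : mu (u - v) = mu u - mu v := by
  apply ext3 <;> simp [mu]

theorem ta_sg_smul (c : ℝ) (v : E) : sg (c • v) = c • sg v := by
  apply ext3 <;> simp [sg]

theorem ta_mu_smul (c : ℝ) (v : E) : mu (c • v) = c • mu v := by
  apply ext3 <;> simp [mu]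

theorem ta_sg_un (v : E) : sg (un v) = un (sg v) := by
  rw [un, ta_sg_smul, un, ta_sg_norm]

theorem ta_mu_un (v : E) : mu (un v) = un (mu v) := by
  rw [un, ta_mu_smul, un, ta_mu_norm]

theorem ta_g_mu (v : E) : g (mu v) = sg v := by
  apply ext3 <;> simp [mu, sg]

theorem ta_sg_g (v : E) : sg (g v) = mu v := by
  apply ext3 <;> simp [mu, sg]

theorem ta_gs_sg (v : E) : g.symm (sg v) = mu v := by
  apply ext3 <;> simp [mu, sg]

theorem ta_mu_gs (v : E) : mu (g.symm v) = sg v := by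
  apply ext3 <;> simp [mu, sg]

theorem ta_sg_B0 : sg B0 = B1 := by
  apply ext3 <;> simp [sg, B0, B1]

theorem ta_sg_B1 : sg B1 = B0 := by
  apply ext3 <;> simp [sg, B0, B1]

theorem ta_mu_B0 : mu B0 = B0 := by
  apply ext3 <;> simp [mu, B0]

theorem ta_mu_B3 : mu B3 = B1 := by
  apply ext3 <;> simp [mu, B3, B1]

theorem ta_sg_Qs {Qs Ss : E} (hP : IsPer Qs Ss) : sg Qs = Qs := by
  apply ext3 <;> simp [sg, hP.q0, hP.q2]

theorem ta_mu_Ss {Qs Ss : E} (hP : IsPer Qs Ss) : mu Ss = Ss := by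
  apply ext3 <;> simp [mu, hP.ss]

theorem ta_mirQ {Qs Ss : E} (hP : IsPer Qs Ss) (L : ℕ) (hL : 100 ≤ L) (i : ℕ) (h1 : 1 ≤ i)
    (h2 : i ≤ 39) : refQ L Qs (L + 1 - i) = sg (refQ L Qs i) := by
  rcases Nat.lt_or_ge i 39 with h | h
  · have e1 : refQ L Qs i = tq i := by
      simp only [refQ]; rw [if_pos (by omega)]
    rw [e1]
    simp only [refQ]
    rw [if_neg (by omega), if_neg (by omega)]
    congr 2
    omega
  · have : i = 39 := by omega
    subst this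
    have e1 : refQ L Qs 39 = Qs := by
      simp only [refQ]; rw [if_neg (by omega), if_pos (by omega)]
    rw [e1, ta_sg_Qs hP]
    simp only [refQ]
    rw [if_neg (by omega), if_pos (by omega)]

theorem ta_mirS {Qs Ss : E} (hP : IsPer Qs Ss) (L : ℕ) (hL : 100 ≤ L) (i : ℕ) (h1 : 1 ≤ i)
    (h2 : i ≤ 39) : refS L Ss (L + 2 - i) = mu (refS L Ss i) := by
  rcases Nat.lt_or_ge i 39 with h | h
  · have e1 : refS L Ss i = ts i := by
      simp only [refS]; rw [if_pos (by omega)]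
    rw [e1]
    simp only [refS]
    rw [if_neg (by omega), if_neg (by omega)]
    congr 2
    omega
  · have : i = 39 := by omega
    subst this
    have e1 : refS L Ss 39 = Ss := by
      simp only [refS]; rw [if_neg (by omega), if_pos (by omega)]
    rw [e1, ta_mu_Ss hP]
    simp only [refS]
    rw [if_neg (by omega), if_pos (by omega)]

theorem ta_rightQ (Qs Ss : E) (hP : IsPer Qs Ss) (L : ℕ) (hL : 100 ≤ L) (j : ℕ) (h1 : L ≤ j + 37)
    (h2 : j ≤ L) : ‖resQ (refQ L Qs) (refS L Ss) j‖ ≤ 8 / 10 ^ 17 := by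
  obtain ⟨i, hi1, hi2, rfl⟩ : ∃ i, 1 ≤ i ∧ i ≤ 38 ∧ j = L + 1 - i :=
    ⟨L + 1 - j, by omega, by omega, by omega⟩
  have hl := ta_leftQ Qs Ss hP L hL i hi1 hi2
  rw [← ta_sg_norm] at hl
  have e1 := ta_mirQ hP L hL i hi1 (by omega)
  have e2 := ta_mirS hP L hL (i + 1) (by omega) (by omega)
  have e3 := ta_mirS hP L hL i (by omega) (by omega)
  have e2' : refS L Ss (L + 1 - i) = mu (refS L Ss (i + 1)) := by
    rw [← e2]; congr 1; omega
  have e3' : refS L Ss (L + 1 - i + 1) = mu (refS L Ss i) := by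
    rw [← e3]; congr 1; omega
  have key : resQ (refQ L Qs) (refS L Ss) (L + 1 - i) = sg (resQ (refQ L Qs) (refS L Ss) i) := by
    unfold resQ
    rw [e1, e2', e3', ta_g_mu]
    simp only [ta_sg_add, ta_sg_un, ta_sg_sub, ta_sg_g, ta_sg_B0, ta_sg_B1]
    abel
  rw [key]
  exact hl

theorem ta_rightS (Qs Ss : E) (hP : IsPer Qs Ss) (L : ℕ) (hL : 100 ≤ L) (j : ℕ) (h1 : L ≤ j + 37)
    (h2 : j ≤ L + 1) : ‖resS L (refQ L Qs) (refS L Ss) j‖ ≤ 8 / 10 ^ 17 := by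
  obtain ⟨i, hi1, hi2, rfl⟩ : ∃ i, 1 ≤ i ∧ i ≤ 39 ∧ j = L + 2 - i :=
    ⟨L + 2 - j, by omega, by omega, by omega⟩
  have hl := ta_leftS Qs Ss hP L hL i hi1 hi2
  rw [← ta_mu_norm] at hl
  have e1 := ta_mirS hP L hL i hi1 (by omega)
  have e2 := ta_mirQ hP L hL i hi1 hi2
  have e2' : refQ L Qs (L + 2 - i - 1) = sg (refQ L Qs i) := by
    rw [← e2]; congr 1; omega
  have key : resS L (refQ L Qs) (refS L Ss) (L + 2 - i) =
      mu (resS L (refQ L Qs) (refS L Ss) i) := by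
    unfold resS
    rw [if_pos (by omega : 2 ≤ L + 2 - i), if_pos (by omega : i ≤ L), e1, e2', ta_gs_sg]
    rcases Nat.lt_or_ge i 2 with h | h
    · rw [if_neg (by omega), if_neg (by omega)]
      simp only [ta_mu_add, ta_mu_un, ta_mu_sub, ta_mu_B0, ta_mu_B3]
      abel
    · rw [if_pos (by omega), if_pos h]
      have e3 := ta_mirQ hP L hL (i - 1) (by omega) (by omega)
      have e3' : refQ L Qs (L + 2 - i) = sg (refQ L Qs (i - 1)) := by
        rw [← e3]; congr 1; omega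
      rw [e3']
      simp only [ta_mu_add, ta_mu_un, ta_mu_sub, ta_mu_B0, ta_mu_gs]
      abel
  rw [key]
  exact hl

/-! ## Summation -/

theorem ta_sumbound (f : ℕ → ℝ) (M : ℕ) (c : ℕ) (n : ℕ)
    (hz : ∀ j ∈ Finset.Icc 1 M, c < j → j + n ≤ M → f j = 0)
    (hb : ∀ j ∈ Finset.Icc 1 M, f j ≤ (8 / 10 ^ 17) ^ 2) :
    ∑ j ∈ Finset.Icc 1 M, f j ≤ (c + n : ℕ) * (8 / 10 ^ 17) ^ 2 := by
  have h1 : ∑ j ∈ Finset.Icc 1 M, f j ≤
      ∑ j ∈ Finset.Icc 1 M, if (j ∈ Finset.Icc 1 c ∨ j ∈ Finset.Icc (M + 1 - n) M) then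
        ((8 : ℝ) / 10 ^ 17) ^ 2 else 0 := by
    apply Finset.sum_le_sum
    intro j hj
    split_ifs with h
    · exact hb j hj
    · apply le_of_eq
      apply hz j hj
      · rw [Finset.mem_Icc] at hj
        by_contra hcon
        apply h
        left
        rw [Finset.mem_Icc]
        omega
      · rw [Finset.mem_Icc] at hj
        by_contra hcon
        apply h
        right
        rw [Finset.mem_Icc]
        omega
  refine h1.trans ?_
  rw [← Finset.sum_filter, Finset.sum_const, nsmul_eq_mul]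
  apply mul_le_mul_of_nonneg_right _ (by positivity)
  have h2 : (Finset.Icc 1 M).filter (fun j => j ∈ Finset.Icc 1 c ∨ j ∈ Finset.Icc (M + 1 - n) M) ⊆
      Finset.Icc 1 c ∪ Finset.Icc (M + 1 - n) M := by
    intro j hj
    rw [Finset.mem_filter] at hj
    rw [Finset.mem_union]
    exact hj.2
  have h3 := (Finset.card_le_card h2).trans (Finset.card_union_le _ _)
  rw [Nat.card_Icc, Nat.card_Icc] at h3
  exact_mod_cast h3.trans (by omega)

theorem ref_residual (Qs Ss : E) (hP : IsPer Qs Ss) (L : ℕ) (hL : 100 ≤ L) :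
    ∑ j ∈ Finset.Icc 1 L, ‖resQ (refQ L Qs) (refS L Ss) j‖ ^ 2 +
      ∑ j ∈ Finset.Icc 1 (L + 1), ‖resS L (refQ L Qs) (refS L Ss) j‖ ^ 2 ≤ (1 / 10 ^ 15) ^ 2 := by
  have hQ := ta_sumbound (fun j => ‖resQ (refQ L Qs) (refS L Ss) j‖ ^ 2) L 38 38
    (by
      intro j hj h1 h2
      rw [ta_midQ Qs Ss hP L j (by omega) h2, norm_zero]
      norm_num)
    (by
      intro j hj
      rw [Finset.mem_Icc] at hj
      have : ‖resQ (refQ L Qs) (refS L Ss) j‖ ≤ 8 / 10 ^ 17 := by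
        rcases Nat.lt_or_ge j 39 with h | h
        · exact ta_leftQ Qs Ss hP L hL j hj.1 (by omega)
        · rcases Nat.lt_or_ge L (j + 38) with h' | h'
          · exact ta_rightQ Qs Ss hP L hL j (by omega) hj.2
          · rw [ta_midQ Qs Ss hP L j h h', norm_zero]
            positivity
      exact pow_le_pow_left₀ (norm_nonneg _) this 2)
  have hS := ta_sumbound (fun j => ‖resS L (refQ L Qs) (refS L Ss) j‖ ^ 2) (L + 1) 39 39
    (by
      intro j hj h1 h2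
      rw [ta_midS Qs Ss hP L j (by omega) (by omega), norm_zero]
      norm_num)
    (by
      intro j hj
      rw [Finset.mem_Icc] at hj
      have : ‖resS L (refQ L Qs) (refS L Ss) j‖ ≤ 8 / 10 ^ 17 := by
        rcases Nat.lt_or_ge j 40 with h | h
        · exact ta_leftS Qs Ss hP L hL j hj.1 (by omega)
        · rcases Nat.lt_or_ge L (j + 38) with h' | h'
          · exact ta_rightS Qs Ss hP L hL j (by omega) hj.2
          · rw [ta_midS Qs Ss hP L j h h', norm_zero]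
            positivity
      exact pow_le_pow_left₀ (norm_nonneg _) this 2)
  refine (add_le_add hQ hS).trans ?_
  norm_num

end Pool.Agent.Helper39.Net
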