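import Pool.Agent.Helper39.Net.Shared

/-!
# Module NET-TAB2: facts about the reference chain
-/

namespace Pool.Agent.Helper39.Net

open scoped RealInnerProductSpace

/-! ### integer versions of the regions -/

def TbRQ (p : ℤ × ℤ × ℤ) : Prop :=
  2 * p.1 + 3 * p.2.2 ≤ 539 * 10 ^ 21 ∧ -(539 * 10 ^ 21) ≤ 2 * p.1 + 3 * p.2.2 ∧
  -3 * p.1 + 2 * p.2.2 ≤ 59 * 10 ^ 21 ∧ -(59 * 10 ^ 21) ≤ -3 * p.1 + 2 * p.2.2 ∧
  466951 * 10 ^ 18 ≤ p.2.1 ∧ p.2.1 ≤ 499249 * 10 ^ 18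

def TbRS (p : ℤ × ℤ × ℤ) : Prop :=
  644701 * 10 ^ 18 ≤ p.1 + p.2.1 ∧ p.1 + p.2.1 ≤ 731499 * 10 ^ 18 ∧
  p.1 - p.2.1 ≤ 121199 * 10 ^ 18 ∧ -(121199 * 10 ^ 18) ≤ p.1 - p.2.1 ∧
  -(51799 * 10 ^ 18) ≤ p.2.2 ∧ p.2.2 ≤ 214299 * 10 ^ 18

def TbK (p : ℤ × ℤ × ℤ) : Prop :=
  110 * 10 ^ 12 < 2 * p.1 + 3 * p.2.2 ∧
  100 * (-3 * p.1 + 2 * p.2.2 + 110 * 10 ^ 12) ≤ 13 * (2 * p.1 + 3 * p.2.2 - 110 * 10 ^ 12) ∧
  100 * (3 * p.1 - 2 * p.2.2 + 110 * 10 ^ 12) ≤ 13 * (2 * p.1 + 3 * p.2.2 - 110 * 10 ^ 12) ∧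
  100 * (p.2.1 + 22 * 10 ^ 12) ≤ 7 * (2 * p.1 + 3 * p.2.2 - 110 * 10 ^ 12) ∧
  100 * (-p.2.1 + 22 * 10 ^ 12) ≤ 7 * (2 * p.1 + 3 * p.2.2 - 110 * 10 ^ 12)

def TbKM (p : ℤ × ℤ × ℤ) : Prop :=
  110 * 10 ^ 12 < 2 * p.1 + 3 * p.2.2 ∧
  50 * (-3 * p.1 + 2 * p.2.2 + 110 * 10 ^ 12) ≤ 2 * p.1 + 3 * p.2.2 - 110 * 10 ^ 12 ∧
  50 * (3 * p.1 - 2 * p.2.2 + 110 * 10 ^ 12) ≤ 2 * p.1 + 3 * p.2.2 - 110 * 10 ^ 12 ∧
  100 * (p.2.1 + 22 * 10 ^ 12) ≤ 2 * p.1 + 3 * p.2.2 - 110 * 10 ^ 12 ∧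
  100 * (-p.2.1 + 22 * 10 ^ 12) ≤ 2 * p.1 + 3 * p.2.2 - 110 * 10 ^ 12

def TbKS (p : ℤ × ℤ × ℤ) : Prop :=
  22 * 10 ^ 12 < p.2.2 ∧
  10 * (p.1 - p.2.1 + 44 * 10 ^ 12) ≤ 9 * (p.2.2 - 22 * 10 ^ 12) ∧
  10 * (p.2.1 - p.1 + 44 * 10 ^ 12) ≤ 9 * (p.2.2 - 22 * 10 ^ 12) ∧
  p.2.2 + 22 * 10 ^ 12 ≤ 10 * (p.1 + p.2.1 - 44 * 10 ^ 12) ∧
  100 * (p.1 + p.2.1 + 44 * 10 ^ 12) ≤ 78 * (p.2.2 - 22 * 10 ^ 12) ∧
  142 * p.1 + 58 * p.2.1 + 200 * (22 * 10 ^ 12) ≤ 110 * (p.2.2 - 22 * 10 ^ 12) ∧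
  58 * p.1 + 142 * p.2.1 + 200 * (22 * 10 ^ 12) ≤ 110 * (p.2.2 - 22 * 10 ^ 12)

def TbN (p q : ℤ × ℤ × ℤ) : Prop :=
  |p.1 - q.1| ≤ 19 * 10 ^ 15 ∧ |p.2.1 - q.2.1| ≤ 19 * 10 ^ 15 ∧ |p.2.2 - q.2.2| ≤ 19 * 10 ^ 15

instance : DecidablePred TbRQ := fun p => by unfold TbRQ; infer_instance
instance : DecidablePred TbRS := fun p => by unfold TbRS; infer_instance
instance : DecidablePred TbK := fun p => by unfold TbK; infer_instance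
instance : DecidablePred TbKM := fun p => by unfold TbKM; infer_instance
instance : DecidablePred TbKS := fun p => by unfold TbKS; infer_instance
instance (p q : ℤ × ℤ × ℤ) : Decidable (TbN p q) := by unfold TbN; infer_instance

def zsg (p : ℤ × ℤ × ℤ) : ℤ × ℤ × ℤ := (-p.1, p.2.1, -p.2.2)
def zmu (p : ℤ × ℤ × ℤ) : ℤ × ℤ × ℤ := (p.2.1, p.1, p.2.2)

/-- `s (a - b)` -/
def zdf (s : ℤ) (a b : ℤ × ℤ × ℤ) : ℤ × ℤ × ℤ :=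
  (s * (a.1 - b.1), s * (a.2.1 - b.2.1), s * (a.2.2 - b.2.2))

def aQ (i : ℕ) : ℤ × ℤ × ℤ := tabQ.getD i zq
def aS (i : ℕ) : ℤ × ℤ × ℤ := tabS.getD i zs

theorem tb_RQ_all : ∀ i < 38, TbRQ (aQ i) ∧ TbRQ (zsg (aQ i)) := by decide +kernel

theorem tb_RS_all : ∀ i < 38, TbRS (aS i) ∧ TbRS (zmu (aS i)) := by decide +kernel

theorem tb_RQ_z : TbRQ zq := by decide +kernel

theorem tb_RS_z : TbRS zs := by decide +kernel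

theorem tb_K_all : ∀ i < 19, TbK (zdf ((-1) ^ (i + 1)) (aQ i) (aQ (i + 4))) ∧
    TbK (zdf ((-1) ^ (i + 1)) (zsg (aQ (i + 4))) (zsg (aQ i))) := by decide +kernel

theorem tb_KM_all : ∀ i < 2, TbKM (zdf ((-1) ^ (i + 18)) (aQ (i + 17)) (aQ (i + 21))) ∧
    TbKM (zdf ((-1) ^ (i + 18)) (zsg (aQ (i + 21))) (zsg (aQ (i + 17)))) := by decide +kernel

theorem tb_KS_all : ∀ i < 19, TbKS (zdf ((-1) ^ (i + 1)) (aS i) (aS (i + 4))) ∧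
    TbKS (zdf ((-1) ^ i) (zmu (aS (i + 4))) (zmu (aS i))) := by decide +kernel

theorem tb_nq_all : ∀ i < 21, TbN (aQ (i + 17)) zq ∧ TbN (zsg (aQ (i + 17))) zq := by
  decide +kernel

theorem tb_ns_all : ∀ i < 21, TbN (aS (i + 17)) zs ∧ TbN (zmu (aS (i + 17))) zs := by
  decide +kernel

theorem tb_sz_all : ∀ i < 37, 101 * 10 ^ 21 ≤ (aS (i + 1)).2.2 := by decide +kernel

theorem tb_nq_z : TbN zq zq := by decide +kernel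

theorem tb_ns_z : TbN zs zs := by decide +kernel

/-! ### passage to the reals -/

@[simp] theorem ofZ_0 (p : ℤ × ℤ × ℤ) : ofZ p 0 = (p.1 : ℝ) / 10 ^ 24 := rfl
@[simp] theorem ofZ_1 (p : ℤ × ℤ × ℤ) : ofZ p 1 = (p.2.1 : ℝ) / 10 ^ 24 := rfl
@[simp] theorem ofZ_2 (p : ℤ × ℤ × ℤ) : ofZ p 2 = (p.2.2 : ℝ) / 10 ^ 24 := rfl

theorem sg_ofZ (p : ℤ × ℤ × ℤ) : sg (ofZ p) = ofZ (zsg p) := by
  apply ext3 <;> simp [sg, zsg, neg_div]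

theorem mu_ofZ (p : ℤ × ℤ × ℤ) : mu (ofZ p) = ofZ (zmu p) := by
  apply ext3 <;> simp [mu, zmu]

theorem tb_coord {u p : E} {z : ℤ × ℤ × ℤ} {ρ : ℝ} (hp : ‖p - ofZ z‖ ≤ 1 / 10 ^ 18)
    (hu : ‖u - p‖ ≤ ρ) (i : Fin 3) : |u i - ofZ z i| ≤ ρ + 1 / 10 ^ 18 := by
  have h1 := (coord_le_norm (u - p) i).trans hu
  have h2 := (coord_le_norm (p - ofZ z) i).trans hp
  rw [E_sub] at h1 h2
  have h3 : u i - ofZ z i = (u i - p i) + (p i - ofZ z i) := by ring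
  rw [h3]
  exact (abs_add_le _ _).trans (add_le_add h1 h2)

theorem tb_rq {z : ℤ × ℤ × ℤ} (h : TbRQ z) {v : E}
    (hv : ∀ i, |v i - ofZ z i| ≤ 1 / 10 ^ 10 + 1 / 10 ^ 18) : RQ v := by
  obtain ⟨h1, h2, h3, h4, h5, h6⟩ := h
  have h0 := abs_le.1 (hv 0)
  have h0' := abs_le.1 (hv 1)
  have h0'' := abs_le.1 (hv 2)
  rw [ofZ_0] at h0
  rw [ofZ_1] at h0'
  rw [ofZ_2] at h0''
  obtain ⟨a1, a2⟩ := h0
  obtain ⟨a3, a4⟩ := h0'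
  obtain ⟨a5, a6⟩ := h0''
  have h1' : 2 * (z.1 : ℝ) + 3 * (z.2.2 : ℝ) ≤ 539 * 10 ^ 21 := by exact_mod_cast h1
  have h2' : -(539 * 10 ^ 21) ≤ 2 * (z.1 : ℝ) + 3 * (z.2.2 : ℝ) := by exact_mod_cast h2
  have h3' : -3 * (z.1 : ℝ) + 2 * (z.2.2 : ℝ) ≤ 59 * 10 ^ 21 := by exact_mod_cast h3
  have h4' : -(59 * 10 ^ 21) ≤ -3 * (z.1 : ℝ) + 2 * (z.2.2 : ℝ) := by exact_mod_cast h4
  have h5' : 466951 * 10 ^ 18 ≤ (z.2.1 : ℝ) := by exact_mod_cast h5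
  have h6' : (z.2.1 : ℝ) ≤ 499249 * 10 ^ 18 := by exact_mod_cast h6
  constructor <;> linarith

theorem tb_rs {z : ℤ × ℤ × ℤ} (h : TbRS z) {v : E}
    (hv : ∀ i, |v i - ofZ z i| ≤ 1 / 10 ^ 10 + 1 / 10 ^ 18) : RS v := by
  obtain ⟨h1, h2, h3, h4, h5, h6⟩ := h
  have h0 := abs_le.1 (hv 0)
  have h0' := abs_le.1 (hv 1)
  have h0'' := abs_le.1 (hv 2)
  rw [ofZ_0] at h0
  rw [ofZ_1] at h0'
  rw [ofZ_2] at h0''
  obtain ⟨a1, a2⟩ := h0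
  obtain ⟨a3, a4⟩ := h0'
  obtain ⟨a5, a6⟩ := h0''
  have h1' : 644701 * 10 ^ 18 ≤ (z.1 : ℝ) + (z.2.1 : ℝ) := by exact_mod_cast h1
  have h2' : (z.1 : ℝ) + (z.2.1 : ℝ) ≤ 731499 * 10 ^ 18 := by exact_mod_cast h2
  have h3' : (z.1 : ℝ) - (z.2.1 : ℝ) ≤ 121199 * 10 ^ 18 := by exact_mod_cast h3
  have h4' : -(121199 * 10 ^ 18) ≤ (z.1 : ℝ) - (z.2.1 : ℝ) := by exact_mod_cast h4
  have h5' : -(51799 * 10 ^ 18) ≤ (z.2.2 : ℝ) := by exact_mod_cast h5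
  have h6' : (z.2.2 : ℝ) ≤ 214299 * 10 ^ 18 := by exact_mod_cast h6
  constructor <;> linarith

theorem tb_near {z w : ℤ × ℤ × ℤ} (h : TbN z w) {v : E}
    (hv : ∀ i, |v i - ofZ z i| ≤ 1 / 10 ^ 10 + 1 / 10 ^ 18) (i : Fin 3) :
    |v i - ofZ w i| ≤ 2 / 10 ^ 8 := by
  obtain ⟨h1, h2, h3⟩ := h
  have key : ∀ a b : ℤ, |a - b| ≤ 19 * 10 ^ 15 →
      |(a : ℝ) / 10 ^ 24 - (b : ℝ) / 10 ^ 24| ≤ 19 / 10 ^ 9 := by
    intro a b hab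
    have h : |(a : ℝ) - (b : ℝ)| ≤ 19 * 10 ^ 15 := by exact_mod_cast hab
    rw [← sub_div, abs_div, abs_of_pos (by positivity : (0 : ℝ) < 10 ^ 24),
      div_le_iff₀ (by positivity)]
    linarith
  have h4 : |ofZ z i - ofZ w i| ≤ 19 / 10 ^ 9 := by
    fin_cases i
    · exact key _ _ h1
    · exact key _ _ h2
    · exact key _ _ h3
  have h5 : v i - ofZ w i = (v i - ofZ z i) + (ofZ z i - ofZ w i) := by ring
  rw [h5]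
  refine (abs_add_le _ _).trans ((add_le_add (hv i) h4).trans ?_)
  norm_num

/-- coordinates of a signed difference -/
theorem tb_df {a b : ℤ × ℤ × ℤ} {s : ℤ} (hs : s = 1 ∨ s = -1) {u v : E}
    (hu : ∀ i, |u i - ofZ a i| ≤ 1 / 10 ^ 11 + 1 / 10 ^ 18)
    (hv : ∀ i, |v i - ofZ b i| ≤ 1 / 10 ^ 11 + 1 / 10 ^ 18) (i : Fin 3) :
    |((s : ℝ) • (u - v)) i - ofZ (zdf s a b) i| ≤ 22 / 10 ^ 12 := by
  have e : ((s : ℝ) • (u - v)) i - ofZ (zdf s a b) i =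
      (s : ℝ) * ((u i - ofZ a i) - (v i - ofZ b i)) := by
    have e1 : ofZ (zdf s a b) i = (s : ℝ) * (ofZ a i - ofZ b i) := by
      fin_cases i
      · change ((s * (a.1 - b.1) : ℤ) : ℝ) / 10 ^ 24 =
          (s : ℝ) * ((a.1 : ℝ) / 10 ^ 24 - (b.1 : ℝ) / 10 ^ 24)
        push_cast; ring
      · change ((s * (a.2.1 - b.2.1) : ℤ) : ℝ) / 10 ^ 24 =
          (s : ℝ) * ((a.2.1 : ℝ) / 10 ^ 24 - (b.2.1 : ℝ) / 10 ^ 24)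
        push_cast; ring
      · change ((s * (a.2.2 - b.2.2) : ℤ) : ℝ) / 10 ^ 24 =
          (s : ℝ) * ((a.2.2 : ℝ) / 10 ^ 24 - (b.2.2 : ℝ) / 10 ^ 24)
        push_cast; ring
    rw [e1, E_smul, E_sub]
    ring
  have hs' : |(s : ℝ)| = 1 := by
    rcases hs with rfl | rfl <;> simp
  rw [e, abs_mul, hs', one_mul]
  refine (abs_sub _ _).trans ((add_le_add (hu i) (hv i)).trans ?_)
  norm_num

theorem tb_k {z : ℤ × ℤ × ℤ} (h : TbK z) {w : E} (hw : ∀ i, |w i - ofZ z i| ≤ 22 / 10 ^ 12) :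
    K w := by
  obtain ⟨h1, h2, h3, h4, h5⟩ := h
  have h0 := abs_le.1 (hw 0)
  have h0' := abs_le.1 (hw 1)
  have h0'' := abs_le.1 (hw 2)
  rw [ofZ_0] at h0
  rw [ofZ_1] at h0'
  rw [ofZ_2] at h0''
  obtain ⟨a1, a2⟩ := h0
  obtain ⟨a3, a4⟩ := h0'
  obtain ⟨a5, a6⟩ := h0''
  have h1' : 110 * 10 ^ 12 < 2 * (z.1 : ℝ) + 3 * (z.2.2 : ℝ) := by exact_mod_cast h1
  have h2' : 100 * (-3 * (z.1 : ℝ) + 2 * (z.2.2 : ℝ) + 110 * 10 ^ 12) ≤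
    13 * (2 * (z.1 : ℝ) + 3 * (z.2.2 : ℝ) - 110 * 10 ^ 12) := by exact_mod_cast h2
  have h3' : 100 * (3 * (z.1 : ℝ) - 2 * (z.2.2 : ℝ) + 110 * 10 ^ 12) ≤
    13 * (2 * (z.1 : ℝ) + 3 * (z.2.2 : ℝ) - 110 * 10 ^ 12) := by exact_mod_cast h3
  have h4' : 100 * ((z.2.1 : ℝ) + 22 * 10 ^ 12) ≤
    7 * (2 * (z.1 : ℝ) + 3 * (z.2.2 : ℝ) - 110 * 10 ^ 12) := by exact_mod_cast h4
  have h5' : 100 * (-(z.2.1 : ℝ) + 22 * 10 ^ 12) ≤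
    7 * (2 * (z.1 : ℝ) + 3 * (z.2.2 : ℝ) - 110 * 10 ^ 12) := by exact_mod_cast h5
  constructor <;> linarith

theorem tb_km {z : ℤ × ℤ × ℤ} (h : TbKM z) {w : E} (hw : ∀ i, |w i - ofZ z i| ≤ 22 / 10 ^ 12) :
    KM w := by
  obtain ⟨h1, h2, h3, h4, h5⟩ := h
  have h0 := abs_le.1 (hw 0)
  have h0' := abs_le.1 (hw 1)
  have h0'' := abs_le.1 (hw 2)
  rw [ofZ_0] at h0
  rw [ofZ_1] at h0'
  rw [ofZ_2] at h0''
  obtain ⟨a1, a2⟩ := h0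
  obtain ⟨a3, a4⟩ := h0'
  obtain ⟨a5, a6⟩ := h0''
  have h1' : 110 * 10 ^ 12 < 2 * (z.1 : ℝ) + 3 * (z.2.2 : ℝ) := by exact_mod_cast h1
  have h2' : 50 * (-3 * (z.1 : ℝ) + 2 * (z.2.2 : ℝ) + 110 * 10 ^ 12) ≤
    2 * (z.1 : ℝ) + 3 * (z.2.2 : ℝ) - 110 * 10 ^ 12 := by exact_mod_cast h2
  have h3' : 50 * (3 * (z.1 : ℝ) - 2 * (z.2.2 : ℝ) + 110 * 10 ^ 12) ≤
    2 * (z.1 : ℝ) + 3 * (z.2.2 : ℝ) - 110 * 10 ^ 12 := by exact_mod_cast h3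
  have h4' : 100 * ((z.2.1 : ℝ) + 22 * 10 ^ 12) ≤
    2 * (z.1 : ℝ) + 3 * (z.2.2 : ℝ) - 110 * 10 ^ 12 := by exact_mod_cast h4
  have h5' : 100 * (-(z.2.1 : ℝ) + 22 * 10 ^ 12) ≤
    2 * (z.1 : ℝ) + 3 * (z.2.2 : ℝ) - 110 * 10 ^ 12 := by exact_mod_cast h5
  constructor <;> linarith

theorem tb_ks {z : ℤ × ℤ × ℤ} (h : TbKS z) {w : E} (hw : ∀ i, |w i - ofZ z i| ≤ 22 / 10 ^ 12) :
    KS w := by
  obtain ⟨h1, h2, h3, h4, h5, h6, h7⟩ := h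
  have h0 := abs_le.1 (hw 0)
  have h0' := abs_le.1 (hw 1)
  have h0'' := abs_le.1 (hw 2)
  rw [ofZ_0] at h0
  rw [ofZ_1] at h0'
  rw [ofZ_2] at h0''
  obtain ⟨a1, a2⟩ := h0
  obtain ⟨a3, a4⟩ := h0'
  obtain ⟨a5, a6⟩ := h0''
  have h1' : 22 * 10 ^ 12 < (z.2.2 : ℝ) := by exact_mod_cast h1
  have h2' : 10 * ((z.1 : ℝ) - (z.2.1 : ℝ) + 44 * 10 ^ 12) ≤
    9 * ((z.2.2 : ℝ) - 22 * 10 ^ 12) := by exact_mod_cast h2
  have h3' : 10 * ((z.2.1 : ℝ) - (z.1 : ℝ) + 44 * 10 ^ 12) ≤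
    9 * ((z.2.2 : ℝ) - 22 * 10 ^ 12) := by exact_mod_cast h3
  have h4' : (z.2.2 : ℝ) + 22 * 10 ^ 12 ≤
    10 * ((z.1 : ℝ) + (z.2.1 : ℝ) - 44 * 10 ^ 12) := by exact_mod_cast h4
  have h5' : 100 * ((z.1 : ℝ) + (z.2.1 : ℝ) + 44 * 10 ^ 12) ≤
    78 * ((z.2.2 : ℝ) - 22 * 10 ^ 12) := by exact_mod_cast h5
  have h6' : 142 * (z.1 : ℝ) + 58 * (z.2.1 : ℝ) + 200 * (22 * 10 ^ 12) ≤
    110 * ((z.2.2 : ℝ) - 22 * 10 ^ 12) := by exact_mod_cast h6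
  have h7' : 58 * (z.1 : ℝ) + 142 * (z.2.1 : ℝ) + 200 * (22 * 10 ^ 12) ≤
    110 * ((z.2.2 : ℝ) - 22 * 10 ^ 12) := by exact_mod_cast h7
  constructor <;> linarith

/-! ### the reference chain -/

theorem tb_refQ_left (L : ℕ) (Qs : E) {j : ℕ} (hj : j ≤ 38) :
    refQ L Qs j = ofZ (aQ (j - 1)) := by
  rw [refQ, if_pos hj]
  rfl

theorem tb_refS_left (L : ℕ) (Ss : E) {j : ℕ} (hj : j ≤ 38) :
    refS L Ss j = ofZ (aS (j - 1)) := by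
  rw [refS, if_pos hj]
  rfl

theorem tb_refQ_right (L : ℕ) (Qs : E) {j : ℕ} (hj : 38 < j) (hj' : L < j + 38) :
    refQ L Qs j = ofZ (zsg (aQ (L + 1 - j - 1))) := by
  rw [refQ, if_neg (by omega), if_neg (by omega), ← sg_ofZ]
  rfl

theorem tb_refS_right (L : ℕ) (Ss : E) {j : ℕ} (hj : 38 < j) (hj' : L < j + 37) :
    refS L Ss j = ofZ (zmu (aS (L + 2 - j - 1))) := by
  rw [refS, if_neg (by omega), if_neg (by omega), ← mu_ofZ]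
  rfl

theorem tb_refQ_mid (L : ℕ) (Qs : E) {j : ℕ} (hj : 38 < j) (hj' : j + 38 ≤ L) :
    refQ L Qs j = Qs := by
  rw [refQ, if_neg (by omega), if_pos hj']

theorem tb_refS_mid (L : ℕ) (Ss : E) {j : ℕ} (hj : 38 < j) (hj' : j + 37 ≤ L) :
    refS L Ss j = Ss := by
  rw [refS, if_neg (by omega), if_pos hj']

theorem tb_self (z : ℤ × ℤ × ℤ) : ‖ofZ z - ofZ z‖ ≤ 1 / 10 ^ 18 := by
  rw [sub_self, norm_zero]
  positivity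

/-- the integer triple behind a value of the reference chain, with its properties -/
theorem tb_caseQ (L : ℕ) {Qs : E} (hq : ‖Qs - qh‖ ≤ 1 / 10 ^ 18) {j : ℕ} (h1 : 1 ≤ j)
    (h2 : j ≤ L) : ∃ z, TbRQ z ∧ ‖refQ L Qs j - ofZ z‖ ≤ 1 / 10 ^ 18 ∧
      (18 ≤ j → j + 17 ≤ L → TbN z zq) := by
  rcases Nat.lt_or_ge 38 j with h3 | h3
  · rcases Nat.lt_or_ge L (j + 38) with h4 | h4
    · refine ⟨zsg (aQ (L + 1 - j - 1)), (tb_RQ_all _ (by omega)).2, ?_, fun h5 h6 => ?_⟩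
      · rw [tb_refQ_right L Qs h3 h4]
        exact tb_self _
      · have h7 := (tb_nq_all (L + 1 - j - 1 - 17) (by omega)).2
        rwa [Nat.sub_add_cancel (by omega)] at h7
    · refine ⟨zq, tb_RQ_z, ?_, fun _ _ => tb_nq_z⟩
      rw [tb_refQ_mid L Qs h3 h4]
      exact hq
  · refine ⟨aQ (j - 1), (tb_RQ_all _ (by omega)).1, ?_, fun h5 h6 => ?_⟩
    · rw [tb_refQ_left L Qs h3]
      exact tb_self _
    · have h7 := (tb_nq_all (j - 1 - 17) (by omega)).1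
      rwa [Nat.sub_add_cancel (by omega)] at h7

theorem tb_caseS (L : ℕ) {Ss : E} (hs : ‖Ss - sh‖ ≤ 1 / 10 ^ 18) {j : ℕ} (h1 : 1 ≤ j)
    (h2 : j ≤ L + 1) : ∃ z, TbRS z ∧ ‖refS L Ss j - ofZ z‖ ≤ 1 / 10 ^ 18 ∧
      (18 ≤ j → j + 16 ≤ L → TbN z zs) := by
  rcases Nat.lt_or_ge 38 j with h3 | h3
  · rcases Nat.lt_or_ge L (j + 37) with h4 | h4
    · refine ⟨zmu (aS (L + 2 - j - 1)), (tb_RS_all _ (by omega)).2, ?_, fun h5 h6 => ?_⟩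
      · rw [tb_refS_right L Ss h3 h4]
        exact tb_self _
      · have h7 := (tb_ns_all (L + 2 - j - 1 - 17) (by omega)).2
        rwa [Nat.sub_add_cancel (by omega)] at h7
    · refine ⟨zs, tb_RS_z, ?_, fun _ _ => tb_ns_z⟩
      rw [tb_refS_mid L Ss h3 h4]
      exact hs
  · refine ⟨aS (j - 1), (tb_RS_all _ (by omega)).1, ?_, fun h5 h6 => ?_⟩
    · rw [tb_refS_left L Ss h3]
      exact tb_self _
    · have h7 := (tb_ns_all (j - 1 - 17) (by omega)).1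
      rwa [Nat.sub_add_cancel (by omega)] at h7

theorem tb_sz (L : ℕ) {Ss : E} (hs : ‖Ss - sh‖ ≤ 1 / 10 ^ 18) {j : ℕ} (h1 : 2 ≤ j)
    (h2 : j ≤ L) : ∃ z : ℤ × ℤ × ℤ, 101 * 10 ^ 21 ≤ z.2.2 ∧
      ‖refS L Ss j - ofZ z‖ ≤ 1 / 10 ^ 18 := by
  rcases Nat.lt_or_ge 38 j with h3 | h3
  · rcases Nat.lt_or_ge L (j + 37) with h4 | h4
    · refine ⟨zmu (aS (L + 2 - j - 1)), ?_, ?_⟩
      · have h7 := tb_sz_all (L + 2 - j - 1 - 1) (by omega)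
        rwa [Nat.sub_add_cancel (by omega)] at h7
      · rw [tb_refS_right L Ss h3 h4]
        exact tb_self _
    · refine ⟨zs, by decide +kernel, ?_⟩
      rw [tb_refS_mid L Ss h3 h4]
      exact hs
  · refine ⟨aS (j - 1), ?_, ?_⟩
    · have h7 := tb_sz_all (j - 1 - 1) (by omega)
      rwa [Nat.sub_add_cancel (by omega)] at h7
    · rw [tb_refS_left L Ss h3]
      exact tb_self _

theorem tb_pow (n : ℕ) : ((-1 : ℤ) ^ n = 1 ∨ (-1 : ℤ) ^ n = -1) := neg_one_pow_eq_or ℤ n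

theorem tb_pow_real (n : ℕ) : (((-1 : ℤ) ^ n : ℤ) : ℝ) = (-1 : ℝ) ^ n := by push_cast; rfl

/-- the differences at the pair vertices -/
theorem tb_dq {k : ℕ} (hk : 30 ≤ k) (Qs : E) {j : ℕ} (h1 : 1 ≤ j) (h2 : j + 4 ≤ 4 * k + 1)
    (h3 : j ≤ 19 ∨ 4 * k + 1 ≤ j + 22) {u v : E}
    (hu : ‖u - refQ (4 * k + 1) Qs j‖ ≤ 1 / 10 ^ 11)
    (hv : ‖v - refQ (4 * k + 1) Qs (j + 4)‖ ≤ 1 / 10 ^ 11) :
    ∃ m, m < 19 ∧ (j ≤ 19 ∧ m + 1 = j ∨ 4 * k + 1 ≤ j + 22 ∧ m + j + 4 = 4 * k + 1) ∧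
      ((∀ i, |((-1 : ℝ) ^ j • (u - v)) i -
        ofZ (zdf ((-1) ^ (m + 1)) (aQ m) (aQ (m + 4))) i| ≤ 22 / 10 ^ 12) ∨
      (∀ i, |((-1 : ℝ) ^ j • (u - v)) i -
        ofZ (zdf ((-1) ^ (m + 1)) (zsg (aQ (m + 4))) (zsg (aQ m))) i| ≤ 22 / 10 ^ 12)) := by
  by_cases h4 : j ≤ 19
  · obtain ⟨m, rfl⟩ : ∃ m, j = m + 1 := ⟨j - 1, by omega⟩
    refine ⟨m, by omega, Or.inl ⟨h4, rfl⟩, Or.inl fun i => ?_⟩
    rw [tb_refQ_left _ _ (by omega), Nat.add_sub_cancel] at hu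
    rw [tb_refQ_left _ _ (by omega), show m + 1 + 4 - 1 = m + 4 by omega] at hv
    have := tb_df (tb_pow (m + 1)) (tb_coord (tb_self _) hu) (tb_coord (tb_self _) hv) i
    rwa [tb_pow_real] at this
  · have h5 : 4 * k + 1 ≤ j + 22 := by omega
    obtain ⟨m, hm⟩ : ∃ m, m + j + 4 = 4 * k + 1 := ⟨4 * k + 1 - j - 4, by omega⟩
    refine ⟨m, by omega, Or.inr ⟨h5, hm⟩, Or.inr fun i => ?_⟩
    rw [tb_refQ_right _ _ (by omega) (by omega),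
      show 4 * k + 1 + 1 - j - 1 = m + 4 by omega] at hu
    rw [tb_refQ_right _ _ (by omega) (by omega),
      show 4 * k + 1 + 1 - (j + 4) - 1 = m by omega] at hv
    have := tb_df (tb_pow (m + 1)) (tb_coord (tb_self _) hu) (tb_coord (tb_self _) hv) i
    rw [tb_pow_real] at this
    have hp : (-1 : ℝ) ^ j = (-1 : ℝ) ^ (m + 1) := by
      rcases Nat.even_or_odd j with hj | hj
      · have hm' : Even (m + 1) := by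
          rw [Nat.even_iff] at hj ⊢
          omega
        rw [hj.neg_one_pow, hm'.neg_one_pow]
      · have hm' : Odd (m + 1) := by
          rw [Nat.odd_iff] at hj ⊢
          omega
        rw [hj.neg_one_pow, hm'.neg_one_pow]
    rwa [hp]

/-- the differences at the single vertices -/
theorem tb_ds {k : ℕ} (hk : 30 ≤ k) (Ss : E) {j : ℕ} (h1 : 1 ≤ j) (h2 : j + 4 ≤ 4 * k + 1 + 1)
    (h3 : j ≤ 19 ∨ 4 * k + 1 ≤ j + 21) {u v : E}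
    (hu : ‖u - refS (4 * k + 1) Ss j‖ ≤ 1 / 10 ^ 11)
    (hv : ‖v - refS (4 * k + 1) Ss (j + 4)‖ ≤ 1 / 10 ^ 11) :
    KS ((-1 : ℝ) ^ j • (u - v)) := by
  by_cases h4 : j ≤ 19
  · obtain ⟨m, rfl⟩ : ∃ m, j = m + 1 := ⟨j - 1, by omega⟩
    refine tb_ks (tb_KS_all m (by omega)).1 fun i => ?_
    rw [tb_refS_left _ _ (by omega), Nat.add_sub_cancel] at hu
    rw [tb_refS_left _ _ (by omega), show m + 1 + 4 - 1 = m + 4 by omega] at hv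
    have := tb_df (tb_pow (m + 1)) (tb_coord (tb_self _) hu) (tb_coord (tb_self _) hv) i
    rwa [tb_pow_real] at this
  · have h5 : 4 * k + 1 ≤ j + 21 := by omega
    obtain ⟨m, hm⟩ : ∃ m, m + j + 3 = 4 * k + 1 := ⟨4 * k + 1 - j - 3, by omega⟩
    refine tb_ks (tb_KS_all m (by omega)).2 fun i => ?_
    rw [tb_refS_right _ _ (by omega) (by omega),
      show 4 * k + 1 + 2 - j - 1 = m + 4 by omega] at hu
    rw [tb_refS_right _ _ (by omega) (by omega),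
      show 4 * k + 1 + 2 - (j + 4) - 1 = m by omega] at hv
    have := tb_df (tb_pow m) (tb_coord (tb_self _) hu) (tb_coord (tb_self _) hv) i
    rw [tb_pow_real] at this
    have hp : (-1 : ℝ) ^ j = (-1 : ℝ) ^ m := by
      rcases Nat.even_or_odd j with hj | hj
      · have hm' : Even m := by
          rw [Nat.even_iff] at hj ⊢
          omega
        rw [hj.neg_one_pow, hm'.neg_one_pow]
      · have hm' : Odd m := by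
          rw [Nat.odd_iff] at hj ⊢
          omega
        rw [hj.neg_one_pow, hm'.neg_one_pow]
    rwa [hp]

theorem tb_norm_le {w : E} (h : ∀ i, |w i| ≤ 1 / 10 ^ 6) : ‖w‖ ≤ 1 / 100000 := by
  rw [norm3]
  refine Real.sqrt_le_iff.2 ⟨by positivity, ?_⟩
  have h1 : ∀ i, w i ^ 2 ≤ (1 / 10 ^ 6) ^ 2 := fun i => by
    rw [← sq_abs]
    exact pow_le_pow_left₀ (abs_nonneg _) (h i) 2
  have h2 := h1 0
  have h3 := h1 1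
  have h4 := h1 2
  norm_num at h2 h3 h4 ⊢
  linarith

theorem tb_first {p : E} {z : ℤ × ℤ × ℤ} {a b c : ℤ} (h : ∀ i, |p i - ofZ z i| ≤
    1 / 10 ^ 10 + 1 / 10 ^ 18) (h1 : |z.1 - a * 10 ^ 17| ≤ 10 ^ 17)
    (h2 : |z.2.1 - b * 10 ^ 17| ≤ 10 ^ 17) (h3 : |z.2.2 - c * 10 ^ 17| ≤ 10 ^ 17) :
    ‖p - vec ((a : ℝ) / 10 ^ 7) ((b : ℝ) / 10 ^ 7) ((c : ℝ) / 10 ^ 7)‖ ≤ 1 / 100000 := by
  have key : ∀ (x : ℝ) (m n : ℤ), |x - (m : ℝ) / 10 ^ 24| ≤ 1 / 10 ^ 10 + 1 / 10 ^ 18 →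
      |m - n * 10 ^ 17| ≤ 10 ^ 17 → |x - (n : ℝ) / 10 ^ 7| ≤ 1 / 10 ^ 6 := by
    intro x m n hx hm
    have hm' : |(m : ℝ) - (n : ℝ) * 10 ^ 17| ≤ 10 ^ 17 := by exact_mod_cast hm
    obtain ⟨a1, a2⟩ := abs_le.1 hx
    obtain ⟨a3, a4⟩ := abs_le.1 hm'
    rw [abs_le]
    constructor <;> linarith
  refine tb_norm_le fun i => ?_
  fin_cases i
  · exact key _ _ _ (h 0) h1
  · exact key _ _ _ (h 1) h2
  · exact key _ _ _ (h 2) h3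

theorem tb_vec1 : vec (2618282 / 10000000) (3829740 / 10000000) (-(517198 / 10000000)) =
    vec (((2618282 : ℤ) : ℝ) / 10 ^ 7) (((3829740 : ℤ) : ℝ) / 10 ^ 7)
      (((-517198 : ℤ) : ℝ) / 10 ^ 7) := by
  apply ext3 <;> norm_num

theorem tb_vec2 : vec (3829740 / 10000000) (2618282 / 10000000) (-(517198 / 10000000)) =
    vec (((3829740 : ℤ) : ℝ) / 10 ^ 7) (((2618282 : ℤ) : ℝ) / 10 ^ 7)
      (((-517198 : ℤ) : ℝ) / 10 ^ 7) := by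
  apply ext3 <;> norm_num

theorem ref_facts (Qs Ss : E) (hq : ‖Qs - qh‖ ≤ 1 / 10 ^ 18) (hs : ‖Ss - sh‖ ≤ 1 / 10 ^ 18)
    (k : ℕ) (hk : 30 ≤ k) : RefFacts (4 * k + 1) (refQ (4 * k + 1) Qs) (refS (4 * k + 1) Ss) where
  rq j h1 h2 v hv := by
    obtain ⟨z, hz, hr, -⟩ := tb_caseQ (4 * k + 1) hq h1 h2
    exact tb_rq hz (tb_coord hr hv)
  rs j h1 h2 v hv := by
    obtain ⟨z, hz, hr, -⟩ := tb_caseS (4 * k + 1) hs h1 h2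
    exact tb_rs hz (tb_coord hr hv)
  kq j h1 h2 h3 u v hu hv := by
    obtain ⟨m, hm, -, h | h⟩ := tb_dq hk Qs h1 h2 h3 hu hv
    · exact tb_k (tb_K_all m hm).1 h
    · exact tb_k (tb_K_all m hm).2 h
  km j hj u v hu hv := by
    obtain ⟨m, hm, h3, h4⟩ := tb_dq hk Qs (by omega) (by omega) (by omega) hu hv
    have h5 : m = 17 ∨ m = 18 := by omega
    obtain ⟨i, rfl⟩ : ∃ i, m = i + 17 := ⟨m - 17, by omega⟩
    have h6 := tb_KM_all i (by omega)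
    rw [show i + 17 + 1 = i + 18 by omega, show i + 17 + 4 = i + 21 by omega] at h4
    rcases h4 with h | h
    · exact tb_km h6.1 h
    · exact tb_km h6.2 h
  ks j h1 h2 h3 u v hu hv := tb_ds hk Ss h1 h2 h3 hu hv
  nearq j h1 h2 v hv i := by
    obtain ⟨z, -, hr, hn⟩ := tb_caseQ (4 * k + 1) hq (by omega) (by omega : j ≤ 4 * k + 1)
    exact tb_near (hn h1 h2) (tb_coord hr hv) i
  nears j h1 h2 v hv i := by
    obtain ⟨z, -, hr, hn⟩ := tb_caseS (4 * k + 1) hs (by omega) (by omega : j ≤ 4 * k + 1 + 1)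
    exact tb_near (hn h1 h2) (tb_coord hr hv) i
  sz j h1 h2 v hv := by
    obtain ⟨z, hz, hr⟩ := tb_sz (4 * k + 1) hs h1 h2
    have h0 := abs_le.1 (tb_coord hr hv 2)
    rw [ofZ_2] at h0
    have hz' : 101 * 10 ^ 21 ≤ (z.2.2 : ℝ) := by exact_mod_cast hz
    linarith [h0.1, h0.2]
  first v hv := by
    rw [tb_refS_left _ _ (by omega)] at hv
    rw [tb_vec1]
    exact tb_first (tb_coord (tb_self _) hv) (by decide +kernel) (by decide +kernel)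
      (by decide +kernel)
  last v hv := by
    rw [tb_refS_right _ _ (by omega) (by omega),
      show 4 * k + 1 + 2 - (4 * k + 1 + 1) - 1 = 0 by omega] at hv
    rw [tb_vec2]
    exact tb_first (tb_coord (tb_self _) hv) (by decide +kernel) (by decide +kernel)
      (by decide +kernel)

end Pool.Agent.Helper39.Net
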