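import Pool.Agent.Helper39.Net.Emb
import Pool.Agent.Helper39.Net.Graph
import Pool.Agent.Helper39.Net.Sim
import Pool.Agent.Helper39.Net.Asm
import Pool.Agent.Helper39.Net.Chain
import Pool.Agent.Helper39.Net.Per
import Pool.Agent.Helper39.Net.Tab1
import Pool.Agent.Helper39.Net.Tab2
import Pool.Agent.Helper39.Net.Step
import Pool.Agent.Helper39.Net.Max

/-! # Irreducible geodesic nets with arbitrarily many balanced vertices -/

namespace Pool.Agent.Helper39.Net

theorem exists_chainData (k : ℕ) (hk : 30 ≤ k) : ∃ Q S : ℕ → E, ChainData (4 * k + 1) Q S :=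
  as_main exists_chain exists_periodic ref_residual ref_facts one_step cone_max k hk

theorem main (A : Fin 4 → E) (hA : ∃ r, 0 < r ∧ ∀ i j, i ≠ j → dist (A i) (A j) = r) (N : ℕ) :
    ∃ H : (⊤ : SimpleGraph E).Subgraph, IsIrreducibleNet (Set.range A) H ∧
      N < (H.verts \ Set.range A).ncard := by
  obtain ⟨Q, S, h⟩ := exists_chainData (N + 30) (by omega)
  have h1 := netData_of_chainData (N + 30) (by omega) Q S h
  obtain ⟨H, hH, hc⟩ := exists_net_of_netData _ (by omega) _ _ _ h1
  have hb : ∃ r, 0 < r ∧ ∀ i j : Fin 4, i ≠ j →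
      dist (G (i : ℕ) B0) (G (j : ℕ) B0) = r := by
    refine ⟨Real.sqrt 8, by positivity, fun i j hij => ?_⟩
    rw [dist_eq_norm, norm3]
    congr 1
    fin_cases i <;> fin_cases j <;> first | exact absurd rfl hij | skip
    all_goals simp only [E_sub,
      G_zero', G1_0, G1_1, G1_2, G2_0, G2_1, G2_2, B0_0, B0_1, B0_2]
    all_goals
      try change _ = _
      try simp only [G3_0, G3_1, G3_2, B0_0, B0_1, B0_2]
      norm_num
  obtain ⟨H', hH', hc'⟩ := similarity_transport (fun i : Fin 4 => G (i : ℕ) B0) A hb hA H hH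
  exact ⟨H', hH', by rw [hc', hc]; omega⟩

end Pool.Agent.Helper39.Net
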