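import Pool.Agent.Helper39.Net.Cert1
import Pool.Agent.Helper39.Net.Cert2
import Pool.Agent.Helper39.Net.Cert3

/-! # Embedding: all pairs of edges (generated) -/

set_option linter.unusedVariables false

namespace Pool.Agent.Helper39.Net

theorem K_add {u v : E} (hu : K u) (hv : K v) : K (u + v) := by
  obtain ⟨a1, a2, a3, a4, a5⟩ := hu
  obtain ⟨b1, b2, b3, b4, b5⟩ := hv
  constructor <;> simp only [E_add] <;> linarith

theorem KS_add {u v : E} (hu : KS u) (hv : KS v) : KS (u + v) := by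
  obtain ⟨a1, a2, a3, a4, a5, a6, a7⟩ := hu
  obtain ⟨b1, b2, b3, b4, b5, b6, b7⟩ := hv
  constructor <;> simp only [E_add] <;> linarith

theorem kq_mul {L : ℕ} {Q S : ℕ → E} (h : ChainData L Q S) (i n : ℕ) (hi : 1 ≤ i)
    (hn : i + 4 * (n + 1) ≤ L) : K ((-1 : ℝ) ^ i • (Q i - Q (i + 4 * (n + 1)))) := by
  induction n with
  | zero => exact h.kq i hi (by omega)
  | succ n ih =>
    have h1 := ih (by omega)
    have h2 := h.kq (i + 4 * (n + 1)) (by omega) (by omega)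
    have h3 : (-1 : ℝ) ^ (i + 4 * (n + 1)) = (-1) ^ i := by
      rw [pow_add, pow_mul]
      norm_num
    rw [h3] at h2
    have h4 := K_add h1 h2
    rw [← smul_add, sub_add_sub_cancel] at h4
    exact h4

theorem ks_mul {L : ℕ} {Q S : ℕ → E} (h : ChainData L Q S) (i n : ℕ) (hi : 1 ≤ i)
    (hn : i + 4 * (n + 1) ≤ L + 1) : KS ((-1 : ℝ) ^ i • (S i - S (i + 4 * (n + 1)))) := by
  induction n with
  | zero => exact h.ks i hi (by omega)
  | succ n ih =>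
    have h1 := ih (by omega)
    have h2 := h.ks (i + 4 * (n + 1)) (by omega) (by omega)
    have h3 : (-1 : ℝ) ^ (i + 4 * (n + 1)) = (-1) ^ i := by
      rw [pow_add, pow_mul]
      norm_num
    rw [h3] at h2
    have h4 := KS_add h1 h2
    rw [← smul_add, sub_add_sub_cancel] at h4
    exact h4

theorem kq_lt {L : ℕ} {Q S : ℕ → E} (h : ChainData L Q S) {i j : ℕ} (hi : 1 ≤ i) (hj : j ≤ L)
    (hij : i < j) (hm : i % 4 = j % 4) : K ((-1 : ℝ) ^ i • (Q i - Q j)) := by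
  have := kq_mul h i ((j - i) / 4 - 1) hi (by omega)
  rwa [show i + 4 * ((j - i) / 4 - 1 + 1) = j by omega] at this

theorem ks_lt {L : ℕ} {Q S : ℕ → E} (h : ChainData L Q S) {i j : ℕ} (hi : 1 ≤ i)
    (hj : j ≤ L + 1) (hij : i < j) (hm : i % 4 = j % 4) : KS ((-1 : ℝ) ^ i • (S i - S j)) := by
  have := ks_mul h i ((j - i) / 4 - 1) hi (by omega)
  rwa [show i + 4 * ((j - i) / 4 - 1 + 1) = j by omega] at this

theorem pow_cases (i : ℕ) : (((-1 : ℝ) ^ i = 1) ∧ ((-1 : ℝ) ^ (i + 1) = -1)) ∨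
    (((-1 : ℝ) ^ i = -1) ∧ ((-1 : ℝ) ^ (i + 1) = 1)) := by
  rcases Nat.even_or_odd i with hi | hi
  · left
    rw [pow_succ, hi.neg_one_pow]
    norm_num
  · right
    rw [pow_succ, hi.neg_one_pow]
    norm_num

theorem ordPS {L : ℕ} {Q S : ℕ → E} (h : ChainData L Q S) {i j : ℕ} (hij : i ≠ j) (hi1 : 1 ≤ i)
    (hi2 : i ≤ L) (hj1 : 1 ≤ j) (hj2 : j ≤ L) (hm : i % 4 = j % 4) :
    (K (Q i - Q j) ∧ KS (S i - S j)) ∨ (K (Q j - Q i) ∧ KS (S j - S i)) := by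
  rcases lt_or_gt_of_ne hij with hlt | hlt
  · have h1 := kq_lt h hi1 hj2 hlt hm
    have h2 := ks_lt h hi1 (by omega) hlt hm
    rcases pow_cases i with ⟨h3, _⟩ | ⟨h3, _⟩
    · left
      rw [h3, one_smul] at h1 h2
      exact ⟨h1, h2⟩
    · right
      rw [h3, neg_one_smul, neg_sub] at h1 h2
      exact ⟨h1, h2⟩
  · have h1 := kq_lt h hj1 hi2 hlt hm.symm
    have h2 := ks_lt h hj1 (by omega) hlt hm.symm
    rcases pow_cases j with ⟨h3, _⟩ | ⟨h3, _⟩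
    · right
      rw [h3, one_smul] at h1 h2
      exact ⟨h1, h2⟩
    · left
      rw [h3, neg_one_smul, neg_sub] at h1 h2
      exact ⟨h1, h2⟩

theorem ordPN {L : ℕ} {Q S : ℕ → E} (h : ChainData L Q S) {i j : ℕ} (hij : i ≠ j) (hi1 : 1 ≤ i)
    (hi2 : i ≤ L) (hj1 : 1 ≤ j) (hj2 : j ≤ L) (hm : i % 4 = j % 4) :
    (K (Q i - Q j) ∧ KS (S (j + 1) - S (i + 1))) ∨
      (K (Q j - Q i) ∧ KS (S (i + 1) - S (j + 1))) := by
  rcases lt_or_gt_of_ne hij with hlt | hlt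
  · have h1 := kq_lt h hi1 hj2 hlt hm
    have h2 := ks_lt h (i := i + 1) (j := j + 1) (by omega) (by omega) (by omega) (by omega)
    rcases pow_cases i with ⟨h3, h4⟩ | ⟨h3, h4⟩
    · left
      rw [h3, one_smul] at h1
      rw [h4, neg_one_smul, neg_sub] at h2
      exact ⟨h1, h2⟩
    · right
      rw [h3, neg_one_smul, neg_sub] at h1
      rw [h4, one_smul] at h2
      exact ⟨h1, h2⟩
  · have h1 := kq_lt h hj1 hi2 hlt hm.symm
    have h2 := ks_lt h (i := j + 1) (j := i + 1) (by omega) (by omega) (by omega) (by omega)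
    rcases pow_cases j with ⟨h3, h4⟩ | ⟨h3, h4⟩
    · right
      rw [h3, one_smul] at h1
      rw [h4, neg_one_smul, neg_sub] at h2
      exact ⟨h1, h2⟩
    · left
      rw [h3, neg_one_smul, neg_sub] at h1
      rw [h4, one_smul] at h2
      exact ⟨h1, h2⟩

theorem ordQ {L : ℕ} {Q S : ℕ → E} (h : ChainData L Q S) {i j : ℕ} (hij : i ≠ j) (hi1 : 1 ≤ i)
    (hi2 : i ≤ L) (hj1 : 1 ≤ j) (hj2 : j ≤ L) (hm : i % 4 = j % 4) :
    K (Q i - Q j) ∨ K (Q j - Q i) := by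
  rcases ordPS h hij hi1 hi2 hj1 hj2 hm with ⟨h1, _⟩ | ⟨h1, _⟩
  · exact Or.inl h1
  · exact Or.inr h1

theorem ordS {L : ℕ} {Q S : ℕ → E} (h : ChainData L Q S) {i j : ℕ} (hij : i ≠ j) (hi1 : 1 ≤ i)
    (hi2 : i ≤ L + 1) (hj1 : 1 ≤ j) (hj2 : j ≤ L + 1) (hm : i % 4 = j % 4) :
    KS (S i - S j) ∨ KS (S j - S i) := by
  rcases lt_or_gt_of_ne hij with hlt | hlt
  · have h2 := ks_lt h hi1 hj2 hlt hm
    rcases pow_cases i with ⟨h3, _⟩ | ⟨h3, _⟩
    · left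
      rwa [h3, one_smul] at h2
    · right
      rwa [h3, neg_one_smul, neg_sub] at h2
  · have h2 := ks_lt h hj1 hi2 hlt hm.symm
    rcases pow_cases j with ⟨h3, _⟩ | ⟨h3, _⟩
    · right
      rwa [h3, one_smul] at h2
    · left
      rwa [h3, neg_one_smul, neg_sub] at h2

theorem M_PS_PS {L k : ℕ} {Q S : ℕ → E} (hL : L = 4 * k + 1) (h : ChainData L Q S) {i j : ℕ} (hi1 : 1 ≤ i) (hi2 : i ≤ L) (hj1 : 1 ≤ j) (hj2 : j ≤ L) (hij : i ≠ j) :
    Meet (G i (S i)) (G i (Q i))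
      (G j (S j)) (G j (Q j)) := by
  obtain ⟨r, hr, hm⟩ := exists_shift i j
  interval_cases r
  · have e1 : ∀ v, G j v = G i v := fun v => by rw [← G_mod j, ← hm, G_mod, Nat.add_zero]
    simp only [e1]
    rcases ordPS h hij hi1 hi2 hj1 hj2 (by omega) with ⟨c1, c2⟩ | ⟨c1, c2⟩
    · exact meet_G (T_PS (h.rs i hi1 (by omega)) (h.rq i hi1 hi2) c2 c1)
    · exact (meet_G (T_PS (h.rs j hj1 (by omega)) (h.rq j hj1 hj2) c2 c1)).symm
  · have e1 : ∀ v, G j v = G i (G 1 v) := G_shift hm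
    simp only [e1]
    exact meet_G (I_PS_PS_1 (h.rs i hi1 (by omega)) (h.rq i hi1 hi2) (h.rs j hj1 (by omega)) (h.rq j hj1 hj2))
  · have e1 : ∀ v, G j v = G i (G 2 v) := G_shift hm
    simp only [e1]
    exact meet_G (I_PS_PS_2 (h.rs i hi1 (by omega)) (h.rq i hi1 hi2) (h.rs j hj1 (by omega)) (h.rq j hj1 hj2))
  · have e1 : ∀ v, G j v = G i (G 3 v) := G_shift hm
    simp only [e1]
    exact meet_G (I_PS_PS_3 (h.rs i hi1 (by omega)) (h.rq i hi1 hi2) (h.rs j hj1 (by omega)) (h.rq j hj1 hj2))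

theorem M_PS_PN {L k : ℕ} {Q S : ℕ → E} (hL : L = 4 * k + 1) (h : ChainData L Q S) {i j : ℕ} (hi1 : 1 ≤ i) (hi2 : i ≤ L) (hj1 : 1 ≤ j) (hj2 : j ≤ L) :
    Meet (G i (S i)) (G i (Q i))
      (G j (Q j)) (G (j + 1) (S (j + 1))) := by
  obtain ⟨r, hr, hm⟩ := exists_shift i j
  interval_cases r
  · by_cases hij : i = j
    · subst hij
      have e3 : ∀ v, G (i + 1) v = G i (G 1 v) := G_add i 1
      simp only [e3]
      exact meet_G (V_PS_PN (h.rq i hi1 hi2) (h.rs i hi1 (by omega)) (h.rs (i + 1) (by omega) (by omega)))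
    · have e1 : ∀ v, G j v = G i v := fun v => by rw [← G_mod j, ← hm, G_mod, Nat.add_zero]
      have e2 : ∀ v, G (j + 1) v = G i (G 1 v) := G_shift (by omega)
      simp only [e1, e2]
      rcases ordQ h hij hi1 hi2 hj1 hj2 (by omega) with c1 | c1
      · exact meet_G (U_PS_PN (h.rq i hi1 hi2) (h.rs i hi1 (by omega)) (h.rq j hj1 hj2) (h.rs (j + 1) (by omega) (by omega)) c1)
      · exact meet_G (W_PS_PN (h.rq i hi1 hi2) (h.rs i hi1 (by omega)) (h.rq j hj1 hj2) (h.rs (j + 1) (by omega) (by omega)) c1)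
  · have e1 : ∀ v, G j v = G i (G 1 v) := G_shift hm
    have e2 : ∀ v, G (j + 1) v = G i (G 2 v) := G_shift (by omega)
    simp only [e1, e2]
    exact meet_G (I_PS_PN_1 (h.rs i hi1 (by omega)) (h.rq i hi1 hi2) (h.rq j hj1 hj2) (h.rs (j + 1) (by omega) (by omega)))
  · have e1 : ∀ v, G j v = G i (G 2 v) := G_shift hm
    have e2 : ∀ v, G (j + 1) v = G i (G 3 v) := G_shift (by omega)
    simp only [e1, e2]
    exact meet_G (I_PS_PN_2 (h.rs i hi1 (by omega)) (h.rq i hi1 hi2) (h.rq j hj1 hj2) (h.rs (j + 1) (by omega) (by omega)))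
  · have e1 : ∀ v, G j v = G i (G 3 v) := G_shift hm
    have e2 : ∀ v, G (j + 1) v = G i v := fun v => by
      rw [← G_mod (j + 1), ← G_mod i]; congr 1; omega
    simp only [e1, e2]
    by_cases hij : i = j + 1
    · subst hij
      exact meet_G (VS_PS_PN (h.rs _ hi1 (by omega)) (h.rq _ hi1 hi2) (h.rq j hj1 hj2))
    · rcases ordS h hij hi1 (by omega) (by omega) (by omega) (by omega) with c1 | c1
      · exact meet_G (US_PS_PN (h.rs _ hi1 (by omega)) (h.rq _ hi1 hi2)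
          (h.rs (j + 1) (by omega) (by omega)) (h.rq j hj1 hj2) c1)
      · exact meet_G (WS_PS_PN (h.rs _ hi1 (by omega)) (h.rq _ hi1 hi2)
          (h.rs (j + 1) (by omega) (by omega)) (h.rq j hj1 hj2) c1)

theorem M_PS_L0 {L k : ℕ} {Q S : ℕ → E} (hL : L = 4 * k + 1) (h : ChainData L Q S) {i j : ℕ} (hi1 : 1 ≤ i) (hi2 : i ≤ L) (hj1 : 1 ≤ j) (hj2 : j ≤ L) :
    Meet (G i (S i)) (G i (Q i))
      (G j (Q j)) (G j B0) := by
  obtain ⟨r, hr, hm⟩ := exists_shift i j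
  interval_cases r
  · by_cases hij : i = j
    · subst hij
      exact meet_G (V_PS_L0 (h.rq i hi1 hi2) (h.rs i hi1 (by omega)))
    · have e1 : ∀ v, G j v = G i v := fun v => by rw [← G_mod j, ← hm, G_mod, Nat.add_zero]
      simp only [e1]
      rcases ordQ h hij hi1 hi2 hj1 hj2 (by omega) with c1 | c1
      · exact meet_G (U_PS_L0 (h.rq i hi1 hi2) (h.rs i hi1 (by omega)) (h.rq j hj1 hj2) c1)
      · exact meet_G (W_PS_L0 (h.rq i hi1 hi2) (h.rs i hi1 (by omega)) (h.rq j hj1 hj2) c1)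
  · have e1 : ∀ v, G j v = G i (G 1 v) := G_shift hm
    simp only [e1]
    exact meet_G (I_PS_L0_1 (h.rs i hi1 (by omega)) (h.rq i hi1 hi2) (h.rq j hj1 hj2))
  · have e1 : ∀ v, G j v = G i (G 2 v) := G_shift hm
    simp only [e1]
    exact meet_G (I_PS_L0_2 (h.rs i hi1 (by omega)) (h.rq i hi1 hi2) (h.rq j hj1 hj2))
  · have e1 : ∀ v, G j v = G i (G 3 v) := G_shift hm
    simp only [e1]
    exact meet_G (I_PS_L0_3 (h.rs i hi1 (by omega)) (h.rq i hi1 hi2) (h.rq j hj1 hj2))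

theorem M_PS_L1 {L k : ℕ} {Q S : ℕ → E} (hL : L = 4 * k + 1) (h : ChainData L Q S) {i j : ℕ} (hi1 : 1 ≤ i) (hi2 : i ≤ L) (hj1 : 1 ≤ j) (hj2 : j ≤ L) :
    Meet (G i (S i)) (G i (Q i))
      (G j (Q j)) (G (j + 1) B0) := by
  obtain ⟨r, hr, hm⟩ := exists_shift i j
  interval_cases r
  · by_cases hij : i = j
    · subst hij
      have e3 : ∀ v, G (i + 1) v = G i (G 1 v) := G_add i 1
      simp only [e3]
      exact meet_G (V_PS_L1 (h.rq i hi1 hi2) (h.rs i hi1 (by omega)))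
    · have e1 : ∀ v, G j v = G i v := fun v => by rw [← G_mod j, ← hm, G_mod, Nat.add_zero]
      have e2 : ∀ v, G (j + 1) v = G i (G 1 v) := G_shift (by omega)
      simp only [e1, e2]
      rcases ordQ h hij hi1 hi2 hj1 hj2 (by omega) with c1 | c1
      · exact meet_G (U_PS_L1 (h.rq i hi1 hi2) (h.rs i hi1 (by omega)) (h.rq j hj1 hj2) c1)
      · exact meet_G (W_PS_L1 (h.rq i hi1 hi2) (h.rs i hi1 (by omega)) (h.rq j hj1 hj2) c1)
  · have e1 : ∀ v, G j v = G i (G 1 v) := G_shift hm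
    have e2 : ∀ v, G (j + 1) v = G i (G 2 v) := G_shift (by omega)
    simp only [e1, e2]
    exact meet_G (I_PS_L1_1 (h.rs i hi1 (by omega)) (h.rq i hi1 hi2) (h.rq j hj1 hj2))
  · have e1 : ∀ v, G j v = G i (G 2 v) := G_shift hm
    have e2 : ∀ v, G (j + 1) v = G i (G 3 v) := G_shift (by omega)
    simp only [e1, e2]
    exact meet_G (I_PS_L1_2 (h.rs i hi1 (by omega)) (h.rq i hi1 hi2) (h.rq j hj1 hj2))
  · have e1 : ∀ v, G j v = G i (G 3 v) := G_shift hm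
    have e2 : ∀ v, G (j + 1) v = G i (G 4 v) := G_shift (by omega)
    simp only [e1, e2]
    exact meet_G (I_PS_L1_3 (h.rs i hi1 (by omega)) (h.rq i hi1 hi2) (h.rq j hj1 hj2))

theorem M_PS_LS {L k : ℕ} {Q S : ℕ → E} (hL : L = 4 * k + 1) (h : ChainData L Q S) {i j : ℕ} (hi1 : 1 ≤ i) (hi2 : i ≤ L) (hj1 : 1 ≤ j) (hj2 : j ≤ L + 1) :
    Meet (G i (S i)) (G i (Q i))
      (G j (S j)) (G j B0) := by
  obtain ⟨r, hr, hm⟩ := exists_shift i j
  interval_cases r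
  · have e1 : ∀ v, G j v = G i v := fun v => by rw [← G_mod j, ← hm, G_mod, Nat.add_zero]
    simp only [e1]
    by_cases hij : i = j
    · subst hij
      exact meet_G (VS_PS_LS (h.rs _ hi1 (by omega)) (h.rq _ hi1 hi2))
    · rcases ordS h hij hi1 (by omega) (by omega) (by omega) (by omega) with c1 | c1
      · exact meet_G (US_PS_LS (h.rs _ hi1 (by omega)) (h.rq _ hi1 hi2) (h.rs j hj1 hj2) c1)
      · exact meet_G (WS_PS_LS (h.rs _ hi1 (by omega)) (h.rq _ hi1 hi2) (h.rs j hj1 hj2) c1)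
  · have e1 : ∀ v, G j v = G i (G 1 v) := G_shift hm
    simp only [e1]
    exact meet_G (I_PS_LS_1 (h.rs i hi1 (by omega)) (h.rq i hi1 hi2) (h.rs j hj1 hj2))
  · have e1 : ∀ v, G j v = G i (G 2 v) := G_shift hm
    simp only [e1]
    exact meet_G (I_PS_LS_2 (h.rs i hi1 (by omega)) (h.rq i hi1 hi2) (h.rs j hj1 hj2))
  · have e1 : ∀ v, G j v = G i (G 3 v) := G_shift hm
    simp only [e1]
    exact meet_G (I_PS_LS_3 (h.rs i hi1 (by omega)) (h.rq i hi1 hi2) (h.rs j hj1 hj2))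

theorem M_X1_PS {L k : ℕ} {Q S : ℕ → E} (hL : L = 4 * k + 1) (h : ChainData L Q S) {j : ℕ} (hj1 : 1 ≤ j) (hj2 : j ≤ L) :
    Meet (G 1 (S 1)) (G 0 B0)
      (G j (S j)) (G j (Q j)) := by
  obtain ⟨r, hr, hm⟩ := exists_shift 1 j
  have e0 : ∀ v, G 0 v = G 1 (G 3 v) := G_shift (by norm_num)
  interval_cases r
  · have e1 : ∀ v, G j v = G 1 v := fun v => by rw [← G_mod j, ← hm, G_mod, Nat.add_zero]
    rw [e0]
    simp only [e1]
    by_cases hj : j = 1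
    · subst hj
      exact meet_G (V_X1_PS (RS1_of h.first) (h.rq 1 hj1 hj2))
    · exact meet_G (U_X1_PS (RS1_of h.first) (h.rs j hj1 (by omega)) (h.rq j hj1 hj2) (h.sz j (by omega) (by omega)))
  · have e1 : ∀ v, G j v = G 1 (G 1 v) := G_shift hm
    rw [e0]
    simp only [e1]
    exact meet_G (I_X1_PS_1 (RS1_of h.first) (h.rs j hj1 (by omega)) (h.rq j hj1 hj2))
  · have e1 : ∀ v, G j v = G 1 (G 2 v) := G_shift hm
    rw [e0]
    simp only [e1]
    exact meet_G (I_X1_PS_2 (RS1_of h.first) (h.rs j hj1 (by omega)) (h.rq j hj1 hj2))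
  · have e1 : ∀ v, G j v = G 1 (G 3 v) := G_shift hm
    rw [e0]
    simp only [e1]
    exact meet_G (I_X1_PS_3 (RS1_of h.first) (h.rs j hj1 (by omega)) (h.rq j hj1 hj2))

theorem M_X2_PS {L k : ℕ} {Q S : ℕ → E} (hL : L = 4 * k + 1) (h : ChainData L Q S) {j : ℕ} (hj1 : 1 ≤ j) (hj2 : j ≤ L) :
    Meet (G (L + 1) (S (L + 1))) (G (L + 2) B0)
      (G j (S j)) (G j (Q j)) := by
  obtain ⟨r, hr, hm⟩ := exists_shift (L + 1) j
  have e0 : ∀ v, G (L + 2) v = G (L + 1) (G 1 v) := G_shift (by omega)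
  interval_cases r
  · have e1 : ∀ v, G j v = G (L + 1) v := fun v => by rw [← G_mod j, ← hm, G_mod, Nat.add_zero]
    rw [e0]
    simp only [e1]
    exact meet_G (U_X2_PS (RSL_of h.last) (h.rs j hj1 (by omega)) (h.rq j hj1 hj2) (h.sz j (by omega) (by omega)))
  · have e1 : ∀ v, G j v = G (L + 1) (G 1 v) := G_shift hm
    rw [e0]
    simp only [e1]
    exact meet_G (I_X2_PS_1 (RSL_of h.last) (h.rs j hj1 (by omega)) (h.rq j hj1 hj2))
  · have e1 : ∀ v, G j v = G (L + 1) (G 2 v) := G_shift hm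
    rw [e0]
    simp only [e1]
    exact meet_G (I_X2_PS_2 (RSL_of h.last) (h.rs j hj1 (by omega)) (h.rq j hj1 hj2))
  · have e1 : ∀ v, G j v = G (L + 1) (G 3 v) := G_shift hm
    rw [e0]
    simp only [e1]
    exact meet_G (I_X2_PS_3 (RSL_of h.last) (h.rs j hj1 (by omega)) (h.rq j hj1 hj2))

theorem M_PN_PN {L k : ℕ} {Q S : ℕ → E} (hL : L = 4 * k + 1) (h : ChainData L Q S) {i j : ℕ} (hi1 : 1 ≤ i) (hi2 : i ≤ L) (hj1 : 1 ≤ j) (hj2 : j ≤ L) (hij : i ≠ j) :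
    Meet (G i (Q i)) (G (i + 1) (S (i + 1)))
      (G j (Q j)) (G (j + 1) (S (j + 1))) := by
  obtain ⟨r, hr, hm⟩ := exists_shift i j
  have e3 : ∀ v, G (i + 1) v = G i (G 1 v) := G_add i 1
  interval_cases r
  · have e1 : ∀ v, G j v = G i v := fun v => by rw [← G_mod j, ← hm, G_mod, Nat.add_zero]
    have e2 : ∀ v, G (j + 1) v = G i (G 1 v) := G_shift (by omega)
    simp only [e1, e2, e3]
    rcases ordPN h hij hi1 hi2 hj1 hj2 (by omega) with ⟨c1, c2⟩ | ⟨c1, c2⟩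
    · exact meet_G (T_PN (h.rs (i + 1) (by omega) (by omega)) (h.rq i hi1 hi2) c2 c1)
    · exact (meet_G (T_PN (h.rs (j + 1) (by omega) (by omega)) (h.rq j hj1 hj2) c2 c1)).symm
  · have e1 : ∀ v, G j v = G i (G 1 v) := G_shift hm
    have e2 : ∀ v, G (j + 1) v = G i (G 2 v) := G_shift (by omega)
    simp only [e1, e2, e3]
    exact meet_G (I_PN_PN_1 (h.rq i hi1 hi2) (h.rs (i + 1) (by omega) (by omega)) (h.rq j hj1 hj2) (h.rs (j + 1) (by omega) (by omega)))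
  · have e1 : ∀ v, G j v = G i (G 2 v) := G_shift hm
    have e2 : ∀ v, G (j + 1) v = G i (G 3 v) := G_shift (by omega)
    simp only [e1, e2, e3]
    exact meet_G (I_PN_PN_2 (h.rq i hi1 hi2) (h.rs (i + 1) (by omega) (by omega)) (h.rq j hj1 hj2) (h.rs (j + 1) (by omega) (by omega)))
  · have e1 : ∀ v, G j v = G i (G 3 v) := G_shift hm
    have e2 : ∀ v, G (j + 1) v = G i (G 4 v) := G_shift (by omega)
    simp only [e1, e2, e3]
    exact meet_G (I_PN_PN_3 (h.rq i hi1 hi2) (h.rs (i + 1) (by omega) (by omega)) (h.rq j hj1 hj2) (h.rs (j + 1) (by omega) (by omega)))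

theorem M_PN_L0 {L k : ℕ} {Q S : ℕ → E} (hL : L = 4 * k + 1) (h : ChainData L Q S) {i j : ℕ} (hi1 : 1 ≤ i) (hi2 : i ≤ L) (hj1 : 1 ≤ j) (hj2 : j ≤ L) :
    Meet (G i (Q i)) (G (i + 1) (S (i + 1)))
      (G j (Q j)) (G j B0) := by
  obtain ⟨r, hr, hm⟩ := exists_shift i j
  have e3 : ∀ v, G (i + 1) v = G i (G 1 v) := G_add i 1
  interval_cases r
  · by_cases hij : i = j
    · subst hij
      simp only [e3]
      exact meet_G (V_PN_L0 (h.rq i hi1 hi2) (h.rs (i + 1) (by omega) (by omega)))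
    · have e1 : ∀ v, G j v = G i v := fun v => by rw [← G_mod j, ← hm, G_mod, Nat.add_zero]
      simp only [e1, e3]
      rcases ordQ h hij hi1 hi2 hj1 hj2 (by omega) with c1 | c1
      · exact meet_G (U_PN_L0 (h.rq i hi1 hi2) (h.rs (i + 1) (by omega) (by omega)) (h.rq j hj1 hj2) c1)
      · exact meet_G (W_PN_L0 (h.rq i hi1 hi2) (h.rs (i + 1) (by omega) (by omega)) (h.rq j hj1 hj2) c1)
  · have e1 : ∀ v, G j v = G i (G 1 v) := G_shift hm
    simp only [e1, e3]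
    exact meet_G (I_PN_L0_1 (h.rq i hi1 hi2) (h.rs (i + 1) (by omega) (by omega)) (h.rq j hj1 hj2))
  · have e1 : ∀ v, G j v = G i (G 2 v) := G_shift hm
    simp only [e1, e3]
    exact meet_G (I_PN_L0_2 (h.rq i hi1 hi2) (h.rs (i + 1) (by omega) (by omega)) (h.rq j hj1 hj2))
  · have e1 : ∀ v, G j v = G i (G 3 v) := G_shift hm
    simp only [e1, e3]
    exact meet_G (I_PN_L0_3 (h.rq i hi1 hi2) (h.rs (i + 1) (by omega) (by omega)) (h.rq j hj1 hj2))

theorem M_PN_L1 {L k : ℕ} {Q S : ℕ → E} (hL : L = 4 * k + 1) (h : ChainData L Q S) {i j : ℕ} (hi1 : 1 ≤ i) (hi2 : i ≤ L) (hj1 : 1 ≤ j) (hj2 : j ≤ L) :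
    Meet (G i (Q i)) (G (i + 1) (S (i + 1)))
      (G j (Q j)) (G (j + 1) B0) := by
  obtain ⟨r, hr, hm⟩ := exists_shift i j
  have e3 : ∀ v, G (i + 1) v = G i (G 1 v) := G_add i 1
  interval_cases r
  · by_cases hij : i = j
    · subst hij
      simp only [e3]
      exact meet_G (V_PN_L1 (h.rq i hi1 hi2) (h.rs (i + 1) (by omega) (by omega)))
    · have e1 : ∀ v, G j v = G i v := fun v => by rw [← G_mod j, ← hm, G_mod, Nat.add_zero]
      have e2 : ∀ v, G (j + 1) v = G i (G 1 v) := G_shift (by omega)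
      simp only [e1, e2, e3]
      rcases ordQ h hij hi1 hi2 hj1 hj2 (by omega) with c1 | c1
      · exact meet_G (U_PN_L1 (h.rq i hi1 hi2) (h.rs (i + 1) (by omega) (by omega)) (h.rq j hj1 hj2) c1)
      · exact meet_G (W_PN_L1 (h.rq i hi1 hi2) (h.rs (i + 1) (by omega) (by omega)) (h.rq j hj1 hj2) c1)
  · have e1 : ∀ v, G j v = G i (G 1 v) := G_shift hm
    have e2 : ∀ v, G (j + 1) v = G i (G 2 v) := G_shift (by omega)
    simp only [e1, e2, e3]
    exact meet_G (I_PN_L1_1 (h.rq i hi1 hi2) (h.rs (i + 1) (by omega) (by omega)) (h.rq j hj1 hj2))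
  · have e1 : ∀ v, G j v = G i (G 2 v) := G_shift hm
    have e2 : ∀ v, G (j + 1) v = G i (G 3 v) := G_shift (by omega)
    simp only [e1, e2, e3]
    exact meet_G (I_PN_L1_2 (h.rq i hi1 hi2) (h.rs (i + 1) (by omega) (by omega)) (h.rq j hj1 hj2))
  · have e1 : ∀ v, G j v = G i (G 3 v) := G_shift hm
    have e2 : ∀ v, G (j + 1) v = G i (G 4 v) := G_shift (by omega)
    simp only [e1, e2, e3]
    exact meet_G (I_PN_L1_3 (h.rq i hi1 hi2) (h.rs (i + 1) (by omega) (by omega)) (h.rq j hj1 hj2))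

theorem M_PN_LS {L k : ℕ} {Q S : ℕ → E} (hL : L = 4 * k + 1) (h : ChainData L Q S) {i j : ℕ} (hi1 : 1 ≤ i) (hi2 : i ≤ L) (hj1 : 1 ≤ j) (hj2 : j ≤ L + 1) :
    Meet (G i (Q i)) (G (i + 1) (S (i + 1)))
      (G j (S j)) (G j B0) := by
  obtain ⟨r, hr, hm⟩ := exists_shift i j
  have e3 : ∀ v, G (i + 1) v = G i (G 1 v) := G_add i 1
  interval_cases r
  · have e1 : ∀ v, G j v = G i (G 0 v) := G_shift hm
    simp only [e1, e3]
    exact meet_G (I_PN_LS_0 (h.rq i hi1 hi2) (h.rs (i + 1) (by omega) (by omega)) (h.rs j hj1 hj2))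
  · have e1 : ∀ v, G i v = G j (G 3 v) := G_shift (by omega)
    have e2 : ∀ v, G (i + 1) v = G j v := fun v => by
      rw [← G_mod (i + 1), ← G_mod j]; congr 1
    simp only [e2]
    rw [e1]
    by_cases hij : i + 1 = j
    · subst hij
      exact meet_G (VS_PN_LS (h.rs _ (by omega) (by omega)) (h.rq i hi1 hi2))
    · rcases ordS h hij (by omega) (by omega) (by omega) (by omega) (by omega) with c1 | c1
      · exact meet_G (US_PN_LS (h.rs _ (by omega) (by omega)) (h.rq i hi1 hi2)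
          (h.rs j hj1 hj2) c1)
      · exact meet_G (WS_PN_LS (h.rs _ (by omega) (by omega)) (h.rq i hi1 hi2)
          (h.rs j hj1 hj2) c1)
  · have e1 : ∀ v, G j v = G i (G 2 v) := G_shift hm
    simp only [e1, e3]
    exact meet_G (I_PN_LS_2 (h.rq i hi1 hi2) (h.rs (i + 1) (by omega) (by omega)) (h.rs j hj1 hj2))
  · have e1 : ∀ v, G j v = G i (G 3 v) := G_shift hm
    simp only [e1, e3]
    exact meet_G (I_PN_LS_3 (h.rq i hi1 hi2) (h.rs (i + 1) (by omega) (by omega)) (h.rs j hj1 hj2))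

theorem M_X1_PN {L k : ℕ} {Q S : ℕ → E} (hL : L = 4 * k + 1) (h : ChainData L Q S) {j : ℕ} (hj1 : 1 ≤ j) (hj2 : j ≤ L) :
    Meet (G 1 (S 1)) (G 0 B0)
      (G j (Q j)) (G (j + 1) (S (j + 1))) := by
  obtain ⟨r, hr, hm⟩ := exists_shift 1 j
  have e0 : ∀ v, G 0 v = G 1 (G 3 v) := G_shift (by norm_num)
  interval_cases r
  · have e1 : ∀ v, G j v = G 1 (G 0 v) := G_shift hm
    have e2 : ∀ v, G (j + 1) v = G 1 (G 1 v) := G_shift (by omega)
    rw [e0]
    simp only [e1, e2]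
    exact meet_G (I_X1_PN_0 (RS1_of h.first) (h.rq j hj1 hj2) (h.rs (j + 1) (by omega) (by omega)))
  · have e1 : ∀ v, G j v = G 1 (G 1 v) := G_shift hm
    have e2 : ∀ v, G (j + 1) v = G 1 (G 2 v) := G_shift (by omega)
    rw [e0]
    simp only [e1, e2]
    exact meet_G (I_X1_PN_1 (RS1_of h.first) (h.rq j hj1 hj2) (h.rs (j + 1) (by omega) (by omega)))
  · have e1 : ∀ v, G j v = G 1 (G 2 v) := G_shift hm
    have e2 : ∀ v, G (j + 1) v = G 1 (G 3 v) := G_shift (by omega)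
    rw [e0]
    simp only [e1, e2]
    exact meet_G (I_X1_PN_2 (RS1_of h.first) (h.rq j hj1 hj2) (h.rs (j + 1) (by omega) (by omega)))
  · have e1 : ∀ v, G j v = G 1 (G 3 v) := G_shift hm
    have e2 : ∀ v, G (j + 1) v = G 1 v := fun v => by
      rw [← G_mod (j + 1), ← G_mod 1]; congr 1; omega
    rw [e0]
    simp only [e1, e2]
    exact meet_G (U_X1_PN (RS1_of h.first) (h.rs (j + 1) (by omega) (by omega)) (h.rq j hj1 hj2)
      (h.sz (j + 1) (by omega) (by omega)))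

theorem M_X2_PN {L k : ℕ} {Q S : ℕ → E} (hL : L = 4 * k + 1) (h : ChainData L Q S) {j : ℕ} (hj1 : 1 ≤ j) (hj2 : j ≤ L) :
    Meet (G (L + 1) (S (L + 1))) (G (L + 2) B0)
      (G j (Q j)) (G (j + 1) (S (j + 1))) := by
  obtain ⟨r, hr, hm⟩ := exists_shift (L + 1) j
  have e0 : ∀ v, G (L + 2) v = G (L + 1) (G 1 v) := G_shift (by omega)
  interval_cases r
  · have e1 : ∀ v, G j v = G (L + 1) (G 0 v) := G_shift hm
    have e2 : ∀ v, G (j + 1) v = G (L + 1) (G 1 v) := G_shift (by omega)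
    rw [e0]
    simp only [e1, e2]
    exact meet_G (I_X2_PN_0 (RSL_of h.last) (h.rq j hj1 hj2) (h.rs (j + 1) (by omega) (by omega)))
  · have e1 : ∀ v, G j v = G (L + 1) (G 1 v) := G_shift hm
    have e2 : ∀ v, G (j + 1) v = G (L + 1) (G 2 v) := G_shift (by omega)
    rw [e0]
    simp only [e1, e2]
    exact meet_G (I_X2_PN_1 (RSL_of h.last) (h.rq j hj1 hj2) (h.rs (j + 1) (by omega) (by omega)))
  · have e1 : ∀ v, G j v = G (L + 1) (G 2 v) := G_shift hm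
    have e2 : ∀ v, G (j + 1) v = G (L + 1) (G 3 v) := G_shift (by omega)
    rw [e0]
    simp only [e1, e2]
    exact meet_G (I_X2_PN_2 (RSL_of h.last) (h.rq j hj1 hj2) (h.rs (j + 1) (by omega) (by omega)))
  · have e1 : ∀ v, G j v = G (L + 1) (G 3 v) := G_shift hm
    have e2 : ∀ v, G (j + 1) v = G (L + 1) v := fun v => by
      rw [← G_mod (j + 1), ← G_mod (L + 1)]; congr 1; omega
    rw [e0]
    simp only [e1, e2]
    by_cases hj : j = L
    · subst hj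
      exact meet_G (V_X2_PN (RSL_of h.last) (h.rq j hj1 hj2))
    · exact meet_G (U_X2_PN (RSL_of h.last) (h.rs (j + 1) (by omega) (by omega)) (h.rq j hj1 hj2)
        (h.sz (j + 1) (by omega) (by omega)))

theorem M_L0_L0 {L k : ℕ} {Q S : ℕ → E} (hL : L = 4 * k + 1) (h : ChainData L Q S) {i j : ℕ} (hi1 : 1 ≤ i) (hi2 : i ≤ L) (hj1 : 1 ≤ j) (hj2 : j ≤ L) (hij : i ≠ j) :
    Meet (G i (Q i)) (G i B0)
      (G j (Q j)) (G j B0) := by
  obtain ⟨r, hr, hm⟩ := exists_shift i j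
  interval_cases r
  · have e1 : ∀ v, G j v = G i v := fun v => by rw [← G_mod j, ← hm, G_mod, Nat.add_zero]
    simp only [e1]
    rcases ordQ h hij hi1 hi2 hj1 hj2 (by omega) with c1 | c1
    · exact meet_G (T_L0 (h.rq i hi1 hi2) c1)
    · exact (meet_G (T_L0 (h.rq j hj1 hj2) c1)).symm
  · have e1 : ∀ v, G j v = G i (G 1 v) := G_shift hm
    simp only [e1]
    exact meet_G (I_L0_L0_1 (h.rq i hi1 hi2) (h.rq j hj1 hj2))
  · have e1 : ∀ v, G j v = G i (G 2 v) := G_shift hm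
    simp only [e1]
    exact meet_G (I_L0_L0_2 (h.rq i hi1 hi2) (h.rq j hj1 hj2))
  · have e1 : ∀ v, G j v = G i (G 3 v) := G_shift hm
    simp only [e1]
    exact meet_G (I_L0_L0_3 (h.rq i hi1 hi2) (h.rq j hj1 hj2))

theorem M_L0_L1 {L k : ℕ} {Q S : ℕ → E} (hL : L = 4 * k + 1) (h : ChainData L Q S) {i j : ℕ} (hi1 : 1 ≤ i) (hi2 : i ≤ L) (hj1 : 1 ≤ j) (hj2 : j ≤ L) :
    Meet (G i (Q i)) (G i B0)
      (G j (Q j)) (G (j + 1) B0) := by
  obtain ⟨r, hr, hm⟩ := exists_shift i j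
  interval_cases r
  · by_cases hij : i = j
    · subst hij
      have e3 : ∀ v, G (i + 1) v = G i (G 1 v) := G_add i 1
      simp only [e3]
      exact meet_G (V_L0_L1 (h.rq i hi1 hi2))
    · have e1 : ∀ v, G j v = G i v := fun v => by rw [← G_mod j, ← hm, G_mod, Nat.add_zero]
      have e2 : ∀ v, G (j + 1) v = G i (G 1 v) := G_shift (by omega)
      simp only [e1, e2]
      rcases ordQ h hij hi1 hi2 hj1 hj2 (by omega) with c1 | c1
      · exact meet_G (U_L0_L1 (h.rq i hi1 hi2) (h.rq j hj1 hj2) c1)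
      · exact meet_G (W_L0_L1 (h.rq i hi1 hi2) (h.rq j hj1 hj2) c1)
  · have e1 : ∀ v, G j v = G i (G 1 v) := G_shift hm
    have e2 : ∀ v, G (j + 1) v = G i (G 2 v) := G_shift (by omega)
    simp only [e1, e2]
    exact meet_G (I_L0_L1_1 (h.rq i hi1 hi2) (h.rq j hj1 hj2))
  · have e1 : ∀ v, G j v = G i (G 2 v) := G_shift hm
    have e2 : ∀ v, G (j + 1) v = G i (G 3 v) := G_shift (by omega)
    simp only [e1, e2]
    exact meet_G (I_L0_L1_2 (h.rq i hi1 hi2) (h.rq j hj1 hj2))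
  · have e1 : ∀ v, G j v = G i (G 3 v) := G_shift hm
    have e2 : ∀ v, G (j + 1) v = G i (G 4 v) := G_shift (by omega)
    simp only [e1, e2]
    exact meet_G (B_L0_L1_3 (h.rq i hi1 hi2) (h.rq j hj1 hj2))

theorem M_L0_LS {L k : ℕ} {Q S : ℕ → E} (hL : L = 4 * k + 1) (h : ChainData L Q S) {i j : ℕ} (hi1 : 1 ≤ i) (hi2 : i ≤ L) (hj1 : 1 ≤ j) (hj2 : j ≤ L + 1) :
    Meet (G i (Q i)) (G i B0)
      (G j (S j)) (G j B0) := by
  obtain ⟨r, hr, hm⟩ := exists_shift i j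
  interval_cases r
  · have e1 : ∀ v, G j v = G i (G 0 v) := G_shift hm
    simp only [e1]
    exact meet_G (B_L0_LS_0 (h.rq i hi1 hi2) (h.rs j hj1 hj2))
  · have e1 : ∀ v, G j v = G i (G 1 v) := G_shift hm
    simp only [e1]
    exact meet_G (I_L0_LS_1 (h.rq i hi1 hi2) (h.rs j hj1 hj2))
  · have e1 : ∀ v, G j v = G i (G 2 v) := G_shift hm
    simp only [e1]
    exact meet_G (I_L0_LS_2 (h.rq i hi1 hi2) (h.rs j hj1 hj2))
  · have e1 : ∀ v, G j v = G i (G 3 v) := G_shift hm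
    simp only [e1]
    exact meet_G (I_L0_LS_3 (h.rq i hi1 hi2) (h.rs j hj1 hj2))

theorem M_X1_L0 {L k : ℕ} {Q S : ℕ → E} (hL : L = 4 * k + 1) (h : ChainData L Q S) {j : ℕ} (hj1 : 1 ≤ j) (hj2 : j ≤ L) :
    Meet (G 1 (S 1)) (G 0 B0)
      (G j (Q j)) (G j B0) := by
  obtain ⟨r, hr, hm⟩ := exists_shift 1 j
  have e0 : ∀ v, G 0 v = G 1 (G 3 v) := G_shift (by norm_num)
  interval_cases r
  · have e1 : ∀ v, G j v = G 1 (G 0 v) := G_shift hm
    rw [e0]
    simp only [e1]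
    exact meet_G (I_X1_L0_0 (RS1_of h.first) (h.rq j hj1 hj2))
  · have e1 : ∀ v, G j v = G 1 (G 1 v) := G_shift hm
    rw [e0]
    simp only [e1]
    exact meet_G (I_X1_L0_1 (RS1_of h.first) (h.rq j hj1 hj2))
  · have e1 : ∀ v, G j v = G 1 (G 2 v) := G_shift hm
    rw [e0]
    simp only [e1]
    exact meet_G (I_X1_L0_2 (RS1_of h.first) (h.rq j hj1 hj2))
  · have e1 : ∀ v, G j v = G 1 (G 3 v) := G_shift hm
    rw [e0]
    simp only [e1]
    exact meet_G (B_X1_L0_3 (RS1_of h.first) (h.rq j hj1 hj2))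

theorem M_X2_L0 {L k : ℕ} {Q S : ℕ → E} (hL : L = 4 * k + 1) (h : ChainData L Q S) {j : ℕ} (hj1 : 1 ≤ j) (hj2 : j ≤ L) :
    Meet (G (L + 1) (S (L + 1))) (G (L + 2) B0)
      (G j (Q j)) (G j B0) := by
  obtain ⟨r, hr, hm⟩ := exists_shift (L + 1) j
  have e0 : ∀ v, G (L + 2) v = G (L + 1) (G 1 v) := G_shift (by omega)
  interval_cases r
  · have e1 : ∀ v, G j v = G (L + 1) (G 0 v) := G_shift hm
    rw [e0]
    simp only [e1]
    exact meet_G (I_X2_L0_0 (RSL_of h.last) (h.rq j hj1 hj2))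
  · have e1 : ∀ v, G j v = G (L + 1) (G 1 v) := G_shift hm
    rw [e0]
    simp only [e1]
    exact meet_G (B_X2_L0_1 (RSL_of h.last) (h.rq j hj1 hj2))
  · have e1 : ∀ v, G j v = G (L + 1) (G 2 v) := G_shift hm
    rw [e0]
    simp only [e1]
    exact meet_G (I_X2_L0_2 (RSL_of h.last) (h.rq j hj1 hj2))
  · have e1 : ∀ v, G j v = G (L + 1) (G 3 v) := G_shift hm
    rw [e0]
    simp only [e1]
    exact meet_G (I_X2_L0_3 (RSL_of h.last) (h.rq j hj1 hj2))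

theorem M_L1_L1 {L k : ℕ} {Q S : ℕ → E} (hL : L = 4 * k + 1) (h : ChainData L Q S) {i j : ℕ} (hi1 : 1 ≤ i) (hi2 : i ≤ L) (hj1 : 1 ≤ j) (hj2 : j ≤ L) (hij : i ≠ j) :
    Meet (G i (Q i)) (G (i + 1) B0)
      (G j (Q j)) (G (j + 1) B0) := by
  obtain ⟨r, hr, hm⟩ := exists_shift i j
  have e3 : ∀ v, G (i + 1) v = G i (G 1 v) := G_add i 1
  interval_cases r
  · have e1 : ∀ v, G j v = G i v := fun v => by rw [← G_mod j, ← hm, G_mod, Nat.add_zero]
    have e2 : ∀ v, G (j + 1) v = G i (G 1 v) := G_shift (by omega)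
    simp only [e1, e2, e3]
    rcases ordQ h hij hi1 hi2 hj1 hj2 (by omega) with c1 | c1
    · exact meet_G (T_L1 (h.rq i hi1 hi2) c1)
    · exact (meet_G (T_L1 (h.rq j hj1 hj2) c1)).symm
  · have e1 : ∀ v, G j v = G i (G 1 v) := G_shift hm
    have e2 : ∀ v, G (j + 1) v = G i (G 2 v) := G_shift (by omega)
    simp only [e1, e2, e3]
    exact meet_G (I_L1_L1_1 (h.rq i hi1 hi2) (h.rq j hj1 hj2))
  · have e1 : ∀ v, G j v = G i (G 2 v) := G_shift hm
    have e2 : ∀ v, G (j + 1) v = G i (G 3 v) := G_shift (by omega)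
    simp only [e1, e2, e3]
    exact meet_G (I_L1_L1_2 (h.rq i hi1 hi2) (h.rq j hj1 hj2))
  · have e1 : ∀ v, G j v = G i (G 3 v) := G_shift hm
    have e2 : ∀ v, G (j + 1) v = G i (G 4 v) := G_shift (by omega)
    simp only [e1, e2, e3]
    exact meet_G (I_L1_L1_3 (h.rq i hi1 hi2) (h.rq j hj1 hj2))

theorem M_L1_LS {L k : ℕ} {Q S : ℕ → E} (hL : L = 4 * k + 1) (h : ChainData L Q S) {i j : ℕ} (hi1 : 1 ≤ i) (hi2 : i ≤ L) (hj1 : 1 ≤ j) (hj2 : j ≤ L + 1) :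
    Meet (G i (Q i)) (G (i + 1) B0)
      (G j (S j)) (G j B0) := by
  obtain ⟨r, hr, hm⟩ := exists_shift i j
  have e3 : ∀ v, G (i + 1) v = G i (G 1 v) := G_add i 1
  interval_cases r
  · have e1 : ∀ v, G j v = G i (G 0 v) := G_shift hm
    simp only [e1, e3]
    exact meet_G (I_L1_LS_0 (h.rq i hi1 hi2) (h.rs j hj1 hj2))
  · have e1 : ∀ v, G j v = G i (G 1 v) := G_shift hm
    simp only [e1, e3]
    exact meet_G (B_L1_LS_1 (h.rq i hi1 hi2) (h.rs j hj1 hj2))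
  · have e1 : ∀ v, G j v = G i (G 2 v) := G_shift hm
    simp only [e1, e3]
    exact meet_G (I_L1_LS_2 (h.rq i hi1 hi2) (h.rs j hj1 hj2))
  · have e1 : ∀ v, G j v = G i (G 3 v) := G_shift hm
    simp only [e1, e3]
    exact meet_G (I_L1_LS_3 (h.rq i hi1 hi2) (h.rs j hj1 hj2))

theorem M_X1_L1 {L k : ℕ} {Q S : ℕ → E} (hL : L = 4 * k + 1) (h : ChainData L Q S) {j : ℕ} (hj1 : 1 ≤ j) (hj2 : j ≤ L) :
    Meet (G 1 (S 1)) (G 0 B0)
      (G j (Q j)) (G (j + 1) B0) := by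
  obtain ⟨r, hr, hm⟩ := exists_shift 1 j
  have e0 : ∀ v, G 0 v = G 1 (G 3 v) := G_shift (by norm_num)
  interval_cases r
  · have e1 : ∀ v, G j v = G 1 (G 0 v) := G_shift hm
    have e2 : ∀ v, G (j + 1) v = G 1 (G 1 v) := G_shift (by omega)
    rw [e0]
    simp only [e1, e2]
    exact meet_G (I_X1_L1_0 (RS1_of h.first) (h.rq j hj1 hj2))
  · have e1 : ∀ v, G j v = G 1 (G 1 v) := G_shift hm
    have e2 : ∀ v, G (j + 1) v = G 1 (G 2 v) := G_shift (by omega)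
    rw [e0]
    simp only [e1, e2]
    exact meet_G (I_X1_L1_1 (RS1_of h.first) (h.rq j hj1 hj2))
  · have e1 : ∀ v, G j v = G 1 (G 2 v) := G_shift hm
    have e2 : ∀ v, G (j + 1) v = G 1 (G 3 v) := G_shift (by omega)
    rw [e0]
    simp only [e1, e2]
    exact meet_G (B_X1_L1_2 (RS1_of h.first) (h.rq j hj1 hj2))
  · have e1 : ∀ v, G j v = G 1 (G 3 v) := G_shift hm
    have e2 : ∀ v, G (j + 1) v = G 1 (G 4 v) := G_shift (by omega)
    rw [e0]
    simp only [e1, e2]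
    exact meet_G (I_X1_L1_3 (RS1_of h.first) (h.rq j hj1 hj2))

theorem M_X2_L1 {L k : ℕ} {Q S : ℕ → E} (hL : L = 4 * k + 1) (h : ChainData L Q S) {j : ℕ} (hj1 : 1 ≤ j) (hj2 : j ≤ L) :
    Meet (G (L + 1) (S (L + 1))) (G (L + 2) B0)
      (G j (Q j)) (G (j + 1) B0) := by
  obtain ⟨r, hr, hm⟩ := exists_shift (L + 1) j
  have e0 : ∀ v, G (L + 2) v = G (L + 1) (G 1 v) := G_shift (by omega)
  interval_cases r
  · have e1 : ∀ v, G j v = G (L + 1) (G 0 v) := G_shift hm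
    have e2 : ∀ v, G (j + 1) v = G (L + 1) (G 1 v) := G_shift (by omega)
    rw [e0]
    simp only [e1, e2]
    exact meet_G (B_X2_L1_0 (RSL_of h.last) (h.rq j hj1 hj2))
  · have e1 : ∀ v, G j v = G (L + 1) (G 1 v) := G_shift hm
    have e2 : ∀ v, G (j + 1) v = G (L + 1) (G 2 v) := G_shift (by omega)
    rw [e0]
    simp only [e1, e2]
    exact meet_G (I_X2_L1_1 (RSL_of h.last) (h.rq j hj1 hj2))
  · have e1 : ∀ v, G j v = G (L + 1) (G 2 v) := G_shift hm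
    have e2 : ∀ v, G (j + 1) v = G (L + 1) (G 3 v) := G_shift (by omega)
    rw [e0]
    simp only [e1, e2]
    exact meet_G (I_X2_L1_2 (RSL_of h.last) (h.rq j hj1 hj2))
  · have e1 : ∀ v, G j v = G (L + 1) (G 3 v) := G_shift hm
    have e2 : ∀ v, G (j + 1) v = G (L + 1) (G 4 v) := G_shift (by omega)
    rw [e0]
    simp only [e1, e2]
    exact meet_G (I_X2_L1_3 (RSL_of h.last) (h.rq j hj1 hj2))

theorem M_LS_LS {L k : ℕ} {Q S : ℕ → E} (hL : L = 4 * k + 1) (h : ChainData L Q S) {i j : ℕ} (hi1 : 1 ≤ i) (hi2 : i ≤ L + 1) (hj1 : 1 ≤ j) (hj2 : j ≤ L + 1) (hij : i ≠ j) :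
    Meet (G i (S i)) (G i B0)
      (G j (S j)) (G j B0) := by
  obtain ⟨r, hr, hm⟩ := exists_shift i j
  interval_cases r
  · have e1 : ∀ v, G j v = G i v := fun v => by rw [← G_mod j, ← hm, G_mod, Nat.add_zero]
    simp only [e1]
    rcases ordS h hij hi1 hi2 hj1 hj2 (by omega) with c1 | c1
    · exact meet_G (T_LS (h.rs i hi1 hi2) c1)
    · exact (meet_G (T_LS (h.rs j hj1 hj2) c1)).symm
  · have e1 : ∀ v, G j v = G i (G 1 v) := G_shift hm
    simp only [e1]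
    exact meet_G (I_LS_LS_1 (h.rs i hi1 hi2) (h.rs j hj1 hj2))
  · have e1 : ∀ v, G j v = G i (G 2 v) := G_shift hm
    simp only [e1]
    exact meet_G (I_LS_LS_2 (h.rs i hi1 hi2) (h.rs j hj1 hj2))
  · have e1 : ∀ v, G j v = G i (G 3 v) := G_shift hm
    simp only [e1]
    exact meet_G (I_LS_LS_3 (h.rs i hi1 hi2) (h.rs j hj1 hj2))

theorem M_X1_LS {L k : ℕ} {Q S : ℕ → E} (hL : L = 4 * k + 1) (h : ChainData L Q S) {j : ℕ} (hj1 : 1 ≤ j) (hj2 : j ≤ L + 1) :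
    Meet (G 1 (S 1)) (G 0 B0)
      (G j (S j)) (G j B0) := by
  obtain ⟨r, hr, hm⟩ := exists_shift 1 j
  have e0 : ∀ v, G 0 v = G 1 (G 3 v) := G_shift (by norm_num)
  interval_cases r
  · have e1 : ∀ v, G j v = G 1 v := fun v => by rw [← G_mod j, ← hm, G_mod, Nat.add_zero]
    rw [e0]
    simp only [e1]
    by_cases hj : j = 1
    · subst hj
      exact meet_G (V_X1_LS (RS1_of h.first))
    · exact meet_G (U_X1_LS (RS1_of h.first) (h.rs j hj1 (by omega)) (h.sz j (by omega) (by omega)))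
  · have e1 : ∀ v, G j v = G 1 (G 1 v) := G_shift hm
    rw [e0]
    simp only [e1]
    exact meet_G (I_X1_LS_1 (RS1_of h.first) (h.rs j hj1 hj2))
  · have e1 : ∀ v, G j v = G 1 (G 2 v) := G_shift hm
    rw [e0]
    simp only [e1]
    exact meet_G (I_X1_LS_2 (RS1_of h.first) (h.rs j hj1 hj2))
  · have e1 : ∀ v, G j v = G 1 (G 3 v) := G_shift hm
    rw [e0]
    simp only [e1]
    exact meet_G (B_X1_LS_3 (RS1_of h.first) (h.rs j hj1 hj2))

theorem M_X2_LS {L k : ℕ} {Q S : ℕ → E} (hL : L = 4 * k + 1) (h : ChainData L Q S) {j : ℕ} (hj1 : 1 ≤ j) (hj2 : j ≤ L + 1) :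
    Meet (G (L + 1) (S (L + 1))) (G (L + 2) B0)
      (G j (S j)) (G j B0) := by
  obtain ⟨r, hr, hm⟩ := exists_shift (L + 1) j
  have e0 : ∀ v, G (L + 2) v = G (L + 1) (G 1 v) := G_shift (by omega)
  interval_cases r
  · have e1 : ∀ v, G j v = G (L + 1) v := fun v => by rw [← G_mod j, ← hm, G_mod, Nat.add_zero]
    rw [e0]
    simp only [e1]
    by_cases hj : j = L + 1
    · subst hj
      exact meet_G (V_X2_LS (RSL_of h.last))
    · exact meet_G (U_X2_LS (RSL_of h.last) (h.rs j hj1 (by omega)) (h.sz j (by omega) (by omega)))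
  · have e1 : ∀ v, G j v = G (L + 1) (G 1 v) := G_shift hm
    rw [e0]
    simp only [e1]
    exact meet_G (B_X2_LS_1 (RSL_of h.last) (h.rs j hj1 hj2))
  · have e1 : ∀ v, G j v = G (L + 1) (G 2 v) := G_shift hm
    rw [e0]
    simp only [e1]
    exact meet_G (I_X2_LS_2 (RSL_of h.last) (h.rs j hj1 hj2))
  · have e1 : ∀ v, G j v = G (L + 1) (G 3 v) := G_shift hm
    rw [e0]
    simp only [e1]
    exact meet_G (I_X2_LS_3 (RSL_of h.last) (h.rs j hj1 hj2))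

theorem M_X1_X2 {L k : ℕ} {Q S : ℕ → E} (hL : L = 4 * k + 1) (h : ChainData L Q S) :
    Meet (G 1 (S 1)) (G 0 B0) (G (L + 1) (S (L + 1))) (G (L + 2) B0) := by
  have e0 : G 0 B0 = G 1 (G 3 B0) := G_shift (by norm_num) B0
  have e1 : ∀ v, G (L + 1) v = G 1 (G 1 v) := G_shift (by omega)
  have e2 : ∀ v, G (L + 2) v = G 1 (G 2 v) := G_shift (by omega)
  rw [e0, e1, e2]
  exact meet_G (I_X1_X2_1 (RS1_of h.first) (RSL_of h.last))

end Pool.Agent.Helper39.Net
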