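import Pool.Agent.Helper39.Net.Def
import Pool.Agent.Helper39.Net.Tab

/-! # Shared definitions of the modules -/

namespace Pool.Agent.Helper39.Net

/-- an exact symmetric periodic point near `(qh, sh)` -/
structure IsPer (Qs Ss : E) : Prop where
  q0 : Qs 0 = 0
  q2 : Qs 2 = 0
  ss : Ss 0 = Ss 1
  nq : ‖Qs - qh‖ ≤ 1 / 10 ^ 18
  ns : ‖Ss - sh‖ ≤ 1 / 10 ^ 18
  bq : un (Ss - Qs) + un (g Ss - Qs) + un (B0 - Qs) + un (B1 - Qs) = 0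
  bs : un (Qs - Ss) + un (g.symm Qs - Ss) + un (B0 - Ss) = 0

/-- facts about the reference chain, valid for all points within `10^-10` (resp. `10^-11`) -/
structure RefFacts (L : ℕ) (q s : ℕ → E) : Prop where
  rq : ∀ j, 1 ≤ j → j ≤ L → ∀ v, ‖v - q j‖ ≤ 1 / 10 ^ 10 → RQ v
  rs : ∀ j, 1 ≤ j → j ≤ L + 1 → ∀ v, ‖v - s j‖ ≤ 1 / 10 ^ 10 → RS v
  kq : ∀ j, 1 ≤ j → j + 4 ≤ L → (j ≤ 19 ∨ L ≤ j + 22) → ∀ u v, ‖u - q j‖ ≤ 1 / 10 ^ 11 →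
    ‖v - q (j + 4)‖ ≤ 1 / 10 ^ 11 → K ((-1 : ℝ) ^ j • (u - v))
  km : ∀ j, j = 18 ∨ j = 19 ∨ j + 22 = L ∨ j + 21 = L → ∀ u v, ‖u - q j‖ ≤ 1 / 10 ^ 11 →
    ‖v - q (j + 4)‖ ≤ 1 / 10 ^ 11 → KM ((-1 : ℝ) ^ j • (u - v))
  ks : ∀ j, 1 ≤ j → j + 4 ≤ L + 1 → (j ≤ 19 ∨ L ≤ j + 21) → ∀ u v, ‖u - s j‖ ≤ 1 / 10 ^ 11 →
    ‖v - s (j + 4)‖ ≤ 1 / 10 ^ 11 → KS ((-1 : ℝ) ^ j • (u - v))
  nearq : ∀ j, 18 ≤ j → j + 17 ≤ L → ∀ v, ‖v - q j‖ ≤ 1 / 10 ^ 10 → ∀ i,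
    |v i - qh i| ≤ 2 / 10 ^ 8
  nears : ∀ j, 18 ≤ j → j + 16 ≤ L → ∀ v, ‖v - s j‖ ≤ 1 / 10 ^ 10 → ∀ i,
    |v i - sh i| ≤ 2 / 10 ^ 8
  sz : ∀ j, 2 ≤ j → j ≤ L → ∀ v, ‖v - s j‖ ≤ 1 / 10 ^ 10 → 1 / 10 ≤ v 2
  first : ∀ v, ‖v - s 1‖ ≤ 1 / 10 ^ 10 →
    ‖v - vec (2618282 / 10000000) (3829740 / 10000000) (-(517198 / 10000000))‖ ≤ 1 / 100000
  last : ∀ v, ‖v - s (L + 1)‖ ≤ 1 / 10 ^ 10 →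
    ‖v - vec (3829740 / 10000000) (2618282 / 10000000) (-(517198 / 10000000))‖ ≤ 1 / 100000

/-- the coordinates adapted to the cones -/
def cS (d : E) : ℝ := 2 * d 0 + 3 * d 2
def cW (d : E) : ℝ := -3 * d 0 + 2 * d 2
def cY (d : E) : ℝ := d 1
def cN (d : E) : ℝ := |cS d| + |cW d| + |cY d|

/-- closeness to the periodic point -/
def NQ (v : E) : Prop := ∀ i, |v i - qh i| ≤ 2 / 10 ^ 8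
def NS (v : E) : Prop := ∀ i, |v i - sh i| ≤ 2 / 10 ^ 8

end Pool.Agent.Helper39.Net
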