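import Pool.Agent.Helper39.Net.Shared

/-! # One step of the linearised recursion: analytic part -/

namespace Pool.Agent.Helper39.Net

open scoped RealInnerProductSpace

theorem st_inner_un (v w : E) : ⟪un v, un w⟫ = ‖v‖⁻¹ * (‖w‖⁻¹ * ⟪v, w⟫) := by
  rw [un, un, real_inner_smul_left, real_inner_smul_right]

theorem st_lip {v w : E} {l : ℝ} (hl : 0 < l) (hv : l ≤ ‖v‖) (hw : l ≤ ‖w‖) :
    l * ‖un v - un w‖ ≤ ‖v - w‖ := by
  have hv0 : 0 < ‖v‖ := by linarith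
  have hw0 : 0 < ‖w‖ := by linarith
  have hvne : v ≠ 0 := norm_pos_iff.mp hv0
  have hwne : w ≠ 0 := norm_pos_iff.mp hw0
  have h1 : ‖un v - un w‖ ^ 2 = 2 - 2 * (‖v‖⁻¹ * (‖w‖⁻¹ * ⟪v, w⟫)) := by
    rw [norm_sub_sq_real, norm_un hvne, norm_un hwne, st_inner_un]
    ring
  have h2 : ‖v - w‖ ^ 2 = ‖v‖ ^ 2 - 2 * ⟪v, w⟫ + ‖w‖ ^ 2 := norm_sub_sq_real v w
  have h3 : (‖v‖ * ‖w‖) * ‖un v - un w‖ ^ 2 = 2 * (‖v‖ * ‖w‖) - 2 * ⟪v, w⟫ := by
    rw [h1]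
    field_simp
  have h4 : l ^ 2 ≤ ‖v‖ * ‖w‖ := by nlinarith
  have h5 : (l * ‖un v - un w‖) ^ 2 ≤ ‖v - w‖ ^ 2 := by
    calc (l * ‖un v - un w‖) ^ 2 = l ^ 2 * ‖un v - un w‖ ^ 2 := by ring
      _ ≤ (‖v‖ * ‖w‖) * ‖un v - un w‖ ^ 2 := mul_le_mul_of_nonneg_right h4 (sq_nonneg _)
      _ = 2 * (‖v‖ * ‖w‖) - 2 * ⟪v, w⟫ := h3
      _ ≤ ‖v - w‖ ^ 2 := by
        rw [h2]
        nlinarith [sq_nonneg (‖v‖ - ‖w‖)]
  exact le_of_sq_le_sq h5 (norm_nonneg _)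

theorem st_norm_smul_un (v : E) (hv : v ≠ 0) : ‖v‖ • un v = v := by
  rw [un, smul_smul, mul_inv_cancel₀ (norm_ne_zero_iff.mpr hv), one_smul]

theorem st_core {h v v' : E} {L ε : ℝ} (hL : ‖h‖ = L) (hL0 : 0 < L) (hε0 : 0 ≤ ε)
    (hε : 100 * ε ≤ L) (hv : ‖v - h‖ ≤ ε) (hv' : ‖v' - h‖ ≤ ε) :
    ‖un v - un v' - L⁻¹ • ((v - v') - ⟪un h, v - v'⟫ • un h)‖ ≤
      31 / 10 * ε * (L⁻¹) ^ 2 * ‖v - v'‖ := by
  have hhne : h ≠ 0 := by
    rw [← norm_pos_iff, hL]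
    exact hL0
  have ha1 : |‖v‖ - L| ≤ ε := by
    rw [← hL]
    exact (abs_norm_sub_norm_le v h).trans hv
  have hb1 : |‖v'‖ - L| ≤ ε := by
    rw [← hL]
    exact (abs_norm_sub_norm_le v' h).trans hv'
  obtain ⟨ha2, ha3⟩ := abs_le.mp ha1
  obtain ⟨hb2, hb3⟩ := abs_le.mp hb1
  have hl0 : 0 < 99 / 100 * L := by positivity
  have hal : 99 / 100 * L ≤ ‖v‖ := by linarith
  have hbl : 99 / 100 * L ≤ ‖v'‖ := by linarith
  have hhl : 99 / 100 * L ≤ ‖h‖ := by linarith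
  have hvne : v ≠ 0 := norm_pos_iff.mp (by linarith)
  have hvne' : v' ≠ 0 := norm_pos_iff.mp (by linarith)
  have hp := st_lip hl0 hal hhl
  have hp' := st_lip hl0 hbl hhl
  have hpp := st_lip hl0 hal hbl
  set D := v - v' with hD
  set n := un h with hn
  set p := un v with hpdef
  set p' := un v' with hpdef'
  set a := ‖v‖ with hadef
  set b := ‖v'‖ with hbdef
  have hva : a • p = v := st_norm_smul_un v hvne
  have hvb : b • p' = v' := st_norm_smul_un v' hvne'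
  have hn1 : ‖n‖ = 1 := norm_un hhne
  have hab0 : 0 < a + b := by linarith
  -- the difference of the norms
  have habD : |a - b| ≤ ‖D‖ := abs_norm_sub_norm_le v v'
  have hdiff : (a + b) * ((a - b) - ⟪n, D⟫) = ⟪a • (p - n) + b • (p' - n), D⟫ := by
    have h1 : a • (p - n) + b • (p' - n) = (v + v') - (a + b) • n := by
      rw [smul_sub, smul_sub, hva, hvb]
      module
    rw [h1, inner_sub_left, real_inner_smul_left]
    have h2 : ⟪v + v', D⟫ = a ^ 2 - b ^ 2 := by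
      rw [hD, inner_add_left, inner_sub_right, inner_sub_right, real_inner_self_eq_norm_sq,
        real_inner_self_eq_norm_sq, real_inner_comm v v']
      ring
    rw [h2]
    ring
  set δ := ε / (99 / 100 * L) with hδ
  have hδ0 : 0 ≤ δ := by positivity
  have hpδ : ‖p - n‖ ≤ δ := by
    rw [hδ, le_div_iff₀ hl0]
    linarith
  have hpδ' : ‖p' - n‖ ≤ δ := by
    rw [hδ, le_div_iff₀ hl0]
    linarith
  have hppD : ‖p - p'‖ ≤ ‖D‖ / (99 / 100 * L) := by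
    rw [le_div_iff₀ hl0]
    linarith
  have hscal : |(a - b) - ⟪n, D⟫| ≤ δ * ‖D‖ := by
    have h1 : |⟪a • (p - n) + b • (p' - n), D⟫| ≤ ((a + b) * δ) * ‖D‖ := by
      refine (abs_real_inner_le_norm _ _).trans ?_
      refine mul_le_mul_of_nonneg_right ?_ (norm_nonneg _)
      refine (norm_add_le _ _).trans ?_
      rw [norm_smul, norm_smul, Real.norm_eq_abs, Real.norm_eq_abs,
        abs_of_nonneg (norm_nonneg v), abs_of_nonneg (norm_nonneg v')]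
      have := mul_le_mul_of_nonneg_left hpδ (norm_nonneg v)
      have := mul_le_mul_of_nonneg_left hpδ' (norm_nonneg v')
      linarith
    rw [← hdiff, abs_mul, abs_of_pos hab0, mul_assoc] at h1
    exact le_of_mul_le_mul_left h1 hab0
  -- main identity
  have key : (2 * L) • (p - p' - L⁻¹ • (D - ⟪n, D⟫ • n)) =
      (2 * L - a - b) • (p - p') - (a - b) • ((p - n) + (p' - n)) -
        (2 * ((a - b) - ⟪n, D⟫)) • n := by
    have h1 : (2 * L) • (L⁻¹ • (D - ⟪n, D⟫ • n)) = (2 : ℝ) • (D - ⟪n, D⟫ • n) := by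
      rw [smul_smul, mul_assoc, mul_inv_cancel₀ hL0.ne', mul_one]
    rw [smul_sub, h1]
    generalize ⟪n, D⟫ = c
    have h2 : D = a • p - b • p' := by rw [hva, hvb]
    rw [h2]
    module
  have hbound : (2 * L) * ‖p - p' - L⁻¹ • (D - ⟪n, D⟫ • n)‖ ≤
      (2 * ε) * (‖D‖ / (99 / 100 * L)) + ‖D‖ * (δ + δ) + 2 * (δ * ‖D‖) := by
    have h1 : (2 * L) * ‖p - p' - L⁻¹ • (D - ⟪n, D⟫ • n)‖ =
        ‖(2 * L) • (p - p' - L⁻¹ • (D - ⟪n, D⟫ • n))‖ := by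
      rw [norm_smul, Real.norm_eq_abs, abs_of_pos (by positivity)]
    rw [h1, key]
    refine (norm_sub_le _ _).trans (add_le_add ((norm_sub_le _ _).trans (add_le_add ?_ ?_)) ?_)
    · rw [norm_smul, Real.norm_eq_abs]
      refine mul_le_mul ?_ hppD (norm_nonneg _) (by positivity)
      rw [abs_le]
      constructor <;> linarith
    · rw [norm_smul, Real.norm_eq_abs]
      refine mul_le_mul habD ?_ (norm_nonneg _) (norm_nonneg _)
      exact (norm_add_le _ _).trans (add_le_add hpδ hpδ')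
    · rw [norm_smul, hn1, mul_one, Real.norm_eq_abs, abs_mul, abs_of_pos (by norm_num : (0:ℝ) < 2)]
      linarith
  have hfin : (2 * ε) * (‖D‖ / (99 / 100 * L)) + ‖D‖ * (δ + δ) + 2 * (δ * ‖D‖) =
      (2 * L) * ((300 / 99) * ε * (L⁻¹) ^ 2 * ‖D‖) := by
    rw [hδ]
    field_simp
    ring
  rw [hfin] at hbound
  have h2L : 0 < 2 * L := by positivity
  have := le_of_mul_le_mul_left hbound h2L
  refine this.trans ?_
  have h5 : 0 ≤ ε * (L⁻¹) ^ 2 * ‖D‖ := by positivity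
  nlinarith

theorem st_norm_le {u : E} {a b c K : ℝ} (hK : 0 ≤ K) (h0 : |u 0| ≤ a) (h1 : |u 1| ≤ b)
    (h2 : |u 2| ≤ c) (h : a ^ 2 + b ^ 2 + c ^ 2 ≤ K ^ 2) : ‖u‖ ≤ K := by
  refine le_of_sq_le_sq ?_ hK
  rw [normsq3]
  have h3 := pow_le_pow_left₀ (abs_nonneg _) h0 2
  have h4 := pow_le_pow_left₀ (abs_nonneg _) h1 2
  have h5 := pow_le_pow_left₀ (abs_nonneg _) h2 2
  rw [sq_abs] at h3 h4 h5
  linarith

/-- Cauchy-Schwarz -/
theorem st_cs {a b c K : ℝ} (hK : 0 ≤ K) (h : a ^ 2 + b ^ 2 + c ^ 2 ≤ K ^ 2) (r : E) :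
    |a * r 0 + b * r 1 + c * r 2| ≤ K * ‖r‖ := by
  have h1 : ‖vec a b c‖ ≤ K := by
    refine le_of_sq_le_sq ?_ hK
    rw [normsq3]
    simpa using h
  have h2 := abs_real_inner_le_norm (vec a b c) r
  rw [inner3] at h2
  simp only [vec_0, vec_1, vec_2] at h2
  exact h2.trans (mul_le_mul_of_nonneg_right h1 (norm_nonneg _))

theorem st_small {a b c η : ℝ} (hη : 0 ≤ η) (h0 : |a| ≤ η) (h1 : |b| ≤ η) (h2 : |c| ≤ η) (r : E) :
    |a * r 0 + b * r 1 + c * r 2| ≤ (17321 / 10000 * η) * ‖r‖ := by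
  refine st_cs (by positivity) ?_ r
  have h3 := pow_le_pow_left₀ (abs_nonneg _) h0 2
  have h4 := pow_le_pow_left₀ (abs_nonneg _) h1 2
  have h5 := pow_le_pow_left₀ (abs_nonneg _) h2 2
  rw [sq_abs] at h3 h4 h5
  nlinarith [sq_nonneg η]

/-- linearisation of one edge direction with a rational matrix -/
theorem st_edge {h v v' : E} {N lo hi δ ε η κ a b c d e f : ℝ}
    (hN : h 0 ^ 2 + h 1 ^ 2 + h 2 ^ 2 = N) (hlo0 : 0 < lo) (hlo : lo ^ 2 * N ≤ 1)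
    (hhi0 : 0 < hi) (hhi : 1 ≤ hi ^ 2 * N) (hε0 : 0 ≤ ε) (hε : 100 * ε * hi ≤ 1)
    (hδ : δ ^ 2 + δ ^ 2 + δ ^ 2 ≤ ε ^ 2) (hη : 0 ≤ η)
    (hκ : 31 / 10 * ε * hi ^ 2 + 3 * η * (17321 / 10000) ^ 2 / 3 ≤ κ)
    (hv : ∀ i, |v i - h i| ≤ δ) (hv' : ∀ i, |v' i - h i| ≤ δ)
    (hc : ∀ l m : ℝ, lo ≤ l → l ≤ hi → lo ^ 3 ≤ m → m ≤ hi ^ 3 →
      |l - m * (h 0 * h 0) - a| ≤ η ∧ |-(m * (h 0 * h 1)) - b| ≤ η ∧
      |-(m * (h 0 * h 2)) - c| ≤ η ∧ |l - m * (h 1 * h 1) - d| ≤ η ∧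
      |-(m * (h 1 * h 2)) - e| ≤ η ∧ |l - m * (h 2 * h 2) - f| ≤ η) :
    ∃ r : E, ‖r‖ ≤ κ * ‖v - v'‖ ∧
      un v 0 - un v' 0 = a * (v 0 - v' 0) + b * (v 1 - v' 1) + c * (v 2 - v' 2) + r 0 ∧
      un v 1 - un v' 1 = b * (v 0 - v' 0) + d * (v 1 - v' 1) + e * (v 2 - v' 2) + r 1 ∧
      un v 2 - un v' 2 = c * (v 0 - v' 0) + e * (v 1 - v' 1) + f * (v 2 - v' 2) + r 2 := by
  set L := ‖h‖ with hLdef
  have hL2 : L ^ 2 = N := by rw [hLdef, normsq3, hN]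
  have hNpos : 0 < N := by
    by_contra hcon
    push Not at hcon
    nlinarith [sq_nonneg hi]
  have hL0 : 0 < L := by
    rcases (norm_nonneg h).eq_or_lt with h0 | h0
    · exfalso
      rw [hLdef, ← h0] at hL2
      nlinarith
    · exact h0
  set l := L⁻¹ with hl
  have hl0 : 0 < l := inv_pos.mpr hL0
  have hlN : l ^ 2 * N = 1 := by
    rw [← hL2, hl]
    field_simp
  have hlol : lo ≤ l := by
    refine le_of_sq_le_sq ?_ hl0.le
    refine le_of_mul_le_mul_right ?_ hNpos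
    rw [hlN]
    exact hlo
  have hlhi : l ≤ hi := by
    refine le_of_sq_le_sq ?_ hhi0.le
    refine le_of_mul_le_mul_right ?_ hNpos
    rw [hlN]
    exact hhi
  obtain ⟨c1, c2, c3, c4, c5, c6⟩ := hc l (l ^ 3) hlol hlhi (pow_le_pow_left₀ hlo0.le hlol 3)
    (pow_le_pow_left₀ hl0.le hlhi 3)
  have hεL : 100 * ε ≤ L := by
    have h1 : 100 * ε * l ≤ 1 := by
      refine le_trans ?_ hε
      exact mul_le_mul_of_nonneg_left hlhi (by positivity)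
    have h2 : l * L = 1 := inv_mul_cancel₀ hL0.ne'
    nlinarith
  have hvn : ‖v - h‖ ≤ ε := st_norm_le hε0 (hv 0) (hv 1) (hv 2) hδ
  have hvn' : ‖v' - h‖ ≤ ε := st_norm_le hε0 (hv' 0) (hv' 1) (hv' 2) hδ
  have hcore := st_core rfl hL0 hε0 hεL hvn hvn'
  rw [← hl] at hcore
  set D := v - v' with hD
  have hin : ⟪un h, D⟫ = l * (h 0 * D 0 + h 1 * D 1 + h 2 * D 2) := by
    rw [un, real_inner_smul_left, inner3]
  set X := un v - un v' - l • (D - ⟪un h, D⟫ • un h) with hX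
  have hunh : ∀ i, un h i = l * h i := fun i => rfl
  have hXi : ∀ i, un v i - un v' i =
      l * (D i - (l * (h 0 * D 0 + h 1 * D 1 + h 2 * D 2)) * (l * h i)) + X i := by
    intro i
    rw [hX]
    simp only [E_sub, E_smul]
    rw [hin, hunh]
    ring
  set Y : E := vec
    ((l - l ^ 3 * (h 0 * h 0) - a) * D 0 + (-(l ^ 3 * (h 0 * h 1)) - b) * D 1 +
      (-(l ^ 3 * (h 0 * h 2)) - c) * D 2)
    ((-(l ^ 3 * (h 0 * h 1)) - b) * D 0 + (l - l ^ 3 * (h 1 * h 1) - d) * D 1 +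
      (-(l ^ 3 * (h 1 * h 2)) - e) * D 2)
    ((-(l ^ 3 * (h 0 * h 2)) - c) * D 0 + (-(l ^ 3 * (h 1 * h 2)) - e) * D 1 +
      (l - l ^ 3 * (h 2 * h 2) - f) * D 2) with hY
  have hYn : ‖Y‖ ≤ 3 * η * (17321 / 10000) ^ 2 / 3 * ‖D‖ := by
    have y0 : |Y 0| ≤ (17321 / 10000 * η) * ‖D‖ := st_small hη c1 c2 c3 D
    have y1 : |Y 1| ≤ (17321 / 10000 * η) * ‖D‖ := st_small hη c2 c4 c5 D
    have y2 : |Y 2| ≤ (17321 / 10000 * η) * ‖D‖ := st_small hη c3 c5 c6 D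
    refine st_norm_le (by positivity) y0 y1 y2 ?_
    have : 0 ≤ (η * ‖D‖) ^ 2 := sq_nonneg _
    nlinarith
  refine ⟨X + Y, ?_, ?_, ?_, ?_⟩
  · refine (norm_add_le _ _).trans ?_
    have h1 : 31 / 10 * ε * l ^ 2 * ‖D‖ ≤ 31 / 10 * ε * hi ^ 2 * ‖D‖ := by
      have : l ^ 2 ≤ hi ^ 2 := pow_le_pow_left₀ hl0.le hlhi 2
      have h6 : 0 ≤ 31 / 10 * ε := by positivity
      exact mul_le_mul_of_nonneg_right (mul_le_mul_of_nonneg_left this h6) (norm_nonneg _)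
    have h2 := mul_le_mul_of_nonneg_right hκ (norm_nonneg D)
    linarith
  · rw [hXi 0]
    simp only [hY, E_add, vec_0, hD, E_sub]
    ring
  · rw [hXi 1]
    simp only [hY, E_add, vec_1, hD, E_sub]
    ring
  · rw [hXi 2]
    simp only [hY, E_add, vec_2, hD, E_sub]
    ring

end Pool.Agent.Helper39.Net
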