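import Pool.Agent.Helper39.Net.StepA

/-! # One step of the linearised recursion: the six edge directions -/

namespace Pool.Agent.Helper39.Net

open scoped RealInnerProductSpace

set_option linter.unusedSimpArgs false

theorem st_all {v h : E} {δ : ℝ} (h0 : |v 0 - h 0| ≤ δ) (h1 : |v 1 - h 1| ≤ δ)
    (h2 : |v 2 - h 2| ≤ δ) : ∀ i, |v i - h i| ≤ δ := by
  intro i
  fin_cases i
  · exact h0
  · exact h1
  · exact h2

theorem st_nq {v : E} (h : NQ v) : (-(2002 / 10 ^ 11) ≤ v 0 ∧ v 0 ≤ 2002 / 10 ^ 11) ∧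
    (4672502598 / 10 ^ 10 - 2002 / 10 ^ 11 ≤ v 1 ∧ v 1 ≤ 4672502598 / 10 ^ 10 + 2002 / 10 ^ 11) ∧
    (-(2002 / 10 ^ 11) ≤ v 2 ∧ v 2 ≤ 2002 / 10 ^ 11) := by
  have h0 := abs_le.mp (h 0)
  have h1 := abs_le.mp (h 1)
  have h2 := abs_le.mp (h 2)
  simp only [qh, ofZ, zq, vec_0, vec_1, vec_2] at h0 h1 h2
  push_cast at h0 h1 h2
  obtain ⟨h01, h02⟩ := h0
  obtain ⟨h11, h12⟩ := h1
  obtain ⟨h21, h22⟩ := h2
  refine ⟨⟨?_, ?_⟩, ⟨?_, ?_⟩, ⟨?_, ?_⟩⟩ <;> linarith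

theorem st_ns {v : E} (h : NS v) :
    (332758395 / 10 ^ 9 - 2002 / 10 ^ 11 ≤ v 0 ∧ v 0 ≤ 332758395 / 10 ^ 9 + 2002 / 10 ^ 11) ∧
    (332758395 / 10 ^ 9 - 2002 / 10 ^ 11 ≤ v 1 ∧ v 1 ≤ 332758395 / 10 ^ 9 + 2002 / 10 ^ 11) ∧
    (1293534913 / 10 ^ 10 - 2002 / 10 ^ 11 ≤ v 2 ∧
      v 2 ≤ 1293534913 / 10 ^ 10 + 2002 / 10 ^ 11) := by
  have h0 := abs_le.mp (h 0)
  have h1 := abs_le.mp (h 1)
  have h2 := abs_le.mp (h 2)
  simp only [sh, ofZ, zs, vec_0, vec_1, vec_2] at h0 h1 h2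
  push_cast at h0 h1 h2
  obtain ⟨h01, h02⟩ := h0
  obtain ⟨h11, h12⟩ := h1
  obtain ⟨h21, h22⟩ := h2
  refine ⟨⟨?_, ?_⟩, ⟨?_, ?_⟩, ⟨?_, ?_⟩⟩ <;> linarith

theorem st_e1 {U P U' P' : E} (hU : NS U) (hP : NQ P) (hU' : NS U') (hP' : NQ P') :
    ∃ r : E, ‖r‖ ≤ 15 / 10 ^ 7 * ‖(U - P) - (U' - P')‖ ∧
      un (U - P) 0 - un (U' - P') 0 =
        (627078387 / 10 ^ 9) * ((U - P) 0 - (U' - P') 0) +
        (805959596 / 10 ^ 9) * ((U - P) 1 - (U' - P') 1) +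
        (-775167239 / 10 ^ 9) * ((U - P) 2 - (U' - P') 2) + r 0 ∧
      un (U - P) 1 - un (U' - P') 1 =
        (805959596 / 10 ^ 9) * ((U - P) 0 - (U' - P') 0) +
        (2295428487 / 10 ^ 9) * ((U - P) 1 - (U' - P') 1) +
        (313301450 / 10 ^ 9) * ((U - P) 2 - (U' - P') 2) + r 1 ∧
      un (U - P) 2 - un (U' - P') 2 =
        (-775167239 / 10 ^ 9) * ((U - P) 0 - (U' - P') 0) +
        (313301450 / 10 ^ 9) * ((U - P) 1 - (U' - P') 1) +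
        (2319843860 / 10 ^ 9) * ((U - P) 2 - (U' - P') 2) + r 2 := by
  obtain ⟨⟨u01, u02⟩, ⟨u11, u12⟩, ⟨u21, u22⟩⟩ := st_ns hU
  obtain ⟨⟨u01', u02'⟩, ⟨u11', u12'⟩, ⟨u21', u22'⟩⟩ := st_ns hU'
  obtain ⟨⟨p01, p02⟩, ⟨p11, p12⟩, ⟨p21, p22⟩⟩ := st_nq hP
  obtain ⟨⟨p01', p02'⟩, ⟨p11', p12'⟩, ⟨p21', p22'⟩⟩ := st_nq hP'
  refine st_edge (h := vec (3327583950 / 10 ^ 10) (-1344918648 / 10 ^ 10) (1293534913 / 10 ^ 10))
    (N := (14554853685185667973 / 100000000000000000000)) (lo := (2621175367416 / 10 ^ 12))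
    (hi := (2621175367417 / 10 ^ 12)) (δ := 4004 / 10 ^ 11) (ε := 695 / 10 ^ 10)
    (η := 1 / 10 ^ 9) (by simp only [vec_0, vec_1, vec_2]; norm_num) (by norm_num) (by norm_num)
    (by norm_num) (by norm_num) (by norm_num) (by norm_num) (by norm_num) (by norm_num)
    (by norm_num) (st_all ?_ ?_ ?_) (st_all ?_ ?_ ?_) ?_
  · simp only [E_sub, g_0, g_1, g_2, gs_0, gs_1, gs_2, B0, B1, vec_0, vec_1, vec_2]
    rw [abs_le]
    constructor <;> linarith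
  · simp only [E_sub, g_0, g_1, g_2, gs_0, gs_1, gs_2, B0, B1, vec_0, vec_1, vec_2]
    rw [abs_le]
    constructor <;> linarith
  · simp only [E_sub, g_0, g_1, g_2, gs_0, gs_1, gs_2, B0, B1, vec_0, vec_1, vec_2]
    rw [abs_le]
    constructor <;> linarith
  · simp only [E_sub, g_0, g_1, g_2, gs_0, gs_1, gs_2, B0, B1, vec_0, vec_1, vec_2]
    rw [abs_le]
    constructor <;> linarith
  · simp only [E_sub, g_0, g_1, g_2, gs_0, gs_1, gs_2, B0, B1, vec_0, vec_1, vec_2]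
    rw [abs_le]
    constructor <;> linarith
  · simp only [E_sub, g_0, g_1, g_2, gs_0, gs_1, gs_2, B0, B1, vec_0, vec_1, vec_2]
    rw [abs_le]
    constructor <;> linarith
  · intro l m h1 h2 h3 h4
    norm_num at h1 h2 h3 h4
    simp only [vec_0, vec_1, vec_2]
    refine ⟨?_, ?_, ?_, ?_, ?_, ?_⟩ <;> (rw [abs_le]; constructor <;> linarith)

theorem st_e2 {U P U' P' : E} (hU : NS U) (hP : NQ P) (hU' : NS U') (hP' : NQ P') :
    ∃ r : E, ‖r‖ ≤ 15 / 10 ^ 7 * ‖(g U - P) - (g U' - P')‖ ∧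
      un (g U - P) 0 - un (g U' - P') 0 =
        (627078387 / 10 ^ 9) * ((g U - P) 0 - (g U' - P') 0) +
        (-805959596 / 10 ^ 9) * ((g U - P) 1 - (g U' - P') 1) +
        (-775167239 / 10 ^ 9) * ((g U - P) 2 - (g U' - P') 2) + r 0 ∧
      un (g U - P) 1 - un (g U' - P') 1 =
        (-805959596 / 10 ^ 9) * ((g U - P) 0 - (g U' - P') 0) +
        (2295428487 / 10 ^ 9) * ((g U - P) 1 - (g U' - P') 1) +
        (-313301450 / 10 ^ 9) * ((g U - P) 2 - (g U' - P') 2) + r 1 ∧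
      un (g U - P) 2 - un (g U' - P') 2 =
        (-775167239 / 10 ^ 9) * ((g U - P) 0 - (g U' - P') 0) +
        (-313301450 / 10 ^ 9) * ((g U - P) 1 - (g U' - P') 1) +
        (2319843860 / 10 ^ 9) * ((g U - P) 2 - (g U' - P') 2) + r 2 := by
  obtain ⟨⟨u01, u02⟩, ⟨u11, u12⟩, ⟨u21, u22⟩⟩ := st_ns hU
  obtain ⟨⟨u01', u02'⟩, ⟨u11', u12'⟩, ⟨u21', u22'⟩⟩ := st_ns hU'
  obtain ⟨⟨p01, p02⟩, ⟨p11, p12⟩, ⟨p21, p22⟩⟩ := st_nq hP
  obtain ⟨⟨p01', p02'⟩, ⟨p11', p12'⟩, ⟨p21', p22'⟩⟩ := st_nq hP'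
  refine st_edge (h := vec (-3327583950 / 10 ^ 10) (-1344918648 / 10 ^ 10) (-1293534913 / 10 ^ 10))
    (N := (14554853685185667973 / 100000000000000000000)) (lo := (2621175367416 / 10 ^ 12))
    (hi := (2621175367417 / 10 ^ 12)) (δ := 4004 / 10 ^ 11) (ε := 695 / 10 ^ 10)
    (η := 1 / 10 ^ 9) (by simp only [vec_0, vec_1, vec_2]; norm_num) (by norm_num) (by norm_num)
    (by norm_num) (by norm_num) (by norm_num) (by norm_num) (by norm_num) (by norm_num)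
    (by norm_num) (st_all ?_ ?_ ?_) (st_all ?_ ?_ ?_) ?_
  · simp only [E_sub, g_0, g_1, g_2, gs_0, gs_1, gs_2, B0, B1, vec_0, vec_1, vec_2]
    rw [abs_le]
    constructor <;> linarith
  · simp only [E_sub, g_0, g_1, g_2, gs_0, gs_1, gs_2, B0, B1, vec_0, vec_1, vec_2]
    rw [abs_le]
    constructor <;> linarith
  · simp only [E_sub, g_0, g_1, g_2, gs_0, gs_1, gs_2, B0, B1, vec_0, vec_1, vec_2]
    rw [abs_le]
    constructor <;> linarith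
  · simp only [E_sub, g_0, g_1, g_2, gs_0, gs_1, gs_2, B0, B1, vec_0, vec_1, vec_2]
    rw [abs_le]
    constructor <;> linarith
  · simp only [E_sub, g_0, g_1, g_2, gs_0, gs_1, gs_2, B0, B1, vec_0, vec_1, vec_2]
    rw [abs_le]
    constructor <;> linarith
  · simp only [E_sub, g_0, g_1, g_2, gs_0, gs_1, gs_2, B0, B1, vec_0, vec_1, vec_2]
    rw [abs_le]
    constructor <;> linarith
  · intro l m h1 h2 h3 h4
    norm_num at h1 h2 h3 h4
    simp only [vec_0, vec_1, vec_2]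
    refine ⟨?_, ?_, ?_, ?_, ?_, ?_⟩ <;> (rw [abs_le]; constructor <;> linarith)

theorem st_e3 {P P' : E} (hP : NQ P) (hP' : NQ P') :
    ∃ r : E, ‖r‖ ≤ 1 / 10 ^ 7 * ‖(B0 - P) - (B0 - P')‖ ∧
      un (B0 - P) 0 - un (B0 - P') 0 =
        (371973028 / 10 ^ 9) * ((B0 - P) 0 - (B0 - P') 0) +
        (-154358229 / 10 ^ 9) * ((B0 - P) 1 - (B0 - P') 1) +
        (-289738722 / 10 ^ 9) * ((B0 - P) 2 - (B0 - P') 2) + r 0 ∧
      un (B0 - P) 1 - un (B0 - P') 1 =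
        (-154358229 / 10 ^ 9) * ((B0 - P) 0 - (B0 - P') 0) +
        (579477444 / 10 ^ 9) * ((B0 - P) 1 - (B0 - P') 1) +
        (-154358229 / 10 ^ 9) * ((B0 - P) 2 - (B0 - P') 2) + r 1 ∧
      un (B0 - P) 2 - un (B0 - P') 2 =
        (-289738722 / 10 ^ 9) * ((B0 - P) 0 - (B0 - P') 0) +
        (-154358229 / 10 ^ 9) * ((B0 - P) 1 - (B0 - P') 1) +
        (371973028 / 10 ^ 9) * ((B0 - P) 2 - (B0 - P') 2) + r 2 := by
  obtain ⟨⟨p01, p02⟩, ⟨p11, p12⟩, ⟨p21, p22⟩⟩ := st_nq hP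
  obtain ⟨⟨p01', p02'⟩, ⟨p11', p12'⟩, ⟨p21', p22'⟩⟩ := st_nq hP'
  refine st_edge (h := vec (10000000000 / 10 ^ 10) (5327497402 / 10 ^ 10) (10000000000 / 10 ^ 10))
    (N := (57095557142079187401 / 25000000000000000000)) (lo := (661711750417 / 10 ^ 12))
    (hi := (661711750418 / 10 ^ 12)) (δ := 2002 / 10 ^ 11) (ε := 350 / 10 ^ 10)
    (η := 1 / 10 ^ 9) (by simp only [vec_0, vec_1, vec_2]; norm_num) (by norm_num) (by norm_num)
    (by norm_num) (by norm_num) (by norm_num) (by norm_num) (by norm_num) (by norm_num)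
    (by norm_num) (st_all ?_ ?_ ?_) (st_all ?_ ?_ ?_) ?_
  · simp only [E_sub, g_0, g_1, g_2, gs_0, gs_1, gs_2, B0, B1, vec_0, vec_1, vec_2]
    rw [abs_le]
    constructor <;> linarith
  · simp only [E_sub, g_0, g_1, g_2, gs_0, gs_1, gs_2, B0, B1, vec_0, vec_1, vec_2]
    rw [abs_le]
    constructor <;> linarith
  · simp only [E_sub, g_0, g_1, g_2, gs_0, gs_1, gs_2, B0, B1, vec_0, vec_1, vec_2]
    rw [abs_le]
    constructor <;> linarith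
  · simp only [E_sub, g_0, g_1, g_2, gs_0, gs_1, gs_2, B0, B1, vec_0, vec_1, vec_2]
    rw [abs_le]
    constructor <;> linarith
  · simp only [E_sub, g_0, g_1, g_2, gs_0, gs_1, gs_2, B0, B1, vec_0, vec_1, vec_2]
    rw [abs_le]
    constructor <;> linarith
  · simp only [E_sub, g_0, g_1, g_2, gs_0, gs_1, gs_2, B0, B1, vec_0, vec_1, vec_2]
    rw [abs_le]
    constructor <;> linarith
  · intro l m h1 h2 h3 h4
    norm_num at h1 h2 h3 h4
    simp only [vec_0, vec_1, vec_2]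
    refine ⟨?_, ?_, ?_, ?_, ?_, ?_⟩ <;> (rw [abs_le]; constructor <;> linarith)

theorem st_e4 {P P' : E} (hP : NQ P) (hP' : NQ P') :
    ∃ r : E, ‖r‖ ≤ 1 / 10 ^ 7 * ‖(B1 - P) - (B1 - P')‖ ∧
      un (B1 - P) 0 - un (B1 - P') 0 =
        (371973028 / 10 ^ 9) * ((B1 - P) 0 - (B1 - P') 0) +
        (154358229 / 10 ^ 9) * ((B1 - P) 1 - (B1 - P') 1) +
        (-289738722 / 10 ^ 9) * ((B1 - P) 2 - (B1 - P') 2) + r 0 ∧
      un (B1 - P) 1 - un (B1 - P') 1 =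
        (154358229 / 10 ^ 9) * ((B1 - P) 0 - (B1 - P') 0) +
        (579477444 / 10 ^ 9) * ((B1 - P) 1 - (B1 - P') 1) +
        (154358229 / 10 ^ 9) * ((B1 - P) 2 - (B1 - P') 2) + r 1 ∧
      un (B1 - P) 2 - un (B1 - P') 2 =
        (-289738722 / 10 ^ 9) * ((B1 - P) 0 - (B1 - P') 0) +
        (154358229 / 10 ^ 9) * ((B1 - P) 1 - (B1 - P') 1) +
        (371973028 / 10 ^ 9) * ((B1 - P) 2 - (B1 - P') 2) + r 2 := by
  obtain ⟨⟨p01, p02⟩, ⟨p11, p12⟩, ⟨p21, p22⟩⟩ := st_nq hP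
  obtain ⟨⟨p01', p02'⟩, ⟨p11', p12'⟩, ⟨p21', p22'⟩⟩ := st_nq hP'
  refine st_edge (h := vec (-10000000000 / 10 ^ 10) (5327497402 / 10 ^ 10) (-10000000000 / 10 ^ 10))
    (N := (57095557142079187401 / 25000000000000000000)) (lo := (661711750417 / 10 ^ 12))
    (hi := (661711750418 / 10 ^ 12)) (δ := 2002 / 10 ^ 11) (ε := 350 / 10 ^ 10)
    (η := 1 / 10 ^ 9) (by simp only [vec_0, vec_1, vec_2]; norm_num) (by norm_num) (by norm_num)
    (by norm_num) (by norm_num) (by norm_num) (by norm_num) (by norm_num) (by norm_num)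
    (by norm_num) (st_all ?_ ?_ ?_) (st_all ?_ ?_ ?_) ?_
  · simp only [E_sub, g_0, g_1, g_2, gs_0, gs_1, gs_2, B0, B1, vec_0, vec_1, vec_2]
    rw [abs_le]
    constructor <;> linarith
  · simp only [E_sub, g_0, g_1, g_2, gs_0, gs_1, gs_2, B0, B1, vec_0, vec_1, vec_2]
    rw [abs_le]
    constructor <;> linarith
  · simp only [E_sub, g_0, g_1, g_2, gs_0, gs_1, gs_2, B0, B1, vec_0, vec_1, vec_2]
    rw [abs_le]
    constructor <;> linarith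
  · simp only [E_sub, g_0, g_1, g_2, gs_0, gs_1, gs_2, B0, B1, vec_0, vec_1, vec_2]
    rw [abs_le]
    constructor <;> linarith
  · simp only [E_sub, g_0, g_1, g_2, gs_0, gs_1, gs_2, B0, B1, vec_0, vec_1, vec_2]
    rw [abs_le]
    constructor <;> linarith
  · simp only [E_sub, g_0, g_1, g_2, gs_0, gs_1, gs_2, B0, B1, vec_0, vec_1, vec_2]
    rw [abs_le]
    constructor <;> linarith
  · intro l m h1 h2 h3 h4
    norm_num at h1 h2 h3 h4
    simp only [vec_0, vec_1, vec_2]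
    refine ⟨?_, ?_, ?_, ?_, ?_, ?_⟩ <;> (rw [abs_le]; constructor <;> linarith)

theorem st_e5 {P U P' U' : E} (hP : NQ P) (hU : NS U) (hP' : NQ P') (hU' : NS U') :
    ∃ r : E, ‖r‖ ≤ 15 / 10 ^ 7 * ‖(g.symm P - U) - (g.symm P' - U')‖ ∧
      un (g.symm P - U) 0 - un (g.symm P' - U') 0 =
        (2295428487 / 10 ^ 9) * ((g.symm P - U) 0 - (g.symm P' - U') 0) +
        (805959596 / 10 ^ 9) * ((g.symm P - U) 1 - (g.symm P' - U') 1) +
        (313301450 / 10 ^ 9) * ((g.symm P - U) 2 - (g.symm P' - U') 2) + r 0 ∧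
      un (g.symm P - U) 1 - un (g.symm P' - U') 1 =
        (805959596 / 10 ^ 9) * ((g.symm P - U) 0 - (g.symm P' - U') 0) +
        (627078387 / 10 ^ 9) * ((g.symm P - U) 1 - (g.symm P' - U') 1) +
        (-775167239 / 10 ^ 9) * ((g.symm P - U) 2 - (g.symm P' - U') 2) + r 1 ∧
      un (g.symm P - U) 2 - un (g.symm P' - U') 2 =
        (313301450 / 10 ^ 9) * ((g.symm P - U) 0 - (g.symm P' - U') 0) +
        (-775167239 / 10 ^ 9) * ((g.symm P - U) 1 - (g.symm P' - U') 1) +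
        (2319843860 / 10 ^ 9) * ((g.symm P - U) 2 - (g.symm P' - U') 2) + r 2 := by
  obtain ⟨⟨p01, p02⟩, ⟨p11, p12⟩, ⟨p21, p22⟩⟩ := st_nq hP
  obtain ⟨⟨p01', p02'⟩, ⟨p11', p12'⟩, ⟨p21', p22'⟩⟩ := st_nq hP'
  obtain ⟨⟨u01, u02⟩, ⟨u11, u12⟩, ⟨u21, u22⟩⟩ := st_ns hU
  obtain ⟨⟨u01', u02'⟩, ⟨u11', u12'⟩, ⟨u21', u22'⟩⟩ := st_ns hU'
  refine st_edge (h := vec (1344918648 / 10 ^ 10) (-3327583950 / 10 ^ 10) (-1293534913 / 10 ^ 10))
    (N := (14554853685185667973 / 100000000000000000000)) (lo := (2621175367416 / 10 ^ 12))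
    (hi := (2621175367417 / 10 ^ 12)) (δ := 4004 / 10 ^ 11) (ε := 695 / 10 ^ 10)
    (η := 1 / 10 ^ 9) (by simp only [vec_0, vec_1, vec_2]; norm_num) (by norm_num) (by norm_num)
    (by norm_num) (by norm_num) (by norm_num) (by norm_num) (by norm_num) (by norm_num)
    (by norm_num) (st_all ?_ ?_ ?_) (st_all ?_ ?_ ?_) ?_
  · simp only [E_sub, g_0, g_1, g_2, gs_0, gs_1, gs_2, B0, B1, vec_0, vec_1, vec_2]
    rw [abs_le]
    constructor <;> linarith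
  · simp only [E_sub, g_0, g_1, g_2, gs_0, gs_1, gs_2, B0, B1, vec_0, vec_1, vec_2]
    rw [abs_le]
    constructor <;> linarith
  · simp only [E_sub, g_0, g_1, g_2, gs_0, gs_1, gs_2, B0, B1, vec_0, vec_1, vec_2]
    rw [abs_le]
    constructor <;> linarith
  · simp only [E_sub, g_0, g_1, g_2, gs_0, gs_1, gs_2, B0, B1, vec_0, vec_1, vec_2]
    rw [abs_le]
    constructor <;> linarith
  · simp only [E_sub, g_0, g_1, g_2, gs_0, gs_1, gs_2, B0, B1, vec_0, vec_1, vec_2]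
    rw [abs_le]
    constructor <;> linarith
  · simp only [E_sub, g_0, g_1, g_2, gs_0, gs_1, gs_2, B0, B1, vec_0, vec_1, vec_2]
    rw [abs_le]
    constructor <;> linarith
  · intro l m h1 h2 h3 h4
    norm_num at h1 h2 h3 h4
    simp only [vec_0, vec_1, vec_2]
    refine ⟨?_, ?_, ?_, ?_, ?_, ?_⟩ <;> (rw [abs_le]; constructor <;> linarith)

theorem st_e6 {U U' : E} (hU : NS U) (hU' : NS U') :
    ∃ r : E, ‖r‖ ≤ 1 / 10 ^ 7 * ‖(B0 - U) - (B0 - U')‖ ∧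
      un (B0 - U) 0 - un (B0 - U') 0 =
        (568510079 / 10 ^ 9) * ((B0 - U) 0 - (B0 - U') 0) +
        (-210355240 / 10 ^ 9) * ((B0 - U) 1 - (B0 - U') 1) +
        (-274480868 / 10 ^ 9) * ((B0 - U) 2 - (B0 - U') 2) + r 0 ∧
      un (B0 - U) 1 - un (B0 - U') 1 =
        (-210355240 / 10 ^ 9) * ((B0 - U) 0 - (B0 - U') 0) +
        (568510079 / 10 ^ 9) * ((B0 - U) 1 - (B0 - U') 1) +
        (-274480868 / 10 ^ 9) * ((B0 - U) 2 - (B0 - U') 2) + r 1 ∧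
      un (B0 - U) 2 - un (B0 - U') 2 =
        (-274480868 / 10 ^ 9) * ((B0 - U) 0 - (B0 - U') 0) +
        (-274480868 / 10 ^ 9) * ((B0 - U) 1 - (B0 - U') 1) +
        (420710479 / 10 ^ 9) * ((B0 - U) 2 - (B0 - U') 2) + r 2 := by
  obtain ⟨⟨u01, u02⟩, ⟨u11, u12⟩, ⟨u21, u22⟩⟩ := st_ns hU
  obtain ⟨⟨u01', u02'⟩, ⟨u11', u12'⟩, ⟨u21', u22'⟩⟩ := st_ns hU'
  refine st_edge (h := vec (6672416050 / 10 ^ 10) (6672416050 / 10 ^ 10) (8706465087 / 10 ^ 10))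
    (N := (164844806199745122569 / 100000000000000000000)) (lo := (778865318418 / 10 ^ 12))
    (hi := (778865318419 / 10 ^ 12)) (δ := 2002 / 10 ^ 11) (ε := 350 / 10 ^ 10)
    (η := 1 / 10 ^ 9) (by simp only [vec_0, vec_1, vec_2]; norm_num) (by norm_num) (by norm_num)
    (by norm_num) (by norm_num) (by norm_num) (by norm_num) (by norm_num) (by norm_num)
    (by norm_num) (st_all ?_ ?_ ?_) (st_all ?_ ?_ ?_) ?_
  · simp only [E_sub, g_0, g_1, g_2, gs_0, gs_1, gs_2, B0, B1, vec_0, vec_1, vec_2]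
    rw [abs_le]
    constructor <;> linarith
  · simp only [E_sub, g_0, g_1, g_2, gs_0, gs_1, gs_2, B0, B1, vec_0, vec_1, vec_2]
    rw [abs_le]
    constructor <;> linarith
  · simp only [E_sub, g_0, g_1, g_2, gs_0, gs_1, gs_2, B0, B1, vec_0, vec_1, vec_2]
    rw [abs_le]
    constructor <;> linarith
  · simp only [E_sub, g_0, g_1, g_2, gs_0, gs_1, gs_2, B0, B1, vec_0, vec_1, vec_2]
    rw [abs_le]
    constructor <;> linarith
  · simp only [E_sub, g_0, g_1, g_2, gs_0, gs_1, gs_2, B0, B1, vec_0, vec_1, vec_2]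
    rw [abs_le]
    constructor <;> linarith
  · simp only [E_sub, g_0, g_1, g_2, gs_0, gs_1, gs_2, B0, B1, vec_0, vec_1, vec_2]
    rw [abs_le]
    constructor <;> linarith
  · intro l m h1 h2 h3 h4
    norm_num at h1 h2 h3 h4
    simp only [vec_0, vec_1, vec_2]
    refine ⟨?_, ?_, ?_, ?_, ?_, ?_⟩ <;> (rw [abs_le]; constructor <;> linarith)

end Pool.Agent.Helper39.Net
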