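import Pool.Agent.Helper39.Net.StepB

/-! # One step of the linearised recursion -/

namespace Pool.Agent.Helper39.Net

open scoped RealInnerProductSpace

theorem st_sqrow (a b c : ℝ) (x : E) :
    (a * x 0 + b * x 1 + c * x 2) ^ 2 ≤ (a ^ 2 + b ^ 2 + c ^ 2) * ‖x‖ ^ 2 := by
  rw [normsq3]
  nlinarith [sq_nonneg (a * x 1 - b * x 0), sq_nonneg (a * x 2 - c * x 0),
    sq_nonneg (b * x 2 - c * x 1)]

theorem st_frob {a b c a' b' c' a'' b'' c'' K : ℝ} (hK : 0 ≤ K)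
    (h : a ^ 2 + b ^ 2 + c ^ 2 + (a' ^ 2 + b' ^ 2 + c' ^ 2) + (a'' ^ 2 + b'' ^ 2 + c'' ^ 2) ≤ K ^ 2)
    (x : E) :
    ‖vec (a * x 0 + b * x 1 + c * x 2) (a' * x 0 + b' * x 1 + c' * x 2)
      (a'' * x 0 + b'' * x 1 + c'' * x 2)‖ ≤ K * ‖x‖ := by
  refine le_of_sq_le_sq ?_ (by positivity)
  rw [normsq3]
  simp only [vec_0, vec_1, vec_2]
  have h0 := st_sqrow a b c x
  have h1 := st_sqrow a' b' c' x
  have h2 := st_sqrow a'' b'' c'' x
  have h3 := mul_le_mul_of_nonneg_right h (sq_nonneg ‖x‖)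
  rw [mul_pow]
  linarith

theorem st_norm_cN (d : E) : ‖d‖ ≤ cN d := by
  have h0 : 0 ≤ cN d := by
    unfold cN
    positivity
  refine le_of_sq_le_sq ?_ h0
  rw [normsq3]
  have hx : d 0 = (2 * cS d - 3 * cW d) / 13 := by
    unfold cS cW
    ring
  have hz : d 2 = (3 * cS d + 2 * cW d) / 13 := by
    unfold cS cW
    ring
  have hy : d 1 = cY d := rfl
  rw [hx, hy, hz]
  have h1 : ((2 * cS d - 3 * cW d) / 13) ^ 2 + (cY d) ^ 2 + ((3 * cS d + 2 * cW d) / 13) ^ 2 =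
      (cS d ^ 2 + cW d ^ 2) / 13 + cY d ^ 2 := by ring
  rw [h1]
  unfold cN
  have h2 := sq_abs (cS d)
  have h3 := sq_abs (cW d)
  have h4 := sq_abs (cY d)
  nlinarith [abs_nonneg (cS d), abs_nonneg (cW d), abs_nonneg (cY d),
    mul_nonneg (abs_nonneg (cS d)) (abs_nonneg (cW d)),
    mul_nonneg (abs_nonneg (cS d)) (abs_nonneg (cY d)),
    mul_nonneg (abs_nonneg (cW d)) (abs_nonneg (cY d)), sq_nonneg (cS d), sq_nonneg (cW d)]

/-- linearised balance at a single vertex -/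
theorem st_vtxS {P P' O O' U U' : E} (hP : NQ P) (hP' : NQ P') (hO : NQ O) (hO' : NQ O')
    (hU : NS U) (hU' : NS U')
    (hb : un (P - U) + un (g.symm O - U) + un (B0 - U) = 0)
    (hc : un (P' - U') + un (g.symm O' - U') + un (B0 - U') = 0)
    {p o e : E} (hp : p = P - P') (ho : o = O' - O) (he : e = U - U') :
    ∃ r : E, ‖r‖ ≤ 15 / 10 ^ 7 * (‖p‖ + ‖o‖) + 31 / 10 ^ 7 * ‖e‖ ∧
      (3491016953 / 10 ^ 9) * e 0 + (1401563952 / 10 ^ 9) * e 1 + (-736346657 / 10 ^ 9) * e 2 =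
        (627078387 / 10 ^ 9) * p 0 + (805959596 / 10 ^ 9) * p 1 + (-775167239 / 10 ^ 9) * p 2 +
          ((805959596 / 10 ^ 9) * o 0 + (-2295428487 / 10 ^ 9) * o 1 + (31330145 / 10 ^ 8) * o 2) + r 0 ∧
      (1401563952 / 10 ^ 9) * e 0 + (3491016953 / 10 ^ 9) * e 1 + (-736346657 / 10 ^ 9) * e 2 =
        (805959596 / 10 ^ 9) * p 0 + (2295428487 / 10 ^ 9) * p 1 + (31330145 / 10 ^ 8) * p 2 +
          ((627078387 / 10 ^ 9) * o 0 + (-805959596 / 10 ^ 9) * o 1 + (-775167239 / 10 ^ 9) * o 2) + r 1 ∧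
      (-736346657 / 10 ^ 9) * e 0 + (-736346657 / 10 ^ 9) * e 1 + (5060398199 / 10 ^ 9) * e 2 =
        (-775167239 / 10 ^ 9) * p 0 + (31330145 / 10 ^ 8) * p 1 + (231984386 / 10 ^ 8) * p 2 +
          ((-775167239 / 10 ^ 9) * o 0 + (-31330145 / 10 ^ 8) * o 1 + (231984386 / 10 ^ 8) * o 2) + r 2 := by
  obtain ⟨r1, n1, q10, q11, q12⟩ := st_e1 hU hP hU' hP'
  obtain ⟨r5, n5, q50, q51, q52⟩ := st_e5 hO hU hO' hU'
  obtain ⟨r6, n6, q60, q61, q62⟩ := st_e6 hU hU'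
  have m1 : ‖(U - P) - (U' - P')‖ ≤ ‖p‖ + ‖e‖ := by
    have h1 : (U - P) - (U' - P') = e - p := by
      rw [hp, he]
      abel
    rw [h1]
    linarith [norm_sub_le e p]
  have m5 : ‖(g.symm O - U) - (g.symm O' - U')‖ ≤ ‖o‖ + ‖e‖ := by
    have h1 : (g.symm O - U) - (g.symm O' - U') = -(g.symm o) - e := by
      rw [ho, he, map_sub]
      abel
    rw [h1]
    refine (norm_sub_le _ _).trans ?_
    rw [norm_neg, LinearIsometryEquiv.norm_map]
  have m6 : ‖(B0 - U) - (B0 - U')‖ ≤ ‖e‖ := by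
    have h1 : (B0 - U) - (B0 - U') = -e := by
      rw [he]
      abel
    rw [h1, norm_neg]
  have hneg : un (P - U) = -un (U - P) := by
    rw [← un_neg, neg_sub]
  have hneg' : un (P' - U') = -un (U' - P') := by
    rw [← un_neg, neg_sub]
  rw [hneg] at hb
  rw [hneg'] at hc
  have b0 := congrArg (fun v : E => v 0) hb
  have b1 := congrArg (fun v : E => v 1) hb
  have b2 := congrArg (fun v : E => v 2) hb
  have c0 := congrArg (fun v : E => v 0) hc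
  have c1 := congrArg (fun v : E => v 1) hc
  have c2 := congrArg (fun v : E => v 2) hc
  simp only [E_add, E_neg, E_zero] at b0 b1 b2 c0 c1 c2
  refine ⟨-r1 + r5 + r6, ?_, ?_, ?_, ?_⟩
  · have t1 : ‖-r1 + r5 + r6‖ ≤ ‖r1‖ + ‖r5‖ + ‖r6‖ := by
      refine (norm_add_le _ _).trans (add_le_add ((norm_add_le _ _).trans ?_) le_rfl)
      rw [norm_neg]
    linarith [norm_nonneg p, norm_nonneg o, norm_nonneg e]
  · simp only [E_add, E_neg]
    simp only [E_sub, gs_0, gs_1, gs_2] at q10 q50 q60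
    rw [hp, ho, he]
    simp only [E_sub]
    linear_combination -q10 + q50 + q60 - b0 + c0
  · simp only [E_add, E_neg]
    simp only [E_sub, gs_0, gs_1, gs_2] at q11 q51 q61
    rw [hp, ho, he]
    simp only [E_sub]
    linear_combination -q11 + q51 + q61 - b1 + c1
  · simp only [E_add, E_neg]
    simp only [E_sub, gs_0, gs_1, gs_2] at q12 q52 q62
    rw [hp, ho, he]
    simp only [E_sub]
    linear_combination -q12 + q52 + q62 - b2 + c2

theorem st_normS {p o e r : E}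
    (hr : ‖r‖ ≤ 15 / 10 ^ 7 * (‖p‖ + ‖o‖) + 31 / 10 ^ 7 * ‖e‖)
    (h0 : (3491016953 / 10 ^ 9) * e 0 + (1401563952 / 10 ^ 9) * e 1 + (-736346657 / 10 ^ 9) * e 2 =
        (627078387 / 10 ^ 9) * p 0 + (805959596 / 10 ^ 9) * p 1 + (-775167239 / 10 ^ 9) * p 2 +
          ((805959596 / 10 ^ 9) * o 0 + (-2295428487 / 10 ^ 9) * o 1 + (31330145 / 10 ^ 8) * o 2) + r 0)
    (h1 : (1401563952 / 10 ^ 9) * e 0 + (3491016953 / 10 ^ 9) * e 1 + (-736346657 / 10 ^ 9) * e 2 =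
        (805959596 / 10 ^ 9) * p 0 + (2295428487 / 10 ^ 9) * p 1 + (31330145 / 10 ^ 8) * p 2 +
          ((627078387 / 10 ^ 9) * o 0 + (-805959596 / 10 ^ 9) * o 1 + (-775167239 / 10 ^ 9) * o 2) + r 1)
    (h2 : (-736346657 / 10 ^ 9) * e 0 + (-736346657 / 10 ^ 9) * e 1 + (5060398199 / 10 ^ 9) * e 2 =
        (-775167239 / 10 ^ 9) * p 0 + (31330145 / 10 ^ 8) * p 1 + (231984386 / 10 ^ 8) * p 2 +
          ((-775167239 / 10 ^ 9) * o 0 + (-31330145 / 10 ^ 8) * o 1 + (231984386 / 10 ^ 8) * o 2) + r 2)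
    : ‖e‖ ≤ 96 / 100 * (‖p‖ + ‖o‖) ∧ ‖r‖ ≤ 45 / 10 ^ 7 * (‖p‖ + ‖o‖) := by
  set V0 : E := vec
      ((86242161984772801 / 10 ^ 18) * p 0 + (-15214538821805365 / 10 ^ 18) * p 1 + (-237674568121470943 / 10 ^ 18) * p 2)
      ((171853663588149823 / 10 ^ 18) * p 0 + (697636570933533413 / 10 ^ 18) * p 1 + (283260187599847919 / 10 ^ 18) * p 2)
      ((-115627114463632517 / 10 ^ 18) * p 0 + (161212734114133014 / 10 ^ 18) * p 1 + (465064326191740228 / 10 ^ 18) * p 2) with hV0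
  set V1 : E := vec
      ((171853663588149823 / 10 ^ 18) * o 0 + (-697636570933533413 / 10 ^ 18) * o 1 + (283260187599847919 / 10 ^ 18) * o 2)
      ((86242161984772801 / 10 ^ 18) * o 0 + (15214538821805365 / 10 ^ 18) * o 1 + (-237674568121470943 / 10 ^ 18) * o 2)
      ((-115627114463632517 / 10 ^ 18) * o 0 + (-161212734114133014 / 10 ^ 18) * o 1 + (465064326191740228 / 10 ^ 18) * o 2) with hV1
  set V2 : E := vec
      ((346173807 / 10 ^ 9) * r 0 + (-132420351 / 10 ^ 9) * r 1 + (31103608 / 10 ^ 9) * r 2)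
      ((-132420351 / 10 ^ 9) * r 0 + (346173807 / 10 ^ 9) * r 1 + (31103608 / 10 ^ 9) * r 2)
      ((31103608 / 10 ^ 9) * r 0 + (31103608 / 10 ^ 9) * r 1 + (206664779 / 10 ^ 9) * r 2) with hV2
  set V3 : E := vec
      ((677324463 / 10 ^ 18) * e 0 + (983156305 / 10 ^ 18) * e 1 + (-8421946 / 10 ^ 16) * e 2)
      ((983156305 / 10 ^ 18) * e 0 + (677324463 / 10 ^ 18) * e 1 + (-8421946 / 10 ^ 16) * e 2)
      ((-558888563 / 10 ^ 18) * e 0 + (-558888563 / 10 ^ 18) * e 1 + (-94543891 / 10 ^ 18) * e 2) with hV3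
  have n0 : ‖V0‖ ≤ 9573 / 10000 * ‖p‖ := st_frob (by norm_num) (by norm_num) p
  have n1 : ‖V1‖ ≤ 9573 / 10000 * ‖o‖ := st_frob (by norm_num) (by norm_num) o
  have n2 : ‖V2‖ ≤ 567 / 1000 * ‖r‖ := st_frob (by norm_num) (by norm_num) r
  have n3 : ‖V3‖ ≤ 1 / 10 ^ 7 * ‖e‖ := st_frob (by norm_num) (by norm_num) e
  have he : e = V0 + V1 + V2 - V3 := by
    apply ext3
    · simp only [hV0, hV1, hV2, hV3, E_add, E_sub, vec_0]
      linear_combination (346173807 / 10 ^ 9) * h0 + (-132420351 / 10 ^ 9) * h1 + (31103608 / 10 ^ 9) * h2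
    · simp only [hV0, hV1, hV2, hV3, E_add, E_sub, vec_1]
      linear_combination (-132420351 / 10 ^ 9) * h0 + (346173807 / 10 ^ 9) * h1 + (31103608 / 10 ^ 9) * h2
    · simp only [hV0, hV1, hV2, hV3, E_add, E_sub, vec_2]
      linear_combination (31103608 / 10 ^ 9) * h0 + (31103608 / 10 ^ 9) * h1 + (206664779 / 10 ^ 9) * h2
  have hen : ‖e‖ ≤ ‖V0‖ + ‖V1‖ + ‖V2‖ + ‖V3‖ := by
    calc ‖e‖ = ‖V0 + V1 + V2 - V3‖ := by rw [← he]
      _ ≤ ‖V0 + V1 + V2‖ + ‖V3‖ := norm_sub_le _ _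
      _ ≤ ‖V0 + V1‖ + ‖V2‖ + ‖V3‖ := by linarith [norm_add_le (V0 + V1) V2]
      _ ≤ ‖V0‖ + ‖V1‖ + ‖V2‖ + ‖V3‖ := by linarith [norm_add_le V0 V1]
  have hp0 := norm_nonneg p
  have ho0 := norm_nonneg o
  have he0 := norm_nonneg e
  have hr0 := norm_nonneg r
  have h9 : ‖e‖ ≤ 96 / 100 * (‖p‖ + ‖o‖) := by linarith
  exact ⟨h9, by linarith⟩

/-- linearised balance at a pair vertex -/
theorem st_vtxQ {P P' U U' V V' : E} (hP : NQ P) (hP' : NQ P') (hU : NS U) (hU' : NS U')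
    (hV : NS V) (hV' : NS V')
    (hb : un (U - P) + un (g V - P) + un (B0 - P) + un (B1 - P) = 0)
    (hc : un (U' - P') + un (g V' - P') + un (B0 - P') + un (B1 - P') = 0)
    {d e f : E} (hd : d = P - P') (he : e = U - U') (hf : f = V' - V) :
    ∃ r : E, ‖r‖ ≤ 15 / 10 ^ 7 * (‖e‖ + ‖f‖) + 32 / 10 ^ 7 * ‖d‖ ∧
      (199810283 / 10 ^ 8) * d 0 + (-2129811922 / 10 ^ 9) * d 2 =
        (627078387 / 10 ^ 9) * e 0 + (805959596 / 10 ^ 9) * e 1 + (-775167239 / 10 ^ 9) * e 2 +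
          ((805959596 / 10 ^ 9) * f 0 + (627078387 / 10 ^ 9) * f 1 + (-775167239 / 10 ^ 9) * f 2) + r 0 ∧
      (5749811862 / 10 ^ 9) * d 1 =
        (805959596 / 10 ^ 9) * e 0 + (2295428487 / 10 ^ 9) * e 1 + (31330145 / 10 ^ 8) * e 2 +
          ((-2295428487 / 10 ^ 9) * f 0 + (-805959596 / 10 ^ 9) * f 1 + (-31330145 / 10 ^ 8) * f 2) + r 1 ∧
      (-2129811922 / 10 ^ 9) * d 0 + (5383633776 / 10 ^ 9) * d 2 =
        (-775167239 / 10 ^ 9) * e 0 + (31330145 / 10 ^ 8) * e 1 + (231984386 / 10 ^ 8) * e 2 +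
          ((31330145 / 10 ^ 8) * f 0 + (-775167239 / 10 ^ 9) * f 1 + (231984386 / 10 ^ 8) * f 2) + r 2 := by
  obtain ⟨r1, n1, q10, q11, q12⟩ := st_e1 hU hP hU' hP'
  obtain ⟨r2, n2, q20, q21, q22⟩ := st_e2 hV hP hV' hP'
  obtain ⟨r3, n3, q30, q31, q32⟩ := st_e3 hP hP'
  obtain ⟨r4, n4, q40, q41, q42⟩ := st_e4 hP hP'
  have m1 : ‖(U - P) - (U' - P')‖ ≤ ‖e‖ + ‖d‖ := by
    have h1 : (U - P) - (U' - P') = e - d := by
      rw [hd, he]
      abel
    rw [h1]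
    exact norm_sub_le e d
  have m2 : ‖(g V - P) - (g V' - P')‖ ≤ ‖f‖ + ‖d‖ := by
    have h1 : (g V - P) - (g V' - P') = -(g f) - d := by
      rw [hf, hd, map_sub]
      abel
    rw [h1]
    refine (norm_sub_le _ _).trans ?_
    rw [norm_neg, LinearIsometryEquiv.norm_map]
  have m3 : ‖(B0 - P) - (B0 - P')‖ ≤ ‖d‖ := by
    have h1 : (B0 - P) - (B0 - P') = -d := by
      rw [hd]
      abel
    rw [h1, norm_neg]
  have m4 : ‖(B1 - P) - (B1 - P')‖ ≤ ‖d‖ := by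
    have h1 : (B1 - P) - (B1 - P') = -d := by
      rw [hd]
      abel
    rw [h1, norm_neg]
  have b0 := congrArg (fun v : E => v 0) hb
  have b1 := congrArg (fun v : E => v 1) hb
  have b2 := congrArg (fun v : E => v 2) hb
  have c0 := congrArg (fun v : E => v 0) hc
  have c1 := congrArg (fun v : E => v 1) hc
  have c2 := congrArg (fun v : E => v 2) hc
  simp only [E_add, E_zero] at b0 b1 b2 c0 c1 c2
  refine ⟨r1 + r2 + r3 + r4, ?_, ?_, ?_, ?_⟩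
  · have t1 : ‖r1 + r2 + r3 + r4‖ ≤ ‖r1‖ + ‖r2‖ + ‖r3‖ + ‖r4‖ := by
      refine (norm_add_le _ _).trans (add_le_add ((norm_add_le _ _).trans
        (add_le_add (norm_add_le _ _) le_rfl)) le_rfl)
    linarith [norm_nonneg d, norm_nonneg e, norm_nonneg f]
  · simp only [E_add]
    simp only [E_sub, g_0, g_1, g_2] at q10 q20 q30 q40
    rw [hd, he, hf]
    simp only [E_sub]
    linear_combination q10 + q20 + q30 + q40 - b0 + c0
  · simp only [E_add]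
    simp only [E_sub, g_0, g_1, g_2] at q11 q21 q31 q41
    rw [hd, he, hf]
    simp only [E_sub]
    linear_combination q11 + q21 + q31 + q41 - b1 + c1
  · simp only [E_add]
    simp only [E_sub, g_0, g_1, g_2] at q12 q22 q32 q42
    rw [hd, he, hf]
    simp only [E_sub]
    linear_combination q12 + q22 + q32 + q42 - b2 + c2

end Pool.Agent.Helper39.Net
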